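import Pool.Agent.PQ.NatSub

set_option autoImplicit false

/-!
PQ-FQx. Powers, binomial coefficients, factorials of unary numbers in polynomial time.

Plan: `FQ.listProd` over `(g a).map fun _ => f a`, over `List.range`; binomial coefficient
`∏_{i < k} (n - i)/(i + 1)` (zero for `k > n` as natural subtraction or as a product with a zero factor), `FQ.inv`.
-/

namespace Pool.Agent.PQ

open N487b59b3 N68a2faeb Pool.Agent.Helper22 Pool.Agent.Helper6.WB Pool.Agent.Helper6.SP

variable {α : Type} [N487b59b3 α]

private theorem choose_prod (n k : ℕ) : (n.choose k : ℚ) =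
    ((List.range k).map fun i : ℕ => ((n : ℚ) - (i : ℚ)) * ((i : ℚ) + 1)⁻¹).prod := by
  induction k with
  | zero => simp
  | succ k ih =>
    rw [List.range_succ, List.map_append, List.prod_append, ← ih]
    simp only [List.map_cons, List.map_nil, List.prod_cons, List.prod_nil, mul_one]
    have hk : ((k : ℚ) + 1) ≠ 0 := by positivity
    rw [← mul_assoc]
    rw [eq_mul_inv_iff_mul_eq₀ hk]
    rcases le_or_gt k n with h | h
    · have := Nat.choose_succ_right_eq n k
      have h2 : ((n.choose (k + 1) : ℚ)) * ((k : ℚ) + 1) = (n.choose k : ℚ) * ((n - k : ℕ) : ℚ) := by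
        exact_mod_cast this
      rw [h2, Nat.cast_sub h]
    · rw [Nat.choose_eq_zero_of_lt h, Nat.choose_eq_zero_of_lt (by omega)]
      simp

private theorem fact_prod (n : ℕ) : (n.factorial : ℚ) =
    ((List.range n).map fun i : ℕ => ((i : ℚ) + 1)).prod := by
  induction n with
  | zero => simp
  | succ k ih =>
    rw [List.range_succ, List.map_append, List.prod_append, ← ih, Nat.factorial_succ]
    simp only [List.map_cons, List.map_nil, List.prod_cons, List.prod_nil, mul_one]
    push_cast
    ring

/-- powers with a unary exponent -/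
theorem FQ.powU {f : α → ℚ} {g : α → Un} (hf : FQ f) (hg : FP g) :
    FQ fun a => f a ^ (g a).length := by
  have h1 : FQ fun p : α × List Bool => (p.2.map fun _ => f p.1).prod :=
    FQ.listProd (g := fun q : α × Bool => f q.1) (hf.comp FP.fst)
  exact (h1.comp (FP.id.pair hg)).congr fun a => by simp

/-- binomial coefficients of unary numbers -/
theorem FQ.chooseU {f g : α → Un} (hf : FP f) (hg : FP g) :
    FQ fun a => ((f a).length.choose (g a).length : ℚ) := by
  have hl : FP fun q : α × ℕ => (f q.1).length := Pool.Agent.Helper47.TR.FP.length (hf.comp FP.fst)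
  have h0 : FQ fun q : α × ℕ => (((f q.1).length : ℚ) - (q.2 : ℚ)) * ((q.2 : ℚ) + 1)⁻¹ :=
    ((FQ.ofNat hl).sub (FQ.ofNat FP.snd)).mul
      (FQ.inv ((FQ.ofNat FP.snd).add (FQ.const 1)))
  have h1 := FQ.listProd h0
  exact (h1.comp (FP.id.pair (FP.range hg))).congr fun a => by
    rw [choose_prod]

/-- factorials of unary numbers -/
theorem FQ.factU {f : α → Un} (hf : FP f) : FQ fun a => ((f a).length.factorial : ℚ) := by
  have h0 : FQ fun q : α × ℕ => ((q.2 : ℚ) + 1) := (FQ.ofNat FP.snd).add (FQ.const 1)
  have h1 := FQ.listProd h0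
  exact (h1.comp (FP.id.pair (FP.range hf))).congr fun a => by
    rw [fact_prod]

end Pool.Agent.PQ
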