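import Pool.Agent.PQ.Defs

set_option autoImplicit false

/-!
PQ-NatSub. Natural subtraction, absolute value, inverses of rational numbers in polynomial time.

Plan: binary subtraction on the bit strings `encodeNat` (least significant bit first, see
`Helper6/WB/Arith.lean`: `val`, `addStep`, `FP.addStep'`, `FP.natAdd`) with a borrow bit, in the style of
`addStep` / `Helper47/TR/FPx.lean: leStep`; or: `x - y = val` of the low `k` bits of
`x + (complement of y on k bits) + 1`. Then `(p - n)/d` has inverse `d/(p - n)`: the element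
`((d, 0), p - n)` if `n < p`, `((0, d), n - p)` if `p < n`, `((0, 0), 1)` if `p = n`.
-/

namespace Pool.Agent.PQ

open N487b59b3 N68a2faeb Pool.Agent.Helper22 Pool.Agent.Helper6.WB Pool.Agent.Helper6.SP Computability

variable {α : Type} [N487b59b3 α]

/-- one step of the subtraction: borrow bit, rests, digits of the result -/
private def subStep (s : AddSt) : AddSt :=
  ((!s.2.1.headD false && s.2.2.1.headD false) || (!s.2.1.headD false && s.1) ||
      (s.2.2.1.headD false && s.1),
    (s.2.1.tail, (s.2.2.1.tail,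
      ((s.1 == (s.2.1.headD false == s.2.2.1.headD false)) :: s.2.2.2))))

private theorem val_head_tail (x : List Bool) : val x = (x.headD false).toNat + 2 * val x.tail := by
  cases x with
  | nil => rfl
  | cons b x => simp [Nat.bit_val]; ring

private theorem subStep_inv (s : AddSt) :
    (hor 0 (subStep s).2.2.2 : ℤ) + 2 ^ (subStep s).2.2.2.length *
      ((val (subStep s).2.1 : ℤ) - val (subStep s).2.2.1 - ((subStep s).1.toNat : ℤ)) =
    (hor 0 s.2.2.2 : ℤ) + 2 ^ s.2.2.2.length *
      ((val s.2.1 : ℤ) - val s.2.2.1 - (s.1.toNat : ℤ)) := by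
  obtain ⟨c, x, y, o⟩ := s
  simp only [subStep]
  rw [val_head_tail x, val_head_tail y, hor_cons, List.length_cons, pow_succ]
  generalize x.headD false = p
  generalize y.headD false = q
  cases c <;> cases p <;> cases q <;> simp <;> ring

private theorem subStep_iter (n : ℕ) (s : AddSt) :
    (hor 0 (subStep^[n] s).2.2.2 : ℤ) + 2 ^ (subStep^[n] s).2.2.2.length *
      ((val (subStep^[n] s).2.1 : ℤ) - val (subStep^[n] s).2.2.1 -
        ((subStep^[n] s).1.toNat : ℤ)) =
    (hor 0 s.2.2.2 : ℤ) + 2 ^ s.2.2.2.length *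
      ((val s.2.1 : ℤ) - val s.2.2.1 - (s.1.toNat : ℤ)) := by
  induction n with
  | zero => rfl
  | succ n ih => rw [Function.iterate_succ_apply', subStep_inv, ih]

private theorem subStep_iter' (n : ℕ) (s : AddSt) :
    (subStep^[n] s).2.1 = s.2.1.drop n ∧ (subStep^[n] s).2.2.1 = s.2.2.1.drop n ∧
      (subStep^[n] s).2.2.2.length = n + s.2.2.2.length := by
  induction n with
  | zero => exact ⟨rfl, rfl, by simp⟩
  | succ n ih =>
    obtain ⟨h1, h2, h3⟩ := ih
    rw [Function.iterate_succ_apply']
    refine ⟨?_, ?_, ?_⟩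
    · simp only [subStep]
      rw [h1, List.tail_drop]
    · simp only [subStep]
      rw [h2, List.tail_drop]
    · simp only [subStep, List.length_cons]
      omega

private theorem subStep_final (x y : List Bool) (n : ℕ) (hx : x.length ≤ n) (hy : y.length ≤ n)
    (hxy : val y ≤ val x) :
    hor 0 (subStep^[n] (false, (x, (y, [])))).2.2.2 = val x - val y := by
  have h1 := subStep_iter n (false, (x, (y, [])))
  obtain ⟨h2, h3, h4⟩ := subStep_iter' n (false, (x, (y, [])))
  simp only [List.length_nil, add_zero] at h4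
  have h5 : (subStep^[n] (false, (x, (y, [])))).2.1 = [] := by
    rw [h2]; exact List.drop_eq_nil_of_le hx
  have h6 : (subStep^[n] (false, (x, (y, [])))).2.2.1 = [] := by
    rw [h3]; exact List.drop_eq_nil_of_le hy
  have h7 := hor_lt (subStep^[n] (false, (x, (y, [])))).2.2.2
  rw [h4] at h7
  rw [h5, h6, h4] at h1
  have h9 : hor 0 ([] : List Bool) = 0 := rfl
  simp only [val_nil, h9, List.length_nil, pow_zero, one_mul, Bool.toNat_false] at h1
  have h7' : (hor 0 (subStep^[n] (false, (x, (y, [])))).2.2.2 : ℤ) < 2 ^ n := by exact_mod_cast h7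
  have hxy' : (val y : ℤ) ≤ val x := by exact_mod_cast hxy
  cases hb : (subStep^[n] (false, (x, (y, [])))).1 with
  | true =>
    rw [hb] at h1
    simp only [Bool.toNat_true] at h1
    push_cast at h1
    linarith
  | false =>
    rw [hb] at h1
    simp only [Bool.toNat_false] at h1
    push_cast at h1
    have h8 : (hor 0 (subStep^[n] (false, (x, (y, [])))).2.2.2 : ℤ) = val x - val y := by linarith
    omega

private theorem fp_subStep : FP subStep := by
  unfold subStep
  fun_prop

private theorem fp_natSub_aux {f g : α → ℕ} (hf : FP f) (hg : FP g) :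
    FP fun a => hor 0 (subStep^[(encodeNat (f a) ++ encodeNat (g a)).length]
      (false, (encodeNat (f a), (encodeNat (g a), [])))).2.2.2 := by
  have h1 : FP fun p : List Bool × AddSt => subStep^[p.1.length] p.2 := by
    refine FP.iterate fp_subStep (B := fun n => 10 * n + 20) (by fun_prop) ?_
    intro l a i hi
    obtain ⟨h2, h3, h4⟩ := subStep_iter' i a
    have h5 := sz_drop a.2.1 i
    have h6 := sz_drop a.2.2.1 i
    obtain ⟨c, x, y, o⟩ := a
    rcases hq : subStep^[i] (c, x, y, o) with ⟨c', x', y', o'⟩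
    rw [hq] at h2 h3 h4
    simp only at h2 h3 h4 h5 h6
    rw [← h2] at h5
    rw [← h3] at h6
    have h7 := length_le_sz l
    simp only [sz_pair, sz_bool, sz_bits] at *
    omega
  have h2 : FP fun a => (encodeNat (f a) ++ encodeNat (g a)) := ((FP.bits hf).append (FP.bits hg))
  have h3 := h1.comp (h2.pair (FP.pair (FP.const false) (FP.pair (FP.bits hf)
    (FP.pair (FP.bits hg) (FP.const ([] : List Bool))))))
  exact FP.canon h3.snd'.snd'.snd'

theorem fp_natSub {f g : α → ℕ} (hf : FP f) (hg : FP g) : FP fun a => f a - g a := by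
  have h1 := FP.ite (Pool.Agent.Helper47.TR.FP.natLe hf hg) (FP.const (α := α) 0)
    (fp_natSub_aux hf hg)
  refine (congrArg FP (funext fun a => ?_)).mp h1
  by_cases h : f a ≤ g a
  · rw [if_pos (by simpa using h)]
    omega
  · rw [if_neg (by simpa using h), subStep_final _ _ _ (by simp) (by simp)
      (by rw [val_encodeNat, val_encodeNat]; omega), val_encodeNat, val_encodeNat]

theorem FQ.inv {f : α → ℚ} (hf : FQ f) : FQ fun a => (f a)⁻¹ := by
  obtain ⟨F, h1, h2, h3⟩ := hf
  have hd : FP fun a => (F a).2 := by fun_prop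
  have hp : FP fun a => (F a).1.1 := by fun_prop
  have hn : FP fun a => (F a).1.2 := by fun_prop
  have hle1 : FP fun a => decide ((F a).1.1 ≤ (F a).1.2) := Pool.Agent.Helper47.TR.FP.natLe hp hn
  have hle2 : FP fun a => decide ((F a).1.2 ≤ (F a).1.1) := Pool.Agent.Helper47.TR.FP.natLe hn hp
  have hs1 : FP fun a => (F a).1.1 - (F a).1.2 := fp_natSub hp hn
  have hs2 : FP fun a => (F a).1.2 - (F a).1.1 := fp_natSub hn hp
  refine ⟨fun a => if decide ((F a).1.1 ≤ (F a).1.2) then
      (if decide ((F a).1.2 ≤ (F a).1.1) then ((0, 0), 1) else ((0, (F a).2), (F a).1.2 - (F a).1.1))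
      else (((F a).2, 0), (F a).1.1 - (F a).1.2), ?_, ?_, ?_⟩
  · exact FP.ite hle1 (FP.ite hle2 (FP.const _) (((FP.const 0).pair hd).pair hs2))
      ((hd.pair (FP.const 0)).pair hs1)
  · intro a
    dsimp only
    split_ifs with h h'
    · simp
    · have e1 : (F a).1.1 < (F a).1.2 := by simpa using h'
      show (F a).1.2 - (F a).1.1 ≠ 0
      omega
    · have e1 : (F a).1.2 < (F a).1.1 := by simpa using h
      show (F a).1.1 - (F a).1.2 ≠ 0
      omega
  · intro a
    dsimp only
    rw [← h3 a]
    have h2a := h2 a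
    split_ifs with h h'
    · have e : (F a).1.1 = (F a).1.2 := le_antisymm (by simpa using h) (by simpa using h')
      simp [toQ, e]
    · have e1 : (F a).1.1 < (F a).1.2 := by simpa using h'
      have e2 : ((F a).1.1 : ℚ) < (F a).1.2 := by exact_mod_cast e1
      have e3 : ((F a).1.2 : ℚ) - (F a).1.1 ≠ 0 := by linarith
      have e4 : ((F a).1.1 : ℚ) - (F a).1.2 ≠ 0 := by linarith
      simp only [toQ]
      rw [Nat.cast_sub e1.le, inv_div, div_eq_div_iff e3 e4]
      push_cast
      ring
    · have e1 : (F a).1.2 < (F a).1.1 := by simpa using h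
      simp only [toQ]
      rw [Nat.cast_sub e1.le, inv_div]
      simp

end Pool.Agent.PQ
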