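import Pool.Agent.PQ.QFp
import Pool.Agent.PQ.FQx

set_option autoImplicit false

/-!
PQ-Clear. Tabulation of a matrix whose entries are computed in polynomial time, common denominator.

Plan: from `FQ h` get `H : α × (ℕ × ℕ) → El`; rows `(range n).map fun i => (range n).map fun j => H (a, (i, j))`
(`FP.range`, `fp_map`); common denominator `d` = product of all denominators; the entry with numerator `(p, q)` and
denominator `d'` becomes `(p * c, q * c)` with `c = d / d'` written as the product of the other denominators
(over the `zipIdx` of the flattened list), or: first write all entries with denominator `d * d'`: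
multiply `(p, q)` by `∏_{all (i',j')} (if (i',j') = (i,j) then 1 else d_{i'j'})`. The product of a list of natural
numbers is a fold (`Nat.size` of a product is at most the sum of the sizes).
-/

namespace Pool.Agent.PQ

open MvPolynomial N487b59b3 N68a2faeb Pool.Agent.Helper22 Pool.Agent.Helper6.WB
  Pool.Agent.Helper6.SP

variable {α : Type} [N487b59b3 α]

private theorem clr_size_foldl (l : List ℕ) (v : ℕ) :
    Nat.size (l.foldl (fun s b => s * b) v) ≤ Nat.size v + sz l := by
  induction l generalizing v with
  | nil => simp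
  | cons b l ih =>
    rw [List.foldl_cons]
    have h1 := ih (v * b)
    have h2 := Pool.Agent.Helper47.TR.size_mul_le v b
    have h3 := sz_nat b
    simp only [sz_cons]
    omega

private theorem clr_foldl_mul (l : List ℕ) (v : ℕ) :
    l.foldl (fun s b => s * b) v = v * l.prod := by
  induction l generalizing v with
  | nil => simp
  | cons b l ih => rw [List.foldl_cons, ih, List.prod_cons, mul_assoc]

theorem fp_natProd {f : α → List ℕ} (hf : FP f) : FP fun a => (f a).prod := by
  have h1 : FP fun p : List ℕ × ℕ => p.1.foldl (fun s b => s * b) p.2 := by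
    refine FP.foldl (g := fun (s : ℕ) (b : ℕ) => s * b) (FP.natMul FP.fst FP.snd)
      (B := fun n => n) (by fun_prop) ?_
    intro l a
    rw [sz_nat, sz_nat]
    have := clr_size_foldl l a
    omega
  have h2 := h1.comp (hf.pair (FP.const 1))
  refine (congrArg FP (funext fun a => ?_)).mp h2
  show (f a).foldl (fun s b => s * b) 1 = (f a).prod
  rw [clr_foldl_mul, one_mul]

private theorem clr_prod {β : Type} [DecidableEq β] (l : List β) (g : β → ℕ) (p : β)
    (hl : l.Nodup) (hp : p ∈ l) :
    (l.map fun q => if q = p then 1 else g q).prod * g p = (l.map g).prod := by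
  induction l with
  | nil => exact absurd hp List.not_mem_nil
  | cons b l ih =>
    rw [List.nodup_cons] at hl
    rw [List.map_cons, List.map_cons, List.prod_cons, List.prod_cons]
    by_cases hb : b = p
    · have h1 : (l.map fun q => if q = p then 1 else g q) = l.map g := by
        apply List.map_congr_left
        intro q hq
        rw [if_neg]
        rintro rfl
        exact hl.1 (hb ▸ hq)
      rw [h1, if_pos hb, one_mul, hb, mul_comm]
    · rw [if_neg hb, mul_assoc, ih hl.2]
      rcases List.mem_cons.mp hp with h | h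
      · exact absurd h.symm hb
      · exact h

private theorem clr_getD {β : Type} (f : ℕ → β) {n i : ℕ} {d : β} (hi : i < n) :
    ((List.range n).map f).getD i d = f i := by
  rw [List.getD_eq_getElem _ _ (by rw [List.length_map, List.length_range]; exact hi),
    List.getElem_map, List.getElem_range]

/-- all pairs of indices -/
private def clrPairs (l : List ℕ) : List (ℕ × ℕ) := l.flatMap fun i => l.map fun j => (i, j)

private theorem clr_mem {l : List ℕ} {i j : ℕ} (hi : i ∈ l) (hj : j ∈ l) :
    (i, j) ∈ clrPairs l := by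
  unfold clrPairs
  rw [List.mem_flatMap]
  exact ⟨i, hi, List.mem_map.mpr ⟨j, hj, rfl⟩⟩

private theorem clr_nodup {l : List ℕ} (hl : l.Nodup) : (clrPairs l).Nodup := by
  have h1 := List.Nodup.product hl hl
  exact h1

private theorem clr_fp_pairs {f : α → List ℕ} (hf : FP f) : FP fun a => clrPairs (f a) := by
  have h1 : FP fun p : α × ℕ => (f p.1).map fun j => (p.2, j) :=
    fp_map (f := fun p : α × ℕ => f p.1) (h := fun q : (α × ℕ) × ℕ => (q.1.2, q.2))
      (hf.comp FP.fst) (FP.pair (FP.snd.comp FP.fst) FP.snd)
  exact fp_flatMap (f := f) (h := fun p : α × ℕ => (f p.1).map fun j => (p.2, j)) hf h1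

theorem exists_tab {n : α → Un} {h : α × (ℕ × ℕ) → ℚ} (hn : FP n) (hh : FQ h) :
    ∃ F : α → QM, FP F ∧ ∀ a, (F a).2 ≠ 0 ∧ (F a).1.length = (n a).length ∧
      (∀ r ∈ (F a).1, r.length = (n a).length) ∧
      ∀ i < (n a).length, ∀ j < (n a).length, eq (F a) i j = h (a, (i, j)) := by
  obtain ⟨H, hH, hH0, hHq⟩ := hh
  have hN : FP fun a => List.range (n a).length := FP.range hn
  have hP : FP fun a => clrPairs (List.range (n a).length) := clr_fp_pairs hN
  have hD : FP fun a => ((clrPairs (List.range (n a).length)).map fun q => (H (a, q)).2).prod :=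
    fp_natProd (fp_map (h := fun p : α × (ℕ × ℕ) => (H p).2) hP (FP.snd.comp hH))
  have hc : FP fun r : α × (ℕ × ℕ) => ((clrPairs (List.range (n r.1).length)).map fun q =>
      if decide (q.1 = r.2.1) && decide (q.2 = r.2.2) then 1 else (H (r.1, q)).2).prod := by
    refine fp_natProd (fp_map (f := fun r : α × (ℕ × ℕ) => clrPairs (List.range (n r.1).length))
      (h := fun s : (α × (ℕ × ℕ)) × (ℕ × ℕ) =>
        if decide (s.2.1 = s.1.2.1) && decide (s.2.2 = s.1.2.2) then 1 else (H (s.1.1, s.2)).2)
      (hP.comp FP.fst) ?_)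
    refine FP.ite (FP.and (FP.natEq ?_ ?_) (FP.natEq ?_ ?_)) (FP.const 1) ?_
    · exact FP.fst.comp FP.snd
    · exact FP.fst.comp (FP.snd.comp FP.fst)
    · exact FP.snd.comp FP.snd
    · exact FP.snd.comp (FP.snd.comp FP.fst)
    · exact FP.snd.comp (hH.comp (FP.pair (FP.fst.comp FP.fst) FP.snd))
  generalize hcd : (fun r : α × (ℕ × ℕ) => ((clrPairs (List.range (n r.1).length)).map fun q =>
      if decide (q.1 = r.2.1) && decide (q.2 = r.2.2) then 1 else (H (r.1, q)).2).prod) = c at hc
  have hcs : ∀ a i j, i < (n a).length → j < (n a).length →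
      c (a, (i, j)) * (H (a, (i, j))).2 =
        ((clrPairs (List.range (n a).length)).map fun q => (H (a, q)).2).prod := by
    intro a i j hi hj
    rw [← clr_prod (clrPairs (List.range (n a).length)) (fun q => (H (a, q)).2) (i, j)
      (clr_nodup List.nodup_range) (clr_mem (List.mem_range.mpr hi) (List.mem_range.mpr hj)),
      ← hcd]
    congr 1
    show List.prod _ = List.prod _
    congr 1
    apply List.map_congr_left
    rintro ⟨x, y⟩ _
    by_cases hx : x = i <;> by_cases hy : y = j <;> simp [hx, hy]
  have hM : FP fun a => (List.range (n a).length).map fun i => (List.range (n a).length).map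
      fun j => (((H (a, (i, j))).1.1 * c (a, (i, j)), (H (a, (i, j))).1.2 * c (a, (i, j))) : ZZ) := by
    refine fp_map (h := fun p : α × ℕ => (List.range (n p.1).length).map
      fun j => (((H (p.1, (p.2, j))).1.1 * c (p.1, (p.2, j)),
        (H (p.1, (p.2, j))).1.2 * c (p.1, (p.2, j))) : ZZ)) hN ?_
    refine fp_map (f := fun p : α × ℕ => List.range (n p.1).length)
      (h := fun s : (α × ℕ) × ℕ => (((H (s.1.1, (s.1.2, s.2))).1.1 * c (s.1.1, (s.1.2, s.2)),
        (H (s.1.1, (s.1.2, s.2))).1.2 * c (s.1.1, (s.1.2, s.2))) : ZZ)) (hN.comp FP.fst) ?_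
    have h1 : FP fun s : (α × ℕ) × ℕ => (s.1.1, (s.1.2, s.2)) :=
      FP.pair (FP.fst.comp FP.fst) (FP.pair (FP.snd.comp FP.fst) FP.snd)
    have h2 := hH.comp h1
    have h3 := hc.comp h1
    exact FP.pair (FP.natMul (FP.fst.comp (FP.fst.comp h2)) h3)
      (FP.natMul (FP.snd.comp (FP.fst.comp h2)) h3)
  refine ⟨fun a => ((List.range (n a).length).map fun i => (List.range (n a).length).map
      fun j => (((H (a, (i, j))).1.1 * c (a, (i, j)), (H (a, (i, j))).1.2 * c (a, (i, j))) : ZZ),
      ((clrPairs (List.range (n a).length)).map fun q => (H (a, q)).2).prod),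
    FP.pair hM hD, fun a => ?_⟩
  have hD0 : ((clrPairs (List.range (n a).length)).map fun q => (H (a, q)).2).prod ≠ 0 := by
    intro h0
    rw [List.prod_eq_zero_iff] at h0
    obtain ⟨q, _, hq⟩ := List.mem_map.mp h0
    exact hH0 _ hq
  refine ⟨hD0, ?_, ?_, ?_⟩
  · show ((List.range (n a).length).map _).length = _
    rw [List.length_map, List.length_range]
  · intro r hr
    obtain ⟨i, _, rfl⟩ := List.mem_map.mp hr
    rw [List.length_map, List.length_range]
  · intro i hi j hj
    have h1 := hcs a i j hi hj
    unfold eq ent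
    simp only
    rw [clr_getD _ hi, clr_getD _ hj, ← hHq, ← h1]
    have h2 : ((H (a, (i, j))).2 : ℚ) ≠ 0 := Nat.cast_ne_zero.mpr (hH0 _)
    have h3 : (c (a, (i, j)) : ℚ) ≠ 0 := by
      intro h
      rw [Nat.cast_eq_zero] at h
      rw [h, zero_mul] at h1
      exact hD0 h1.symm
    unfold zq toQ
    push_cast
    field_simp

/-- quadratic polynomials with entries computed in polynomial time -/
theorem FM.ofEntries {n : α → Un} {h : α × (ℕ × ℕ) → ℚ} {P : α → Prop} (hn : FP n) (hh : FQ h)
    (hs : ∀ a, P a → ∀ i j, h (a, (i, j)) = h (a, (j, i))) :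
    FM n P fun a => dh (qf (n a).length fun i j => h (a, (i, j))) := by
  obtain ⟨F, hF, hF'⟩ := exists_tab hn hh
  refine ⟨F, hF, fun a ha => ?_⟩
  obtain ⟨h0, h1, h2, h3⟩ := hF' a
  have h0' : ((F a).2 : ℚ) ≠ 0 := Nat.cast_ne_zero.mpr h0
  have hz1 : ∀ i j, (n a).length ≤ i → ent (F a).1 i j = 0 := by
    intro i j hi
    unfold ent
    rw [List.getD_eq_default (F a).1 _ (by rw [h1]; exact hi)]
    simp [zq]
  have hz2 : ∀ i j, (n a).length ≤ j → ent (F a).1 i j = 0 := by
    intro i j hj
    by_cases hi : i < (n a).length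
    · unfold ent
      have hi' : i < (F a).1.length := by rw [h1]; exact hi
      rw [List.getD_eq_getElem (F a).1 _ hi', List.getD_eq_default _ _ (by
        rw [h2 _ (List.getElem_mem hi')]; exact hj)]
      simp [zq]
    · exact hz1 i j (not_lt.mp hi)
  refine ⟨h0, ⟨h1, h2, fun i j => ?_⟩, ?_⟩
  · by_cases hi : i < (n a).length
    · by_cases hj : j < (n a).length
      · have h4 := h3 i hi j hj
        have h5 := h3 j hj i hi
        rw [← hs a ha i j, ← h4] at h5
        unfold eq at h5
        exact ((div_left_inj' h0').mp h5).symm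
      · rw [hz2 i j (not_lt.mp hj), hz1 j i (not_lt.mp hj)]
    · rw [hz1 i j (not_lt.mp hi), hz2 j i (not_lt.mp hi)]
  · congr 1
    unfold qm qf
    refine Finset.sum_congr rfl fun i hi => Finset.sum_congr rfl fun j hj => ?_
    show C (ent (F a).1 i j / (F a).2) * (X i * X j) = C (h (a, (i, j))) * (X i * X j)
    rw [← h3 i (Finset.mem_range.mp hi) j (Finset.mem_range.mp hj)]
    rfl

end Pool.Agent.PQ
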