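import Pool.Agent.PQ.QFp
import Pool.Agent.PQ.FQx

set_option autoImplicit false

/-!
PQ-FTc. Closure properties of the class `FT`.

Plan: `add`: append the lists, append the unary bounds. `mul`: all products of terms (`fp_flatMap`, `fp_map`;
coefficients by `fp_elMul`, factors appended). `smul`: multiply the coefficients by an element given by `FQ`.
`listSum`: flatMap; the bound `D` is the flatMap of the bounds. `FM.powU`: the list with one term
`(1, [(F a, e a)])`. `det`: the Leibniz formula, finite sums and products of closures (`m` is fixed).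
-/

namespace Pool.Agent.PQ

open MvPolynomial N487b59b3 N68a2faeb Pool.Agent.Helper22 Pool.Agent.Helper6.WB
  Pool.Agent.Helper6.SP

variable {α β : Type} [N487b59b3 α] [N487b59b3 β] {R R' : ℕ} {n : α → Un} {P : α → Prop}
  {f g : α → MvPolynomial ℕ ℚ}

private theorem ftc_dv_append (k : ℕ) (F G : List Tm) : dv k (F ++ G) = dv k F + dv k G := by
  unfold dv
  rw [List.map_append, List.sum_append, map_add]

private theorem ftc_tv_mul (k : ℕ) (t u : Tm) :
    tv k (elMul t.1 u.1, t.2 ++ u.2) = tv k t * tv k u := by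
  unfold tv
  simp only [toQ_mul, List.map_append, List.prod_append, map_mul]
  ring

private theorem ftc_dv_mul (k : ℕ) (F G : List Tm) :
    dv k (F.flatMap fun t => G.map fun u => (elMul t.1 u.1, t.2 ++ u.2)) = dv k F * dv k G := by
  unfold dv
  rw [← map_mul]
  congr 1
  induction F with
  | nil => simp
  | cons t F ih =>
    rw [List.flatMap_cons, List.map_append, List.sum_append, ih, List.map_cons, List.sum_cons,
      add_mul]
    congr 1
    rw [List.map_map]
    have : ((tv k) ∘ fun u : Tm => ((elMul t.1 u.1, t.2 ++ u.2) : Tm)) =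
        fun u => tv k t * tv k u := by
      funext u
      exact ftc_tv_mul k t u
    rw [this, List.sum_map_mul_left]

private theorem ftc_tdeg_append (t u : List (QM × Un)) (x : El) :
    tdeg (x, t ++ u) = tdeg (x, t) + tdeg (x, u) := by
  unfold tdeg
  simp

theorem FT.congr (hf : FT R n P f) (h : ∀ a, P a → g a = f a) : FT R n P g := by
  obtain ⟨F, D, h1, h2, h3⟩ := hf
  exact ⟨F, D, h1, h2, fun a ha => ⟨(h3 a ha).1, (h3 a ha).2.trans (h a ha).symm⟩⟩

theorem FT.imp {Q : α → Prop} (hf : FT R n P f) (h : ∀ a, Q a → P a) : FT R n Q f := by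
  obtain ⟨F, D, h1, h2, h3⟩ := hf
  exact ⟨F, D, h1, h2, fun a ha => h3 a (h a ha)⟩

theorem FT.mono (hf : FT R n P f) (h : R ≤ R') : FT R' n P f := by
  obtain ⟨F, D, h1, h2, h3⟩ := hf
  refine ⟨F, D, h1, h2, fun a ha => ⟨fun t ht => ?_, (h3 a ha).2⟩⟩
  obtain ⟨k1, k2, k3, k4⟩ := (h3 a ha).1 t ht
  exact ⟨k1, k2.trans h, k3, k4⟩

theorem FT.comp {h : β → α} (hf : FT R n P f) (hh : FP h) :
    FT R (fun b => n (h b)) (fun b => P (h b)) (fun b => f (h b)) := by
  obtain ⟨F, D, h1, h2, h3⟩ := hf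
  exact ⟨fun b => F (h b), fun b => D (h b), h1.comp hh, h2.comp hh, fun b hb => h3 (h b) hb⟩

theorem FT.zero : FT R n P fun _ => 0 := by
  refine ⟨fun _ => [], fun _ => [], FP.const _, FP.const _, fun a _ => ⟨?_, ?_⟩⟩
  · intro t ht
    simp at ht
  · unfold dv
    simp

theorem FT.const {c : α → ℚ} (hc : FQ c) : FT R n P fun a => C (c a) := by
  obtain ⟨G, h1, h2, h3⟩ := hc
  refine ⟨fun a => [(G a, [])], fun _ => [], FP.cons (h1.pair (FP.const _)) (FP.const _),
    FP.const _, fun a _ => ⟨?_, ?_⟩⟩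
  · intro t ht
    rw [List.mem_singleton] at ht
    subst ht
    refine ⟨h2 a, by simp, by simp [tdeg], ?_⟩
    intro p hp
    simp at hp
  · unfold dv tv
    simp only [List.map_cons, List.map_nil, List.sum_cons, List.sum_nil, List.prod_nil, mul_one,
      add_zero, h3]
    exact dh.commutes (c a)

theorem FT.one : FT R n P fun _ => 1 := by
  exact (FT.const (FQ.const 1)).congr fun a _ => by simp

theorem FT.add (hf : FT R n P f) (hg : FT R n P g) : FT R n P fun a => f a + g a := by
  obtain ⟨F, D, h1, h2, h3⟩ := hf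
  obtain ⟨G, E, k1, k2, k3⟩ := hg
  refine ⟨fun a => F a ++ G a, fun a => D a ++ E a, FP.append h1 k1, FP.append h2 k2,
    fun a ha => ⟨?_, ?_⟩⟩
  · intro t ht
    rw [List.length_append]
    rcases List.mem_append.1 ht with ht | ht
    · obtain ⟨a1, a2, a3, a4⟩ := (h3 a ha).1 t ht
      exact ⟨a1, a2, a3.trans (Nat.le_add_right _ _), a4⟩
    · obtain ⟨a1, a2, a3, a4⟩ := (k3 a ha).1 t ht
      exact ⟨a1, a2, a3.trans (Nat.le_add_left _ _), a4⟩
  · rw [ftc_dv_append, (h3 a ha).2, (k3 a ha).2]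

theorem FT.mul (hf : FT R n P f) (hg : FT R' n P g) : FT (R + R') n P fun a => f a * g a := by
  obtain ⟨F, D, h1, h2, h3⟩ := hf
  obtain ⟨G, E, k1, k2, k3⟩ := hg
  refine ⟨fun a => (F a).flatMap fun t => (G a).map fun u => (elMul t.1 u.1, t.2 ++ u.2),
    fun a => D a ++ E a, ?_, FP.append h2 k2, fun a ha => ⟨?_, ?_⟩⟩
  · have e1 : FP fun p : (α × Tm) × Tm => ((elMul p.1.2.1 p.2.1, p.1.2.2 ++ p.2.2) : Tm) := by
      refine FP.pair (fp_elMul ?_ ?_) (FP.append ?_ ?_)
      · exact FP.fst.comp (FP.snd.comp FP.fst)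
      · exact FP.fst.comp FP.snd
      · exact FP.snd.comp (FP.snd.comp FP.fst)
      · exact FP.snd.comp FP.snd
    have e2 : FP fun q : α × Tm => (G q.1).map fun u =>
        ((elMul q.2.1 u.1, q.2.2 ++ u.2) : Tm) :=
      fp_map (f := fun q : α × Tm => G q.1)
        (h := fun p : (α × Tm) × Tm => ((elMul p.1.2.1 p.2.1, p.1.2.2 ++ p.2.2) : Tm))
        (k1.comp FP.fst) e1
    exact fp_flatMap (f := F) (h := fun q : α × Tm => (G q.1).map fun u =>
        ((elMul q.2.1 u.1, q.2.2 ++ u.2) : Tm)) h1 e2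
  · intro t ht
    rw [List.mem_flatMap] at ht
    obtain ⟨t1, ht1, ht2⟩ := ht
    rw [List.mem_map] at ht2
    obtain ⟨u, hu, rfl⟩ := ht2
    obtain ⟨a1, a2, a3, a4⟩ := (h3 a ha).1 t1 ht1
    obtain ⟨b1, b2, b3, b4⟩ := (k3 a ha).1 u hu
    refine ⟨mul_ne_zero a1 b1, ?_, ?_, ?_⟩
    · rw [List.length_append]
      omega
    · rw [ftc_tdeg_append, List.length_append]
      exact Nat.add_le_add a3 b3
    · intro p hp
      rcases List.mem_append.1 hp with hp | hp
      · exact a4 p hp
      · exact b4 p hp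
  · rw [ftc_dv_mul, (h3 a ha).2, (k3 a ha).2]

theorem FT.smul {c : α → ℚ} (hc : FQ c) (hf : FT R n P f) :
    FT R n P fun a => C (c a) * f a := by
  have h := (FT.const (R := 0) (n := n) (P := P) hc).mul hf
  rwa [Nat.zero_add] at h

/-- sums over lists -/
theorem FT.listSum [Inhabited β] {l : α → List β} {P' : α × β → Prop}
    {h : α × β → MvPolynomial ℕ ℚ} (hl : FP l) (hh : FT R (fun p : α × β => n p.1) P' h)
    (hP : ∀ a, P a → ∀ b ∈ l a, P' (a, b)) :
    FT R n P fun a => ((l a).map fun b => h (a, b)).sum := by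
  obtain ⟨F, D, h1, h2, h3⟩ := hh
  refine ⟨fun a => (l a).flatMap fun b => F (a, b), fun a => (l a).flatMap fun b => D (a, b),
    fp_flatMap hl h1, fp_flatMap hl h2, fun a ha => ⟨?_, ?_⟩⟩
  · intro t ht
    rw [List.mem_flatMap] at ht
    obtain ⟨b, hb, ht⟩ := ht
    obtain ⟨a1, a2, a3, a4⟩ := (h3 (a, b) (hP a ha b hb)).1 t ht
    refine ⟨a1, a2, a3.trans ?_, a4⟩
    rw [List.length_flatMap]
    exact List.single_le_sum (fun _ _ => Nat.zero_le _) _ (List.mem_map.2 ⟨b, hb, rfl⟩)
  · have key : ∀ L : List β, (∀ b ∈ L, P' (a, b)) →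
        dv (n a).length (L.flatMap fun b => F (a, b)) = (L.map fun b => h (a, b)).sum := by
      intro L
      induction L with
      | nil =>
        intro _
        unfold dv
        simp
      | cons b L ih =>
        intro hL
        rw [List.flatMap_cons, ftc_dv_append, ih fun c hc => hL c (List.mem_cons_of_mem _ hc),
          List.map_cons, List.sum_cons, (h3 (a, b) (hL b List.mem_cons_self)).2]
    exact key (l a) (hP a ha)

theorem FT.sum {ι : Type} (s : Finset ι) {h : ι → α → MvPolynomial ℕ ℚ}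
    (hh : ∀ i, FT R n P (h i)) : FT R n P fun a => ∑ i ∈ s, h i a := by
  classical
  induction s using Finset.induction_on with
  | empty => exact FT.zero.congr fun a _ => by simp
  | insert i s hi ih => exact ((hh i).add ih).congr fun a _ => by rw [Finset.sum_insert hi]

theorem FT.prod {ι : Type} (s : Finset ι) {h : ι → α → MvPolynomial ℕ ℚ}
    (hh : ∀ i, FT R n P (h i)) : FT (s.card * R) n P fun a => ∏ i ∈ s, h i a := by
  classical
  induction s using Finset.induction_on with
  | empty => exact FT.one.congr fun a _ => by simp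
  | insert i s hi ih =>
    rw [Finset.card_insert_of_notMem hi]
    refine (((hh i).mul ih).mono (le_of_eq ?_)).congr fun a _ => by rw [Finset.prod_insert hi]
    ring

theorem FT.det {m : ℕ} {h : Fin m → Fin m → α → MvPolynomial ℕ ℚ}
    (hh : ∀ i j, FT R n P (h i j)) :
    FT (m * R) n P fun a => (Matrix.of fun i j => h i j a).det := by
  have key : ∀ s : Equiv.Perm (Fin m), FT (m * R) n P fun a =>
      C (((Equiv.Perm.sign s : ℤ) : ℚ)) * ∏ i, h (s i) i a := by
    intro s
    refine FT.smul (FQ.const _) ?_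
    have := FT.prod (Finset.univ : Finset (Fin m)) (h := fun i a => h (s i) i a)
      (fun i => hh (s i) i)
    rwa [Finset.card_univ, Fintype.card_fin] at this
  refine (FT.sum (Finset.univ : Finset (Equiv.Perm (Fin m))) key).congr fun a _ => ?_
  rw [Matrix.det_apply']
  refine Finset.sum_congr rfl fun s _ => ?_
  have : ((Equiv.Perm.sign s : ℤ) : MvPolynomial ℕ ℚ) = C (((Equiv.Perm.sign s : ℤ) : ℚ)) := by
    simp
  rw [this]
  rfl

/-- powers of a quadratic polynomial -/
theorem FM.powU {e : α → Un} (hf : FM n P f) (he : FP e) :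
    FT 1 n P fun a => f a ^ (e a).length := by
  obtain ⟨F, h1, h2⟩ := hf
  refine ⟨fun a => [(((1, 0), 1), [(F a, e a)])], e, ?_, he, fun a ha => ⟨?_, ?_⟩⟩
  · exact FP.cons (FP.pair (FP.const _) (FP.cons (h1.pair he) (FP.const _))) (FP.const _)
  · intro t ht
    rw [List.mem_singleton] at ht
    subst ht
    refine ⟨one_ne_zero, by simp, by simp [tdeg], ?_⟩
    intro p hp
    rw [List.mem_singleton] at hp
    subst hp
    exact ⟨(h2 a ha).1, (h2 a ha).2.1⟩
  · unfold dv tv
    have h7 : toQ ((1, 0), 1) = 1 := by simp [toQ]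
    simp only [List.map_cons, List.map_nil, List.sum_cons, List.sum_nil, List.prod_cons,
      List.prod_nil, mul_one, add_zero, h7, map_one, one_mul, map_pow]
    rw [(h2 a ha).2.2]

theorem FM.toFT (hf : FM n P f) : FT 1 n P f := by
  have h := FM.powU (e := fun _ => [true]) hf (FP.const _)
  exact h.congr fun a _ => by simp

theorem FM.congr (hf : FM n P f) (h : ∀ a, P a → g a = f a) : FM n P g := by
  obtain ⟨F, h1, h2⟩ := hf
  exact ⟨F, h1, fun a ha => ⟨(h2 a ha).1, (h2 a ha).2.1, (h2 a ha).2.2.trans (h a ha).symm⟩⟩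

theorem FM.imp {Q : α → Prop} (hf : FM n P f) (h : ∀ a, Q a → P a) : FM n Q f := by
  obtain ⟨F, h1, h2⟩ := hf
  exact ⟨F, h1, fun a ha => h2 a (h a ha)⟩

theorem FM.comp {h : β → α} (hf : FM n P f) (hh : FP h) :
    FM (fun b => n (h b)) (fun b => P (h b)) (fun b => f (h b)) := by
  obtain ⟨F, h1, h2⟩ := hf
  exact ⟨fun b => F (h b), h1.comp hh, fun b hb => h2 (h b) hb⟩

end Pool.Agent.PQ
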