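import Pool.Agent.PQ.Dh

set_option autoImplicit false

/-!
PQ-Taylor. The matrix of a polynomial of degree at most two on an affine subspace (pure mathematics).

Plan: both sides are linear in `p`, so it suffices to take the monomials `1`, `X i`, `X i * X j`: every polynomial of
total degree at most two is a linear combination of these (`MvPolynomial.as_sum`, a monomial of degree at most
two is `0`, `single i 1` or `single i 1 + single j 1`). For these, expand.
`dh (qf (N+1) A) = A 0 0 + ∑_b (A 0 (b+1) + A (b+1) 0) X (b+1) + ∑_{a,b} A (a+1) (b+1) X (a+1) X (b+1)`.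
-/

namespace Pool.Agent.PQ

open MvPolynomial Pool.Agent.Helper6.SP

/-- the point plus directions; the index `0` stands for the zero direction -/
noncomputable def dir (U : List En) (b : ℕ) : ℕ → ℚ := if b = 0 then 0 else ptE (U.getD (b - 1) [])

/-- second difference, divided by two -/
noncomputable def bil (p : MvPolynomial ℕ ℚ) (x u v : ℕ → ℚ) : ℚ :=
  (eval (x + u + v) p - eval (x + u) p - eval (x + v) p + eval x p) / 2

/-- the entries of the matrix -/
noncomputable def hent (p : MvPolynomial ℕ ℚ) (e : En) (U : List En) (i j : ℕ) : ℚ :=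
  if i = 0 then
    (if j = 0 then eval (ptE e) p
     else (eval (ptE e + dir U j) p - eval (ptE e) p - bil p (ptE e) (dir U j) (dir U j)) / 2)
  else
    (if j = 0 then
      (eval (ptE e + dir U i) p - eval (ptE e) p - bil p (ptE e) (dir U i) (dir U i)) / 2
     else bil p (ptE e) (dir U i) (dir U j))

private theorem taylor_bil_symm (p : MvPolynomial ℕ ℚ) (x u v : ℕ → ℚ) : bil p x u v = bil p x v u := by
  unfold bil
  rw [add_right_comm x u v]
  ring

theorem hent_symm (p : MvPolynomial ℕ ℚ) (e : En) (U : List En) (i j : ℕ) :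
    hent p e U i j = hent p e U j i := by
  unfold hent
  by_cases hi : i = 0 <;> by_cases hj : j = 0 <;> simp [hi, hj]
  exact taylor_bil_symm _ _ _ _

/-- homogenised linear form -/
private noncomputable def taylor_lf (N : ℕ) (u : ℕ → ℚ) : MvPolynomial ℕ ℚ :=
  ∑ i ∈ Finset.range (N + 1), C (u i) * (if i = 0 then 1 else X i)

private theorem taylor_dh_qf (N : ℕ) (A : ℕ → ℕ → ℚ) :
    dh (qf (N + 1) A) = ∑ i ∈ Finset.range (N + 1), ∑ j ∈ Finset.range (N + 1),
      C (A i j) * ((if i = 0 then 1 else X i) * (if j = 0 then 1 else X j)) := by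
  unfold qf dh
  simp only [map_sum, map_mul, aeval_C, aeval_X, algebraMap_eq]

private theorem taylor_key (N : ℕ) (c : ℚ) (u v : ℕ → ℚ) (A : ℕ → ℕ → ℚ)
    (hA : ∀ i j, A i j = c * ((u i * v j + u j * v i) / 2)) :
    dh (qf (N + 1) A) = C c * (taylor_lf N u * taylor_lf N v) := by
  rw [taylor_dh_qf]
  have h1 : taylor_lf N u * taylor_lf N v = ∑ i ∈ Finset.range (N + 1),
      ∑ j ∈ Finset.range (N + 1), C (u i * v j) *
        ((if i = 0 then 1 else X i) * (if j = 0 then 1 else X j)) := by
    unfold taylor_lf
    rw [Finset.sum_mul_sum]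
    refine Finset.sum_congr rfl fun i _ => Finset.sum_congr rfl fun j _ => ?_
    rw [C_mul]; ring
  have h2 : taylor_lf N u * taylor_lf N v = ∑ i ∈ Finset.range (N + 1),
      ∑ j ∈ Finset.range (N + 1), C (u j * v i) *
        ((if i = 0 then 1 else X i) * (if j = 0 then 1 else X j)) := by
    rw [h1, Finset.sum_comm]
    refine Finset.sum_congr rfl fun i _ => Finset.sum_congr rfl fun j _ => ?_
    ring
  have h3 : C c * (taylor_lf N u * taylor_lf N v) =
      C (c / 2) * (taylor_lf N u * taylor_lf N v) + C (c / 2) * (taylor_lf N u * taylor_lf N v) := by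
    rw [← add_mul, ← C_add]
    congr 2; ring
  rw [h3]
  nth_rewrite 1 [h1]
  rw [h2, Finset.mul_sum, Finset.mul_sum, ← Finset.sum_add_distrib]
  refine Finset.sum_congr rfl fun i _ => ?_
  rw [Finset.mul_sum, Finset.mul_sum, ← Finset.sum_add_distrib]
  refine Finset.sum_congr rfl fun j _ => ?_
  have h4 : C (A i j) = C (c / 2) * C (u i * v j) + C (c / 2) * (C (u j * v i) : MvPolynomial ℕ ℚ) := by
    rw [← C_mul, ← C_mul, ← C_add, hA]
    congr 1; ring
  rw [h4, add_mul, mul_assoc, mul_assoc]

private theorem taylor_lf_one (N : ℕ) : taylor_lf N (fun i => if i = 0 then 1 else 0) = 1 := by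
  unfold taylor_lf
  rw [Finset.sum_eq_single 0]
  · simp
  · intro b _ hb; simp [hb]
  · simp

/-- the family of vectors: the point, then the directions -/
private noncomputable def taylor_a (e : En) (U : List En) (b : ℕ) : ℕ → ℚ :=
  if b = 0 then ptE e else dir U b

private theorem taylor_lf_a (e : En) (U : List En) (i : ℕ) :
    taylor_lf U.length (fun b => taylor_a e U b i) = sub e U (X i) := by
  unfold taylor_lf sub
  rw [aeval_X, Finset.sum_range_succ']
  simp only [taylor_a, dir, if_true, mul_one]
  rw [add_comm]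
  congr 1

private theorem taylor_mon2 (m : ℕ →₀ ℕ) (hm : m.degree ≤ 2) :
    m = 0 ∨ (∃ i, m = Finsupp.single i 1) ∨ ∃ i j, m = Finsupp.single i 1 + Finsupp.single j 1 := by
  have step : ∀ m : ℕ →₀ ℕ, m ≠ 0 → ∃ i m', m = Finsupp.single i 1 + m' ∧
      m'.degree + 1 = m.degree := by
    intro m hm
    obtain ⟨i, hi⟩ := Finsupp.ne_iff.mp hm
    have hi' : 1 ≤ m i := Nat.one_le_iff_ne_zero.mpr hi
    have hle : Finsupp.single i 1 ≤ m := by
      rw [Finsupp.single_le_iff]; exact hi'
    refine ⟨i, m - Finsupp.single i 1, (add_tsub_cancel_of_le hle).symm, ?_⟩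
    have := congrArg Finsupp.degree (add_tsub_cancel_of_le hle)
    rw [map_add, Finsupp.degree_single] at this
    omega
  by_cases h0 : m = 0
  · exact Or.inl h0
  obtain ⟨i, m', h1, h2⟩ := step m h0
  by_cases h0' : m' = 0
  · right; left; exact ⟨i, by rw [h1, h0', add_zero]⟩
  obtain ⟨j, m'', h3, h4⟩ := step m' h0'
  right; right
  refine ⟨i, j, ?_⟩
  have : m'' = 0 := by
    rw [← Finsupp.degree_eq_zero_iff]; omega
  rw [h1, h3, this, add_zero]

private theorem taylor_induction (P : MvPolynomial ℕ ℚ → Prop) (N : ℕ)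
    (hadd : ∀ p q, P p → P q → P (p + q)) (h0 : P 0)
    (hmon : ∀ (m : ℕ →₀ ℕ) (c : ℚ), m.degree ≤ N → P (monomial m c))
    (p : MvPolynomial ℕ ℚ) (hp : p.totalDegree ≤ N) : P p := by
  rw [p.as_sum]
  refine Finset.sum_induction _ P hadd h0 ?_
  intro m hm
  refine hmon m _ ?_
  have := le_totalDegree hm
  have h2 : m.degree = m.sum fun _ e => e := rfl
  rw [h2]; omega

private theorem taylor_hent_add (p q : MvPolynomial ℕ ℚ) (e : En) (U : List En) :
    hent (p + q) e U = fun i j => hent p e U i j + hent q e U i j := by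
  funext i j
  unfold hent bil
  by_cases hi : i = 0 <;> by_cases hj : j = 0 <;> simp only [hi, hj, if_true, if_false, map_add] <;> ring

theorem taylor2 (p : MvPolynomial ℕ ℚ) (hp : p.totalDegree ≤ 2) (e : En) (U : List En) :
    dh (qf (U.length + 1) (hent p e U)) = sub e U p := by
  refine taylor_induction (fun p => dh (qf (U.length + 1) (hent p e U)) = sub e U p) 2
    ?_ ?_ ?_ p hp
  · intro p q h1 h2
    rw [taylor_hent_add, map_add, ← h1, ← h2, taylor_dh_qf, taylor_dh_qf, taylor_dh_qf,
      ← Finset.sum_add_distrib]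
    refine Finset.sum_congr rfl fun i _ => ?_
    rw [← Finset.sum_add_distrib]
    refine Finset.sum_congr rfl fun j _ => ?_
    rw [C_add, add_mul]
  · rw [map_zero, taylor_dh_qf]
    refine Finset.sum_eq_zero fun i _ => Finset.sum_eq_zero fun j _ => ?_
    have : hent 0 e U i j = 0 := by
      unfold hent bil; simp
    rw [this, C_0, zero_mul]
  · intro m c hm
    rcases taylor_mon2 m hm with rfl | ⟨i, rfl⟩ | ⟨i, j, rfl⟩
    · have hm : monomial (0 : ℕ →₀ ℕ) c = C c := rfl
      rw [hm, taylor_key U.length c (fun i => if i = 0 then 1 else 0)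
        (fun i => if i = 0 then 1 else 0) (hent (C c) e U)]
      · rw [taylor_lf_one, mul_one, mul_one]
        unfold sub; rw [aeval_C, algebraMap_eq]
      · intro i j
        unfold hent bil
        by_cases hi : i = 0 <;> by_cases hj : j = 0 <;> simp [hi, hj]
    · have hm : monomial (Finsupp.single i 1) c = C c * X i := by
        rw [C_mul_X_eq_monomial]
      rw [hm, taylor_key U.length c (fun i => if i = 0 then 1 else 0)
        (fun b => taylor_a e U b i) (hent (C c * X i) e U)]
      · rw [taylor_lf_one, one_mul, taylor_lf_a, map_mul]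
        congr 1
        unfold sub; rw [aeval_C, algebraMap_eq]
      · intro k l
        unfold hent bil
        by_cases hk : k = 0 <;> by_cases hl : l = 0 <;> simp [hk, hl, taylor_a] <;> ring
    · have hm : monomial (Finsupp.single i 1 + Finsupp.single j 1) c = C c * (X i * X j) := by
        rw [← mul_assoc, C_mul_X_eq_monomial, X, monomial_mul, mul_one]
      rw [hm, taylor_key U.length c (fun b => taylor_a e U b i)
        (fun b => taylor_a e U b j) (hent (C c * (X i * X j)) e U)]
      · rw [taylor_lf_a, taylor_lf_a, map_mul, map_mul]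
        congr 1
        unfold sub; rw [aeval_C, algebraMap_eq]
      · intro k l
        unfold hent bil
        by_cases hk : k = 0 <;> by_cases hl : l = 0 <;> simp [hk, hl, taylor_a] <;> ring

/-- the entries for a polynomial of degree at most one -/
noncomputable def lent (p : MvPolynomial ℕ ℚ) (e : En) (U : List En) (i j : ℕ) : ℚ :=
  if i = 0 then
    (if j = 0 then eval (ptE e) p else (eval (ptE e + dir U j) p - eval (ptE e) p) / 2)
  else (if j = 0 then (eval (ptE e + dir U i) p - eval (ptE e) p) / 2 else 0)

theorem lent_symm (p : MvPolynomial ℕ ℚ) (e : En) (U : List En) (i j : ℕ) :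
    lent p e U i j = lent p e U j i := by
  unfold lent
  by_cases hi : i = 0 <;> by_cases hj : j = 0 <;> simp [hi, hj]

private theorem taylor_lent_add (p q : MvPolynomial ℕ ℚ) (e : En) (U : List En) :
    lent (p + q) e U = fun i j => lent p e U i j + lent q e U i j := by
  funext i j
  unfold lent
  by_cases hi : i = 0 <;> by_cases hj : j = 0 <;> simp only [hi, hj, if_true, if_false, map_add] <;> ring

theorem taylor1 (p : MvPolynomial ℕ ℚ) (hp : p.totalDegree ≤ 1) (e : En) (U : List En) :
    dh (qf (U.length + 1) (lent p e U)) = sub e U p := by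
  refine taylor_induction (fun p => dh (qf (U.length + 1) (lent p e U)) = sub e U p) 1
    ?_ ?_ ?_ p hp
  · intro p q h1 h2
    rw [taylor_lent_add, map_add, ← h1, ← h2, taylor_dh_qf, taylor_dh_qf, taylor_dh_qf,
      ← Finset.sum_add_distrib]
    refine Finset.sum_congr rfl fun i _ => ?_
    rw [← Finset.sum_add_distrib]
    refine Finset.sum_congr rfl fun j _ => ?_
    rw [C_add, add_mul]
  · rw [map_zero, taylor_dh_qf]
    refine Finset.sum_eq_zero fun i _ => Finset.sum_eq_zero fun j _ => ?_
    have : lent 0 e U i j = 0 := by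
      unfold lent; simp
    rw [this, C_0, zero_mul]
  · intro m c hm
    rcases taylor_mon2 m (hm.trans (by norm_num)) with rfl | ⟨i, rfl⟩ | ⟨i, j, rfl⟩
    · have hm : monomial (0 : ℕ →₀ ℕ) c = C c := rfl
      rw [hm, taylor_key U.length c (fun i => if i = 0 then 1 else 0)
        (fun i => if i = 0 then 1 else 0) (lent (C c) e U)]
      · rw [taylor_lf_one, mul_one, mul_one]
        unfold sub; rw [aeval_C, algebraMap_eq]
      · intro i j
        unfold lent
        by_cases hi : i = 0 <;> by_cases hj : j = 0 <;> simp [hi, hj]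
    · have hm : monomial (Finsupp.single i 1) c = C c * X i := by
        rw [C_mul_X_eq_monomial]
      rw [hm, taylor_key U.length c (fun i => if i = 0 then 1 else 0)
        (fun b => taylor_a e U b i) (lent (C c * X i) e U)]
      · rw [taylor_lf_one, one_mul, taylor_lf_a, map_mul]
        congr 1
        unfold sub; rw [aeval_C, algebraMap_eq]
      · intro k l
        unfold lent
        by_cases hk : k = 0 <;> by_cases hl : l = 0 <;> simp [hk, hl, taylor_a] <;> ring
    · exfalso
      rw [map_add, Finsupp.degree_single, Finsupp.degree_single] at hm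
      omega

theorem totalDegree_pderiv_le1 (p : MvPolynomial ℕ ℚ) (hp : p.totalDegree ≤ 2) (i : ℕ) :
    (pderiv i p).totalDegree ≤ 1 := by
  refine taylor_induction (fun p => (pderiv i p).totalDegree ≤ 1) 2 ?_ ?_ ?_ p hp
  · intro p q h1 h2
    rw [map_add]
    exact (totalDegree_add _ _).trans (max_le h1 h2)
  · rw [map_zero]; simp
  · intro m c hm
    rw [pderiv_monomial]
    by_cases hi : m i = 0
    · simp [hi]
    refine (totalDegree_monomial_le _ _).trans ?_
    have hle : Finsupp.single i 1 ≤ m := by
      rw [Finsupp.single_le_iff]; exact Nat.one_le_iff_ne_zero.mpr hi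
    have := congrArg Finsupp.degree (add_tsub_cancel_of_le hle)
    rw [map_add, Finsupp.degree_single] at this
    change (m - Finsupp.single i 1).degree ≤ 1
    omega

end Pool.Agent.PQ
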