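import Pool.Agent.PQ.Defs

set_option autoImplicit false

/-!
PQ-Words. The polynomial of the code of a formula.

If two formulas have the same code then the stack machine which computes polynomials gives the same
polynomial for both.
-/

namespace Pool.Agent.PQ

open MvPolynomial Pool.Agent.Helper6.WB Pool.Agent.Helper6.SP

/-- a step of the stack machine computing polynomials -/
private noncomputable def wstep (s : List (MvPolynomial ℕ ℚ)) (t : ℕ × ℚ) :
    List (MvPolynomial ℕ ℚ) :=
  if t.1 = 0 then C t.2 :: s
  else if t.1 = 1 then (s.tail.headD 0 + s.headD 0) :: s.tail.tail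
  else if t.1 = 2 then (s.tail.headD 0 * s.headD 0) :: s.tail.tail
  else X (t.1 - 3) :: s

private theorem wstep_code (F : Fm) (s : List (MvPolynomial ℕ ℚ)) :
    F.code.foldl wstep s = F.poly :: s := by
  induction F generalizing s with
  | const q => simp [Fm.code, Fm.poly, wstep]
  | var i => simp [Fm.code, Fm.poly, wstep]
  | add F G ihF ihG =>
    rw [Fm.code, List.foldl_append, List.foldl_append, ihF, ihG]
    simp [Fm.poly, wstep]
  | mul F G ihF ihG =>
    rw [Fm.code, List.foldl_append, List.foldl_append, ihF, ihG]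
    simp [Fm.poly, wstep]

theorem poly_eq_of_code {g h : Fm} (hc : g.code = h.code) : g.poly = h.poly := by
  have h1 := wstep_code g []
  have h2 := wstep_code h []
  rw [hc, h2] at h1
  exact (List.cons.inj h1).1.symm

theorem pw_code (g : Fm) : pw g.code = g.poly := by
  have h : ∃ g' : Fm, g'.code = g.code := ⟨g, rfl⟩
  rw [pw, dif_pos h]
  exact poly_eq_of_code h.choose_spec

/-- evaluation -/
theorem topV_eq (w : Wd) (hw : ∃ g : Fm, g.code = w) (e : En) :
    topV w e = eval (ptE e) (pw w) := by
  obtain ⟨g, rfl⟩ := hw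
  rw [pw_code, topV_code, Fm.eval_poly]

theorem topD_eq (w : Wd) (hw : ∃ g : Fm, g.code = w) (e : En) (v : ℕ) :
    topD w e (v + 3) = eval (ptE e) (pderiv v (pw w)) := by
  obtain ⟨g, rfl⟩ := hw
  rw [pw_code, topD_code]

private theorem vars_poly (F : Fm) : F.poly.vars ⊆ F.vars := by
  classical
  induction F with
  | const q => simp [Fm.poly, Fm.vars]
  | var i => simp [Fm.poly, Fm.vars]
  | add F G ihF ihG =>
    exact (vars_add_subset _ _).trans (Finset.union_subset_union ihF ihG)
  | mul F G ihF ihG =>
    exact (vars_mul _ _).trans (Finset.union_subset_union ihF ihG)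

theorem vars_pw (w : Wd) (hw : ∃ g : Fm, g.code = w) (i : ℕ) (hi : i ∈ (pw w).vars) :
    i + 3 ∈ w.map Prod.fst := by
  obtain ⟨g, rfl⟩ := hw
  rw [pw_code] at hi
  exact mem_code_of_mem_vars (vars_poly g hi)

theorem degree_pw (w : Wd) (hw : ∃ g : Fm, g.code = w) : (pw w).totalDegree ≤ w.length := by
  obtain ⟨g, rfl⟩ := hw
  rw [pw_code]
  exact (Fm.totalDegree_poly g).trans (size_le_code g)

end Pool.Agent.PQ
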