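import Pool.Agent.PQ.Clear
import Pool.Agent.PQ.Taylor
import Pool.Agent.PQ.Words
import Pool.Agent.PQ.FTc

set_option autoImplicit false

/-!
PQ-Atom. The quadratic atoms: a word (code of a formula of degree at most two) on an affine subspace.

Plan: environments are added by `envAdd` (`ptE_envAdd`); `val (x, w, i, j) = topV w (envAdd (envAdd e u_i) u_j)` is
`FQ` (`fq_topV`; the direction with the index `i : ℕ` of the list: a fold, or the environment found by
`zipIdx`), equals the evaluation by `topV_eq`. The entries `hent`, `lent` are `FQ` (on words which are codes) and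
`FM.ofEntries` applies; for words which are not codes the function must still be `FQ` everywhere: use
`topV` / `topD` in its definition and identify it with `hent` under the promise only.
-/

namespace Pool.Agent.PQ

open MvPolynomial N487b59b3 N68a2faeb Pool.Agent.Helper22 Pool.Agent.Helper6.WB
  Pool.Agent.Helper6.SP

/-- a frame: a point and directions -/
abbrev Fr := En × List En

/-- the unary dimension of a frame, plus one -/
def nF (p : Fr) : Un := true :: p.2.map fun _ => true

theorem nF_length (p : Fr) : (nF p).length = p.2.length + 1 := by simp [nF]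

variable {α : Type} [N487b59b3 α]

theorem fp_nF : FP nF := by
  have h : FP fun p : Fr => p.2.map fun b => (fun _ : Fr × En => true) (p, b) :=
    fp_map FP.snd (FP.const true)
  exact FP.cons (FP.const true) h

/-- sum of environments -/
def envAdd (e f : En) : En := (e ++ f).map fun p => (p.1, elAdd (fixE (lookE e p.1)) (fixE (lookE f p.1)))

private theorem look_foldl_map (g : ℕ → El) (l : En) (c : ℕ) (v : El) :
    (l.map fun p => (p.1, g p.1)).foldl (fun acc p => if p.1 = c then p.2 else acc) v =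
      if c ∈ l.map Prod.fst then g c else v := by
  induction l generalizing v with
  | nil => simp
  | cons p l ih =>
    rw [List.map_cons, List.foldl_cons, ih]
    simp only [List.map_cons, List.mem_cons]
    by_cases h1 : c ∈ l.map Prod.fst
    · rw [if_pos h1, if_pos (Or.inr h1)]
    · rw [if_neg h1]
      by_cases h2 : p.1 = c
      · rw [if_pos h2, if_pos (Or.inl h2.symm), h2]
      · rw [if_neg h2, if_neg]
        rintro (h | h)
        · exact h2 h.symm
        · exact h1 h

private theorem look_foldl_not (l : En) (c : ℕ) (v : El) (h : c ∉ l.map Prod.fst) :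
    l.foldl (fun acc p => if p.1 = c then p.2 else acc) v = v := by
  induction l generalizing v with
  | nil => rfl
  | cons p l ih =>
    simp only [List.map_cons, List.mem_cons, not_or] at h
    rw [List.foldl_cons, if_neg (fun h2 => h.1 h2.symm)]
    exact ih _ h.2

private theorem toQ_e0 : toQ e0 = 0 := by simp [toQ, e0]

theorem ptE_envAdd (e f : En) (i : ℕ) : ptE (envAdd e f) i = ptE e i + ptE f i := by
  have h1 : lookE (envAdd e f) (i + 3) = if i + 3 ∈ (e ++ f).map Prod.fst then
      elAdd (fixE (lookE e (i + 3))) (fixE (lookE f (i + 3))) else e0 :=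
    look_foldl_map (fun c => elAdd (fixE (lookE e c)) (fixE (lookE f c))) (e ++ f) (i + 3) e0
  unfold ptE
  rw [h1]
  by_cases h2 : i + 3 ∈ (e ++ f).map Prod.fst
  · rw [if_pos h2, toQ_add (fixE_den _) (fixE_den _), toQ_fixE, toQ_fixE]
  · rw [if_neg h2]
    rw [List.map_append, List.mem_append, not_or] at h2
    have h3 : lookE e (i + 3) = e0 := look_foldl_not e _ _ h2.1
    have h4 : lookE f (i + 3) = e0 := look_foldl_not f _ _ h2.2
    rw [h3, h4, toQ_e0, add_zero]

theorem fp_envAdd {f g : α → En} (hf : FP f) (hg : FP g) : FP fun a => envAdd (f a) (g a) := by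
  have h1 : FP fun q : α × (ℕ × El) => ((q.2.1, elAdd (fixE (lookE (f q.1) q.2.1))
      (fixE (lookE (g q.1) q.2.1))) : ℕ × El) := by
    have h2 : FP fun q : α × (ℕ × El) => f q.1 := hf.comp FP.fst
    have h3 : FP fun q : α × (ℕ × El) => g q.1 := hg.comp FP.fst
    exact FP.pair (by fun_prop) (fp_elAdd (by fun_prop) (by fun_prop))
  exact fp_map (FP.append hf hg) h1

/-- the direction with a given index, `0` stands for the zero direction -/
def dirE (U : List En) (b : ℕ) : En := if decide (b = 0) then [] else U.getD (b - 1) []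

private theorem ptE_nil : ptE [] = 0 := by
  funext i
  exact toQ_e0

theorem ptE_dirE (U : List En) (b : ℕ) : ptE (dirE U b) = dir U b := by
  unfold dirE dir
  by_cases h : b = 0
  · simp only [h, decide_true, if_true]
    exact ptE_nil
  · simp [h]

private theorem dirE_flatMap (U : List En) (n b : ℕ) :
    (U.zipIdx n).flatMap (fun q => if decide (q.2 + 1 = b) then q.1 else []) =
      if b ≤ n then [] else U.getD (b - 1 - n) [] := by
  induction U generalizing n with
  | nil => simp
  | cons u U ih =>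
    rw [List.zipIdx_cons, List.flatMap_cons, ih]
    by_cases h1 : n + 1 = b
    · subst h1
      simp
    · have h2 : decide (n + 1 = b) = false := by simpa using h1
      simp only [h2, Bool.false_eq_true, if_false, List.nil_append]
      by_cases h3 : b ≤ n
      · rw [if_pos h3, if_pos (by omega)]
      · rw [if_neg h3, if_neg (by omega)]
        have h4 : b - 1 - n = (b - 1 - (n + 1)) + 1 := by omega
        rw [h4, List.getD_cons_succ]

private theorem dirE_eq (U : List En) (b : ℕ) :
    dirE U b = U.zipIdx.flatMap (fun q => if decide (q.2 + 1 = b) then q.1 else []) := by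
  rw [dirE_flatMap]
  unfold dirE
  by_cases h : b = 0
  · simp [h]
  · simp only [h, decide_false, Bool.false_eq_true, if_false, Nat.sub_zero]
    rw [if_neg (by omega)]

theorem fp_dirE {f : α → List En} {g : α → ℕ} (hf : FP f) (hg : FP g) :
    FP fun a => dirE (f a) (g a) := by
  have h1 : FP fun q : α × (En × ℕ) => if decide (q.2.2 + 1 = g q.1) then q.2.1 else [] := by
    have h2 : FP fun q : α × (En × ℕ) => g q.1 := hg.comp FP.fst
    have h3 : FP fun q : α × (En × ℕ) => q.2.2 + 1 :=
      Helper6.WB.FP.natAdd (by fun_prop) (FP.const 1)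
    exact FP.ite (Helper6.WB.FP.natEq h3 h2) (by fun_prop) (FP.const _)
  have h2 := fp_flatMap (fp_zipIdx hf) h1
  refine (congrArg FP (funext fun a => ?_)).mp h2
  exact (dirE_eq (f a) (g a)).symm

private theorem ptE_add (e f : En) : ptE (envAdd e f) = ptE e + ptE f :=
  funext fun i => ptE_envAdd e f i

/-! ### the entries computed by evaluation -/

/-- the second difference at environments -/
private def bilT (w : Wd) (e u v : En) : ℚ :=
  (topV w (envAdd (envAdd e u) v) - topV w (envAdd e u) - topV w (envAdd e v) + topV w e) * (1 / 2)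

/-- the first difference minus the second one -/
private def linT (w : Wd) (e u : En) : ℚ :=
  (topV w (envAdd e u) - topV w e - bilT w e u u) * (1 / 2)

/-- the entries -/
private def entT (q : (Fr × Wd) × (ℕ × ℕ)) : ℚ :=
  if decide (q.2.1 = 0) then
    (if decide (q.2.2 = 0) then topV q.1.2 q.1.1.1
     else linT q.1.2 q.1.1.1 (dirE q.1.1.2 q.2.2))
  else
    (if decide (q.2.2 = 0) then linT q.1.2 q.1.1.1 (dirE q.1.1.2 q.2.1)
     else bilT q.1.2 q.1.1.1 (dirE q.1.1.2 q.2.1) (dirE q.1.1.2 q.2.2))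

private theorem bilT_eq (w : Wd) (hw : ∃ g : Fm, g.code = w) (e u v : En) :
    bilT w e u v = bil (pw w) (ptE e) (ptE u) (ptE v) := by
  unfold bilT bil
  rw [topV_eq w hw, topV_eq w hw, topV_eq w hw, topV_eq w hw, ptE_add, ptE_add, ptE_add]
  ring

private theorem linT_eq (w : Wd) (hw : ∃ g : Fm, g.code = w) (e u : En) :
    linT w e u = (eval (ptE e + ptE u) (pw w) - eval (ptE e) (pw w) -
      bil (pw w) (ptE e) (ptE u) (ptE u)) / 2 := by
  unfold linT
  rw [topV_eq w hw, topV_eq w hw, bilT_eq w hw, ptE_add]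
  ring

private theorem entT_eq (w : Wd) (hw : ∃ g : Fm, g.code = w) (e : En) (U : List En) (i j : ℕ) :
    entT (((e, U), w), (i, j)) = hent (pw w) e U i j := by
  unfold entT hent
  simp only [decide_eq_true_eq]
  rw [linT_eq w hw, linT_eq w hw, bilT_eq w hw, topV_eq w hw, ptE_dirE, ptE_dirE]

private theorem fq_bilT {w : α → Wd} {e u v : α → En} (hw : FP w) (he : FP e) (hu : FP u)
    (hv : FP v) : FQ fun a => bilT (w a) (e a) (u a) (v a) := by
  have h1 := fq_topV hw (fp_envAdd (fp_envAdd he hu) hv)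
  have h2 := fq_topV hw (fp_envAdd he hu)
  have h3 := fq_topV hw (fp_envAdd he hv)
  have h4 := fq_topV hw he
  exact (((h1.sub h2).sub h3).add h4).mul (FQ.const (1 / 2))

private theorem fq_linT {w : α → Wd} {e u : α → En} (hw : FP w) (he : FP e) (hu : FP u) :
    FQ fun a => linT (w a) (e a) (u a) := by
  have h2 := fq_topV hw (fp_envAdd he hu)
  have h4 := fq_topV hw he
  exact ((h2.sub h4).sub (fq_bilT hw he hu hu)).mul (FQ.const (1 / 2))

private theorem fq_entT : FQ entT := by
  have hw : FP fun q : (Fr × Wd) × (ℕ × ℕ) => q.1.2 := by fun_prop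
  have he : FP fun q : (Fr × Wd) × (ℕ × ℕ) => q.1.1.1 := by fun_prop
  have hU : FP fun q : (Fr × Wd) × (ℕ × ℕ) => q.1.1.2 := by fun_prop
  have hi : FP fun q : (Fr × Wd) × (ℕ × ℕ) => q.2.1 := by fun_prop
  have hj : FP fun q : (Fr × Wd) × (ℕ × ℕ) => q.2.2 := by fun_prop
  have hi0 : FP fun q : (Fr × Wd) × (ℕ × ℕ) => decide (q.2.1 = 0) :=
    Helper6.WB.FP.natEq hi (FP.const 0)
  have hj0 : FP fun q : (Fr × Wd) × (ℕ × ℕ) => decide (q.2.2 = 0) :=
    Helper6.WB.FP.natEq hj (FP.const 0)
  have hui := fp_dirE hU hi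
  have huj := fp_dirE hU hj
  exact FQ.ite hi0 (FQ.ite hj0 (fq_topV hw he) (fq_linT hw he huj))
    (FQ.ite hj0 (fq_linT hw he hui) (fq_bilT hw he hui huj))

theorem fm_word : FM (fun p : Fr × Wd => nF p.1) (fun p => Lo p.2)
    (fun p => sub p.1.1 p.1.2 (pw p.2)) := by
  have hn : FP fun p : Fr × Wd => nF p.1 := fp_nF.comp FP.fst
  refine (FM.ofEntries (P := fun p : Fr × Wd => Lo p.2) hn fq_entT ?_).congr ?_
  · rintro ⟨⟨e, U⟩, w⟩ hP i j
    rw [entT_eq w hP.1, entT_eq w hP.1, hent_symm]
  · rintro ⟨⟨e, U⟩, w⟩ hP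
    simp only [nF_length]
    rw [← taylor2 (pw w) hP.2 e U]
    congr 2
    funext i j
    exact (entT_eq w hP.1 e U i j).symm

/-- the entries without the constant term -/
private def entB (q : (Fr × Wd) × (ℕ × ℕ)) : ℚ :=
  if decide (q.2.1 = 0) && decide (q.2.2 = 0) then 0 else entT q

private theorem fq_entB : FQ entB := by
  have hi0 : FP fun q : (Fr × Wd) × (ℕ × ℕ) => decide (q.2.1 = 0) :=
    Helper6.WB.FP.natEq (by fun_prop) (FP.const 0)
  have hj0 : FP fun q : (Fr × Wd) × (ℕ × ℕ) => decide (q.2.2 = 0) :=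
    Helper6.WB.FP.natEq (by fun_prop) (FP.const 0)
  exact FQ.ite (hi0.and hj0) (FQ.const 0) fq_entT

private theorem hent_subC (p : MvPolynomial ℕ ℚ) (e : En) (U : List En) (i j : ℕ) :
    hent (p - C (eval (ptE e) p)) e U i j = if i = 0 ∧ j = 0 then 0 else hent p e U i j := by
  unfold hent bil
  simp only [map_sub, eval_C]
  by_cases hi : i = 0 <;> by_cases hj : j = 0 <;> simp [hi, hj] <;> ring

private theorem entB_eq (w : Wd) (hw : ∃ g : Fm, g.code = w) (e : En) (U : List En) (i j : ℕ) :
    entB (((e, U), w), (i, j)) = hent (pw w - C (eval (ptE e) (pw w))) e U i j := by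
  rw [hent_subC]
  unfold entB
  rw [entT_eq w hw]
  by_cases hi : i = 0 <;> by_cases hj : j = 0 <;> simp [hi, hj]

theorem fm_wordB : FM (fun p : Fr × Wd => nF p.1) (fun p => Lo p.2)
    (fun p => sub p.1.1 p.1.2 (pw p.2) - C (eval (ptE p.1.1) (pw p.2))) := by
  have hn : FP fun p : Fr × Wd => nF p.1 := fp_nF.comp FP.fst
  refine (FM.ofEntries (P := fun p : Fr × Wd => Lo p.2) hn fq_entB ?_).congr ?_
  · rintro ⟨⟨e, U⟩, w⟩ hP i j
    rw [entB_eq w hP.1, entB_eq w hP.1, hent_symm]
  · rintro ⟨⟨e, U⟩, w⟩ hP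
    simp only [nF_length]
    have h1 : (pw w - C (eval (ptE e) (pw w))).totalDegree ≤ 2 := by
      refine (totalDegree_sub _ _).trans ?_
      rw [totalDegree_C]
      simpa using hP.2
    have h2 := taylor2 _ h1 e U
    have h3 : sub e U (pw w - C (eval (ptE e) (pw w))) =
        sub e U (pw w) - C (eval (ptE e) (pw w)) := by
      rw [map_sub]
      congr 1
      exact (sub e U).commutes _
    rw [← h3, ← h2]
    congr 2
    funext i j
    exact (entB_eq w hP.1 e U i j).symm

/-- the entries of a derivative -/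
private def entD (q : (Fr × (Wd × ℕ)) × (ℕ × ℕ)) : ℚ :=
  if decide (q.2.1 = 0) then
    (if decide (q.2.2 = 0) then topD q.1.2.1 q.1.1.1 q.1.2.2
     else (topD q.1.2.1 (envAdd q.1.1.1 (dirE q.1.1.2 q.2.2)) q.1.2.2 -
       topD q.1.2.1 q.1.1.1 q.1.2.2) * (1 / 2))
  else
    (if decide (q.2.2 = 0) then (topD q.1.2.1 (envAdd q.1.1.1 (dirE q.1.1.2 q.2.1)) q.1.2.2 -
       topD q.1.2.1 q.1.1.1 q.1.2.2) * (1 / 2)
     else 0)

private theorem fq_entD : FQ entD := by
  have hw : FP fun q : (Fr × (Wd × ℕ)) × (ℕ × ℕ) => q.1.2.1 := by fun_prop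
  have hv : FP fun q : (Fr × (Wd × ℕ)) × (ℕ × ℕ) => q.1.2.2 := by fun_prop
  have he : FP fun q : (Fr × (Wd × ℕ)) × (ℕ × ℕ) => q.1.1.1 := by fun_prop
  have hU : FP fun q : (Fr × (Wd × ℕ)) × (ℕ × ℕ) => q.1.1.2 := by fun_prop
  have hi : FP fun q : (Fr × (Wd × ℕ)) × (ℕ × ℕ) => q.2.1 := by fun_prop
  have hj : FP fun q : (Fr × (Wd × ℕ)) × (ℕ × ℕ) => q.2.2 := by fun_prop
  have hi0 : FP fun q : (Fr × (Wd × ℕ)) × (ℕ × ℕ) => decide (q.2.1 = 0) :=
    Helper6.WB.FP.natEq hi (FP.const 0)
  have hj0 : FP fun q : (Fr × (Wd × ℕ)) × (ℕ × ℕ) => decide (q.2.2 = 0) :=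
    Helper6.WB.FP.natEq hj (FP.const 0)
  have h0 := fq_topD hw he hv
  have hui := fq_topD hw (fp_envAdd he (fp_dirE hU hi)) hv
  have huj := fq_topD hw (fp_envAdd he (fp_dirE hU hj)) hv
  exact FQ.ite hi0 (FQ.ite hj0 h0 ((huj.sub h0).mul (FQ.const (1 / 2))))
    (FQ.ite hj0 ((hui.sub h0).mul (FQ.const (1 / 2))) (FQ.const 0))

private theorem entD_eq (w : Wd) (hw : ∃ g : Fm, g.code = w) (c : ℕ) (hc : 3 ≤ c) (e : En)
    (U : List En) (i j : ℕ) :
    entD (((e, U), (w, c)), (i, j)) = lent (pderiv (c - 3) (pw w)) e U i j := by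
  have key : ∀ f : En, topD w f c = eval (ptE f) (pderiv (c - 3) (pw w)) := by
    intro f
    have := topD_eq w hw f (c - 3)
    rwa [Nat.sub_add_cancel hc] at this
  unfold entD lent
  simp only [decide_eq_true_eq]
  rw [key, key, key, ptE_add, ptE_add, ptE_dirE, ptE_dirE]
  simp only [mul_one_div]

theorem fm_deriv : FM (fun p : Fr × (Wd × ℕ) => nF p.1) (fun p => Lo p.2.1 ∧ 3 ≤ p.2.2)
    (fun p => sub p.1.1 p.1.2 (pderiv (p.2.2 - 3) (pw p.2.1))) := by
  have hn : FP fun p : Fr × (Wd × ℕ) => nF p.1 := fp_nF.comp FP.fst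
  refine (FM.ofEntries (P := fun p : Fr × (Wd × ℕ) => Lo p.2.1 ∧ 3 ≤ p.2.2) hn fq_entD ?_).congr ?_
  · rintro ⟨⟨e, U⟩, w, c⟩ hP i j
    rw [entD_eq w hP.1.1 c hP.2, entD_eq w hP.1.1 c hP.2, lent_symm]
  · rintro ⟨⟨e, U⟩, w, c⟩ hP
    simp only [nF_length]
    rw [← taylor1 (pderiv (c - 3) (pw w)) (totalDegree_pderiv_le1 _ hP.1.2 _) e U]
    congr 2
    funext i j
    exact (entD_eq w hP.1.1 c hP.2 e U i j).symm

end Pool.Agent.PQ
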