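import Pool.Agent.PQ.Words

set_option autoImplicit false

/-!
PQ-Base. Base points: the generator with two seeds hits all nonzero polynomials of degree at most two of a
list at once.

Plan: a nonzero polynomial `p` of degree at most two in `Fin n` variables has a nonzero value at a point with at most
two nonzero coordinates (take a monomial of `p` and set all variables outside its support to zero), and such
points are in `G n 2` (`Helper5/Gen.lean`: `G_update` from `0 ∈ G n 0`, or `G_step`). So `eval (gen n 2 s) p ≠ 0` for some `s`;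
the product of all nonzero members of the list is a nonzero polynomial after composition with `genPoly`
(no zero divisors), hence the product itself is hit by some `s`: `hit_grid` with
`D` = a bound for the total degree of the product. Transfer from `ℕ` to `Fin n`, `n` = number of the names, and
`ptE_envF` as in `Helper6/SP/Main.lean: decF_correct`.
-/

namespace Pool.Agent.PQ

open MvPolynomial N487b59b3 N68a2faeb Pool.Agent.Helper22 Pool.Agent.Helper6.WB
  Pool.Agent.Helper6.SP

private theorem base_point {n : ℕ} (f : MvPolynomial (Fin n) ℚ) (hf : f ≠ 0)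
    (hd : f.totalDegree ≤ 2) : ∃ s, eval (Pool.Agent.Helper5.gen n 2 s) f ≠ 0 := by
  classical
  obtain ⟨m, hm⟩ := (support_nonempty.mpr hf)
  set S : Finset (Fin n) := m.support with hS
  have hScard : S.card ≤ 2 := by
    refine le_trans ?_ ((le_totalDegree hm).trans hd)
    rw [Finsupp.sum, Finset.card_eq_sum_ones]
    apply Finset.sum_le_sum
    intro i hi
    exact Nat.one_le_iff_ne_zero.mpr (Finsupp.mem_support_iff.mp hi)
  set h : MvPolynomial (Fin n) ℚ :=
    ∑ d ∈ f.support.filter (fun d => d.support ⊆ S), monomial d (coeff d f) with hh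
  have hh0 : h ≠ 0 := by
    intro h0
    have h1 : coeff m h = coeff m f := by
      rw [hh, coeff_sum]
      rw [Finset.sum_eq_single m]
      · rw [coeff_monomial, if_pos rfl]
      · intro d _ hdm
        rw [coeff_monomial, if_neg hdm]
      · intro hnot
        exfalso
        apply hnot
        rw [Finset.mem_filter]
        exact ⟨hm, le_refl _⟩
    rw [h0, coeff_zero] at h1
    exact (mem_support_iff.mp hm) h1.symm
  have ht : ∃ t, eval t h ≠ 0 := by
    by_contra hcon
    push Not at hcon
    apply hh0
    apply MvPolynomial.funext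
    intro x
    rw [hcon x, map_zero]
  obtain ⟨t, ht⟩ := ht
  set x : Fin n → ℚ := fun i => if i ∈ S then t i else 0 with hx
  have hev : eval x f = eval t h := by
    rw [hh, map_sum, eval_eq, Finset.sum_filter]
    apply Finset.sum_congr rfl
    intro d _
    split_ifs with hdS
    · rw [eval_monomial, Finsupp.prod]
      congr 1
      apply Finset.prod_congr rfl
      intro i hi
      rw [hx]
      simp only [if_pos (hdS hi)]
    · obtain ⟨i, hi, hiS⟩ := Finset.not_subset.mp hdS
      rw [Finset.prod_eq_zero hi, mul_zero]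
      rw [hx]
      simp only [if_neg hiS]
      exact zero_pow (Finsupp.mem_support_iff.mp hi)
  have h0 : (fun _ => 0 : Fin n → ℚ) ∈ Pool.Agent.Helper5.G n 0 :=
    ⟨fun _ => 0, by funext i; simp [Pool.Agent.Helper5.gen]⟩
  have h2 : x ∈ Pool.Agent.Helper5.G n (0 + 2) :=
    Pool.Agent.Helper5.G_step h0 x S hScard (fun i hi => by rw [hx]; simp only [if_neg hi])
  obtain ⟨s, hs⟩ := h2
  refine ⟨s, ?_⟩
  rw [show Pool.Agent.Helper5.gen n 2 s = x from hs, hev]
  exact ht

private theorem base_common {n : ℕ} (L : List (MvPolynomial (Fin n) ℚ))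
    (hL : ∀ f ∈ L, f ≠ 0 ∧ f.totalDegree ≤ 2) :
    ∃ s, eval (Pool.Agent.Helper5.gen n 2 s) L.prod ≠ 0 := by
  classical
  have hev : ∀ (f : MvPolynomial (Fin n) ℚ) (s : Fin 2 ⊕ Fin 2 → ℚ),
      eval s (aeval (Pool.Agent.Helper5.genPoly n 2) f) =
        eval (Pool.Agent.Helper5.gen n 2 s) f := by
    intro f s
    rw [MvPolynomial.aeval_def, ← MvPolynomial.coe_eval₂Hom, ← RingHom.comp_apply]
    congr 1
    apply MvPolynomial.ringHom_ext
    · intro r; simp
    · intro i; simp [Pool.Agent.Helper5.eval_genPoly]
  obtain ⟨s, hs⟩ := Pool.Agent.Helper5.exists_common_poly L.toFinset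
    (fun f => aeval (Pool.Agent.Helper5.genPoly n 2) f) (fun f hf => by
      obtain ⟨h1, h2⟩ := hL f (List.mem_toFinset.mp hf)
      obtain ⟨s, hs⟩ := base_point f h1 h2
      exact ⟨s, by rw [hev]; exact hs⟩)
  refine ⟨s, ?_⟩
  rw [map_list_prod, Ne, List.prod_eq_zero_iff]
  intro h0
  obtain ⟨f, hf, hf0⟩ := List.mem_map.mp h0
  apply hs f (List.mem_toFinset.mpr hf)
  rw [hev]
  exact hf0

theorem exists_base (I : Inp) (hI : ∀ l ∈ I, ∀ w ∈ l, Lo w) (G : List ℕ)
    (hG : ∀ v ≤ (2 * (toks I).length) * ((toks I).length + 1), v ∈ G) :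
    ∃ zs ∈ lpow G 4, ∀ l ∈ I, ∀ w ∈ l, pw w ≠ 0 →
      eval (ptE (envF 2 ((I, []), zs))) (pw w) ≠ 0 := by
  classical
  have hex : ∀ w : Wd, ∃ f : MvPolynomial (Fin (names I).length) ℚ,
      w ∈ I.flatten → rename (vr I) f = pw w := by
    intro w
    by_cases hw : w ∈ I.flatten
    · obtain ⟨l, hl, hwl⟩ := List.mem_flatten.mp hw
      have hvars : ((pw w).vars : Set ℕ) ⊆ Set.range (vr I) := by
        intro i hi
        have h1 := vars_pw w (hI l hl w hwl).1 i hi
        have h2 : i + 3 ∈ names I := by
          rw [mem_names]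
          refine ⟨by omega, ?_⟩
          obtain ⟨q, hq, hqi⟩ := List.mem_map.mp h1
          exact List.mem_map.mpr ⟨q, List.mem_flatten.mpr ⟨w, hw, hq⟩, hqi⟩
        obtain ⟨j, hj⟩ := (vr_range I i).mp h2
        exact ⟨j, hj⟩
      obtain ⟨f, hf⟩ := exists_rename_eq_of_vars_subset_range (pw w) (vr I) (vr_inj I) hvars
      exact ⟨f, fun _ => hf⟩
    · exact ⟨0, fun h => absurd h hw⟩
  choose F hF using hex
  set L : List Wd := I.flatten.filter (fun w => decide (pw w ≠ 0)) with hL
  have hmem : ∀ w ∈ L, w ∈ I.flatten ∧ pw w ≠ 0 := by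
    intro w hw
    rw [hL, List.mem_filter] at hw
    exact ⟨hw.1, by simpa using hw.2⟩
  have hdeg : ∀ w ∈ I.flatten, (F w).totalDegree ≤ w.length ∧ (F w).totalDegree ≤ 2 := by
    intro w hw
    obtain ⟨l, hl, hwl⟩ := List.mem_flatten.mp hw
    have h1 : (F w).totalDegree ≤ (pw w).totalDegree := by
      refine (totalDegree_le_rename (vr I) (vr_inj I) (F w)).trans ?_
      rw [hF w hw]
    exact ⟨h1.trans (degree_pw w (hI l hl w hwl).1), h1.trans (hI l hl w hwl).2⟩
  have hdp : ((L.map F).prod).totalDegree ≤ (toks I).length := by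
    have h1 : ∀ M : List Wd, (∀ w ∈ M, w ∈ I.flatten) →
        ((M.map F).prod).totalDegree ≤ M.flatten.length := by
      intro M
      induction M with
      | nil => intro _; simp
      | cons w M ih =>
        intro hM
        rw [List.map_cons, List.prod_cons, List.flatten_cons, List.length_append]
        exact (totalDegree_mul _ _).trans (Nat.add_le_add
          (hdeg w (hM w List.mem_cons_self)).1 (ih fun v hv => hM v (List.mem_cons_of_mem _ hv)))
    refine (h1 L (fun w hw => (hmem w hw).1)).trans ?_
    rw [toks, hL]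
    exact (List.filter_sublist (l := I.flatten)).flatten.length_le
  obtain ⟨a, ha, hea⟩ := Pool.Agent.Helper5.hit_grid (L.map F).prod _ hdp 2
    (base_common (L.map F) (by
      intro f hf
      obtain ⟨w, hw, rfl⟩ := List.mem_map.mp hf
      refine ⟨?_, (hdeg w (hmem w hw).1).2⟩
      intro h0
      apply (hmem w hw).2
      rw [← hF w (hmem w hw).1, h0, map_zero]))
  unfold Pool.Agent.Helper5.hittingSet at ha
  rw [Finset.mem_image] at ha
  obtain ⟨⟨z, y⟩, hzy, rfl⟩ := ha
  rw [Finset.mem_product, Fintype.mem_piFinset, Fintype.mem_piFinset] at hzy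
  obtain ⟨hz, hy⟩ := hzy
  refine ⟨List.ofFn z ++ List.ofFn y, ?_, ?_⟩
  · rw [mem_lpow]
    refine ⟨by rw [List.length_append, List.length_ofFn, List.length_ofFn], ?_⟩
    intro p hp
    apply hG
    rcases List.mem_append.mp hp with hp | hp
    · obtain ⟨l, rfl⟩ := List.mem_ofFn.mp hp
      have := hz l
      simp only [Finset.mem_range] at this
      nlinarith
    · obtain ⟨l, rfl⟩ := List.mem_ofFn.mp hp
      have := hy l
      simp only [Finset.mem_range] at this
      have h1 : (names I).length * (toks I).length ≤ (toks I).length * (toks I).length :=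
        Nat.mul_le_mul_right _ (names_length _)
      nlinarith
  · intro l hl w hw hw0
    have hwI : w ∈ I.flatten := List.mem_flatten.mpr ⟨l, hl, hw⟩
    have hwL : w ∈ L := by
      rw [hL, List.mem_filter]
      exact ⟨hwI, by simpa using hw0⟩
    rw [map_list_prod, Ne, List.prod_eq_zero_iff] at hea
    have h3 : eval _ (F w) ≠ 0 := fun h0 => hea (List.mem_map.mpr ⟨F w, List.mem_map.mpr ⟨w, hwL, rfl⟩, h0⟩)
    rw [← hF w hwI, eval_rename]
    intro h0
    apply h3
    rw [← h0]
    refine congrArg (fun x => eval x (F w)) ?_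
    funext i
    simp only [Function.comp]
    rw [ptE_envF]
    have h4 : ptE [] (vr I i) = 0 := by
      simp [ptE, lookE, toQ, e0]
    rw [h4, zero_add]

end Pool.Agent.PQ
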