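import Pool.Agent.Helper6.SP.Main
import Pool.Agent.Helper47.TR.FPx

set_option autoImplicit false

/-!
# Sums of products of powers of quadratic polynomials: definitions

Interface of the project PQ.
-/

namespace Pool.Agent.PQ

open MvPolynomial N487b59b3 N68a2faeb Pool.Agent.Helper22 Pool.Agent.Helper6.WB
  Pool.Agent.Helper6.SP

/-! ## Matrices and quadratic forms -/

/-- integers as differences of natural numbers -/
abbrev ZZ := ℕ × ℕ

/-- value of an integer -/
def zq (z : ZZ) : ℚ := (z.1 : ℚ) - z.2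

/-- integer matrices: lists of rows -/
abbrev Mt := List (List ZZ)

/-- rational matrices with a common denominator -/
abbrev QM := Mt × ℕ

/-- unary numbers -/
abbrev Un := List Bool

/-- entry of a matrix, zero outside -/
def ent (A : Mt) (i j : ℕ) : ℚ := zq ((A.getD i []).getD j (0, 0))

/-- symmetric `n × n` matrices -/
def Sq (n : ℕ) (A : Mt) : Prop :=
  A.length = n ∧ (∀ r ∈ A, r.length = n) ∧ ∀ i j, ent A i j = ent A j i

/-- the quadratic form with matrix `A` in the variables `x_0, ..., x_{n-1}` -/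
noncomputable def qf (n : ℕ) (A : ℕ → ℕ → ℚ) : MvPolynomial ℕ ℚ :=
  ∑ i ∈ Finset.range n, ∑ j ∈ Finset.range n, C (A i j) * (X i * X j)

/-- the quadratic form of a rational matrix -/
noncomputable def qm (n : ℕ) (q : QM) : MvPolynomial ℕ ℚ :=
  qf n fun i j => ent q.1 i j / q.2

/-- dehomogenisation: `x_0 = 1` -/
noncomputable def dh : MvPolynomial ℕ ℚ →ₐ[ℚ] MvPolynomial ℕ ℚ :=
  aeval fun i => if i = 0 then 1 else X i

/-! ## The inner product and the moments (mathematics) -/

/-- the Fischer inner product `∑ m! p_m q_m` -/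
noncomputable def fip (p q : MvPolynomial ℕ ℚ) : ℚ :=
  ∑ m ∈ p.support, (m.prod fun _ k => (k.factorial : ℚ)) * (coeff m p * coeff m q)

/-- the recursion for `⟨(xᵀAx)^d, (xᵀBx)^d⟩`; the second component is the matrix
`⟨(xᵀAx)^d, x_j x_l (xᵀBx)^(d-1)⟩` -/
def mom (n : ℕ) (A B : ℕ → ℕ → ℚ) : ℕ → ℚ × (ℕ → ℕ → ℚ)
  | 0 => (1, fun _ _ => 0)
  | d + 1 =>
    let G : ℕ → ℕ → ℚ := fun j l => 2 * (d + 1) * (mom n A B d).1 * A j l +
      4 * (d + 1) * d * ∑ p ∈ Finset.range n,
        (∑ s ∈ Finset.range n, A j s * B s p) * (mom n A B d).2 l p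
    (∑ j ∈ Finset.range n, ∑ l ∈ Finset.range n, B j l * G j l, G)

/-- scaling of `x_0` by `w` in a quadratic form -/
def scl (w : ℚ) (A : ℕ → ℕ → ℚ) (i j : ℕ) : ℚ :=
  (if i = 0 then w else 1) * (if j = 0 then w else 1) * A i j

/-- polarisation: the list of the pairs (coefficient, linear combination) -/
def pol {V : Type*} [AddCommMonoid V] : List (V × ℕ) → List (ℚ × V)
  | [] => [(1, 0)]
  | (y, e) :: l => (pol l).flatMap fun p => (List.range (e + 1)).map fun f =>
      (p.1 * (-1) ^ (e - f) * (e.choose f : ℚ), f • y + p.2)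

/-- the form `∑ c_ν ⟨..⟩` as a function of the scaling -/
def nrm (n D : ℕ) (F : List (ℚ × (ℕ → ℕ → ℚ))) (w : ℚ) : ℚ :=
  (F.map fun p => (F.map fun q => p.1 * q.1 * (mom n (scl w p.2) q.2 D).1).sum).sum

/-- finite difference of order `j` at zero -/
def fdiff (j : ℕ) (P : ℕ → ℚ) : ℚ :=
  ∑ i ∈ Finset.range (j + 1), (-1) ^ (j - i) * (j.choose i : ℚ) * P i

/-! ## Terms -/

/-- a term: coefficient, list of (matrix, exponent) -/
abbrev Tm := El × List (QM × Un)

/-- value of a term -/
noncomputable def tv (n : ℕ) (t : Tm) : MvPolynomial ℕ ℚ :=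
  C (toQ t.1) * (t.2.map fun p => qm n p.1 ^ p.2.length).prod

/-- value of a list of terms, `x_0 = 1` -/
noncomputable def dv (n : ℕ) (F : List Tm) : MvPolynomial ℕ ℚ := dh ((F.map (tv n)).sum)

/-- sum of the exponents of a term -/
def tdeg (t : Tm) : ℕ := (t.2.map fun p => p.2.length).sum

/-- correct lists of terms: at most `R` factors, total exponents at most `D` -/
def Ok (R n D : ℕ) (F : List Tm) : Prop :=
  ∀ t ∈ F, t.1.2 ≠ 0 ∧ t.2.length ≤ R ∧ tdeg t ≤ D ∧
    ∀ p ∈ t.2, p.1.2 ≠ 0 ∧ Sq n p.1.1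

section

variable {α β γ : Type} [N487b59b3 α] [N487b59b3 β] [N487b59b3 γ]

/-- polynomials computed in polynomial time as a sum of products of powers of at most `R` quadratic
polynomials in the variables `x_1, ..., x_{n-1}`, under the promise `P` -/
def FT (R : ℕ) (n : α → Un) (P : α → Prop) (f : α → MvPolynomial ℕ ℚ) : Prop :=
  ∃ (F : α → List Tm) (D : α → Un), FP F ∧ FP D ∧ ∀ a, P a →
    Ok R (n a).length (D a).length (F a) ∧ dv (n a).length (F a) = f a

/-- quadratic polynomials computed in polynomial time -/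
def FM (n : α → Un) (P : α → Prop) (f : α → MvPolynomial ℕ ℚ) : Prop :=
  ∃ F : α → QM, FP F ∧ ∀ a, P a → (F a).2 ≠ 0 ∧ Sq (n a).length (F a).1 ∧
    dh (qm (n a).length (F a)) = f a

end

/-! ## Words -/

open Classical in
/-- the polynomial of a word: the polynomial of a formula with this code, zero if there is none -/
noncomputable def pw (w : Wd) : MvPolynomial ℕ ℚ :=
  if h : ∃ g : Fm, g.code = w then h.choose.poly else 0

/-- words which are codes of formulas of degree at most two -/
def Lo (w : Wd) : Prop := (∃ g : Fm, g.code = w) ∧ (pw w).totalDegree ≤ 2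

/-- pairs of a list of factors and a list of lists of factors -/
abbrev Pr := List Wd × List (List Wd)

/-- the sum of the products -/
noncomputable def SS (B : List (List Wd)) : MvPolynomial ℕ ℚ :=
  (B.map fun l => (l.map pw).prod).sum

/-- the polynomial of a pair -/
noncomputable def FF (p : Pr) : MvPolynomial ℕ ℚ := (p.1.map pw).prod * SS p.2

/-- the promise: all degrees at most two, every summand has at most `r` different factors -/
def Good (r : ℕ) (p : Pr) : Prop :=
  (∀ w ∈ p.1, Lo w) ∧ ∀ l ∈ p.2, (∀ w ∈ l, Lo w) ∧ l.toFinset.card ≤ r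

/-! ## Frames -/

/-- restriction to the affine space through the point `e` with directions `U` -/
noncomputable def sub (e : En) (U : List En) : MvPolynomial ℕ ℚ →ₐ[ℚ] MvPolynomial ℕ ℚ :=
  aeval fun i => C (ptE e i) +
    ∑ b ∈ Finset.range U.length, C (ptE (U.getD b []) i) * X (b + 1)

/-- the truncated inverse of `sub e U (pw w)` -/
noncomputable def inv (M : ℕ) (e : En) (U : List En) (w : Wd) : MvPolynomial ℕ ℚ :=
  ∑ i ∈ Finset.range (M + 1), C ((-1) ^ i * (eval (ptE e) (pw w))⁻¹ ^ (i + 1)) *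
    (sub e U (pw w) - C (eval (ptE e) (pw w))) ^ i

/-- the entry of the reduced Jacobian matrix, `v` is the code of the variable -/
noncomputable def EE (M : ℕ) (e : En) (U : List En) (p : Pr) (v : ℕ) : MvPolynomial ℕ ℚ :=
  (p.1.map fun w => sub e U (pderiv (v - 3) (pw w)) * inv M e U w).sum * sub e U (SS p.2) +
    sub e U (pderiv (v - 3) (SS p.2))

/-- the Jacobian minor -/
noncomputable def JJ (m : ℕ) (I : List Pr) (V : List ℕ) : MvPolynomial ℕ ℚ :=
  (Matrix.of fun i j : Fin m => pderiv (V.getD j 0 - 3) (FF (I.getD i ([], [])))).det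

/-- the reduced minor -/
noncomputable def DD (m M : ℕ) (e : En) (U : List En) (I : List Pr) (V : List ℕ) :
    MvPolynomial ℕ ℚ :=
  (Matrix.of fun i j : Fin m => EE M e U (I.getD i ([], [])) (V.getD j 0)).det

end Pool.Agent.PQ
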