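import Pool.Agent.PQ.Words

set_option autoImplicit false

/-!
PQ-Deg. Degrees and variables of the polynomials of pairs and of the Jacobian minors.

Plan: `totalDegree_list_prod`, `totalDegree_finsetSum`, `totalDegree` of a derivative (at most the total degree), of a
determinant (`Matrix.det_apply`: every product has at most the sum of the degrees of the rows). The default pair `([], [])` has
`FF = 0`.
-/

namespace Pool.Agent.PQ

open MvPolynomial Pool.Agent.Helper6.WB Pool.Agent.Helper6.SP

/-- number of factors of a pair -/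
def cnt (p : Pr) : ℕ := p.1.length + (p.2.map List.length).sum

private theorem degProd (l : List Wd) (h : ∀ w ∈ l, Lo w) :
    ((l.map pw).prod).totalDegree ≤ 2 * l.length := by
  induction l with
  | nil => simp
  | cons a l ih =>
    rw [List.map_cons, List.prod_cons]
    have h1 := totalDegree_mul (pw a) (l.map pw).prod
    have h2 := (h a (by simp)).2
    have h3 := ih fun w hw => h w (by simp [hw])
    rw [List.length_cons]
    omega

private theorem degSS (B : List (List Wd)) (h : ∀ l ∈ B, ∀ w ∈ l, Lo w) :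
    (SS B).totalDegree ≤ 2 * (B.map List.length).sum := by
  unfold SS
  induction B with
  | nil => simp
  | cons a B ih =>
    rw [List.map_cons, List.sum_cons, List.map_cons, List.sum_cons]
    have h1 := totalDegree_add ((a.map pw).prod) ((B.map fun l : List Wd => (l.map pw).prod).sum)
    have h2 := degProd a (h a (by simp))
    have h3 := ih fun l hl => h l (by simp [hl])
    have h4 : max ((a.map pw).prod).totalDegree ((B.map fun l : List Wd => (l.map pw).prod).sum).totalDegree ≤
        2 * (a.length + (B.map List.length).sum) := by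
      apply max_le <;> omega
    exact h1.trans h4

theorem totalDegree_FF (p : Pr) (h : (∀ w ∈ p.1, Lo w) ∧ ∀ l ∈ p.2, ∀ w ∈ l, Lo w) :
    (FF p).totalDegree ≤ 2 * cnt p := by
  unfold FF cnt
  have h1 := totalDegree_mul ((p.1.map pw).prod) (SS p.2)
  have h2 := degProd p.1 h.1
  have h3 := degSS p.2 h.2
  omega

private theorem degPderiv (i : ℕ) (P : MvPolynomial ℕ ℚ) :
    (pderiv i P).totalDegree ≤ P.totalDegree := by
  classical
  rw [MvPolynomial.totalDegree]
  apply Finset.sup_le
  intro m hm
  rw [mem_support_iff, coeff_pderiv] at hm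
  have h1 : coeff (m + Finsupp.single i 1) P ≠ 0 := left_ne_zero_of_mul hm
  have h2 := le_totalDegree (mem_support_iff.mpr h1)
  rw [Finsupp.sum_add_index' (fun _ => rfl) (fun _ _ _ => rfl), Finsupp.sum_single_index rfl]
    at h2
  omega

private theorem degDet {m : ℕ} (M : Matrix (Fin m) (Fin m) (MvPolynomial ℕ ℚ)) (d : Fin m → ℕ)
    (h : ∀ i j, (M i j).totalDegree ≤ d i) : M.det.totalDegree ≤ ∑ i, d i := by
  rw [Matrix.det_apply]
  apply totalDegree_finsetSum_le
  intro s _
  have h1 : (∏ i, M (s i) i).totalDegree ≤ ∑ i, d i := by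
    refine (totalDegree_finsetProd _ _).trans ?_
    rw [← Equiv.sum_comp s d]
    exact Finset.sum_le_sum fun i _ => h _ _
  rcases Int.units_eq_one_or (Equiv.Perm.sign s) with h2 | h2
  · rw [h2, one_smul]
    exact h1
  · rw [h2]
    have h3 : ((-1 : ℤˣ) • ∏ i, M (s i) i) = -∏ i, M (s i) i := by
      rw [Units.smul_def]
      simp
    rw [h3, totalDegree_neg]
    exact h1

private theorem FF_default : FF ([], []) = 0 := by
  simp [FF, SS]

private theorem sumGetD (f : Pr → ℕ) (hf : f ([], []) = 0) (I : List Pr) (m : ℕ) :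
    ∑ i : Fin m, f (I.getD i ([], [])) ≤ (I.map f).sum := by
  rw [Fin.sum_univ_eq_sum_range (fun i => f (I.getD i ([], []))) m]
  induction I generalizing m with
  | nil => simp [hf]
  | cons a I ih =>
    cases m with
    | zero => simp
    | succ m =>
      rw [Finset.sum_range_succ', List.map_cons, List.sum_cons]
      have h1 := ih m
      simp only [List.getD_cons_succ, List.getD_cons_zero]
      omega

private theorem mem_or_default (I : List Pr) (i : ℕ) :
    I.getD i ([], []) ∈ I ∨ I.getD i ([], []) = ([], []) := by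
  rcases lt_or_ge i I.length with h | h
  · left
    rw [List.getD_eq_getElem _ _ h]
    exact List.getElem_mem h
  · right
    exact List.getD_eq_default _ _ h

theorem totalDegree_JJ (m : ℕ) (I : List Pr) (V : List ℕ)
    (h : ∀ p ∈ I, (∀ w ∈ p.1, Lo w) ∧ ∀ l ∈ p.2, ∀ w ∈ l, Lo w) :
    (JJ m I V).totalDegree ≤ 2 * (I.map cnt).sum := by
  unfold JJ
  have h0 : cnt ([], []) = 0 := by simp [cnt]
  have h1 := degDet (Matrix.of fun i j : Fin m => pderiv (V.getD j 0 - 3)
    (FF (I.getD i ([], [])))) (fun i => 2 * cnt (I.getD i ([], []))) (by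
      intro i j
      rw [Matrix.of_apply]
      refine (degPderiv _ _).trans ?_
      rcases mem_or_default I i with h2 | h2
      · exact totalDegree_FF _ (h _ h2)
      · rw [h2, FF_default, totalDegree_zero]
        exact Nat.zero_le _)
  refine h1.trans ?_
  rw [← Finset.mul_sum]
  exact Nat.mul_le_mul_left 2 (sumGetD cnt h0 I m)

theorem good_default (r : ℕ) : Good r ([], []) := by
  simp [Good]

private theorem varsProd (l : List Wd) (h : ∀ w ∈ l, Lo w) (i : ℕ)
    (hi : i ∈ ((l.map pw).prod).vars) : i + 3 ∈ l.flatten.map Prod.fst := by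
  classical
  induction l with
  | nil => simp at hi
  | cons a l ih =>
    rw [List.map_cons, List.prod_cons] at hi
    have h1 := vars_mul (pw a) (l.map pw).prod hi
    rw [List.flatten_cons, List.map_append, List.mem_append]
    rcases Finset.mem_union.mp h1 with h2 | h2
    · exact Or.inl (vars_pw a (h a (by simp)).1 i h2)
    · exact Or.inr (ih (fun w hw => h w (by simp [hw])) h2)

private theorem varsSS (B : List (List Wd)) (h : ∀ l ∈ B, ∀ w ∈ l, Lo w) (i : ℕ)
    (hi : i ∈ (SS B).vars) : i + 3 ∈ B.flatten.flatten.map Prod.fst := by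
  classical
  unfold SS at hi
  induction B with
  | nil => simp at hi
  | cons a B ih =>
    rw [List.map_cons, List.sum_cons] at hi
    have h1 := vars_add_subset ((a.map pw).prod) ((B.map fun l : List Wd => (l.map pw).prod).sum) hi
    rw [List.flatten_cons, List.flatten_append, List.map_append, List.mem_append]
    rcases Finset.mem_union.mp h1 with h2 | h2
    · exact Or.inl (varsProd a (h a (by simp)) i h2)
    · exact Or.inr (ih (fun l hl => h l (by simp [hl])) h2)

theorem vars_FF (p : Pr) (h : (∀ w ∈ p.1, Lo w) ∧ ∀ l ∈ p.2, ∀ w ∈ l, Lo w) (i : ℕ)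
    (hi : i ∈ (FF p).vars) :
    i + 3 ∈ ((p.1.flatten ++ p.2.flatten.flatten).map Prod.fst) := by
  classical
  unfold FF at hi
  rw [List.map_append, List.mem_append]
  rcases Finset.mem_union.mp (vars_mul _ _ hi) with h2 | h2
  · exact Or.inl (varsProd p.1 h.1 i h2)
  · exact Or.inr (varsSS p.2 h.2 i h2)

private theorem varsPderiv {i j : ℕ} {p : MvPolynomial ℕ ℚ} (h : j ∈ (pderiv i p).vars) :
    j ∈ p.vars := by
  classical
  rw [mem_vars_iff_mem_support] at h ⊢
  obtain ⟨d, hd, hj⟩ := h
  rw [mem_support_iff, coeff_pderiv] at hd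
  refine ⟨d + Finsupp.single i 1, ?_, ?_⟩
  · rw [mem_support_iff]
    exact left_ne_zero_of_mul hd
  · rw [Finsupp.mem_support_iff] at hj ⊢
    rw [Finsupp.add_apply]
    omega

private theorem varsNeg (p : MvPolynomial ℕ ℚ) : (-p).vars = p.vars := by
  classical
  unfold MvPolynomial.vars
  rw [degrees_neg]

private theorem varsDet {m : ℕ} (M : Matrix (Fin m) (Fin m) (MvPolynomial ℕ ℚ)) (i : ℕ)
    (hi : i ∈ M.det.vars) : ∃ a b, i ∈ (M a b).vars := by
  classical
  rw [Matrix.det_apply] at hi
  have h1 := vars_sum_subset (φ := fun s : Equiv.Perm (Fin m) =>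
    Equiv.Perm.sign s • ∏ i, M (s i) i) Finset.univ hi
  obtain ⟨s, _, h2⟩ := Finset.mem_biUnion.mp h1
  have h3 : i ∈ (∏ i, M (s i) i).vars := by
    rcases Int.units_eq_one_or (Equiv.Perm.sign s) with h4 | h4
    · simpa [h4] using h2
    · rw [h4] at h2
      have h5 : ((-1 : ℤˣ) • ∏ i, M (s i) i) = -∏ i, M (s i) i := by
        rw [Units.smul_def]
        simp
      rw [h5, varsNeg] at h2
      exact h2
  obtain ⟨b, _, h4⟩ := Finset.mem_biUnion.mp (vars_prod (s := Finset.univ)
    (fun i : Fin m => M (s i) i) h3)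
  exact ⟨s b, b, h4⟩

theorem vars_JJ (m : ℕ) (I : List Pr) (V : List ℕ) (hI : I.length = m)
    (h : ∀ p ∈ I, (∀ w ∈ p.1, Lo w) ∧ ∀ l ∈ p.2, ∀ w ∈ l, Lo w) (i : ℕ)
    (hi : i ∈ (JJ m I V).vars) :
    ∃ p ∈ I, i + 3 ∈ ((p.1.flatten ++ p.2.flatten.flatten).map Prod.fst) := by
  unfold JJ at hi
  obtain ⟨a, b, h1⟩ := varsDet _ i hi
  rw [Matrix.of_apply] at h1
  have h2 := varsPderiv h1
  rcases mem_or_default I a with h3 | h3
  · exact ⟨_, h3, vars_FF _ (h _ h3) i h2⟩
  · rw [h3, FF_default] at h2
    simp at h2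

end Pool.Agent.PQ
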