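import Pool.Agent.PQ.Defs

set_option autoImplicit false

/-!
PQ-Dh. Dehomogenisation `x_0 = 1` of homogeneous polynomials.

Plan: for `W` homogeneous of degree `N`, a monomial `m` of `W` is determined by `m` outside `0`
(`m 0 = N - degree of the rest`), so
`coeff m (dh W) = 0` if `m 0 ≠ 0` or `m.degree > N`, and `= coeff (m + single 0 (N - m.degree)) W` otherwise.
The degree of the rest is `≤ M` iff `N - M ≤ m 0`.
-/

namespace Pool.Agent.PQ

open MvPolynomial

private theorem dh_monomial' (s : ℕ →₀ ℕ) (c : ℚ) :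
    dh (monomial s c) = monomial (s.erase 0) c := by
  unfold dh
  rw [aeval_monomial, monomial_eq]
  congr 1
  unfold Finsupp.prod
  rw [Finsupp.support_erase]
  rw [← Finset.prod_erase s.support (a := 0)]
  · refine Finset.prod_congr rfl fun i hi => ?_
    have h0 : i ≠ 0 := (Finset.mem_erase.1 hi).1
    show (if i = 0 then (1 : MvPolynomial ℕ ℚ) else X i) ^ (s i) = X i ^ ((Finsupp.erase 0 s) i)
    rw [if_neg h0, Finsupp.erase_ne h0]
  · simp

private theorem degree_erase_add (s : ℕ →₀ ℕ) : (s.erase 0).degree + s 0 = s.degree := by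
  have h : Finsupp.single 0 (s 0) + s.erase 0 = s := Finsupp.single_add_erase 0 s
  have h2 : (Finsupp.single 0 (s 0)).degree + (s.erase 0).degree = s.degree := by
    conv_rhs => rw [← h]
    exact (map_add Finsupp.degree _ _).symm
  rw [Finsupp.degree_single] at h2
  omega

private theorem coeff_dh_sum (W : MvPolynomial ℕ ℚ) (m : ℕ →₀ ℕ) :
    coeff m (dh W) = ∑ s ∈ W.support, if s.erase 0 = m then coeff s W else 0 := by
  classical
  conv_lhs => rw [W.as_sum]
  rw [map_sum, coeff_sum]
  refine Finset.sum_congr rfl fun s _ => ?_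
  rw [dh_monomial', coeff_monomial]

private theorem degree_eq_of_mem {W : MvPolynomial ℕ ℚ} {N : ℕ} (hW : W.IsHomogeneous N)
    {s : ℕ →₀ ℕ} (hs : coeff s W ≠ 0) : s.degree = N := by
  have h := hW hs
  rw [Finsupp.degree_eq_weight_one]
  exact h

theorem coeff_dh {W : MvPolynomial ℕ ℚ} {N : ℕ} (hW : W.IsHomogeneous N) (m : ℕ →₀ ℕ) :
    coeff m (dh W) = if m 0 = 0 ∧ m.degree ≤ N then
      coeff (m + Finsupp.single 0 (N - m.degree)) W else 0 := by
  classical
  rw [coeff_dh_sum]
  by_cases hc : m 0 = 0 ∧ m.degree ≤ N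
  · rw [if_pos hc]
    have key : ∀ s ∈ W.support, (s.erase 0 = m ↔ s = m + Finsupp.single 0 (N - m.degree)) := by
      intro s hs
      have hd := degree_eq_of_mem hW (mem_support_iff.1 hs)
      have he := degree_erase_add s
      constructor
      · intro h
        have h3 : Finsupp.single 0 (s 0) + s.erase 0 = s := Finsupp.single_add_erase 0 s
        have h4 : s 0 = N - m.degree := by
          rw [h] at he
          omega
        rw [← h3, h, h4, add_comm]
      · intro h
        rw [h, Finsupp.erase_add, Finsupp.erase_single, add_zero]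
        ext i
        by_cases hi : i = 0
        · rw [hi, Finsupp.erase_same, hc.1]
        · rw [Finsupp.erase_ne hi]
    have h1 : ∑ s ∈ W.support, (if s.erase 0 = m then coeff s W else 0) =
        ∑ s ∈ W.support, if s = m + Finsupp.single 0 (N - m.degree) then coeff s W else 0 := by
      refine Finset.sum_congr rfl fun s hs => ?_
      by_cases h : s.erase 0 = m
      · rw [if_pos h, if_pos ((key s hs).1 h)]
      · rw [if_neg h, if_neg fun h' => h ((key s hs).2 h')]
    rw [h1, Finset.sum_ite_eq']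
    by_cases h2 : m + Finsupp.single 0 (N - m.degree) ∈ W.support
    · rw [if_pos h2]
    · rw [if_neg h2]
      by_contra h3
      exact h2 (mem_support_iff.2 fun h4 => h3 h4.symm)
  · rw [if_neg hc]
    refine Finset.sum_eq_zero fun s hs => ?_
    rw [if_neg]
    intro h
    apply hc
    have hd := degree_eq_of_mem hW (mem_support_iff.1 hs)
    have he := degree_erase_add s
    rw [h] at he
    refine ⟨?_, by omega⟩
    rw [← h, Finsupp.erase_same]

theorem dh_test {W : MvPolynomial ℕ ℚ} {N : ℕ} (hW : W.IsHomogeneous N) (M : ℕ) :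
    (∀ m : ℕ →₀ ℕ, m.degree ≤ M → coeff m (dh W) = 0) ↔
      ∀ m : ℕ →₀ ℕ, N - M ≤ m 0 → coeff m W = 0 := by
  constructor
  · intro h m hm
    by_contra hne
    have hd := degree_eq_of_mem hW hne
    have he := degree_erase_add m
    have h1 := h (m.erase 0) (by omega)
    rw [coeff_dh hW, if_pos ⟨Finsupp.erase_same, by omega⟩] at h1
    apply hne
    have h3 : Finsupp.single 0 (m 0) + m.erase 0 = m := Finsupp.single_add_erase 0 m
    have h4 : N - (m.erase 0).degree = m 0 := by omega
    rw [h4, add_comm, h3] at h1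
    exact h1
  · intro h m hm
    rw [coeff_dh hW]
    by_cases hc : m 0 = 0 ∧ m.degree ≤ N
    · rw [if_pos hc]
      apply h
      rw [Finsupp.add_apply, Finsupp.single_eq_same]
      omega
    · rw [if_neg hc]

theorem qf_homogeneous (n : ℕ) (A : ℕ → ℕ → ℚ) : (qf n A).IsHomogeneous 2 := by
  unfold qf
  refine IsHomogeneous.sum _ _ _ fun i _ => ?_
  refine IsHomogeneous.sum _ _ _ fun j _ => ?_
  have h := (isHomogeneous_C ℕ (A i j)).mul ((isHomogeneous_X ℚ i).mul (isHomogeneous_X ℚ j))
  exact h

/-- the square of `x_0` -/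
theorem qf_e00 (n : ℕ) (hn : 1 ≤ n) :
    qf n (fun i j => if i = 0 ∧ j = 0 then 1 else 0) = X 0 ^ 2 := by
  unfold qf
  rw [Finset.sum_eq_single 0]
  · rw [Finset.sum_eq_single 0]
    · simp [pow_two]
    · intro j _ hj
      simp [hj]
    · intro h
      exact absurd (Finset.mem_range.2 (by omega)) h
  · intro i _ hi
    refine Finset.sum_eq_zero fun j _ => ?_
    simp [hi]
  · intro h
    exact absurd (Finset.mem_range.2 (by omega)) h

theorem qf_add (n : ℕ) (A B : ℕ → ℕ → ℚ) :
    qf n (fun i j => A i j + B i j) = qf n A + qf n B := by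
  unfold qf
  rw [← Finset.sum_add_distrib]
  refine Finset.sum_congr rfl fun i _ => ?_
  rw [← Finset.sum_add_distrib]
  refine Finset.sum_congr rfl fun j _ => ?_
  rw [C_add]
  ring

theorem qf_smul (n : ℕ) (c : ℚ) (A : ℕ → ℕ → ℚ) :
    qf n (fun i j => c * A i j) = C c * qf n A := by
  unfold qf
  rw [Finset.mul_sum]
  refine Finset.sum_congr rfl fun i _ => ?_
  rw [Finset.mul_sum]
  refine Finset.sum_congr rfl fun j _ => ?_
  rw [C_mul]
  ring

theorem qf_congr {n : ℕ} {A B : ℕ → ℕ → ℚ} (h : ∀ i < n, ∀ j < n, A i j = B i j) :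
    qf n A = qf n B := by
  unfold qf
  refine Finset.sum_congr rfl fun i hi => ?_
  refine Finset.sum_congr rfl fun j hj => ?_
  rw [h i (Finset.mem_range.1 hi) j (Finset.mem_range.1 hj)]

end Pool.Agent.PQ
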