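import Pool.Agent.PQ.Defs
import Pool.Agent.Helper5.D4.Jac2
import Pool.Agent.Helper5.D4.Faithful

set_option autoImplicit false

/-!
PQ-Faith. Jacobian minors and faithful restrictions, in infinitely many variables.

Plan: transfer `Helper5/D4/Jac2.lean: exists_jacobian_minor` from `Fin n` to `ℕ` by `rename` along
the inclusion of a finite set of variables (see `Helper6/SP/Hit.lean`: `killCompl`, `pderiv_rename`,
`rename_det`). `hitN`: `ψ = aeval (fun v => C (γ v) + ∑ j, if J j = v then X j else 0)` to
`MvPolynomial (Fin m) ℚ` (compare `VF.shR`, `det_shR_ne_zero`, `algebraicIndependent_of_det` of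
`Helper5/D4/Jac.lean`), then `faithful` of `Helper5/D4/Faithful.lean`, and a nonzero polynomial of total degree at
most `D` is not zero at some point of `{0..D}^m` (e.g. `MvPolynomial.schwartz_zippel...` or
`exists_eval_ne_zero` on a product of finite sets: see `Helper5/V/Post.lean: hit_of_Phi`, `hit_grid`).
-/

namespace Pool.Agent.PQ

open MvPolynomial

theorem exists_minorN {m : ℕ} (T : Fin m → MvPolynomial ℕ ℚ) (hT : AlgebraicIndependent ℚ T) :
    ∃ J : Fin m → ℕ, (∀ j, ∃ i, J j ∈ (T i).vars) ∧
      (Matrix.of fun i j => pderiv (J j) (T i)).det ≠ 0 := by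
  classical
  set S : Finset ℕ := Finset.univ.biUnion fun i => (T i).vars with hS
  set ρ : Fin S.card → ℕ := fun i => ((S.equivFin.symm i : S) : ℕ) with hρd
  have hρ : Function.Injective ρ :=
    Subtype.val_injective.comp S.equivFin.symm.injective
  have hρS : ∀ i, ρ i ∈ S := fun i => (S.equivFin.symm i).2
  have hSρ : ∀ v ∈ S, ∃ i, ρ i = v := fun v hv => ⟨S.equivFin ⟨v, hv⟩, by simp [hρd]⟩
  have hpull : ∀ i, ∃ q, rename ρ q = T i := fun i =>
    exists_rename_eq_of_vars_subset_range (T i) ρ hρ (by
      intro v hv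
      exact hSρ v (Finset.mem_biUnion.2 ⟨i, Finset.mem_univ _, hv⟩))
  choose T' hT' using hpull
  have hind : AlgebraicIndependent ℚ T' := by
    refine AlgebraicIndependent.of_comp (rename ρ : MvPolynomial (Fin S.card) ℚ →ₐ[ℚ] _) ?_
    have h1 : (rename ρ : MvPolynomial (Fin S.card) ℚ →ₐ[ℚ] MvPolynomial ℕ ℚ) ∘ T' = T := by
      funext i
      exact hT' i
    rw [h1]
    exact hT
  obtain ⟨J, hJ⟩ := Pool.Agent.Helper5.D4.exists_jacobian_minor T' hind
  refine ⟨fun j => ρ (J j), ?_, ?_⟩
  · intro j
    obtain ⟨i, _, hi⟩ := Finset.mem_biUnion.1 (hρS (J j))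
    exact ⟨i, hi⟩
  · have h2 : (Matrix.of fun i j => pderiv (ρ (J j)) (T i)).det =
        rename ρ (Matrix.of fun i j => pderiv (J j) (T' i)).det := by
      rw [AlgHom.map_det]
      congr 1
      ext i j : 1
      simp only [AlgHom.mapMatrix_apply, Matrix.map_apply, Matrix.of_apply]
      rw [← hT' i]
      exact pderiv_rename hρ (J j) (T' i)
    rw [h2]
    intro h0
    exact hJ (rename_injective ρ hρ (by rw [h0, map_zero]))

private theorem faith_pderiv {m : ℕ} (γ : ℕ → ℚ) (J : Fin m → ℕ) (j : Fin m)
    (P : MvPolynomial ℕ ℚ) :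
    pderiv j (aeval (fun v => (C (γ v) : MvPolynomial (Fin m) ℚ) +
        ∑ j', if J j' = v then X j' else 0) P) =
      aeval (fun v => (C (γ v) : MvPolynomial (Fin m) ℚ) +
        ∑ j', if J j' = v then X j' else 0) (pderiv (J j) P) := by
  classical
  have hX : ∀ v, pderiv j ((C (γ v) : MvPolynomial (Fin m) ℚ) +
      ∑ j', if J j' = v then X j' else 0) = if J j = v then 1 else 0 := by
    intro v
    rw [map_add, pderiv_C, zero_add, map_sum, Finset.sum_eq_single j]
    · split_ifs
      · rw [pderiv_X_self]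
      · rw [map_zero]
    · intro j' _ hj'
      split_ifs
      · exact pderiv_X_of_ne hj'
      · rw [map_zero]
    · intro h
      exact absurd (Finset.mem_univ j) h
  induction P using MvPolynomial.induction_on with
  | C a => simp
  | add p q hp hq => rw [map_add, map_add, map_add, map_add, hp, hq]
  | mul_X p v hp =>
    rw [map_mul, Derivation.leibniz, Derivation.leibniz, hp, aeval_X, hX, pderiv_X, map_add,
      smul_eq_mul, smul_eq_mul, smul_eq_mul, smul_eq_mul, map_mul, map_mul, aeval_X]
    congr 2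
    by_cases h : J j = v
    · subst h
      simp
    · rw [if_neg h, Pi.single_eq_of_ne (fun h' => h h'.symm), map_zero]

theorem hitN {m : ℕ} {ι : Type} [Fintype ι] (T : ι → MvPolynomial ℕ ℚ) (s : Fin m → ι)
    (halg : ∀ i, IsAlgebraic (Algebra.adjoin ℚ (Set.range fun j => T (s j))) (T i))
    (γ : ℕ → ℚ) (J : Fin m → ℕ)
    (hdet : eval γ (Matrix.of fun i j => pderiv (J j) (T (s i))).det ≠ 0)
    (f : MvPolynomial ℕ ℚ) (hf : f ∈ Algebra.adjoin ℚ (Set.range T)) (hf0 : f ≠ 0) (D : ℕ)
    (hD : f.totalDegree ≤ D) :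
    ∃ y : Fin m → ℕ, (∀ i, y i ≤ D) ∧
      eval (fun v => γ v + ∑ j, if J j = v then (y j : ℚ) else 0) f ≠ 0 := by
  classical
  set u : ℕ → MvPolynomial (Fin m) ℚ := fun v => (C (γ v) : MvPolynomial (Fin m) ℚ) +
    ∑ j', if J j' = v then X j' else 0 with hu
  set ψ : MvPolynomial ℕ ℚ →ₐ[ℚ] MvPolynomial (Fin m) ℚ := aeval u with hψ
  have hev : ∀ (y : Fin m → ℚ) (P : MvPolynomial ℕ ℚ),
      eval y (ψ P) = eval (fun v => γ v + ∑ j, if J j = v then y j else 0) P := by
    intro y P
    induction P using MvPolynomial.induction_on with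
    | C a => simp [hψ]
    | add p q hp hq => rw [map_add, map_add, map_add, hp, hq]
    | mul_X p v hp =>
      rw [map_mul, map_mul, map_mul, hp, hψ, aeval_X, eval_X, hu]
      congr 1
      simp only [map_add, eval_C, map_sum]
      congr 1
      refine Finset.sum_congr rfl fun j _ => ?_
      split_ifs
      · rw [eval_X]
      · rw [map_zero]
  -- algebraic independence
  have hind : AlgebraicIndependent ℚ fun j => ψ (T (s j)) := by
    refine Pool.Agent.Helper5.D4.algebraicIndependent_of_det
      (fun j : Fin m => (pderiv j : Derivation ℚ (MvPolynomial (Fin m) ℚ) _)) _ ?_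
    have h1 : (Matrix.of fun i j => pderiv j (ψ (T (s i)))).det =
        ψ (Matrix.of fun i j => pderiv (J j) (T (s i))).det := by
      rw [AlgHom.map_det]
      congr 1
      ext i j : 1
      simp only [AlgHom.mapMatrix_apply, Matrix.map_apply, Matrix.of_apply]
      exact faith_pderiv γ J j _
    rw [h1]
    intro h0
    have h2 := hev 0 (Matrix.of fun i j => pderiv (J j) (T (s i))).det
    rw [h0, map_zero] at h2
    apply hdet
    rw [h2]
    congr 2
    funext v
    simp
  have hsinj : Function.Injective s := by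
    intro a b hab
    exact hind.injective (by simp only [hab])
  have hind' : AlgebraicIndepOn ℚ (fun i => ψ (T i)) (Set.range s) := by
    have h1 : AlgebraicIndependent ℚ
        ((fun i : Set.range s => ψ (T i)) ∘ Equiv.ofInjective s hsinj) := hind
    exact (algebraicIndependent_equiv (Equiv.ofInjective s hsinj)).1 h1
  have himg : T '' Set.range s = Set.range fun j => T (s j) := (Set.range_comp T s).symm
  have hne : ψ f ≠ 0 := by
    refine Pool.Agent.Helper5.D4.faithful ψ T (Set.range s) hind' ?_ f hf hf0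
    rw [himg]
    exact halg
  -- a good point
  have hdeg : (ψ f).totalDegree ≤ D := by
    refine le_trans (Pool.Agent.Helper6.SP.totalDegree_aeval_le _ (fun v => ?_) f) hD
    rw [hu]
    refine (totalDegree_add _ _).trans (max_le ?_ ?_)
    · rw [totalDegree_C]
      exact Nat.zero_le _
    · refine totalDegree_finsetSum_le fun j _ => ?_
      split_ifs
      · rw [totalDegree_X]
      · rw [totalDegree_zero]
        exact Nat.zero_le _
  by_contra hcon
  push Not at hcon
  apply hne
  refine eq_zero_of_eval_zero_at_prod_finset (ψ f)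
    (fun _ => (Finset.range (D + 1)).image fun n : ℕ => (n : ℚ)) (fun i => ?_) ?_
  · rw [Finset.card_image_of_injective _ Nat.cast_injective, Finset.card_range]
    exact Nat.lt_succ_of_le ((degreeOf_le_totalDegree _ _).trans hdeg)
  · intro x hx
    have h1 : ∀ i, ∃ n : ℕ, n ≤ D ∧ (n : ℚ) = x i := by
      intro i
      obtain ⟨n, hn, hnx⟩ := Finset.mem_image.1 (hx i)
      exact ⟨n, Nat.lt_succ_iff.1 (Finset.mem_range.1 hn), hnx⟩
    choose y hy hyx using h1
    have h2 : x = fun i => (y i : ℚ) := funext fun i => (hyx i).symm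
    rw [hev, h2]
    exact hcon y hy

/-- a transcendence basis as an injective enumeration -/
theorem exists_basisN {ι : Type} [Fintype ι] (T : ι → MvPolynomial ℕ ℚ) (k : ℕ)
    (htr : ∀ b : Finset ι, AlgebraicIndepOn ℚ T (b : Set ι) → b.card ≤ k) :
    ∃ m ≤ k, ∃ s : Fin m → ι, AlgebraicIndependent ℚ (fun j => T (s j)) ∧
      ∀ i, IsAlgebraic (Algebra.adjoin ℚ (Set.range fun j => T (s j))) (T i) := by
  classical
  obtain ⟨b, hb, halg⟩ := Pool.Agent.Helper5.D4.exists_basis (k := ℚ) T
  refine ⟨b.card, htr b hb, fun j => (b.equivFin.symm j : b), ?_, ?_⟩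
  · have h1 : AlgebraicIndependent ℚ ((fun i : b => T i) ∘ b.equivFin.symm) :=
      (algebraicIndependent_equiv b.equivFin.symm).2 hb
    exact h1
  · intro i
    have h2 : T '' (b : Set ι) = Set.range fun j => T (b.equivFin.symm j : b) := by
      ext x
      constructor
      · rintro ⟨l, hl, rfl⟩
        exact ⟨b.equivFin ⟨l, hl⟩, by simp⟩
      · rintro ⟨j, rfl⟩
        exact ⟨_, (b.equivFin.symm j).2, rfl⟩
    rw [← h2]
    exact halg i

end Pool.Agent.PQ
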