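import Pool.Agent.PQ.Atom

set_option autoImplicit false

/-!
PQ-OutG. Evaluation of the composition at a point, and the list of the values, in polynomial time.

Plan: as `env2`, `outV`, `grid3` in `Helper6/SP/Test.lean` and `ptE_env2`, `outV_cd` in `Helper6/SP/Main.lean`: the value of a
pair at an environment is `(∏ topV) * (∑ ∏ topV)` (`FQ.listProd`, `FQ.listSum`); the environment
`L.zipIdx.map fun q => (q.2 + 3, value of q.1)`; `topV` of the word of `Q`.
-/

namespace Pool.Agent.PQ

open MvPolynomial N487b59b3 N68a2faeb Pool.Agent.Helper22 Pool.Agent.Helper6.WB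
  Pool.Agent.Helper6.SP

/-- all lists of words of the input -/
def inp (L : List Pr) : Inp := L.flatMap fun p => p.1 :: p.2

theorem fp_inp : FP inp := by
  have h1 : FP fun q : List Pr × Pr => q.2.1 :: q.2.2 := by fun_prop
  have h2 : FP fun L : List Pr => L.flatMap fun p =>
      (fun q : List Pr × Pr => q.2.1 :: q.2.2) (L, p) := fp_flatMap FP.id h1
  exact h2

/-- all words of the input are codes -/
def Codes (L : List Pr) : Prop := ∀ l ∈ inp L, ∀ w ∈ l, ∃ g : Fm, g.code = w

/-- the composition -/
noncomputable def cmpF (Q : Fm) (L : List Pr) : MvPolynomial ℕ ℚ :=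
  aeval (fun j => FF (L.getD j ([], []))) Q.poly

/-- the value of a product at an environment -/
private noncomputable def oPv (q : En × List Wd) : ℚ := (q.2.map fun g => topV g q.1).prod

private theorem fq_oPv : FQ oPv := fq_prV

/-- the value of a pair at an environment -/
private noncomputable def oV (q : En × Pr) : ℚ :=
  oPv (q.1, q.2.1) * (q.2.2.map fun l => oPv (q.1, l)).sum

private theorem fq_oV : FQ oV := by
  have h1 : FQ fun q : En × Pr => oPv (q.1, q.2.1) :=
    fq_oPv.comp (g := fun q : En × Pr => (q.1, q.2.1)) (by fun_prop)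
  have h2 : FQ fun p : En × List (List Wd) => (p.2.map fun l => oPv (p.1, l)).sum :=
    FQ.listSum fq_oPv
  have h3 : FQ fun q : En × Pr => (q.2.2.map fun l => oPv (q.1, l)).sum :=
    h2.comp (g := fun q : En × Pr => (q.1, q.2.2)) (by fun_prop)
  exact h1.mul h3

/-- the value as an element -/
private noncomputable def oF : En × Pr → El := fq_oV.choose

private theorem fp_oF : FP oF := fq_oV.choose_spec.1

private theorem toQ_oF (q : En × Pr) : toQ (oF q) = oV q := fq_oV.choose_spec.2.2 q

/-- the environment of the values -/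
private noncomputable def oEnv (p : En × List Pr) : En :=
  p.2.zipIdx.map fun q => (q.2 + 3, oF (p.1, q.1))

private theorem fp_oEnv : FP oEnv := by
  have h1 : FP fun r : (En × List Pr) × (Pr × ℕ) => ((r.2.2 + 3, oF (r.1.1, r.2.1)) : ℕ × El) :=
    FP.pair (Pool.Agent.Helper6.WB.FP.natAdd (by fun_prop) (FP.const 3))
      (fp_oF.comp (f := fun r : (En × List Pr) × (Pr × ℕ) => (r.1.1, r.2.1)) (by fun_prop))
  exact fp_map (fp_zipIdx FP.snd) h1

private theorem oPv_eq (E : En) (l : List Wd) (h : ∀ w ∈ l, ∃ g : Fm, g.code = w) :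
    oPv (E, l) = eval (ptE E) (l.map pw).prod := by
  unfold oPv
  rw [map_list_prod, List.map_map]
  congr 1
  exact List.map_congr_left fun w hw => topV_eq w (h w hw) E

private theorem oV_eq (E : En) (p : Pr) (h : ∀ l ∈ p.1 :: p.2, ∀ w ∈ l, ∃ g : Fm, g.code = w) :
    oV (E, p) = eval (ptE E) (FF p) := by
  unfold oV FF SS
  rw [map_mul, map_list_sum, List.map_map]
  simp only
  rw [oPv_eq E p.1 (h p.1 List.mem_cons_self)]
  congr 2
  exact List.map_congr_left fun l hl => oPv_eq E l (h l (List.mem_cons_of_mem _ hl))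

private theorem mem_inp {L : List Pr} {p : Pr} (hp : p ∈ L) {l : List Wd} (hl : l ∈ p.1 :: p.2) :
    l ∈ inp L := List.mem_flatMap.mpr ⟨p, hp, hl⟩

private theorem FF_nil : FF ([], []) = 0 := by
  simp [FF, SS]

private theorem ptE_oEnv (E : En) (L : List Pr) (hL : Codes L) (i : ℕ) :
    ptE (oEnv (E, L)) i = eval (ptE E) (FF (L.getD i ([], []))) := by
  rw [ptE, lookE]
  by_cases hi : i < L.length
  · rw [lookE_aux (oEnv (E, L)) (i + 3) (oF (E, L[i])), toQ_oF, List.getD_eq_getElem _ _ hi]
    · exact oV_eq E _ fun l hl w hw => hL l (mem_inp (List.getElem_mem hi) hl) w hw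
    · intro q hq hqi
      unfold oEnv at hq
      obtain ⟨⟨w, j⟩, hw, rfl⟩ := List.mem_map.mp hq
      rw [List.mem_zipIdx_iff_getElem?] at hw
      simp only at hqi hw ⊢
      have h1 : j = i := by omega
      subst h1
      obtain ⟨h2, h3⟩ := List.getElem?_eq_some_iff.mp hw
      rw [← h3]
    · right
      refine ⟨(i + 3, oF (E, L[i])), ?_, rfl⟩
      unfold oEnv
      rw [List.mem_map]
      refine ⟨(L[i], i), ?_, rfl⟩
      rw [List.mem_zipIdx_iff_getElem?]
      exact List.getElem?_eq_getElem hi
  · rw [lookE_aux (oEnv (E, L)) (i + 3) e0, List.getD_eq_default _ _ (not_lt.mp hi), FF_nil,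
      map_zero]
    · simp [toQ, e0]
    · intro q hq hqi
      unfold oEnv at hq
      obtain ⟨⟨w, j⟩, hw, rfl⟩ := List.mem_map.mp hq
      rw [List.mem_zipIdx_iff_getElem?] at hw
      simp only at hqi hw
      obtain ⟨h2, h3⟩ := List.getElem?_eq_some_iff.mp hw
      omega
    · exact Or.inl rfl

theorem exists_outG : ∃ o : En × (Wd × List Pr) → ℚ, FQ o ∧
    ∀ (E : En) (Q : Fm) (L : List Pr), Codes L →
      o (E, (Q.code, L)) = eval (ptE E) (cmpF Q L) := by
  refine ⟨fun p => topV p.2.1 (oEnv (p.1, p.2.2)), ?_, ?_⟩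
  · exact fq_topV (f := fun p : En × (Wd × List Pr) => p.2.1)
      (g := fun p : En × (Wd × List Pr) => oEnv (p.1, p.2.2)) (by fun_prop)
      (fp_oEnv.comp (f := fun p : En × (Wd × List Pr) => (p.1, p.2.2)) (by fun_prop))
  · intro E Q L hL
    simp only
    rw [topV_code, cmpF]
    induction Q with
    | const q =>
      simp only [Fm.ev, Fm.poly]
      rw [← algebraMap_eq, AlgHom.commutes, algebraMap_eq, eval_C]
    | var i =>
      simp only [Fm.ev, Fm.poly, aeval_X]
      exact ptE_oEnv E L hL i
    | add F G ihF ihG => simp only [Fm.ev, Fm.poly, map_add, ihF, ihG]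
    | mul F G ihF ihG => simp only [Fm.ev, Fm.poly, map_mul, ihF, ihG]

theorem exists_gridG (k : ℕ) : ∃ G : Wd × List Pr → List ℕ, FP G ∧
    ∀ (p : Wd × List Pr) (v : ℕ),
      v ≤ (p.1.length + k + 1) * (2 * ((toks (inp p.2)).length + 1) ^ 2) → v ∈ G p := by
  have h1 : FP fun p : Wd × List Pr => (toks (inp p.2)).map fun t =>
      (fun _ : (Wd × List Pr) × (ℕ × ℚ) => true) (p, t) :=
    fp_map (fp_toks.comp (fp_inp.comp FP.snd)) (FP.const true)
  have h2 : FP fun p : Wd × List Pr => p.1.map fun t =>
      (fun _ : (Wd × List Pr) × (ℕ × ℚ) => true) (p, t) :=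
    fp_map FP.fst (FP.const true)
  have h3 := FP.append h2 (FP.const (List.replicate (k + 1) true))
  have h4 := FP.cons (FP.const true) h1
  have h5 := FP.unMul (FP.unMul (FP.const [true, true]) h4) h4
  have h6 := FP.cons (FP.const true) (FP.unMul h3 h5)
  refine ⟨_, FP.range h6, ?_⟩
  intro p v hv
  rw [List.mem_range]
  simp only [List.length_cons, List.length_append, Helper22.un_length, List.length_map,
    List.length_replicate, List.length_nil]
  have e : (p.1.length + (k + 1)) * ((0 + 1 + 1) * ((toks (inp p.2)).length + 1) *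
      ((toks (inp p.2)).length + 1)) =
      (p.1.length + k + 1) * (2 * ((toks (inp p.2)).length + 1) ^ 2) := by ring
  omega

private theorem deg_pr (l : List Wd) (h : ∀ w ∈ l, Lo w) :
    (l.map pw).prod.totalDegree ≤ 2 * l.flatten.length := by
  induction l with
  | nil => simp
  | cons w l ih =>
    rw [List.map_cons, List.prod_cons, List.flatten_cons, List.length_append]
    refine (totalDegree_mul _ _).trans ?_
    obtain ⟨⟨g, hg⟩, h2⟩ := h w List.mem_cons_self
    have h3 := ih fun w' hw' => h w' (List.mem_cons_of_mem _ hw')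
    have h4 : 0 < w.length := by
      rw [← hg]
      exact (Fm.size_pos g).trans_le (size_le_code g)
    omega

private theorem deg_FF (p : Pr) (h : ∀ l ∈ p.1 :: p.2, ∀ w ∈ l, Lo w) :
    (FF p).totalDegree ≤ 2 * (toks (p.1 :: p.2)).length := by
  unfold FF
  refine (totalDegree_mul _ _).trans ?_
  have h1 := deg_pr p.1 (h p.1 List.mem_cons_self)
  have h2 : ∀ B : List (List Wd), (∀ l ∈ B, ∀ w ∈ l, Lo w) →
      (SS B).totalDegree ≤ 2 * (toks B).length := by
    intro B
    induction B with
    | nil =>
      intro _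
      simp [SS]
    | cons l B ih =>
      intro hB
      have h3 := ih fun l' hl' => hB l' (List.mem_cons_of_mem _ hl')
      have h4 := deg_pr l (hB l List.mem_cons_self)
      have h5 : SS (l :: B) = (l.map pw).prod + SS B := by
        unfold SS
        rw [List.map_cons, List.sum_cons]
      have h6 : (toks (l :: B)).length = l.flatten.length + (toks B).length := by
        unfold toks
        rw [List.flatten_cons, List.flatten_append, List.length_append]
      rw [h5, h6]
      refine (totalDegree_add _ _).trans (max_le ?_ ?_) <;> omega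
  have h3 := h2 p.2 fun l hl => h l (List.mem_cons_of_mem _ hl)
  have h6 : (toks (p.1 :: p.2)).length = p.1.flatten.length + (toks p.2).length := by
    unfold toks
    rw [List.flatten_cons, List.flatten_append, List.length_append]
  omega

private theorem toks_le {L : List Pr} {p : Pr} (hp : p ∈ L) :
    (toks (p.1 :: p.2)).length ≤ (toks (inp L)).length := by
  induction L with
  | nil => simp at hp
  | cons q L ih =>
    have h1 : (toks (inp (q :: L))).length =
        (toks (q.1 :: q.2)).length + (toks (inp L)).length := by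
      unfold toks inp
      rw [List.flatMap_cons, List.flatten_append, List.flatten_append, List.length_append]
    rcases List.mem_cons.mp hp with rfl | hp
    · omega
    · have := ih hp
      omega

theorem totalDegree_cmpF (Q : Fm) (L : List Pr) (h : ∀ l ∈ inp L, ∀ w ∈ l, Lo w) :
    (cmpF Q L).totalDegree ≤ Q.code.length * (2 * (toks (inp L)).length) := by
  refine le_trans ?_ (Nat.mul_le_mul_right _ (size_le_code Q))
  rw [cmpF]
  induction Q with
  | const q =>
    simp only [Fm.poly]
    rw [← algebraMap_eq, AlgHom.commutes, algebraMap_eq, totalDegree_C]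
    exact Nat.zero_le _
  | var i =>
    simp only [Fm.poly, aeval_X, Fm.size, one_mul]
    by_cases hi : i < L.length
    · rw [List.getD_eq_getElem _ _ hi]
      refine (deg_FF _ fun l hl w hw => h l (mem_inp (List.getElem_mem hi) hl) w hw).trans ?_
      exact Nat.mul_le_mul_left _ (toks_le (List.getElem_mem hi))
    · rw [List.getD_eq_default _ _ (not_lt.mp hi), FF_nil, totalDegree_zero]
      exact Nat.zero_le _
  | add F G ihF ihG =>
    simp only [Fm.poly, map_add, Fm.size, Nat.add_mul]
    exact (totalDegree_add _ _).trans (max_le (ihF.trans (Nat.le_add_right _ _))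
      (ihG.trans (Nat.le_add_left _ _)))
  | mul F G ihF ihG =>
    simp only [Fm.poly, map_mul, Fm.size, Nat.add_mul]
    exact (totalDegree_mul _ _).trans (Nat.add_le_add ihF ihG)

theorem cmpF_mem (Q : Fm) (L : List Pr) : cmpF Q L ∈
    Algebra.adjoin ℚ (Set.range fun j : Fin L.length => FF (L.get j)) := by
  rw [cmpF]
  induction Q with
  | const q =>
    simp only [Fm.poly]
    rw [← algebraMap_eq, AlgHom.commutes]
    exact Subalgebra.algebraMap_mem _ _
  | var i =>
    simp only [Fm.poly, aeval_X]
    by_cases h : i < L.length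
    · rw [List.getD_eq_getElem _ _ h]
      exact Algebra.subset_adjoin ⟨⟨i, h⟩, rfl⟩
    · rw [List.getD_eq_default _ _ (not_lt.mp h), FF_nil]
      exact Subalgebra.zero_mem _
  | add F G ihF ihG =>
    simp only [Fm.poly, map_add]
    exact Subalgebra.add_mem _ ihF ihG
  | mul F G ihF ihG =>
    simp only [Fm.poly, map_mul]
    exact Subalgebra.mul_mem _ ihF ihG

end Pool.Agent.PQ
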