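import Pool.Agent.PQ.Atom

set_option autoImplicit false

/-!
PQ-PtG. The test points `e + z u + ∑ y_b e_(V_b)` as environments, in polynomial time.

Plan: `u.map fun p => (p.1, elMul ((z, 0), 1) (fixE p.2))` represents `z u` (`lookE` of a map: the last entry wins);
`∑ y_b e_(V_b)`: fold of `envAdd` over the list of the pairs would double the keys (`envAdd` concatenates, the size stays
the sum of the sizes, fine), or the environment whose entry for `c` is the sum of the `y` with the key `c`.
-/

namespace Pool.Agent.PQ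

open MvPolynomial N487b59b3 N68a2faeb Pool.Agent.Helper22 Pool.Agent.Helper6.WB
  Pool.Agent.Helper6.SP

/-- a multiple of an environment -/
private def zE (z : ℕ) (u : En) : En := u.map fun p => (p.1, elMul ((z, 0), 1) (fixE p.2))

private theorem toQ_z (z : ℕ) (v : El) : toQ (elMul ((z, 0), 1) (fixE v)) = z * toQ v := by
  rw [toQ_mul, toQ_fixE]
  simp [toQ]

private theorem zE_fold (z : ℕ) (u : En) (c : ℕ) (v v' : El) (h : toQ v' = z * toQ v) :
    toQ ((zE z u).foldl (fun acc p => if p.1 = c then p.2 else acc) v') =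
      z * toQ (u.foldl (fun acc p => if p.1 = c then p.2 else acc) v) := by
  induction u generalizing v v' with
  | nil => exact h
  | cons p u ih =>
    simp only [zE, List.map_cons, List.foldl_cons] at ih ⊢
    apply ih
    by_cases h1 : p.1 = c
    · rw [if_pos h1, if_pos h1]
      exact toQ_z z p.2
    · rw [if_neg h1, if_neg h1]
      exact h

private theorem ptE_zE (z : ℕ) (u : En) (i : ℕ) : ptE (zE z u) i = z * ptE u i :=
  zE_fold z u (i + 3) e0 e0 (by simp [toQ, e0])

/-- an environment with entries depending on the key only -/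
private theorem kE_fold (l : List (ℕ × ℕ)) (G : ℕ → El) (c : ℕ) (v : El) :
    (l.map fun p => (p.1, G p.1)).foldl (fun acc p => if p.1 = c then p.2 else acc) v =
      if c ∈ l.map Prod.fst then G c else v := by
  induction l generalizing v with
  | nil => simp
  | cons p l ih =>
    simp only [List.map_cons, List.foldl_cons, List.mem_cons] at ih ⊢
    rw [ih]
    by_cases h1 : p.1 = c
    · subst h1
      simp
    · by_cases h2 : c ∈ l.map Prod.fst
      · simp [h2]
      · simp [h2, h1, Ne.symm h1]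

theorem exists_ptG : ∃ o : (En × En) × (ℕ × List (ℕ × ℕ)) → En, FP o ∧
    ∀ (e u : En) (z : ℕ) (l : List (ℕ × ℕ)) (i : ℕ),
      ptE (o ((e, u), (z, l))) i = ptE e i + z * ptE u i +
        (l.map fun p => if p.1 = i + 3 then (p.2 : ℚ) else 0).sum := by
  have h0 : FQ fun q : ℕ × (ℕ × ℕ) => if decide (q.2.1 = q.1) then ((q.2.2 : ℕ) : ℚ) else 0 :=
    FQ.ite (FP.natEq (by fun_prop) (by fun_prop)) (FQ.ofNat (by fun_prop)) (FQ.const 0)
  obtain ⟨F, h1, h2, h3⟩ := FQ.listSum h0
  have h4 : FP fun a : (En × En) × (ℕ × List (ℕ × ℕ)) => zE a.2.1 a.1.2 := by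
    unfold zE
    exact fp_map (f := fun a : (En × En) × (ℕ × List (ℕ × ℕ)) => a.1.2)
      (h := fun w : ((En × En) × (ℕ × List (ℕ × ℕ))) × (ℕ × El) =>
        (w.2.1, elMul ((w.1.2.1, 0), 1) (fixE w.2.2))) (by fun_prop)
      (FP.pair (by fun_prop) (fp_elMul (FP.pair (FP.pair (by fun_prop) (FP.const 0)) (FP.const 1))
        (fp_fixE (by fun_prop))))
  have h5 : FP fun a : (En × En) × (ℕ × List (ℕ × ℕ)) =>
      (a.2.2.map fun p => (p.1, F (p.1, a.2.2)) : En) :=
    fp_map (f := fun a : (En × En) × (ℕ × List (ℕ × ℕ)) => a.2.2)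
      (h := fun w : ((En × En) × (ℕ × List (ℕ × ℕ))) × (ℕ × ℕ) =>
        (w.2.1, F (w.2.1, w.1.2.2))) (by fun_prop)
      (FP.pair (by fun_prop) (h1.comp (FP.pair (by fun_prop) (by fun_prop))))
  refine ⟨fun a => envAdd (envAdd a.1.1 (zE a.2.1 a.1.2)) (a.2.2.map fun p =>
    (p.1, F (p.1, a.2.2))), fp_envAdd (fp_envAdd (by fun_prop) h4) h5, ?_⟩
  intro e u z l i
  have h6 : ptE (l.map fun p => (p.1, F (p.1, l))) i =
      (l.map fun p => if p.1 = i + 3 then (p.2 : ℚ) else 0).sum := by
    rw [ptE, lookE, kE_fold l (fun c => F (c, l))]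
    by_cases h7 : i + 3 ∈ l.map Prod.fst
    · rw [if_pos h7, h3]
      beta_reduce
      congr 1
      refine List.map_congr_left fun p _ => ?_
      simp
    · rw [if_neg h7, show toQ e0 = 0 by simp [toQ, e0]]
      symm
      apply List.sum_eq_zero
      intro x hx
      obtain ⟨p, hp, rfl⟩ := List.mem_map.1 hx
      rw [if_neg]
      rintro h8
      exact h7 (List.mem_map.2 ⟨p, hp, h8⟩)
  beta_reduce
  rw [ptE_envAdd, ptE_envAdd, ptE_zE, h6]

end Pool.Agent.PQ
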