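import Pool.Agent.PQ.Search

set_option autoImplicit false

/-!
PQ-SrchF. The search in polynomial time.

Plan: `FP.loopList` (Helper22/Typed.lean); the state is the context `x` (unchanged) and the environment `u`, which grows
by one entry `(c, ((v, 0), 1))` with `c` in `ns` and `v` in `x.2` or `0`, so its size is at most
`sz u + sum over ns of (constant * (sz c + sz x + constant))`.
-/

namespace Pool.Agent.PQ

open MvPolynomial N487b59b3 N68a2faeb Pool.Agent.Helper22 Pool.Agent.Helper6.WB
  Pool.Agent.Helper6.SP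

private theorem srchF_unitE {α : Type} [N487b59b3 α] {c : α → ℕ} (hc : FP c) :
    FP fun a => unitE (c a) :=
  FP.cons (FP.pair hc (FP.const ((1, 0), 1))) (FP.const [])

private theorem srchF_stepU {α : Type} [N487b59b3 α] {c v : α → ℕ} {u : α → En} (hc : FP c)
    (hv : FP v) (hu : FP u) : FP fun a => stepU (c a) (v a) (u a) :=
  FP.append hu (FP.cons (FP.pair hc (FP.pair (FP.pair hv (FP.const 0)) (FP.const 1)))
    (FP.const []))

private theorem srchF_step {g : Fr × (List Pr × List ℕ) → Bool} (hg : FP g) : FP (srF g) := by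
  have e1 : FP fun z : (List ℕ × (Sc × En)) × ℕ => z.1.1.headD 0 := by fun_prop
  have e2 : FP fun z : (List ℕ × (Sc × En)) × ℕ => z.1.1.tail := by fun_prop
  have e3 : FP fun z : (List ℕ × (Sc × En)) × ℕ => z.1.1.tail.map fun c =>
      (fun q : ((List ℕ × (Sc × En)) × ℕ) × ℕ => unitE q.2) (z, c) :=
    fp_map e2 (srchF_unitE FP.snd)
  have e4 : FP fun z : (List ℕ × (Sc × En)) × ℕ =>
      ((z.1.2.1.1.1, stepU (z.1.1.headD 0) z.2 z.1.2.2 :: z.1.1.tail.map unitE),
        z.1.2.1.1.2) := by
    refine FP.pair (FP.pair (by fun_prop) (FP.cons (srchF_stepU e1 FP.snd (by fun_prop)) e3))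
      (by fun_prop)
  have e5 : FP fun z : (List ℕ × (Sc × En)) × ℕ =>
      if g ((z.1.2.1.1.1, stepU (z.1.1.headD 0) z.2 z.1.2.2 :: z.1.1.tail.map unitE),
        z.1.2.1.1.2) then [] else [z.2] :=
    FP.ite (hg.comp e4) (FP.const []) (FP.cons FP.snd (FP.const []))
  have e6 : FP fun p : List ℕ × (Sc × En) => p.2.1.2.flatMap fun v =>
      (fun z : (List ℕ × (Sc × En)) × ℕ =>
        if g ((z.1.2.1.1.1, stepU (z.1.1.headD 0) z.2 z.1.2.2 :: z.1.1.tail.map unitE),
          z.1.2.1.1.2) then [] else [z.2]) (p, v) :=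
    fp_flatMap (by fun_prop) e5
  have e7 : FP fun p : List ℕ × (Sc × En) =>
      pick g p.2.1 (p.1.headD 0) p.1.tail p.2.2 := FP.headD e6 0
  exact FP.pair (by fun_prop) (srchF_stepU (by fun_prop) e7 (by fun_prop))

private theorem srchF_pick (g : Fr × (List Pr × List ℕ) → Bool) (x : Sc) (c : ℕ) (ns : List ℕ)
    (u : En) : sz (pick g x c ns u) ≤ sz x := by
  unfold pick
  rcases h : (x.2.flatMap fun v =>
      if g ((x.1.1, stepU c v u :: ns.map unitE), x.1.2) then [] else [v]) with _ | ⟨w, l⟩
  · rw [List.headD_nil, sz_nat, Nat.size_zero]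
    exact Nat.zero_le _
  · rw [List.headD_cons]
    have h1 : w ∈ (x.2.flatMap fun v =>
      if g ((x.1.1, stepU c v u :: ns.map unitE), x.1.2) then [] else [v]) := by
      rw [h]; exact List.mem_cons_self
    obtain ⟨v, hv, hw⟩ := List.mem_flatMap.1 h1
    have h2 : w = v := by
      split_ifs at hw
      · simp at hw
      · simpa using hw
    subst h2
    have h3 := sz_mem_le hv
    obtain ⟨x1, x2⟩ := x
    rw [sz_pair]
    simp only at h3
    omega

private theorem srchF_sz (c v : ℕ) (u : En) : sz (stepU c v u) = sz u + (4 * sz c + 8 * sz v + 11) := by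
  have h0 : sz (0 : ℕ) = 0 := by rw [sz_nat, Nat.size_zero]
  have h1 : sz (1 : ℕ) = 1 := by rw [sz_nat, Nat.size_one]
  unfold stepU
  rw [sz_append, sz_cons, sz_nil, sz_pair, sz_pair, sz_pair, h0, h1]
  omega

private theorem srchF_iter (g : Fr × (List Pr × List ℕ) → Bool) (x : Sc) (i : ℕ) :
    ∀ (l : List ℕ) (u : En), i ≤ l.length →
      sz ((fun p : List ℕ × (Sc × En) => (p.1.tail, srF g p))^[i] (l, (x, u))).2 ≤
        sz (x, u) + 4 * sz l + (8 * sz x + 11) * l.length := by
  induction i with
  | zero =>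
    intro l u _
    simp only [Function.iterate_zero, id]
    omega
  | succ i ih =>
    intro l u hi
    cases l with
    | nil => simp at hi
    | cons c l =>
      rw [Function.iterate_succ_apply]
      refine (ih l (stepU c (pick g x c l u) u) (by simpa using hi)).trans ?_
      have h2 := srchF_pick g x c l u
      have h3 : sz (x, stepU c (pick g x c l u) u) =
          2 * sz x + 1 + sz (stepU c (pick g x c l u) u) := sz_pair _ _
      have h4 : sz (x, u) = 2 * sz x + 1 + sz u := sz_pair _ _
      rw [h3, h4, srchF_sz, sz_cons, List.length_cons, Nat.mul_succ]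
      omega

theorem fp_srch {g : Fr × (List Pr × List ℕ) → Bool} (hg : FP g) :
    FP fun p : Sc × List ℕ => srch g p.1 p.2 := by
  have h := FP.loopList (β := ℕ) (f := srF g) (srchF_step hg)
    (B := fun n => n + 4 * n + (8 * n + 11) * n) (by fun_prop) (by
      rintro l ⟨x, u⟩ i hi
      refine (srchF_iter g x i l u hi).trans ?_
      have h1 := length_le_sz l
      have h2 : sz l ≤ sz (l, (x, u)) := by rw [sz_pair]; omega
      have h3 : sz (x, u) ≤ sz (l, (x, u)) := by rw [sz_pair (a := l)]; omega
      have h4 : sz x ≤ sz (l, (x, u)) := by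
        refine le_trans ?_ h3
        rw [sz_pair (a := x)]; omega
      have h5 : (8 * sz x + 11) * l.length ≤ (8 * sz (l, (x, u)) + 11) * sz (l, (x, u)) :=
        Nat.mul_le_mul (by omega) (h1.trans h2)
      omega)
  exact FP.snd.comp (h.comp (FP.pair FP.snd (FP.pair FP.fst (FP.const ([] : En)))))

end Pool.Agent.PQ
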