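import Pool.Agent.PQ.Defs

set_option autoImplicit false

/-!
PQ-Fip. The Fischer inner product `fip p q = ∑ m! p_m q_m` on polynomials: bilinear, symmetric,
positive definite, `x_i` is adjoint to `∂_i`.

Plan: `fip p q = ∑ m ∈ s, m! p_m q_m` for every finite set `s` containing the support of `p` (or of
`q`). `fip (X i * p) q`: both sides are linear in `p` and `q`; for monomials use
`coeff_pderiv` (`coeff m (pderiv i q) = coeff (m + single i 1) q * (m i + 1)`) and
`(m + single i 1)! = m! (m i + 1)`.
-/

namespace Pool.Agent.PQ

open MvPolynomial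

/-- the weight of a monomial -/
noncomputable def mfac (m : ℕ →₀ ℕ) : ℚ := m.prod fun _ k => (k.factorial : ℚ)

theorem mfac_pos (m : ℕ →₀ ℕ) : 0 < mfac m := by
  unfold mfac
  exact Finset.prod_pos fun i _ => Nat.cast_pos.2 (Nat.factorial_pos _)

theorem fip_eq {p q : MvPolynomial ℕ ℚ} {s : Finset (ℕ →₀ ℕ)} (h : p.support ⊆ s) :
    fip p q = ∑ m ∈ s, mfac m * (coeff m p * coeff m q) := by
  unfold fip
  apply Finset.sum_subset h
  intro m _ hm
  rw [MvPolynomial.notMem_support_iff.1 hm]
  ring

theorem fip_comm (p q : MvPolynomial ℕ ℚ) : fip p q = fip q p := by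
  classical
  rw [fip_eq (s := p.support ∪ q.support) Finset.subset_union_left,
    fip_eq (s := p.support ∪ q.support) Finset.subset_union_right]
  exact Finset.sum_congr rfl fun m _ => by ring

theorem fip_add_left (p p' q : MvPolynomial ℕ ℚ) : fip (p + p') q = fip p q + fip p' q := by
  classical
  rw [fip_eq (p := p + p') (s := p.support ∪ p'.support) MvPolynomial.support_add,
    fip_eq (p := p) (s := p.support ∪ p'.support) Finset.subset_union_left,
    fip_eq (p := p') (s := p.support ∪ p'.support) Finset.subset_union_right,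
    ← Finset.sum_add_distrib]
  refine Finset.sum_congr rfl fun m _ => ?_
  rw [coeff_add]
  ring

theorem fip_add_right (p q q' : MvPolynomial ℕ ℚ) : fip p (q + q') = fip p q + fip p q' := by
  rw [fip_comm, fip_add_left, fip_comm q, fip_comm q']

theorem fip_C_left (c : ℚ) (p q : MvPolynomial ℕ ℚ) : fip (C c * p) q = c * fip p q := by
  classical
  have h : (C c * p).support ⊆ p.support := by
    intro m hm
    rw [MvPolynomial.mem_support_iff, coeff_C_mul] at hm
    rw [MvPolynomial.mem_support_iff]
    exact fun h0 => hm (by rw [h0, mul_zero])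
  rw [fip_eq h, fip_eq (Finset.Subset.refl p.support), Finset.mul_sum]
  refine Finset.sum_congr rfl fun m _ => ?_
  rw [coeff_C_mul]
  ring

theorem fip_C_right (c : ℚ) (p q : MvPolynomial ℕ ℚ) : fip p (C c * q) = c * fip p q := by
  rw [fip_comm, fip_C_left, fip_comm]

theorem fip_zero_left (q : MvPolynomial ℕ ℚ) : fip 0 q = 0 := by
  unfold fip
  simp

theorem fip_zero_right (q : MvPolynomial ℕ ℚ) : fip q 0 = 0 := by
  rw [fip_comm, fip_zero_left]

theorem fip_sum_left {ι : Type*} (s : Finset ι) (f : ι → MvPolynomial ℕ ℚ)
    (q : MvPolynomial ℕ ℚ) : fip (∑ i ∈ s, f i) q = ∑ i ∈ s, fip (f i) q := by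
  classical
  induction s using Finset.induction_on with
  | empty => simp [fip_zero_left]
  | insert a s ha ih => rw [Finset.sum_insert ha, Finset.sum_insert ha, fip_add_left, ih]

theorem fip_sum_right {ι : Type*} (s : Finset ι) (f : ι → MvPolynomial ℕ ℚ)
    (q : MvPolynomial ℕ ℚ) : fip q (∑ i ∈ s, f i) = ∑ i ∈ s, fip q (f i) := by
  rw [fip_comm, fip_sum_left]
  exact Finset.sum_congr rfl fun i _ => fip_comm _ _

theorem fip_list_left (l : List (MvPolynomial ℕ ℚ)) (q : MvPolynomial ℕ ℚ) :
    fip l.sum q = (l.map fun p => fip p q).sum := by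
  induction l with
  | nil => simp [fip_zero_left]
  | cons a l ih => rw [List.sum_cons, fip_add_left, ih, List.map_cons, List.sum_cons]

theorem fip_list_right (l : List (MvPolynomial ℕ ℚ)) (q : MvPolynomial ℕ ℚ) :
    fip q l.sum = (l.map fun p => fip q p).sum := by
  induction l with
  | nil => simp [fip_zero_right]
  | cons a l ih => rw [List.sum_cons, fip_add_right, ih, List.map_cons, List.sum_cons]

theorem fip_one_one : fip 1 1 = 1 := by
  classical
  have h : (1 : MvPolynomial ℕ ℚ).support ⊆ {0} := by
    intro m hm
    rw [MvPolynomial.mem_support_iff, coeff_one] at hm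
    rw [Finset.mem_singleton]
    by_contra h0
    exact hm (if_neg (fun h => h0 h.symm))
  rw [fip_eq h, Finset.sum_singleton, coeff_zero_one]
  simp [mfac]

private theorem fip_monomial (m m' : ℕ →₀ ℕ) (a b : ℚ) :
    fip (monomial m a) (monomial m' b) = if m = m' then mfac m * (a * b) else 0 := by
  classical
  have h : (monomial m a : MvPolynomial ℕ ℚ).support ⊆ {m} := by
    intro k hk
    rw [MvPolynomial.mem_support_iff, coeff_monomial] at hk
    rw [Finset.mem_singleton]
    by_contra h0
    exact hk (if_neg (fun h => h0 h.symm))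
  rw [fip_eq h, Finset.sum_singleton, coeff_monomial, coeff_monomial, if_pos rfl]
  by_cases h' : m = m'
  · rw [if_pos h', if_pos h'.symm]
  · rw [if_neg h', if_neg (fun h => h' h.symm)]
    ring

private theorem mfac_add_single (m : ℕ →₀ ℕ) (i : ℕ) :
    mfac (m + Finsupp.single i 1) = mfac m * ((m i : ℚ) + 1) := by
  classical
  have hf : ∀ k : ℕ →₀ ℕ, ∀ s : Finset ℕ, k.support ⊆ s →
      mfac k = ∏ j ∈ s, ((k j).factorial : ℚ) := by
    intro k s hs
    unfold mfac
    rw [Finsupp.prod_of_support_subset _ hs]
    intro j _
    simp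
  set s : Finset ℕ := insert i m.support with hs
  have h1 : m.support ⊆ s := Finset.subset_insert _ _
  have h2 : (m + Finsupp.single i 1).support ⊆ s := by
    refine (Finsupp.support_add).trans ?_
    refine Finset.union_subset h1 ?_
    refine Finsupp.support_single_subset.trans ?_
    intro j hj
    rw [Finset.mem_singleton] at hj
    rw [hj]
    exact Finset.mem_insert_self _ _
  rw [hf _ s h2, hf _ s h1]
  have hi : i ∈ s := Finset.mem_insert_self _ _
  rw [← Finset.mul_prod_erase s _ hi, ← Finset.mul_prod_erase s _ hi]
  have h3 : ∏ j ∈ s.erase i, (((m + Finsupp.single i 1 : ℕ →₀ ℕ) j).factorial : ℚ) =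
      ∏ j ∈ s.erase i, ((m j).factorial : ℚ) := by
    refine Finset.prod_congr rfl fun j hj => ?_
    have : j ≠ i := Finset.ne_of_mem_erase hj
    rw [Finsupp.add_apply, Finsupp.single_apply, if_neg (fun h => this h.symm), add_zero]
  rw [h3, Finsupp.add_apply, Finsupp.single_apply, if_pos rfl, Nat.factorial_succ]
  push_cast
  ring

/-- multiplication by a variable is adjoint to the derivation -/
theorem fip_X_mul (i : ℕ) (p q : MvPolynomial ℕ ℚ) : fip (X i * p) q = fip p (pderiv i q) := by
  classical
  induction p using MvPolynomial.induction_on' with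
  | monomial m a =>
    induction q using MvPolynomial.induction_on' with
    | monomial m' b =>
      have e1 : (X i * monomial m a : MvPolynomial ℕ ℚ) =
          monomial (m + Finsupp.single i 1) a := by
        rw [X, monomial_mul, one_mul, add_comm]
      rw [e1, pderiv_monomial, fip_monomial, fip_monomial]
      by_cases h : m + Finsupp.single i 1 = m'
      · have h' : m = m' - Finsupp.single i 1 := by
          rw [← h, add_tsub_cancel_right]
        rw [if_pos h, if_pos h', mfac_add_single]
        have : (m' i : ℚ) = (m i : ℚ) + 1 := by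
          rw [← h, Finsupp.add_apply, Finsupp.single_apply, if_pos rfl]
          push_cast
          ring
        rw [this]
        ring
      · rw [if_neg h]
        by_cases h' : m = m' - Finsupp.single i 1
        · rw [if_pos h']
          have h0 : m' i = 0 := by
            by_contra h0
            apply h
            rw [h']
            ext j
            by_cases hj : j = i
            · subst hj
              simp
              omega
            · simp [Finsupp.single_apply, Ne.symm hj]
          rw [h0]
          simp
        · rw [if_neg h']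
    | add q q' hq hq' => rw [fip_add_right, hq, hq', map_add, fip_add_right]
  | add p p' hp hp' => rw [mul_add, fip_add_left, hp, hp', fip_add_left]

theorem fip_mul_X (i : ℕ) (p q : MvPolynomial ℕ ℚ) : fip p (X i * q) = fip (pderiv i p) q := by
  rw [fip_comm, fip_X_mul, fip_comm]

/-- scaling of the variable `x_0` -/
noncomputable def sc0 (w : ℚ) : MvPolynomial ℕ ℚ →ₐ[ℚ] MvPolynomial ℕ ℚ :=
  aeval fun i => if i = 0 then C w * X 0 else X i

theorem coeff_sc0 (w : ℚ) (p : MvPolynomial ℕ ℚ) (m : ℕ →₀ ℕ) :
    coeff m (sc0 w p) = w ^ m 0 * coeff m p := by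
  classical
  induction p using MvPolynomial.induction_on' with
  | monomial m' a =>
    have e1 : sc0 w (monomial m' a) = C (w ^ m' 0) * monomial m' a := by
      unfold sc0
      rw [aeval_monomial, monomial_eq]
      have e2 : (m'.prod fun i k => (if i = 0 then C w * X 0 else X i : MvPolynomial ℕ ℚ) ^ k) =
          C (w ^ m' 0) * m'.prod fun i k => (X i : MvPolynomial ℕ ℚ) ^ k := by
        unfold Finsupp.prod
        have e3 : ∀ i ∈ m'.support, (if i = 0 then C w * X 0 else X i : MvPolynomial ℕ ℚ) ^ m' i =
            (if i = 0 then C (w ^ m' 0) else 1) * (X i : MvPolynomial ℕ ℚ) ^ m' i := by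
          intro i _
          by_cases hi : i = 0
          · subst hi
            rw [if_pos rfl, if_pos rfl, mul_pow, map_pow]
          · rw [if_neg hi, if_neg hi, one_mul]
        rw [Finset.prod_congr rfl e3, Finset.prod_mul_distrib]
        congr 1
        rw [Finset.prod_ite_eq' m'.support 0]
        by_cases h0 : (0 : ℕ) ∈ m'.support
        · rw [if_pos h0]
        · rw [if_neg h0, Finsupp.notMem_support_iff.1 h0, pow_zero, map_one]
      rw [e2]
      rw [algebraMap_eq]
      ring
    rw [e1, coeff_C_mul, coeff_monomial]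
    by_cases h : m' = m
    · rw [if_pos h, h]
    · rw [if_neg h, mul_zero, mul_zero]
  | add p p' hp hp' => rw [map_add, coeff_add, hp, hp', coeff_add, mul_add]

theorem fip_sc0 (w : ℚ) (p : MvPolynomial ℕ ℚ) :
    fip (sc0 w p) p = ∑ m ∈ p.support, w ^ m 0 * (mfac m * coeff m p ^ 2) := by
  classical
  have h : (sc0 w p).support ⊆ p.support := by
    intro m hm
    rw [MvPolynomial.mem_support_iff, coeff_sc0] at hm
    rw [MvPolynomial.mem_support_iff]
    exact fun h0 => hm (by rw [h0, mul_zero])
  rw [fip_eq h]
  refine Finset.sum_congr rfl fun m _ => ?_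
  rw [coeff_sc0]
  ring

end Pool.Agent.PQ
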