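import Pool.Agent.PQ.Defs

set_option autoImplicit false

/-!
PQ-Hi. Polynomials of high order (at the origin), in any commutative ring of coefficients `ℚ`.

`Hi M p`: all coefficients of degree at most `M` vanish. Plan: `Hi` is an ideal; if `p = ∑_{deg = a}..`, the
coefficient of `p * q` at `m` is a sum over `antidiagonal m`. Unit: if the constant coefficient of `u` is not zero
and `p` has a nonzero coefficient of degree at most `M`, take such a monomial of minimal degree (and e.g. minimal
in the order of `u * p`): all other contributions to that coefficient of `u * p` vanish.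
-/

namespace Pool.Agent.PQ

open MvPolynomial

/-- all coefficients of degree at most `M` vanish -/
def Hi (M : ℕ) (p : MvPolynomial ℕ ℚ) : Prop := ∀ m : ℕ →₀ ℕ, m.degree ≤ M → coeff m p = 0

theorem Hi.zero (M : ℕ) : Hi M 0 := fun _ _ => coeff_zero _

theorem Hi.add {M : ℕ} {p q : MvPolynomial ℕ ℚ} (hp : Hi M p) (hq : Hi M q) : Hi M (p + q) := by
  intro m hm
  rw [coeff_add, hp m hm, hq m hm, add_zero]

theorem Hi.neg {M : ℕ} {p : MvPolynomial ℕ ℚ} (hp : Hi M p) : Hi M (-p) := by
  intro m hm
  rw [coeff_neg, hp m hm, neg_zero]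

theorem Hi.sub {M : ℕ} {p q : MvPolynomial ℕ ℚ} (hp : Hi M p) (hq : Hi M q) : Hi M (p - q) := by
  rw [sub_eq_add_neg]
  exact hp.add hq.neg

theorem Hi.mul_left {M : ℕ} {p : MvPolynomial ℕ ℚ} (q : MvPolynomial ℕ ℚ) (hp : Hi M p) :
    Hi M (q * p) := by
  intro m hm
  rw [coeff_mul]
  refine Finset.sum_eq_zero fun x hx => ?_
  have h1 : x.1 + x.2 = m := Finset.HasAntidiagonal.mem_antidiagonal.1 hx
  have h2 : x.1.degree + x.2.degree = m.degree := by
    rw [← h1]
    exact (map_add Finsupp.degree x.1 x.2).symm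
  rw [hp x.2 (by omega), mul_zero]

theorem Hi.mul_right {M : ℕ} {p : MvPolynomial ℕ ℚ} (q : MvPolynomial ℕ ℚ) (hp : Hi M p) :
    Hi M (p * q) := by
  rw [mul_comm]
  exact hp.mul_left q

theorem Hi.sum {M : ℕ} {ι : Type*} (s : Finset ι) {f : ι → MvPolynomial ℕ ℚ}
    (h : ∀ i ∈ s, Hi M (f i)) : Hi M (∑ i ∈ s, f i) := by
  intro m hm
  rw [coeff_sum]
  exact Finset.sum_eq_zero fun i hi => h i hi m hm

/-- a polynomial without constant term has high powers of high order -/
theorem Hi.pow {p : MvPolynomial ℕ ℚ} (h : coeff 0 p = 0) (M : ℕ) : Hi M (p ^ (M + 1)) := by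
  have key : ∀ k : ℕ, ∀ m : ℕ →₀ ℕ, m.degree < k → coeff m (p ^ k) = 0 := by
    intro k
    induction k with
    | zero => intro m hm; omega
    | succ k ih =>
      intro m hm
      rw [pow_succ, coeff_mul]
      refine Finset.sum_eq_zero fun x hx => ?_
      have h1 : x.1 + x.2 = m := Finset.HasAntidiagonal.mem_antidiagonal.1 hx
      have h2 : x.1.degree + x.2.degree = m.degree := by
        rw [← h1]
        exact (map_add Finsupp.degree x.1 x.2).symm
      by_cases hx2 : x.2 = 0
      · rw [hx2, h, mul_zero]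
      · have h3 : x.2.degree ≠ 0 := by
          intro h0
          exact hx2 ((Finsupp.degree_eq_zero_iff x.2).1 h0)
        rw [ih x.1 (by omega), zero_mul]
  intro m hm
  exact key (M + 1) m (by omega)

/-- multiplication by a polynomial with a nonzero constant term -/
theorem hi_unit {M : ℕ} {u p : MvPolynomial ℕ ℚ} (hu : coeff 0 u ≠ 0) :
    Hi M (u * p) ↔ Hi M p := by
  refine ⟨fun h => ?_, fun h => h.mul_left u⟩
  have key : ∀ k : ℕ, ∀ m : ℕ →₀ ℕ, m.degree = k → k ≤ M → coeff m p = 0 := by
    intro k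
    induction k using Nat.strong_induction_on with
    | _ k ih =>
      intro m hm hk
      have h1 : coeff m (u * p) = 0 := h m (by omega)
      rw [coeff_mul] at h1
      rw [Finset.sum_eq_single (0, m)] at h1
      · rcases mul_eq_zero.1 h1 with h2 | h2
        · exact absurd h2 hu
        · exact h2
      · intro x hx hne
        have h2 : x.1 + x.2 = m := Finset.HasAntidiagonal.mem_antidiagonal.1 hx
        have h3 : x.1.degree + x.2.degree = m.degree := by
          rw [← h2]
          exact (map_add Finsupp.degree x.1 x.2).symm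
        have h4 : x.1 ≠ 0 := by
          intro h0
          apply hne
          rw [h0, zero_add] at h2
          exact Prod.ext h0 h2
        have h5 : x.1.degree ≠ 0 := by
          intro h0
          exact h4 ((Finsupp.degree_eq_zero_iff x.1).1 h0)
        rw [ih x.2.degree (by omega) x.2 rfl (by omega), mul_zero]
      · intro hx
        exact absurd (Finset.HasAntidiagonal.mem_antidiagonal.2 (zero_add m)) hx
  intro m hm
  exact key m.degree m rfl hm

theorem hi_iff_zero {M : ℕ} {p : MvPolynomial ℕ ℚ} (h : p.totalDegree ≤ M) : Hi M p ↔ p = 0 := by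
  refine ⟨fun hp => ?_, fun hp => ?_⟩
  · ext m
    rw [coeff_zero]
    by_cases hm : m.degree ≤ M
    · exact hp m hm
    · apply coeff_eq_zero_of_totalDegree_lt
      have h1 : m.degree = ∑ i ∈ m.support, m i := rfl
      omega
  · rw [hp]
    exact Hi.zero M

/-- congruence modulo polynomials of order greater than `M` -/
def Cg (M : ℕ) (p q : MvPolynomial ℕ ℚ) : Prop := Hi M (p - q)

theorem Cg.refl (M : ℕ) (p : MvPolynomial ℕ ℚ) : Cg M p p := by
  unfold Cg
  rw [sub_self]
  exact Hi.zero M

theorem Cg.symm {M : ℕ} {p q : MvPolynomial ℕ ℚ} (h : Cg M p q) : Cg M q p := by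
  unfold Cg at *
  rw [← neg_sub]
  exact h.neg

theorem Cg.trans {M : ℕ} {p q r : MvPolynomial ℕ ℚ} (h : Cg M p q) (h' : Cg M q r) :
    Cg M p r := by
  unfold Cg at *
  have e : p - r = (p - q) + (q - r) := by ring
  rw [e]
  exact h.add h'

theorem Cg.add {M : ℕ} {p q p' q' : MvPolynomial ℕ ℚ} (h : Cg M p q) (h' : Cg M p' q') :
    Cg M (p + p') (q + q') := by
  unfold Cg at *
  have e : p + p' - (q + q') = (p - q) + (p' - q') := by ring
  rw [e]
  exact h.add h'

theorem Cg.mul {M : ℕ} {p q p' q' : MvPolynomial ℕ ℚ} (h : Cg M p q) (h' : Cg M p' q') :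
    Cg M (p * p') (q * q') := by
  unfold Cg at *
  have e : p * p' - q * q' = p' * (p - q) + q * (p' - q') := by ring
  rw [e]
  exact (h.mul_left p').add (h'.mul_left q)

theorem Cg.sum {M : ℕ} {ι : Type*} (s : Finset ι) {f g : ι → MvPolynomial ℕ ℚ}
    (h : ∀ i ∈ s, Cg M (f i) (g i)) : Cg M (∑ i ∈ s, f i) (∑ i ∈ s, g i) := by
  unfold Cg at *
  rw [← Finset.sum_sub_distrib]
  exact Hi.sum s h

theorem Cg.prod {M : ℕ} {ι : Type*} (s : Finset ι) {f g : ι → MvPolynomial ℕ ℚ}
    (h : ∀ i ∈ s, Cg M (f i) (g i)) : Cg M (∏ i ∈ s, f i) (∏ i ∈ s, g i) := by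
  classical
  induction s using Finset.induction_on with
  | empty =>
    rw [Finset.prod_empty, Finset.prod_empty]
    exact Cg.refl M 1
  | insert a s ha ih =>
    rw [Finset.prod_insert ha, Finset.prod_insert ha]
    exact (h a (Finset.mem_insert_self a s)).mul
      (ih fun i hi => h i (Finset.mem_insert_of_mem hi))

theorem Cg.listSum {M : ℕ} {ι : Type*} (l : List ι) {f g : ι → MvPolynomial ℕ ℚ}
    (h : ∀ i ∈ l, Cg M (f i) (g i)) : Cg M (l.map f).sum (l.map g).sum := by
  induction l with
  | nil =>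
    exact Cg.refl M _
  | cons a l ih =>
    rw [List.map_cons, List.map_cons, List.sum_cons, List.sum_cons]
    exact (h a List.mem_cons_self).add (ih fun i hi => h i (List.mem_cons_of_mem a hi))

/-- determinants of congruent matrices -/
theorem Cg.det {M m : ℕ} {A B : Fin m → Fin m → MvPolynomial ℕ ℚ}
    (h : ∀ i j, Cg M (A i j) (B i j)) : Cg M (Matrix.of A).det (Matrix.of B).det := by
  rw [Matrix.det_apply', Matrix.det_apply']
  refine Cg.sum _ fun σ _ => ?_
  refine (Cg.refl M _).mul ?_
  refine Cg.prod _ fun i _ => ?_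
  exact h (σ i) i

theorem Cg.hi_iff {M : ℕ} {p q : MvPolynomial ℕ ℚ} (h : Cg M p q) : Hi M p ↔ Hi M q := by
  unfold Cg at h
  refine ⟨fun hp => ?_, fun hq => ?_⟩
  · have e : q = p - (p - q) := by ring
    rw [e]
    exact hp.sub h
  · have e : p = (p - q) + q := by ring
    rw [e]
    exact h.add hq

end Pool.Agent.PQ
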