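import Pool.Agent.PQ.Hi

/-!
PQ-Minor. The reduced minor decides whether the Jacobian minor vanishes on the affine subspace.

Plan. Put `g = sub e U (pw w)`, `c = eval (ptE e) (pw w) = coeff 0 g` (`coeff_sub_zero`). If `c ≠ 0` then `g * inv M e U w`
is congruent to `1` modulo `Hi M`: with `B = g - C c`, `g = c + B`,
`(c + B) ∑_{i ≤ M} (-1)^i c^(-i-1) B^i = 1 + (-1)^M c^(-M-1) B^(M+1)` and `Hi.pow`.
`∏_{w ∈ A} sub(pw w) * EE = sub (∂_v FF)` modulo `Hi M`: the derivative of a list product is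
`∑_w ∂_v(pw w) ∏_{others}` (induction on the list). So `(∏ over the rows of the products) * DD` is congruent to
`det (sub (∂ FF)) = sub (JJ)`; the first factor has constant term `∏ c ≠ 0` (`hi_unit`), and
`totalDegree (sub JJ) ≤ totalDegree JJ ≤ M` (`hi_iff_zero`).
-/

set_option autoImplicit false

namespace Pool.Agent.PQ

open MvPolynomial Pool.Agent.Helper6.SP

theorem coeff_sub_zero (e : En) (U : List En) (p : MvPolynomial ℕ ℚ) :
    coeff 0 (sub e U p) = eval (ptE e) p := by
  have h : (constantCoeff : MvPolynomial ℕ ℚ →+* ℚ).comp (sub e U : MvPolynomial ℕ ℚ →ₐ[ℚ] _).toRingHom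
      = eval (ptE e) := by
    apply MvPolynomial.ringHom_ext
    · intro a
      simp [sub]
    · intro i
      simp [sub]
  exact RingHom.congr_fun h p

theorem totalDegree_sub_le (e : En) (U : List En) (p : MvPolynomial ℕ ℚ) :
    (sub e U p).totalDegree ≤ p.totalDegree := by
  have hL : ∀ i, (C (ptE e i) + ∑ b ∈ Finset.range U.length,
      C (ptE (U.getD b []) i) * X (b + 1) : MvPolynomial ℕ ℚ).totalDegree ≤ 1 := by
    intro i
    refine (totalDegree_add _ _).trans (max_le ?_ ?_)
    · rw [totalDegree_C]; exact Nat.zero_le _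
    · apply totalDegree_finsetSum_le
      intro b _
      refine (totalDegree_mul _ _).trans ?_
      rw [totalDegree_C, totalDegree_X]
  exact totalDegree_aeval_le _ hL p

private theorem geo (c : ℚ) (hc : c ≠ 0) (B : MvPolynomial ℕ ℚ) (M : ℕ) :
    (C c + B) * ∑ i ∈ Finset.range (M + 1), C ((-1) ^ i * c⁻¹ ^ (i + 1)) * B ^ i - 1 =
      C ((-1) ^ M * c⁻¹ ^ (M + 1)) * B ^ (M + 1) := by
  induction M with
  | zero =>
    simp only [zero_add, Finset.sum_range_one, pow_zero, pow_one, one_mul, mul_one, add_mul]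
    rw [← C_mul, mul_inv_cancel₀ hc, C_1]
    ring
  | succ M ih =>
    rw [Finset.sum_range_succ, mul_add, add_sub_right_comm, ih]
    have h1 : (C c : MvPolynomial ℕ ℚ) * C ((-1) ^ (M + 1) * c⁻¹ ^ (M + 1 + 1)) =
        - C ((-1) ^ M * c⁻¹ ^ (M + 1)) := by
      rw [← C_mul, ← C_neg]
      congr 1
      have h3 : c * ((-1) ^ (M + 1) * c⁻¹ ^ (M + 1 + 1)) =
          -((-1) ^ M * c⁻¹ ^ (M + 1)) * (c * c⁻¹) := by
        rw [pow_succ c⁻¹ (M + 1), pow_succ (-1 : ℚ) M]
        ring
      rw [h3, mul_inv_cancel₀ hc, mul_one]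
    have h2 : (C c + B) * (C ((-1) ^ (M + 1) * c⁻¹ ^ (M + 1 + 1)) * B ^ (M + 1)) =
        (C c * C ((-1) ^ (M + 1) * c⁻¹ ^ (M + 1 + 1))) * B ^ (M + 1) +
          C ((-1) ^ (M + 1) * c⁻¹ ^ (M + 1 + 1)) * B ^ (M + 1 + 1) := by ring
    rw [h2, h1]
    ring

theorem sub_mul_inv (M : ℕ) (e : En) (U : List En) (w : Wd)
    (h : eval (ptE e) (pw w) ≠ 0) : Cg M (sub e U (pw w) * inv M e U w) 1 := by
  have h1 := geo (eval (ptE e) (pw w)) h (sub e U (pw w) - C (eval (ptE e) (pw w))) M
  have h2 : C (eval (ptE e) (pw w)) + (sub e U (pw w) - C (eval (ptE e) (pw w))) =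
      sub e U (pw w) := by ring
  rw [h2] at h1
  unfold Cg inv
  rw [h1]
  apply Hi.mul_left
  apply Hi.pow
  rw [coeff_sub, coeff_sub_zero, coeff_zero_C, sub_self]

private theorem prod_mul_sum (M : ℕ) (e : En) (U : List En) (v : ℕ) (l : List Wd)
    (h : ∀ w ∈ l, eval (ptE e) (pw w) ≠ 0) :
    Cg M (sub e U (l.map pw).prod *
      (l.map fun w => sub e U (pderiv (v - 3) (pw w)) * inv M e U w).sum)
      (sub e U (pderiv (v - 3) (l.map pw).prod)) := by
  induction l with
  | nil =>
    simp only [List.map_nil, List.sum_nil, mul_zero, List.prod_nil]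
    rw [pderiv_one, map_zero]
    exact Cg.refl _ _
  | cons a l ih =>
    have ih' := ih fun w hw => h w (List.mem_cons_of_mem _ hw)
    have ha := sub_mul_inv M e U a (h a (List.mem_cons_self ..))
    simp only [List.map_cons, List.sum_cons, List.prod_cons]
    rw [Derivation.leibniz, smul_eq_mul, smul_eq_mul, map_mul, map_add, map_mul, map_mul]
    have e1 : sub e U (pw a) * sub e U (l.map pw).prod *
        (sub e U (pderiv (v - 3) (pw a)) * inv M e U a +
          (l.map fun w => sub e U (pderiv (v - 3) (pw w)) * inv M e U w).sum) =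
        sub e U (pw a) * (sub e U (l.map pw).prod *
          (l.map fun w => sub e U (pderiv (v - 3) (pw w)) * inv M e U w).sum) +
        sub e U (l.map pw).prod * sub e U (pderiv (v - 3) (pw a)) *
          (sub e U (pw a) * inv M e U a) := by ring
    rw [e1]
    apply Cg.add
    · exact Cg.mul (Cg.refl _ _) ih'
    · have := Cg.mul (Cg.refl M (sub e U (l.map pw).prod * sub e U (pderiv (v - 3) (pw a)))) ha
      rwa [mul_one] at this

theorem prod_mul_EE (M : ℕ) (e : En) (U : List En) (p : Pr) (v : ℕ)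
    (h : ∀ w ∈ p.1, eval (ptE e) (pw w) ≠ 0) :
    Cg M (sub e U (p.1.map pw).prod * EE M e U p v) (sub e U (pderiv (v - 3) (FF p))) := by
  have h1 := prod_mul_sum M e U v p.1 h
  unfold EE FF
  rw [Derivation.leibniz, smul_eq_mul, smul_eq_mul, map_add, map_mul, map_mul, mul_add, add_comm,
    ← mul_assoc]
  apply Cg.add
  · exact Cg.refl _ _
  · rw [mul_comm (sub e U (SS p.2))]
    exact Cg.mul h1 (Cg.refl _ _)

/-- **the reduced minor** -/
theorem DD_test (m M : ℕ) (e : En) (U : List En) (I : List Pr) (V : List ℕ)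
    (h : ∀ p ∈ I, ∀ w ∈ p.1, eval (ptE e) (pw w) ≠ 0) (hdeg : (JJ m I V).totalDegree ≤ M) :
    Hi M (DD m M e U I V) ↔ sub e U (JJ m I V) = 0 := by
  have hI : ∀ i, ∀ w ∈ (I.getD i ([], [])).1, eval (ptE e) (pw w) ≠ 0 := by
    intro i
    by_cases hi : i < I.length
    · rw [List.getD_eq_getElem _ _ hi]
      exact h _ (List.getElem_mem hi)
    · rw [List.getD_eq_default _ _ (by omega)]
      intro w hw
      cases hw
  have hdet : (∏ i : Fin m, sub e U ((I.getD i ([], [])).1.map pw).prod) * DD m M e U I V =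
      (Matrix.of fun i j : Fin m => sub e U ((I.getD i ([], [])).1.map pw).prod *
        EE M e U (I.getD i ([], [])) (V.getD j 0)).det := by
    unfold DD
    rw [← Matrix.det_mul_column]
    rfl
  have hJ : sub e U (JJ m I V) = (Matrix.of fun i j : Fin m =>
      sub e U (pderiv (V.getD j 0 - 3) (FF (I.getD i ([], []))))).det := by
    unfold JJ
    rw [AlgHom.map_det]
    congr 1
  have hcg : Cg M ((∏ i : Fin m, sub e U ((I.getD i ([], [])).1.map pw).prod) *
      DD m M e U I V) (sub e U (JJ m I V)) := by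
    rw [hdet, hJ]
    exact Cg.det fun i j => prod_mul_EE M e U _ _ (hI i)
  have hu : coeff 0 (∏ i : Fin m, sub e U ((I.getD i ([], [])).1.map pw).prod) ≠ 0 := by
    rw [← map_prod, coeff_sub_zero, map_prod]
    rw [Finset.prod_ne_zero_iff]
    intro i _
    rw [map_list_prod]
    apply List.prod_ne_zero
    intro h0
    rw [List.mem_map] at h0
    obtain ⟨q, hq, hq0⟩ := h0
    obtain ⟨w, hw, rfl⟩ := List.mem_map.1 hq
    exact hI i w hw hq0
  rw [← hi_unit hu, hcg.hi_iff]
  exact hi_iff_zero ((totalDegree_sub_le e U _).trans hdeg)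

end Pool.Agent.PQ
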