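import Pool.Agent.PQ.Fip

set_option autoImplicit false

/-!
PQ-Mom. The recursion `mom` computes `⟨(xᵀAx)^D, (xᵀBx)^D⟩`.

Plan: for symmetric `A`, `pderiv j (qf n A) = C 2 * ∑ p ∈ range n, C (A j p) * X p` for `j < n`.
Put `m_D = fip (qf n A ^ D) (qf n B ^ D)`, `G_D j l = fip (qf n A ^ D) (X j * X l * qf n B ^ (D-1))`.
By `fip_mul_X`: `G_(D+1) j l = fip (pderiv j (qf n A ^ (D+1))) (X l * qf n B ^ D)
= 2 (D+1) ∑ p, A j p * fip (X p * qf n A ^ D) (X l * qf n B ^ D)
= 2 (D+1) ∑ p, A j p * fip (qf n A ^ D) (pderiv p (X l * qf n B ^ D))` and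
`pderiv p (X l * qf n B ^ D) = δ_pl qf n B ^ D + X l * D * qf n B ^ (D-1) * 2 ∑ s, B p s X s`.
Hence `G_(D+1) j l = 2 (D+1) m_D A j l + 4 (D+1) D ∑ s, (∑ p, A j p * B p s) * G_D l s` (`l < n`),
`m_(D+1) = ∑ j l, B j l * G_(D+1) j l`.
-/

namespace Pool.Agent.PQ

open MvPolynomial

private theorem mom_pderiv_qf (n : ℕ) (A : ℕ → ℕ → ℚ) (hA : ∀ i j, A i j = A j i) {j : ℕ}
    (hj : j < n) :
    pderiv j (qf n A) = C 2 * ∑ p ∈ Finset.range n, C (A j p) * X p := by
  classical
  have hj' : j ∈ Finset.range n := Finset.mem_range.2 hj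
  have h1 : ∀ k l : ℕ, pderiv j (C (A k l) * (X k * X l) : MvPolynomial ℕ ℚ)
      = (if k = j then C (A k l) * X l else 0) + (if l = j then C (A k l) * X k else 0) := by
    intro k l
    rw [pderiv_C_mul, Derivation.leibniz, pderiv_X, pderiv_X, smul_eq_mul, smul_eq_mul]
    by_cases hk : k = j
    · by_cases hl : l = j
      · subst hk hl
        simp [mul_add]
      · subst hk
        simp [hl]
    · by_cases hl : l = j
      · subst hl
        simp [hk]
      · simp [hk, hl]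
  rw [qf, map_sum]
  simp_rw [map_sum, h1, Finset.sum_add_distrib]
  have h2 : ∑ k ∈ Finset.range n, ∑ l ∈ Finset.range n,
      (if k = j then C (A k l) * X l else (0 : MvPolynomial ℕ ℚ))
      = ∑ l ∈ Finset.range n, C (A j l) * X l := by
    rw [Finset.sum_eq_single_of_mem j hj']
    · exact Finset.sum_congr rfl fun l _ => if_pos rfl
    · intro k _ hk
      exact Finset.sum_eq_zero fun l _ => if_neg hk
  have h3 : ∑ k ∈ Finset.range n, ∑ l ∈ Finset.range n,
      (if l = j then C (A k l) * X k else (0 : MvPolynomial ℕ ℚ))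
      = ∑ k ∈ Finset.range n, C (A j k) * X k := by
    refine Finset.sum_congr rfl fun k _ => ?_
    rw [Finset.sum_eq_single_of_mem j hj']
    · rw [if_pos rfl, hA k j]
    · intro l _ hl
      exact if_neg hl
  rw [h2, h3, show (C 2 : MvPolynomial ℕ ℚ) = 2 from
    map_ofNat (C : ℚ →+* MvPolynomial ℕ ℚ) 2, two_mul]

private theorem mom_pderiv_pow (n : ℕ) (A : ℕ → ℕ → ℚ) (hA : ∀ i j, A i j = A j i) {j : ℕ}
    (hj : j < n) (D : ℕ) :
    pderiv j (qf n A ^ D) =
      C (2 * (D : ℚ)) * ∑ p ∈ Finset.range n, C (A j p) * (X p * qf n A ^ (D - 1)) := by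
  rw [Derivation.leibniz_pow, mom_pderiv_qf n A hA hj, smul_eq_mul, nsmul_eq_mul]
  rw [show (C (2 * (D : ℚ)) : MvPolynomial ℕ ℚ) = C 2 * (D : MvPolynomial ℕ ℚ) by
    rw [C_mul, map_natCast (C : ℚ →+* MvPolynomial ℕ ℚ) D]]
  have h : ∑ p ∈ Finset.range n, C (A j p) * (X p * qf n A ^ (D - 1)) =
      (∑ p ∈ Finset.range n, C (A j p) * X p) * qf n A ^ (D - 1) := by
    rw [Finset.sum_mul]
    exact Finset.sum_congr rfl fun p _ => by ring
  rw [h]
  ring

private theorem mom_step (n : ℕ) (A B : ℕ → ℕ → ℚ) (hA : ∀ i j, A i j = A j i)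
    (hB : ∀ i j, B i j = B j i) (D : ℕ) {j l : ℕ} (hj : j < n) (hl : l < n) :
    fip (qf n A ^ (D + 1)) (X j * (X l * qf n B ^ D)) =
      2 * (D + 1) * fip (qf n A ^ D) (qf n B ^ D) * A j l +
      4 * (D + 1) * D * ∑ p ∈ Finset.range n,
        (∑ s ∈ Finset.range n, A j s * B s p) *
          fip (qf n A ^ D) (X l * (X p * qf n B ^ (D - 1))) := by
  classical
  rw [fip_mul_X, mom_pderiv_pow n A hA hj, Nat.add_sub_cancel, fip_C_left, fip_sum_left]
  have h1 : ∀ s ∈ Finset.range n,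
      fip (C (A j s) * (X s * qf n A ^ D)) (X l * qf n B ^ D) =
        A j s * ((if s = l then fip (qf n A ^ D) (qf n B ^ D) else 0) +
          2 * D * ∑ p ∈ Finset.range n, B s p *
            fip (qf n A ^ D) (X l * (X p * qf n B ^ (D - 1)))) := by
    intro s hs
    rw [fip_C_left, fip_X_mul, Derivation.leibniz, smul_eq_mul, smul_eq_mul,
      mom_pderiv_pow n B hB (Finset.mem_range.1 hs), pderiv_X, fip_add_right, add_comm]
    congr 2
    · by_cases h : s = l
      · subst h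
        rw [if_pos rfl, Pi.single_eq_same, mul_one]
      · rw [if_neg h, Pi.single_eq_of_ne (fun h' => h h'.symm), mul_zero, fip_zero_right]
    · rw [show (X l * (C (2 * (D : ℚ)) * ∑ p ∈ Finset.range n, C (B s p) *
          (X p * qf n B ^ (D - 1))) : MvPolynomial ℕ ℚ) =
          C (2 * (D : ℚ)) * ∑ p ∈ Finset.range n, C (B s p) * (X l * (X p * qf n B ^ (D - 1))) by
        rw [mul_left_comm, Finset.mul_sum]
        congr 1
        exact Finset.sum_congr rfl fun p _ => by ring]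
      rw [fip_C_right, fip_sum_right]
      congr 1
      exact Finset.sum_congr rfl fun p _ => by rw [fip_C_right]
  rw [Finset.sum_congr rfl h1]
  simp_rw [mul_add, Finset.sum_add_distrib]
  have h2 : ∑ s ∈ Finset.range n, A j s * (if s = l then fip (qf n A ^ D) (qf n B ^ D) else 0) =
      A j l * fip (qf n A ^ D) (qf n B ^ D) := by
    rw [Finset.sum_eq_single_of_mem l (Finset.mem_range.2 hl)]
    · rw [if_pos rfl]
    · intro s _ hs
      rw [if_neg hs, mul_zero]
  rw [h2]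
  have h3 : ∑ p ∈ Finset.range n, (∑ s ∈ Finset.range n, A j s * B s p) *
        fip (qf n A ^ D) (X l * (X p * qf n B ^ (D - 1))) =
      ∑ s ∈ Finset.range n, A j s * ∑ p ∈ Finset.range n, B s p *
        fip (qf n A ^ D) (X l * (X p * qf n B ^ (D - 1))) := by
    simp_rw [Finset.sum_mul, Finset.mul_sum]
    rw [Finset.sum_comm]
    exact Finset.sum_congr rfl fun s _ => Finset.sum_congr rfl fun p _ => by ring
  rw [h3]
  have h4 : ∑ s ∈ Finset.range n, A j s * (2 * (D : ℚ) * ∑ p ∈ Finset.range n, B s p *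
        fip (qf n A ^ D) (X l * (X p * qf n B ^ (D - 1)))) =
      2 * (D : ℚ) * ∑ s ∈ Finset.range n, A j s * ∑ p ∈ Finset.range n, B s p *
        fip (qf n A ^ D) (X l * (X p * qf n B ^ (D - 1))) := by
    rw [Finset.mul_sum]
    exact Finset.sum_congr rfl fun s _ => by ring
  rw [h4]
  push_cast
  ring

private theorem mom_fst (n : ℕ) (A B : ℕ → ℕ → ℚ) (D : ℕ) :
    fip (qf n A ^ (D + 1)) (qf n B ^ (D + 1)) =
      ∑ j ∈ Finset.range n, ∑ l ∈ Finset.range n,
        B j l * fip (qf n A ^ (D + 1)) (X j * (X l * qf n B ^ D)) := by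
  rw [pow_succ' (qf n B) D]
  nth_rewrite 2 [qf]
  rw [Finset.sum_mul, fip_sum_right]
  refine Finset.sum_congr rfl fun i _ => ?_
  rw [Finset.sum_mul, fip_sum_right]
  refine Finset.sum_congr rfl fun j _ => ?_
  rw [show (C (B i j) * (X i * X j) * qf n B ^ D : MvPolynomial ℕ ℚ) =
    C (B i j) * (X i * (X j * qf n B ^ D)) by ring, fip_C_right]

private theorem mom_both (n : ℕ) (A B : ℕ → ℕ → ℚ) (hA : ∀ i j, A i j = A j i)
    (hB : ∀ i j, B i j = B j i) (D : ℕ) :
    (mom n A B D).1 = fip (qf n A ^ D) (qf n B ^ D) ∧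
      ∀ j < n, ∀ l < n, (mom n A B (D + 1)).2 j l =
        fip (qf n A ^ (D + 1)) (X j * (X l * qf n B ^ D)) := by
  induction D with
  | zero =>
    have h0 : (mom n A B 0).1 = fip (qf n A ^ 0) (qf n B ^ 0) := by
      rw [pow_zero, pow_zero, fip_one_one]
      rfl
    refine ⟨h0, fun j hj l hl => ?_⟩
    rw [mom_step n A B hA hB 0 hj hl, ← h0]
    simp only [mom]
    push_cast
    ring
  | succ D ih =>
    have h0 : (mom n A B (D + 1)).1 = fip (qf n A ^ (D + 1)) (qf n B ^ (D + 1)) := by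
      rw [mom_fst]
      have e : (mom n A B (D + 1)).1 = ∑ j ∈ Finset.range n, ∑ l ∈ Finset.range n,
          B j l * (mom n A B (D + 1)).2 j l := rfl
      rw [e]
      exact Finset.sum_congr rfl fun j hj => Finset.sum_congr rfl fun l hl => by
        rw [ih.2 j (Finset.mem_range.1 hj) l (Finset.mem_range.1 hl)]
    refine ⟨h0, fun j hj l hl => ?_⟩
    rw [mom_step n A B hA hB (D + 1) hj hl, ← h0]
    have e : (mom n A B (D + 1 + 1)).2 j l =
        2 * (((D + 1 : ℕ) : ℚ) + 1) * (mom n A B (D + 1)).1 * A j l +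
        4 * (((D + 1 : ℕ) : ℚ) + 1) * ((D + 1 : ℕ) : ℚ) * ∑ p ∈ Finset.range n,
          (∑ s ∈ Finset.range n, A j s * B s p) * (mom n A B (D + 1)).2 l p := rfl
    rw [e, Nat.add_sub_cancel]
    congr 2
    exact Finset.sum_congr rfl fun p hp => by rw [ih.2 l hl p (Finset.mem_range.1 hp)]

theorem mom_spec (n : ℕ) (A B : ℕ → ℕ → ℚ) (hA : ∀ i j, A i j = A j i)
    (hB : ∀ i j, B i j = B j i) (D : ℕ) :
    (mom n A B D).1 = fip (qf n A ^ D) (qf n B ^ D) :=
  (mom_both n A B hA hB D).1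

end Pool.Agent.PQ
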