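import Pool.Agent.PQ.MomZ

set_option autoImplicit false

/-!
PQ-MomF. The recursion `momZ` in polynomial time (unary exponent).

Plan: `FP.foldl` with the step `fun s _ => stepM s` (the type of the entries of the clock is `Bool`). Size:
`mn G' ≤ 2 (d+1) zn m * mn A + 4 (d+1)^2 mn C * mn G`, `zn m' ≤ mn B * mn G'`, so
`(zn m + mn G + 1)` is multiplied by at most `8 (d+1)^2 (mn A + mn C + 1) (mn B + 1)` in each step; the rows of
`G'` are not longer than the corresponding rows of `A` and not more than those of `A`; the bit size of a matrix is at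
most (number of entries and rows) * (constant * (Nat.size (mn G) + 1)). The bound must hold for every initial state.
-/

namespace Pool.Agent.PQ

open N487b59b3 N68a2faeb Pool.Agent.Helper22 Pool.Agent.Helper6.WB Pool.Agent.Helper6.SP

variable {α : Type} [N487b59b3 α]

/-! ## Sizes -/

private theorem aux_sum_lt {β : Type} [N487b59b3 β] (f : β → ℕ) (hf : ∀ b, f b + 1 ≤ 2 ^ sz b)
    (l : List β) : (l.map f).sum + 1 ≤ 2 ^ sz l := by
  induction l with
  | nil => simp
  | cons a l ih =>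
    rw [List.map_cons, List.sum_cons, sz_cons]
    have h3 : (f a + 1) * ((l.map f).sum + 1) ≤ 2 ^ sz a * 2 ^ sz l := Nat.mul_le_mul (hf a) ih
    have h4 : 2 ^ sz a * 2 ^ sz l ≤ 2 ^ (2 * sz a + 1 + sz l) := by
      rw [← pow_add]
      exact Nat.pow_le_pow_right (by norm_num) (by omega)
    have h5 : f a + (l.map f).sum + 1 ≤ (f a + 1) * ((l.map f).sum + 1) := by
      nlinarith [Nat.zero_le (f a * (l.map f).sum)]
    exact h5.trans (h3.trans h4)

private theorem aux_zn_lt (a : ZZ) : zn a + 1 ≤ 2 ^ sz a := by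
  obtain ⟨p, n⟩ := a
  simp only [zn, sz_pair, sz_nat]
  have h1 := Nat.lt_size_self p
  have h2 := Nat.lt_size_self n
  have h3 : (p + 1) * (n + 1) ≤ 2 ^ p.size * 2 ^ n.size := Nat.mul_le_mul h1 h2
  have h4 : 2 ^ p.size * 2 ^ n.size ≤ 2 ^ (2 * p.size + 1 + n.size) := by
    rw [← pow_add]
    exact Nat.pow_le_pow_right (by norm_num) (by omega)
  nlinarith

private theorem aux_sz_of_zn {a : ZZ} {E : ℕ} (h : zn a < 2 ^ E) : sz a ≤ 3 * E + 1 := by
  obtain ⟨p, n⟩ := a
  simp only [zn] at h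
  simp only [sz_pair, sz_nat]
  have h1 : p.size ≤ E := Nat.size_le.2 (by omega)
  have h2 : n.size ≤ E := Nat.size_le.2 (by omega)
  omega

/-- sum of the sizes of the entries of a row -/
private def rn (r : List ZZ) : ℕ := (r.map zn).sum

private theorem aux_mn (A : Mt) : mn A = (A.map rn).sum := rfl

private theorem aux_mn_lt (A : Mt) : mn A + 1 ≤ 2 ^ sz A :=
  aux_sum_lt rn (fun r => aux_sum_lt zn aux_zn_lt r) A

private theorem aux_zip_add {β γ : Type} (a b : ℕ) (f : β → ℕ) (g : γ → ℕ) (u : List β) (v : List γ) :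
    ((u.zip v).map fun q => a * f q.1 + b * g q.2).sum ≤ a * (u.map f).sum + b * (v.map g).sum := by
  induction u generalizing v with
  | nil => simp
  | cons x u ih =>
    cases v with
    | nil => simp
    | cons y v =>
      have h := ih v
      simp only [List.zip_cons_cons, List.map_cons, List.sum_cons]
      nlinarith

private theorem aux_zip_mul {β γ : Type} (f : β → ℕ) (g : γ → ℕ) (u : List β) (v : List γ) :
    ((u.zip v).map fun q => f q.1 * g q.2).sum ≤ (u.map f).sum * (v.map g).sum := by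
  induction u generalizing v with
  | nil => simp
  | cons x u ih =>
    cases v with
    | nil => simp
    | cons y v =>
      have h := ih v
      simp only [List.zip_cons_cons, List.map_cons, List.sum_cons]
      nlinarith [Nat.zero_le (f x * (v.map g).sum), Nat.zero_le (g y * (u.map f).sum)]

private theorem aux_mn_stepG (s : MSt) : mn (stepG s) ≤
    2 * (s.2.1 + 1) * zn s.2.2.1 * mn s.1.1 +
      4 * (s.2.1 + 1) * s.2.1 * (mn s.1.2.2 * mn s.2.2.2) := by
  have h1 : mn (stepG s) = ((s.1.1.zip (mulT s.1.2.2 s.2.2.2)).map fun p =>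
      ((p.1.zip p.2).map fun q => 2 * (s.2.1 + 1) * zn s.2.2.1 * zn q.1 +
        4 * (s.2.1 + 1) * s.2.1 * zn q.2).sum).sum := by
    rw [mn, stepG, List.map_map]
    congr 1
    apply List.map_congr_left
    intro p _
    simp only [Function.comp_apply, List.map_map]
    congr 1
    apply List.map_congr_left
    intro q _
    simp only [Function.comp_apply, zn_add, zn_mul]
    simp only [zn]
    ring
  rw [h1]
  have h2 : ((s.1.1.zip (mulT s.1.2.2 s.2.2.2)).map fun p =>
      ((p.1.zip p.2).map fun q => 2 * (s.2.1 + 1) * zn s.2.2.1 * zn q.1 +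
        4 * (s.2.1 + 1) * s.2.1 * zn q.2).sum).sum ≤
      ((s.1.1.zip (mulT s.1.2.2 s.2.2.2)).map fun p =>
        2 * (s.2.1 + 1) * zn s.2.2.1 * rn p.1 + 4 * (s.2.1 + 1) * s.2.1 * rn p.2).sum := by
    apply List.sum_le_sum
    intro p _
    exact aux_zip_add _ _ zn zn p.1 p.2
  refine h2.trans ((aux_zip_add _ _ rn rn _ _).trans ?_)
  rw [← aux_mn, ← aux_mn]
  exact Nat.add_le_add_left (Nat.mul_le_mul_left _ (mn_mulT _ _)) _

private theorem aux_zn_stepM (s : MSt) : zn (stepM s).2.2.1 ≤ mn s.1.2.1 * mn (stepG s) := by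
  have h1 : zn (stepM s).2.2.1 =
      ((s.1.2.1.zip (stepG s)).map fun p => zn (dot p.1 p.2)).sum := by
    simp only [stepM, zn_sum, List.map_map]
    rfl
  rw [h1]
  have h2 : ((s.1.2.1.zip (stepG s)).map fun p => zn (dot p.1 p.2)).sum ≤
      ((s.1.2.1.zip (stepG s)).map fun p => rn p.1 * rn p.2).sum := by
    apply List.sum_le_sum
    intro p _
    exact zn_dot p.1 p.2
  exact h2.trans (aux_zip_mul rn rn _ _)

/-- the potential -/
private def pot (s : MSt) : ℕ := zn s.2.2.1 + mn s.2.2.2 + 1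

private theorem aux_pot (s : MSt) : pot (stepM s) ≤
    8 * (s.2.1 + 1) ^ 2 * ((mn s.1.1 + 1) * (mn s.1.2.2 + 1)) * (mn s.1.2.1 + 1) * pot s := by
  have h1 := aux_mn_stepG s
  have h2 := aux_zn_stepM s
  have h3 : pot (stepM s) = zn (stepM s).2.2.1 + mn (stepG s) + 1 := rfl
  have h4 : pot s = zn s.2.2.1 + mn s.2.2.2 + 1 := rfl
  rw [h3, h4]
  generalize zn s.2.2.1 = z at *
  generalize mn s.2.2.2 = g at *
  generalize mn s.1.1 = a at *
  generalize mn s.1.2.2 = c at *
  generalize mn s.1.2.1 = b at *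
  generalize s.2.1 = d at *
  generalize zn (stepM s).2.2.1 = z' at *
  generalize mn (stepG s) = g' at *
  have h5 : 2 * (d + 1) * z * a + 4 * (d + 1) * d * (c * g) ≤
      4 * (d + 1) ^ 2 * ((a + 1) * (c + 1)) * (z + g + 1) := by
    have e1 : 2 * (d + 1) * z * a ≤ 4 * (d + 1) ^ 2 * ((a + 1) * (c + 1)) * z := by
      have : (d + 1) * a ≤ (d + 1) ^ 2 * ((a + 1) * (c + 1)) := by
        have e2 : d + 1 ≤ (d + 1) ^ 2 := by nlinarith
        have e3 : a ≤ (a + 1) * (c + 1) := by nlinarith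
        exact Nat.mul_le_mul e2 e3
      calc 2 * (d + 1) * z * a = 2 * z * ((d + 1) * a) := by ring
        _ ≤ 2 * z * ((d + 1) ^ 2 * ((a + 1) * (c + 1))) := Nat.mul_le_mul_left _ this
        _ ≤ 4 * z * ((d + 1) ^ 2 * ((a + 1) * (c + 1))) :=
          Nat.mul_le_mul_right _ (Nat.mul_le_mul_right _ (by norm_num))
        _ = _ := by ring
    have e4 : 4 * (d + 1) * d * (c * g) ≤ 4 * (d + 1) ^ 2 * ((a + 1) * (c + 1)) * g := by
      have : (d + 1) * d * c ≤ (d + 1) ^ 2 * ((a + 1) * (c + 1)) := by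
        have e2 : (d + 1) * d ≤ (d + 1) ^ 2 := by nlinarith
        have e3 : c ≤ (a + 1) * (c + 1) := by nlinarith
        exact Nat.mul_le_mul e2 e3
      calc 4 * (d + 1) * d * (c * g) = 4 * g * ((d + 1) * d * c) := by ring
        _ ≤ 4 * g * ((d + 1) ^ 2 * ((a + 1) * (c + 1))) := Nat.mul_le_mul_left _ this
        _ = _ := by ring
    nlinarith [Nat.zero_le (4 * (d + 1) ^ 2 * ((a + 1) * (c + 1)))]
  have h6 : z' + g' + 1 ≤ (b + 1) * g' + 1 := by nlinarith
  have h7 : (b + 1) * g' + 1 ≤ (b + 1) * (4 * (d + 1) ^ 2 * ((a + 1) * (c + 1)) * (z + g + 1)) + 1 := by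
    have := Nat.mul_le_mul_left (b + 1) (h1.trans h5)
    omega
  have h8 : 1 ≤ (b + 1) * (4 * (d + 1) ^ 2 * ((a + 1) * (c + 1)) * (z + g + 1)) := by
    have : 0 < (b + 1) * (4 * (d + 1) ^ 2 * ((a + 1) * (c + 1)) * (z + g + 1)) := by positivity
    exact this
  calc z' + g' + 1 ≤ _ := h6
    _ ≤ _ := h7
    _ ≤ 2 * ((b + 1) * (4 * (d + 1) ^ 2 * ((a + 1) * (c + 1)) * (z + g + 1))) := by omega
    _ = _ := by ring

private theorem aux_fst (l : List Bool) (s : MSt) :
    (l.foldl (fun s _ => stepM s) s).1 = s.1 := by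
  induction l generalizing s with
  | nil => rfl
  | cons b l ih => rw [List.foldl_cons, ih]; rfl

private theorem aux_cnt (l : List Bool) (s : MSt) :
    (l.foldl (fun s _ => stepM s) s).2.1 = s.2.1 + l.length := by
  induction l generalizing s with
  | nil => rfl
  | cons b l ih =>
    rw [List.foldl_cons, ih, List.length_cons]
    have : (stepM s).2.1 = s.2.1 + 1 := rfl
    rw [this]
    omega

private theorem aux_fold (l : List Bool) (s : MSt) (e : ℕ) (he : s.2.1 + l.length ≤ 2 ^ e) :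
    pot (l.foldl (fun s _ => stepM s) s) ≤
      2 ^ (l.length * (3 + sz s.1.1 + sz s.1.2.1 + sz s.1.2.2 + 2 * e)) * pot s := by
  induction l generalizing s with
  | nil => simp
  | cons b l ih =>
    rw [List.foldl_cons]
    have h1 := ih (stepM s) (by
      have : (stepM s).2.1 = s.2.1 + 1 := rfl
      rw [this]
      rw [List.length_cons] at he
      omega)
    have h2 : (stepM s).1 = s.1 := rfl
    rw [h2] at h1
    refine h1.trans ?_
    have h3 : pot (stepM s) ≤ 2 ^ (3 + sz s.1.1 + sz s.1.2.1 + sz s.1.2.2 + 2 * e) * pot s := by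
      refine (aux_pot s).trans (Nat.mul_le_mul_right _ ?_)
      have e1 : (s.2.1 + 1) ^ 2 ≤ 2 ^ (2 * e) := by
        rw [mul_comm 2 e, pow_mul]
        refine Nat.pow_le_pow_left ?_ 2
        rw [List.length_cons] at he
        omega
      calc 8 * (s.2.1 + 1) ^ 2 * ((mn s.1.1 + 1) * (mn s.1.2.2 + 1)) * (mn s.1.2.1 + 1)
          ≤ 2 ^ 3 * 2 ^ (2 * e) * (2 ^ sz s.1.1 * 2 ^ sz s.1.2.2) * 2 ^ sz s.1.2.1 := by
            refine Nat.mul_le_mul (Nat.mul_le_mul (Nat.mul_le_mul (by norm_num) e1)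
              (Nat.mul_le_mul (aux_mn_lt _) (aux_mn_lt _))) (aux_mn_lt _)
        _ = _ := by
            rw [← pow_add, ← pow_add, ← pow_add, ← pow_add]
            congr 1
            ring
    refine (Nat.mul_le_mul_left _ h3).trans ?_
    rw [← mul_assoc, ← pow_add, List.length_cons]
    refine Nat.mul_le_mul_right _ (Nat.pow_le_pow_right (by norm_num) ?_)
    apply le_of_eq
    ring

private theorem aux_sz_stepG (s : MSt) (E : ℕ) (h : mn (stepG s) < 2 ^ E) :
    sz (stepG s) ≤ sz s.1.1 * (2 * (sz s.1.1 * (6 * E + 3)) + 1) := by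
  have h1 : ∀ r ∈ stepG s, ∀ x ∈ r, sz x ≤ 3 * E + 1 := by
    intro r hr x hx
    refine aux_sz_of_zn (lt_of_le_of_lt ?_ h)
    have h2 : zn x ≤ rn r :=
      List.single_le_sum (fun _ _ => Nat.zero_le _) _ (List.mem_map.2 ⟨x, hx, rfl⟩)
    have h3 : rn r ≤ mn (stepG s) :=
      List.single_le_sum (fun _ _ => Nat.zero_le _) _ (List.mem_map.2 ⟨r, hr, rfl⟩)
    exact h2.trans h3
  have h4 := sz_map_le (fun p : List ZZ × List ZZ => (p.1.zip p.2).map fun q =>
    zAdd (zMul (2 * (s.2.1 + 1), 0) (zMul s.2.2.1 q.1)) (zMul (4 * (s.2.1 + 1) * s.2.1, 0) q.2))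
    (s.1.1.zip (mulT s.1.2.2 s.2.2.2)) (sz s.1.1 * (6 * E + 3)) (by
      intro p hp
      have h5 := sz_map_le (fun q : ZZ × ZZ => zAdd (zMul (2 * (s.2.1 + 1), 0)
        (zMul s.2.2.1 q.1)) (zMul (4 * (s.2.1 + 1) * s.2.1, 0) q.2)) (p.1.zip p.2) (3 * E + 1) (by
          intro q hq
          exact h1 _ (List.mem_map.2 ⟨p, hp, rfl⟩) _ (List.mem_map.2 ⟨q, hq, rfl⟩))
      refine h5.trans ?_
      have h6 : (p.1.zip p.2).length ≤ sz s.1.1 := by
        rw [List.length_zip]
        have h7 : p.1 ∈ s.1.1 := (List.of_mem_zip hp).1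
        have h8 := length_le_sz p.1
        have h9 := sz_mem_le h7
        omega
      have h10 : 2 * (3 * E + 1) + 1 = 6 * E + 3 := by ring
      rw [h10]
      exact Nat.mul_le_mul_right _ h6)
  refine h4.trans (Nat.mul_le_mul_right _ ?_)
  rw [List.length_zip]
  have h8 := length_le_sz s.1.1
  omega

private theorem aux_sz_fold (l : List Bool) (s : MSt) : sz (l.foldl (fun s _ => stepM s) s) ≤
    2 * (sz l + sz s) + 1 + (2 * (sz l + sz s) + 1 + (2 * (3 * ((sz l + sz s) *
      (5 * (sz l + sz s) + 3) + (sz l + sz s)) + 1) + 1 + ((sz l + sz s) + (sz l + sz s) *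
        (2 * ((sz l + sz s) * (6 * ((sz l + sz s) * (5 * (sz l + sz s) + 3) + (sz l + sz s)) + 3))
          + 1)))) := by
  have q1 : sz s = 2 * sz s.1 + 1 + (2 * sz s.2.1 + 1 + (2 * sz s.2.2.1 + 1 + sz s.2.2.2)) := by
    obtain ⟨c, d, m, G⟩ := s
    simp only [sz_pair]
  have q2 : sz s.1 = 2 * sz s.1.1 + 1 + (2 * sz s.1.2.1 + 1 + sz s.1.2.2) := by
    obtain ⟨⟨A, B, C⟩, t⟩ := s
    simp only [sz_pair]
  have q3 := length_le_sz l
  have q4 : s.2.1 + l.length + 1 ≤ 2 ^ (sz s.2.1 + l.length) := by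
    have h1 : s.2.1 + 1 ≤ 2 ^ sz s.2.1 := by
      rw [sz_nat]
      exact Nat.lt_size_self _
    have h2 : l.length + 1 ≤ 2 ^ l.length := Nat.lt_two_pow_self
    have h3 := Nat.mul_le_mul h1 h2
    rw [← pow_add] at h3
    nlinarith
  have q5 := aux_fold l s (sz s.2.1 + l.length) (by omega)
  have q6 : pot s ≤ 2 ^ (sz s.2.2.1 + sz s.2.2.2) := by
    have h1 := aux_zn_lt s.2.2.1
    have h2 := aux_mn_lt s.2.2.2
    have h3 := Nat.mul_le_mul h1 h2
    rw [← pow_add] at h3
    unfold pot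
    nlinarith
  generalize hS : sz l + sz s = S at *
  have q7 : pot (l.foldl (fun s _ => stepM s) s) ≤ 2 ^ (S * (5 * S + 3) + S) := by
    refine q5.trans ((Nat.mul_le_mul_left _ q6).trans ?_)
    rw [← pow_add]
    refine Nat.pow_le_pow_right (by norm_num) ?_
    have : l.length * (3 + sz s.1.1 + sz s.1.2.1 + sz s.1.2.2 + 2 * (sz s.2.1 + l.length)) ≤
        S * (5 * S + 3) := Nat.mul_le_mul (by omega) (by omega)
    omega
  have q8 : (l.foldl (fun s _ => stepM s) s).1 = s.1 := aux_fst l s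
  have q9 := aux_cnt l s
  have q10 : sz (l.foldl (fun s _ => stepM s) s).2.1 ≤ S := by
    rw [q9, sz_nat]
    refine Nat.size_le.2 (lt_of_lt_of_le (Nat.lt_of_succ_le q4) (Nat.pow_le_pow_right (by norm_num) ?_))
    omega
  have q11 : sz (l.foldl (fun s _ => stepM s) s).2.2.1 ≤ 3 * (S * (5 * S + 3) + S) + 1 := by
    refine aux_sz_of_zn (lt_of_lt_of_le ?_ q7)
    unfold pot
    omega
  have q12 : sz (l.foldl (fun s _ => stepM s) s).2.2.2 ≤
      S + S * (2 * (S * (6 * (S * (5 * S + 3) + S) + 3)) + 1) := by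
    rcases List.eq_nil_or_concat l with rfl | ⟨l', d, rfl⟩
    · simp only [List.foldl_nil]
      have : sz s.2.2.2 ≤ S := by omega
      exact this.trans (Nat.le_add_right _ _)
    · rw [List.concat_eq_append] at q7 ⊢
      have h1 : (l' ++ [d]).foldl (fun s _ => stepM s) s =
          stepM (l'.foldl (fun s _ => stepM s) s) := by
        rw [List.foldl_append]
        rfl
      rw [h1] at q7 ⊢
      have h2 : (stepM (l'.foldl (fun s _ => stepM s) s)).2.2.2 =
          stepG (l'.foldl (fun s _ => stepM s) s) := rfl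
      have h3 : mn (stepG (l'.foldl (fun s _ => stepM s) s)) < 2 ^ (S * (5 * S + 3) + S) := by
        refine lt_of_lt_of_le ?_ q7
        unfold pot
        rw [h2]
        omega
      have h4 := aux_sz_stepG _ _ h3
      rw [aux_fst l' s] at h4
      rw [h2]
      refine h4.trans ?_
      have h5 : sz s.1.1 ≤ S := by omega
      have h6 : sz s.1.1 * (2 * (sz s.1.1 * (6 * (S * (5 * S + 3) + S) + 3)) + 1) ≤
          S * (2 * (S * (6 * (S * (5 * S + 3) + S) + 3)) + 1) :=
        Nat.mul_le_mul h5 (Nat.add_le_add_right (Nat.mul_le_mul_left _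
          (Nat.mul_le_mul_right _ h5)) _)
      exact h6.trans (Nat.le_add_left _ _)
  have q13 : sz (l.foldl (fun s _ => stepM s) s) = 2 * sz (l.foldl (fun s _ => stepM s) s).1 + 1 +
      (2 * sz (l.foldl (fun s _ => stepM s) s).2.1 + 1 +
        (2 * sz (l.foldl (fun s _ => stepM s) s).2.2.1 + 1 +
          sz (l.foldl (fun s _ => stepM s) s).2.2.2)) := by
    rcases l.foldl (fun s _ => stepM s) s with ⟨c, d, m, G⟩
    simp only [sz_pair]
  rw [q13, q8]
  omega

/-! ## Polynomial time -/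

private theorem aux_fp_stepG : FP stepG := by
  have h1 : FP fun q : (MSt × (List ZZ × List ZZ)) × (ZZ × ZZ) =>
      zAdd (zMul (2 * (q.1.1.2.1 + 1), 0) (zMul q.1.1.2.2.1 q.2.1))
        (zMul (4 * (q.1.1.2.1 + 1) * q.1.1.2.1, 0) q.2.2) := by
    have a1 : FP fun q : (MSt × (List ZZ × List ZZ)) × (ZZ × ZZ) =>
        ((2 * (q.1.1.2.1 + 1), 0) : ZZ) :=
      FP.pair (FP.natMul (FP.const 2) (FP.natAdd (by fun_prop) (FP.const 1))) (FP.const 0)
    have a2 : FP fun q : (MSt × (List ZZ × List ZZ)) × (ZZ × ZZ) =>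
        ((4 * (q.1.1.2.1 + 1) * q.1.1.2.1, 0) : ZZ) :=
      FP.pair (FP.natMul (FP.natMul (FP.const 4) (FP.natAdd (by fun_prop) (FP.const 1)))
        (by fun_prop)) (FP.const 0)
    exact fp_zAdd (fp_zMul a1 (fp_zMul (by fun_prop) (by fun_prop))) (fp_zMul a2 (by fun_prop))
  have h2 : FP fun p : MSt × (List ZZ × List ZZ) => (p.2.1.zip p.2.2).map fun q =>
      (fun q : (MSt × (List ZZ × List ZZ)) × (ZZ × ZZ) =>
      zAdd (zMul (2 * (q.1.1.2.1 + 1), 0) (zMul q.1.1.2.2.1 q.2.1))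
        (zMul (4 * (q.1.1.2.1 + 1) * q.1.1.2.1, 0) q.2.2)) (p, q) :=
    fp_map (fp_zip (by fun_prop) (by fun_prop)) h1
  have h3 : FP fun s : MSt => s.1.1.zip (mulT s.1.2.2 s.2.2.2) :=
    fp_zip (by fun_prop) (fp_mulT (by fun_prop) (by fun_prop))
  exact fp_map h3 h2

private theorem aux_fp_stepM : FP stepM := by
  have h1 : FP fun q : MSt × (List ZZ × List ZZ) => dot q.2.1 q.2.2 :=
    fp_dot (by fun_prop) (by fun_prop)
  have h2 : FP fun s : MSt => s.1.2.1.zip (stepG s) := fp_zip (by fun_prop) aux_fp_stepG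
  have h3 : FP fun s : MSt => zSum ((s.1.2.1.zip (stepG s)).map fun p => dot p.1 p.2) :=
    fp_zSum (fp_map h2 h1)
  exact FP.pair (by fun_prop) (FP.pair (FP.natAdd (by fun_prop) (FP.const 1))
    (FP.pair h3 aux_fp_stepG))

theorem fp_momZ {f g : α → Mt} {h : α → Un} (hf : FP f) (hg : FP g) (hh : FP h) :
    FP fun a => momZ (f a) (g a) (h a) := by
  have h1 : FP fun p : List Bool × MSt => p.1.foldl (fun s _ => stepM s) p.2 := by
    refine FP.foldl (g := fun (s : MSt) (_ : Bool) => stepM s)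
      (aux_fp_stepM.comp (f := fun p : MSt × Bool => p.1) (by fun_prop))
      (B := fun n => 2 * n + 1 + (2 * n + 1 + (2 * (3 * (n * (5 * n + 3) + n) + 1) + 1 +
        (n + n * (2 * (n * (6 * (n * (5 * n + 3) + n) + 3)) + 1)))))
      (by fun_prop) ?_
    intro l s
    exact aux_sz_fold l s
  have h2 : FP fun a => ((f a).map fun r => r.map fun _ => ((0, 0) : ZZ)) := by
    have a1 : FP fun p : α × List ZZ => p.2.map fun x => (fun _ : (α × List ZZ) × ZZ =>
        ((0, 0) : ZZ)) (p, x) := fp_map (by fun_prop) (FP.const _)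
    exact fp_map hf a1
  have h3 := h1.comp (f := fun a => (h a, (((f a, (g a, mulT (f a) (g a))), (0, ((1, 0),
    (f a).map fun r => r.map fun _ => (0, 0)))) : MSt)))
    (FP.pair hh (FP.pair (FP.pair hf (FP.pair hg (fp_mulT hf hg)))
      (FP.pair (FP.const 0) (FP.pair (FP.const (1, 0)) h2))))
  exact h3.snd'.snd'

end Pool.Agent.PQ
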