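import Pool.Agent.PQ.Zip

set_option autoImplicit false

/-!
PQ-MomZ. The recursion `mom` on integer matrices, in polynomial time (unary exponent).

State: `(A, B, C = A B, d, m, G)`; a step (for the exponent `d + 1`):
`G' = 2 (d+1) m A + 4 (d+1) d (C · rows of G)`, `m' = ∑ B_jl G'_jl`, `d' = d + 1`.
Plan for the size: `mn G' ≤ 2 (d+1) zn m * mn A + 4 (d+1)^2 mn C * mn G`, `zn m' ≤ mn B * mn G'`, so
`(zn m + mn G + 1)` is multiplied by at most `8 (d+1)^2 (mn A + mn C + 1) (mn B + 1)` in each step; the number of the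
entries of `G` stays at most that of `A` (and of the initial `G`); the bit size of a matrix is at most
(number of entries) * (constant * Nat.size (mn A) + constant). The bound must hold for every initial state (`FP.foldl`).
Semantics (for `Sq n A`, `Sq n B`): the second component has `n × n` entries and equals that of `mom`; the
symmetry of `G` is not needed because `mom` uses the rows of `G` as well.
-/

namespace Pool.Agent.PQ

open N487b59b3 N68a2faeb Pool.Agent.Helper22 Pool.Agent.Helper6.WB Pool.Agent.Helper6.SP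

variable {α : Type} [N487b59b3 α]

/-- the state: the matrices `A`, `B`, `A B`; the counter, the number, the matrix -/
abbrev MSt := (Mt × (Mt × Mt)) × (ℕ × (ZZ × Mt))

/-- the new matrix -/
def stepG (s : MSt) : Mt :=
  (s.1.1.zip (mulT s.1.2.2 s.2.2.2)).map fun p => (p.1.zip p.2).map fun q =>
    zAdd (zMul (2 * (s.2.1 + 1), 0) (zMul s.2.2.1 q.1)) (zMul (4 * (s.2.1 + 1) * s.2.1, 0) q.2)

/-- one step -/
def stepM (s : MSt) : MSt :=
  (s.1, (s.2.1 + 1, (zSum ((s.1.2.1.zip (stepG s)).map fun p => dot p.1 p.2), stepG s)))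

/-- the recursion -/
def momZ (A B : Mt) (D : Un) : ZZ × Mt :=
  (D.foldl (fun s _ => stepM s) ((A, (B, mulT A B)), (0, ((1, 0), A.map fun r => r.map fun _ =>
    (0, 0))))).2.2

/-- shape -/
private def Shp (n : ℕ) (M : Mt) : Prop := M.length = n ∧ ∀ r ∈ M, r.length = n

private theorem getD_zm {β γ δ : Type} (A : List β) (B : List γ) (f : β × γ → δ) (n i : ℕ)
    (hA : A.length = n) (hB : B.length = n) (hi : i < n) (a : β) (b : γ) (d : δ) :
    ((A.zip B).map f).getD i d = f (A.getD i a, B.getD i b) := by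
  have h1 : i < ((A.zip B).map f).length := by simp [hA, hB, hi]
  rw [List.getD_eq_getElem _ _ h1, List.getElem_map, List.getElem_zip,
    List.getD_eq_getElem _ _ (by omega), List.getD_eq_getElem _ _ (by omega)]

private theorem sum_getD {β : Type} (L : List β) (g : β → ℚ) (d : β) :
    (L.map g).sum = ∑ i ∈ Finset.range L.length, g (L.getD i d) := by
  induction L with
  | nil => simp
  | cons a L ih =>
    rw [List.map_cons, List.sum_cons, ih, List.length_cons, Finset.sum_range_succ']
    simp only [List.getD_cons_succ, List.getD_cons_zero]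
    ring

private theorem row_len {n : ℕ} {M : Mt} (h : Shp n M) {i : ℕ} (hi : i < n) :
    (M.getD i []).length = n := by
  rw [List.getD_eq_getElem _ _ (by rw [h.1]; exact hi)]
  exact h.2 _ (List.getElem_mem _)

private theorem shp_mulT {n : ℕ} {A B : Mt} (hA : A.length = n) (hB : B.length = n) :
    Shp n (mulT A B) := by
  refine ⟨by simp [mulT, hA], fun r hr => ?_⟩
  obtain ⟨s, -, rfl⟩ := List.mem_map.1 hr
  simp [hB]

private theorem shp_stepG {n : ℕ} {s : MSt} (hA : Shp n s.1.1) (hC : Shp n s.1.2.2)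
    (hG : Shp n s.2.2.2) : Shp n (stepG s) := by
  have h1 := shp_mulT hC.1 hG.1
  refine ⟨by simp [stepG, hA.1, h1.1], fun r hr => ?_⟩
  obtain ⟨p, hp, rfl⟩ := List.mem_map.1 hr
  have h2 := List.of_mem_zip hp
  simp [hA.2 _ h2.1, h1.2 _ h2.2]

private theorem ent_stepG {n : ℕ} {s : MSt} (hA : Shp n s.1.1) (hC : Shp n s.1.2.2)
    (hG : Shp n s.2.2.2) {i j : ℕ} (hi : i < n) (hj : j < n) :
    ent (stepG s) i j = 2 * ((s.2.1 : ℚ) + 1) * zq s.2.2.1 * ent s.1.1 i j +
      4 * ((s.2.1 : ℚ) + 1) * s.2.1 * ∑ p ∈ Finset.range n, ent s.1.2.2 i p * ent s.2.2.2 j p := by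
  have h1 := shp_mulT hC.1 hG.1
  have h2 : (stepG s).getD i [] = ((s.1.1.getD i []).zip ((mulT s.1.2.2 s.2.2.2).getD i [])).map
      fun q => zAdd (zMul (2 * (s.2.1 + 1), 0) (zMul s.2.2.1 q.1))
        (zMul (4 * (s.2.1 + 1) * s.2.1, 0) q.2) := by
    unfold stepG
    rw [getD_zm _ _ _ n i hA.1 h1.1 hi [] [] []]
  rw [ent, h2, getD_zm _ _ _ n j (row_len hA hi) (row_len h1 hi) hj (0, 0) (0, 0) (0, 0),
    zq_add, zq_mul, zq_mul, zq_mul, ← ent_mulT n _ _ hC hG i j hi hj]
  have e1 : zq (2 * (s.2.1 + 1), 0) = 2 * ((s.2.1 : ℚ) + 1) := by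
    simp [zq]
  have e2 : zq (4 * (s.2.1 + 1) * s.2.1, 0) = 4 * ((s.2.1 : ℚ) + 1) * s.2.1 := by
    simp [zq]
  rw [e1, e2, ent, ent]
  ring

private theorem zq_stepM {n : ℕ} {s : MSt} (hA : Shp n s.1.1) (hB : Shp n s.1.2.1)
    (hC : Shp n s.1.2.2) (hG : Shp n s.2.2.2) :
    zq (stepM s).2.2.1 = ∑ j ∈ Finset.range n, ∑ l ∈ Finset.range n,
      ent s.1.2.1 j l * ent (stepG s) j l := by
  have h1 := shp_stepG hA hC hG
  have h2 : (stepM s).2.2.1 = zSum ((s.1.2.1.zip (stepG s)).map fun p => dot p.1 p.2) := rfl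
  rw [h2, zq_sum, sum_getD _ _ (0, 0)]
  have h3 : ((s.1.2.1.zip (stepG s)).map fun p => dot p.1 p.2).length = n := by
    simp [hB.1, h1.1]
  rw [h3]
  refine Finset.sum_congr rfl fun j hj => ?_
  have hj := Finset.mem_range.1 hj
  rw [getD_zm _ _ _ n j hB.1 h1.1 hj [] [] (0, 0), zq_dot n _ _ (row_len hB hj) (row_len h1 hj)]
  rfl

theorem momZ_spec (n : ℕ) (A B : Mt) (hA : Sq n A) (hB : Sq n B) (D : Un) :
    zq (momZ A B D).1 = (mom n (ent A) (ent B) D.length).1 := by
  have sA : Shp n A := ⟨hA.1, hA.2.1⟩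
  have sB : Shp n B := ⟨hB.1, hB.2.1⟩
  have sC : Shp n (mulT A B) := shp_mulT hA.1 hB.1
  have key : ∀ (D : Un) (d : ℕ) (s : MSt), s.1 = (A, (B, mulT A B)) → s.2.1 = d →
      zq s.2.2.1 = (mom n (ent A) (ent B) d).1 → Shp n s.2.2.2 →
      (∀ i j, i < n → j < n → ent s.2.2.2 i j = (mom n (ent A) (ent B) d).2 i j) →
      zq (D.foldl (fun s _ => stepM s) s).2.2.1 = (mom n (ent A) (ent B) (d + D.length)).1 := by
    intro D
    induction D with
    | nil =>
      intro d s _ _ h3 _ _
      simpa using h3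
    | cons b D ih =>
      intro d s h1 h2 h3 h4 h5
      rw [List.foldl_cons, List.length_cons, show d + (D.length + 1) = (d + 1) + D.length by ring]
      have hA1 : Shp n s.1.1 := by rw [h1]; exact sA
      have hB1 : Shp n s.1.2.1 := by rw [h1]; exact sB
      have hC1 : Shp n s.1.2.2 := by rw [h1]; exact sC
      have hG1 := shp_stepG hA1 hC1 h4
      have e1 : ∀ i j, i < n → j < n → ent (stepG s) i j = (mom n (ent A) (ent B) (d + 1)).2 i j := by
        intro i j hi hj
        rw [ent_stepG hA1 hC1 h4 hi hj, h3, h2, h1, mom]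
        simp only
        congr 2
        refine Finset.sum_congr rfl fun p hp => ?_
        have hp := Finset.mem_range.1 hp
        rw [ent_mulT n A B sA sB i p hi hp, h5 j p hj hp]
        congr 1
        exact Finset.sum_congr rfl fun q _ => by rw [hB.2.2 p q]
      refine ih (d + 1) (stepM s) h1 (by rw [← h2]; rfl) ?_ hG1 e1
      rw [zq_stepM hA1 hB1 hC1 h4, h1, mom]
      simp only
      refine Finset.sum_congr rfl fun j hj => Finset.sum_congr rfl fun l hl => ?_
      rw [e1 j l (Finset.mem_range.1 hj) (Finset.mem_range.1 hl), mom]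
  have h := key D 0 ((A, (B, mulT A B)), (0, ((1, 0), A.map fun r => r.map fun _ => (0, 0))))
    rfl rfl (by simp [zq, mom]) ⟨by simp [hA.1], fun r hr => by
      obtain ⟨s, hs, rfl⟩ := List.mem_map.1 hr
      simp [hA.2.1 s hs]⟩ (fun i j hi hj => by
      have h1 : i < (A.map fun r => r.map fun _ => ((0, 0) : ZZ)).length := by
        simp [hA.1, hi]
      rw [ent, List.getD_eq_getElem _ _ h1, List.getElem_map]
      have h2 : j < ((A[i]'(by rw [hA.1]; exact hi)).map fun _ => ((0, 0) : ZZ)).length := by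
        rw [List.length_map, hA.2.1 _ (List.getElem_mem _)]
        exact hj
      rw [List.getD_eq_getElem _ _ h2, List.getElem_map]
      simp [zq, mom])
  rw [zero_add] at h
  exact h

end Pool.Agent.PQ
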