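import Pool.Agent.PQ.Mom

set_option autoImplicit false

/-!
PQ-Nrm. The truncated zero test by positivity.

Plan: `W = ∑ c_ν (qf n A_ν)^D`. `sc0 w (qf n A) = qf n (scl w A)`, so
`nrm n D F w = fip (sc0 w W) W = ∑ m, w ^ m 0 * (mfac m * coeff m W ^ 2)` (`fip_sc0`), a polynomial
`∑ p_j w^j` in `w` of degree at most `2 D` with coefficients `p_j ≥ 0`, and `p_j = 0` iff
`coeff m W = 0` for all `m` with `m 0 = j`. The finite difference `fdiff j` of `w^i` at zero is `0` for `i < j`
and `j!` for `i = j`; so `fdiff j = 0` for all `j` in `[T, 2D]` iff all `p_j`, `j ≥ T`, vanish (the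
largest `j` with `p_j ≠ 0` gives a contradiction).
-/

namespace Pool.Agent.PQ

open MvPolynomial

/-- the polynomial of a list of powers -/
noncomputable def pwr (n D : ℕ) (F : List (ℚ × (ℕ → ℕ → ℚ))) : MvPolynomial ℕ ℚ :=
  (F.map fun p => C p.1 * qf n p.2 ^ D).sum

private theorem nrm_sc0_qf (n : ℕ) (A : ℕ → ℕ → ℚ) (w : ℚ) :
    sc0 w (qf n A) = qf n (scl w A) := by
  unfold qf
  rw [map_sum]
  refine Finset.sum_congr rfl fun i _ => ?_
  rw [map_sum]
  refine Finset.sum_congr rfl fun j _ => ?_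
  have hX : ∀ k : ℕ, sc0 w (X k) = C (if k = 0 then w else 1) * X k := by
    intro k
    unfold sc0
    rw [aeval_X]
    split_ifs with hk
    · rw [hk]
    · rw [C_1, one_mul]
  have hC : ∀ c : ℚ, sc0 w (C c) = C c := fun c => by
    rw [← algebraMap_eq, AlgHom.commutes]
  rw [map_mul, map_mul, hX, hX, hC]
  unfold scl
  rw [C_mul, C_mul]
  ring

theorem nrm_eq (n D : ℕ) (F : List (ℚ × (ℕ → ℕ → ℚ)))
    (hF : ∀ p ∈ F, ∀ i j, p.2 i j = p.2 j i) (w : ℚ) :
    nrm n D F w = ∑ m ∈ (pwr n D F).support, w ^ m 0 * (mfac m * coeff m (pwr n D F) ^ 2) := by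
  have h1 : sc0 w (pwr n D F) = (F.map fun p => C p.1 * qf n (scl w p.2) ^ D).sum := by
    unfold pwr
    rw [map_list_sum, List.map_map]
    congr 1
    refine List.map_congr_left fun p _ => ?_
    rw [Function.comp_apply, map_mul, map_pow, nrm_sc0_qf]
    congr 1
    rw [← algebraMap_eq, AlgHom.commutes]
  rw [← fip_sc0, h1, fip_list_left, List.map_map]
  unfold nrm
  congr 1
  refine List.map_congr_left fun p hp => ?_
  rw [Function.comp_apply]
  unfold pwr
  rw [fip_list_right, List.map_map]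
  congr 1
  refine List.map_congr_left fun q hq => ?_
  rw [Function.comp_apply, fip_C_left, fip_C_right, mom_spec n (scl w p.2) q.2 ?_ (hF q hq) D]
  · ring
  · intro i j
    unfold scl
    rw [hF p hp i j]
    ring

theorem pwr_homogeneous (n D : ℕ) (F : List (ℚ × (ℕ → ℕ → ℚ))) :
    (pwr n D F).IsHomogeneous (2 * D) := by
  have hq : ∀ A : ℕ → ℕ → ℚ, (qf n A).IsHomogeneous 2 := by
    intro A
    unfold qf
    refine IsHomogeneous.sum _ _ _ fun i _ => IsHomogeneous.sum _ _ _ fun j _ => ?_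
    exact ((isHomogeneous_X ℚ i).mul (isHomogeneous_X ℚ j)).C_mul _
  unfold pwr
  induction F with
  | nil =>
    rw [List.map_nil, List.sum_nil]
    exact isHomogeneous_zero _ _ _
  | cons p F ih =>
    rw [List.map_cons, List.sum_cons]
    exact (((hq p.2).pow D).C_mul _).add ih

private theorem nrm_fdiff_iter (j : ℕ) (f : ℚ → ℚ) :
    fdiff j (fun w => f w) = (fwdDiff (1 : ℚ))^[j] f 0 := by
  rw [fwdDiff_iter_eq_sum_shift]
  unfold fdiff
  refine Finset.sum_congr rfl fun i _ => ?_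
  rw [zero_add, nsmul_eq_mul, mul_one, zsmul_eq_mul]
  push_cast
  ring

theorem fdiff_pow_lt {i j : ℕ} (h : i < j) : fdiff j (fun w => (w : ℚ) ^ i) = 0 := by
  rw [nrm_fdiff_iter j (fun x : ℚ => x ^ i), fwdDiff_iter_pow_eq_zero_of_lt h]
  rfl

theorem fdiff_pow_self (j : ℕ) : fdiff j (fun w => (w : ℚ) ^ j) = (j.factorial : ℚ) := by
  rw [nrm_fdiff_iter j (fun x : ℚ => x ^ j), fwdDiff_iter_eq_factorial]
  rfl

private theorem nrm_fdiff_sum {ι : Type*} (s : Finset ι) (c : ι → ℚ) (e : ι → ℕ) (j : ℕ) :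
    fdiff j (fun w => ∑ m ∈ s, (w : ℚ) ^ e m * c m) =
      ∑ m ∈ s, fdiff j (fun w => (w : ℚ) ^ e m) * c m := by
  unfold fdiff
  simp only [Finset.mul_sum, Finset.sum_mul]
  rw [Finset.sum_comm]
  refine Finset.sum_congr rfl fun m _ => Finset.sum_congr rfl fun i _ => ?_
  ring

/-- **the truncated zero test** -/
theorem nrm_test (n D T : ℕ) (F : List (ℚ × (ℕ → ℕ → ℚ)))
    (hF : ∀ p ∈ F, ∀ i j, p.2 i j = p.2 j i) :
    (∀ j ∈ Finset.range (2 * D + 1), T ≤ j → fdiff j (fun w => nrm n D F w) = 0) ↔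
      ∀ m, T ≤ m 0 → coeff m (pwr n D F) = 0 := by
  classical
  have h1 : ∀ j, fdiff j (fun w => nrm n D F w) = ∑ m ∈ (pwr n D F).support,
      fdiff j (fun w => (w : ℚ) ^ m 0) * (mfac m * coeff m (pwr n D F) ^ 2) := by
    intro j
    rw [← nrm_fdiff_sum]
    congr 1
    funext w
    exact nrm_eq n D F hF w
  constructor
  · intro h m hm
    by_contra hcon
    have hS : ((pwr n D F).support.filter fun m => T ≤ m 0).Nonempty :=
      ⟨m, Finset.mem_filter.2 ⟨mem_support_iff.2 hcon, hm⟩⟩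
    obtain ⟨M, hM, hmax⟩ := Finset.exists_max_image _ (fun m : ℕ →₀ ℕ => m 0) hS
    rw [Finset.mem_filter, mem_support_iff] at hM
    have hJ : M 0 ≤ 2 * D := by
      have h2 : M.degree = 2 * D := by
        by_contra hne
        exact hM.1 ((pwr_homogeneous n D F).coeff_eq_zero hne)
      rw [← h2]
      exact Finsupp.le_degree 0 M
    have h3 := h (M 0) (Finset.mem_range.2 (by omega)) hM.2
    rw [h1] at h3
    have h4 : ∀ m ∈ (pwr n D F).support,
        0 ≤ fdiff (M 0) (fun w => (w : ℚ) ^ m 0) * (mfac m * coeff m (pwr n D F) ^ 2) := by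
      intro m hm
      have h5 : 0 ≤ mfac m * coeff m (pwr n D F) ^ 2 :=
        mul_nonneg (mfac_pos m).le (sq_nonneg _)
      refine mul_nonneg ?_ h5
      rcases lt_trichotomy (m 0) (M 0) with h6 | h6 | h6
      · rw [fdiff_pow_lt h6]
      · rw [h6, fdiff_pow_self]
        positivity
      · exact absurd (hmax m (Finset.mem_filter.2 ⟨hm, by omega⟩)) (by omega)
    have h7 := (Finset.sum_eq_zero_iff_of_nonneg h4).1 h3 M (mem_support_iff.2 hM.1)
    rw [fdiff_pow_self] at h7
    have h8 : (0 : ℚ) < (M 0).factorial * (mfac M * coeff M (pwr n D F) ^ 2) := by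
      have := mfac_pos M
      have h9 : 0 < coeff M (pwr n D F) ^ 2 := by
        have := hM.1
        positivity
      positivity
    rw [h7] at h8
    exact lt_irrefl _ h8
  · intro h j _ hj
    rw [h1]
    refine Finset.sum_eq_zero fun m hm => ?_
    have h2 : m 0 < T := by
      by_contra hcon
      exact mem_support_iff.1 hm (h m (not_lt.1 hcon))
    rw [fdiff_pow_lt (h2.trans_le hj), zero_mul]

end Pool.Agent.PQ
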