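import Pool.Agent.PQ.QFp
import Pool.Agent.PQ.Nrm
import Pool.Agent.PQ.MomF
import Pool.Agent.PQ.FQx

set_option autoImplicit false

/-!
The truncated zero test for sums of `D`-th powers of quadratic forms, in polynomial time.
-/

namespace Pool.Agent.PQ

open MvPolynomial N487b59b3 N68a2faeb Pool.Agent.Helper22 Pool.Agent.Helper6.WB
  Pool.Agent.Helper6.SP

variable {α : Type} [N487b59b3 α]

private theorem mom_snd (n : ℕ) (A B : ℕ → ℕ → ℚ) (d j l : ℕ) :
    (mom n A B (d + 1)).2 j l = 2 * (d + 1) * (mom n A B d).1 * A j l +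
      4 * (d + 1) * d * ∑ p ∈ Finset.range n,
        (∑ s ∈ Finset.range n, A j s * B s p) * (mom n A B d).2 l p := rfl

private theorem mom_fst (n : ℕ) (A B : ℕ → ℕ → ℚ) (d : ℕ) :
    (mom n A B (d + 1)).1 = ∑ j ∈ Finset.range n, ∑ l ∈ Finset.range n,
      B j l * (mom n A B (d + 1)).2 j l := rfl

private theorem mom_hom (n : ℕ) (A B : ℕ → ℕ → ℚ) (c c' : ℚ) (d : ℕ) :
    (mom n (fun i j => c * A i j) (fun i j => c' * B i j) d).1 =
      (c * c') ^ d * (mom n A B d).1 ∧
    ∀ j l, (c * c') * d * (mom n (fun i j => c * A i j) (fun i j => c' * B i j) d).2 j l =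
      c * (c * c') ^ d * d * (mom n A B d).2 j l := by
  induction d with
  | zero => simp [mom]
  | succ d ih =>
    obtain ⟨h1, h2⟩ := ih
    have hG : ∀ j l, (mom n (fun i j => c * A i j) (fun i j => c' * B i j) (d + 1)).2 j l =
        c * (c * c') ^ d * (mom n A B (d + 1)).2 j l := by
      intro j l
      rw [mom_snd, mom_snd, h1]
      have h3 : 4 * ((d : ℚ) + 1) * d * ∑ p ∈ Finset.range n,
          (∑ s ∈ Finset.range n, c * A j s * (c' * B s p)) *
            (mom n (fun i j => c * A i j) (fun i j => c' * B i j) d).2 l p =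
          4 * ((d : ℚ) + 1) * ∑ p ∈ Finset.range n,
          (∑ s ∈ Finset.range n, A j s * B s p) * (c * (c * c') ^ d * d * (mom n A B d).2 l p) := by
        rw [mul_assoc, Finset.mul_sum]
        congr 1
        refine Finset.sum_congr rfl fun p _ => ?_
        rw [← h2 l p]
        have h4 : ∑ s ∈ Finset.range n, c * A j s * (c' * B s p) =
            (c * c') * ∑ s ∈ Finset.range n, A j s * B s p := by
          rw [Finset.mul_sum]
          exact Finset.sum_congr rfl fun s _ => by ring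
        rw [h4]
        ring
      have h5 : ∑ p ∈ Finset.range n,
          (∑ s ∈ Finset.range n, A j s * B s p) * (c * (c * c') ^ d * d * (mom n A B d).2 l p) =
          c * (c * c') ^ d * d * ∑ p ∈ Finset.range n,
          (∑ s ∈ Finset.range n, A j s * B s p) * (mom n A B d).2 l p := by
        rw [Finset.mul_sum]
        exact Finset.sum_congr rfl fun p _ => by ring
      rw [h3, h5]
      ring
    refine ⟨?_, fun j l => ?_⟩
    · rw [mom_fst, mom_fst, Finset.mul_sum]
      refine Finset.sum_congr rfl fun j _ => ?_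
      rw [Finset.mul_sum]
      refine Finset.sum_congr rfl fun l _ => ?_
      rw [hG]
      ring
    · rw [hG]
      push_cast
      ring

/-- homogeneity of the moments -/
theorem mom_smul (n : ℕ) (A B : ℕ → ℕ → ℚ) (hA : ∀ i j, A i j = A j i)
    (hB : ∀ i j, B i j = B j i) (c c' : ℚ) (D : ℕ) :
    (mom n (fun i j => c * A i j) (fun i j => c' * B i j) D).1 =
      (c * c') ^ D * (mom n A B D).1 :=
  (mom_hom n A B c c' D).1

private theorem fq_zq {f : α → ZZ} (hf : FP f) : FQ fun a => zq (f a) :=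
  ((FQ.ofNat hf.fst').sub (FQ.ofNat hf.snd')).congr fun a => rfl

private theorem fq_toQ {f : α → El} (hf : FP f) : FQ fun a => toQ (f a) :=
  (((FQ.ofNat hf.fst'.fst').sub (FQ.ofNat hf.fst'.snd')).mul (FQ.inv (FQ.ofNat hf.snd'))).congr
    fun a => by rw [toQ, div_eq_mul_inv]

private theorem term_eq (n : ℕ) (p q : QM) (hp : p.2 ≠ 0) (hq : q.2 ≠ 0) (hp' : Sq n p.1)
    (hq' : Sq n q.1) (w : ℕ) (D : Un) :
    (((p.2 : ℚ) * (q.2 : ℚ))⁻¹) ^ D.length * zq (momZ (qScl w p).1 q.1 D).1 =
      (mom n (scl w (eq p)) (eq q) D.length).1 := by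
  obtain ⟨h1, h2, h3⟩ := qScl_spec hp hp' w
  rw [momZ_spec n _ _ h2 hq' D]
  have h4 : scl (w : ℚ) (eq p) = fun i j => (p.2 : ℚ)⁻¹ * ent (qScl w p).1 i j := by
    funext i j
    rw [← h3 i j, eq, div_eq_inv_mul]
    rfl
  have h5 : eq q = fun i j => (q.2 : ℚ)⁻¹ * ent q.1 i j := by
    funext i j
    rw [eq, div_eq_inv_mul]
  rw [h4, h5, mom_smul n _ _ h2.2.2 hq'.2.2, mul_inv]

/-- the norm as a quotient computed in polynomial time -/
theorem exists_nrmZ {D : α → Un} {n : α → Un} {F : α → List (El × QM)} {w : α → ℕ}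
    (hD : FP D) (hn : FP n) (hF : FP F) (hw : FP w) : ∃ g : α → ℚ, FQ g ∧ ∀ a,
      (∀ p ∈ F a, p.1.2 ≠ 0 ∧ p.2.2 ≠ 0 ∧ Sq (n a).length p.2.1) →
      g a = nrm (n a).length (D a).length ((F a).map fun p => (toQ p.1, eq p.2)) (w a) := by
  have hh : FQ fun x : (α × (El × QM)) × (El × QM) =>
      toQ x.1.2.1 * toQ x.2.1 * ((((x.1.2.2.2 : ℚ) * (x.2.2.2 : ℚ))⁻¹) ^ (D x.1.1).length *
        zq (momZ (qScl (w x.1.1) x.1.2.2).1 x.2.2.1 (D x.1.1)).1) := by
    have hx : FP fun x : (α × (El × QM)) × (El × QM) => x.1 := FP.fst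
    have hy : FP fun x : (α × (El × QM)) × (El × QM) => x.2 := FP.snd
    refine ((fq_toQ hx.snd'.fst').mul (fq_toQ hy.fst')).mul ((FQ.powU (FQ.inv
      ((FQ.ofNat hx.snd'.snd'.snd').mul (FQ.ofNat hy.snd'.snd'))) (hD.comp hx.fst')).mul
      (fq_zq ?_))
    exact (fp_momZ (fp_qScl (hw.comp hx.fst') hx.snd'.snd').fst' hy.snd'.fst'
      (hD.comp hx.fst')).fst'
  have h1 := (FQ.listSum hh).comp (f := fun y : (α × (El × QM)) × List (El × QM) =>
    (y.2.map fun b => _).sum) (FP.pair (FP.id (α := α × (El × QM))) (hF.comp FP.fst))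
  have h2 := (FQ.listSum h1).comp (FP.pair (FP.id (α := α)) hF)
  refine ⟨_, h2, fun a ha => ?_⟩
  rw [nrm, List.map_map]
  congr 1
  refine List.map_congr_left fun p hp => ?_
  simp only [Function.comp, List.map_map]
  congr 1
  refine List.map_congr_left fun q hq => ?_
  simp only [Function.comp]
  rw [term_eq (n a).length p.2 q.2 (ha p hp).2.1 (ha q hq).2.1 (ha p hp).2.2 (ha q hq).2.2
    (w a) (D a)]

/-! ### Unary forms of small numbers -/

private def unr (N : Un) (i : ℕ) : Un :=
  (List.range N.length).flatMap fun x => if decide (i ≤ x) then [] else [true]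

private theorem unr_length_aux (n i : ℕ) :
    ((List.range n).flatMap fun x => if decide (i ≤ x) then ([] : Un) else [true]).length =
      min i n := by
  induction n with
  | zero => simp
  | succ n ih =>
    rw [List.range_succ, List.flatMap_append, List.length_append, ih]
    by_cases h : i ≤ n
    · simp [h]
      omega
    · simp [h]
      omega

private theorem unr_length {N : Un} {i : ℕ} (h : i ≤ N.length) : (unr N i).length = i := by
  rw [unr, unr_length_aux]
  omega

private theorem fp_unr {N : α → Un} {i : α → ℕ} (hN : FP N) (hi : FP i) :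
    FP fun a => unr (N a) (i a) := by
  have h1 : FP fun x : α × ℕ => if decide (i x.1 ≤ x.2) then ([] : Un) else [true] :=
    FP.ite (Helper47.TR.FP.natLe (hi.comp FP.fst) FP.snd) (FP.const _) (FP.const _)
  exact fp_flatMap (FP.range hN) h1

private theorem sum_list_range (N : ℕ) (f : ℕ → ℚ) :
    ((List.range N).map f).sum = ∑ i ∈ Finset.range N, f i := by
  induction N with
  | zero => simp
  | succ N ih => rw [List.range_succ, List.map_append, List.sum_append, ih,
      Finset.sum_range_succ]; simp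

private theorem fdiff_eq (N j : ℕ) (hj : j < N) (P : ℕ → ℚ) :
    ((List.range N).map fun i => (-1) ^ j * (-1) ^ i * (j.choose i : ℚ) * P i).sum =
      fdiff j P := by
  rw [sum_list_range, fdiff]
  have h1 : Finset.range (j + 1) ⊆ Finset.range N := by
    intro i hi
    rw [Finset.mem_range] at hi ⊢
    omega
  rw [← Finset.sum_subset h1]
  · refine Finset.sum_congr rfl fun i hi => ?_
    rw [Finset.mem_range] at hi
    have h2 : ((-1 : ℚ)) ^ j = (-1) ^ (j - i) * (-1) ^ i := by
      rw [← pow_add, Nat.sub_add_cancel (by omega)]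
    have h3 : ((-1 : ℚ)) ^ i * (-1) ^ i = 1 := by
      rw [← mul_pow]
      norm_num
    rw [h2, mul_assoc ((-1 : ℚ) ^ (j - i)), h3, mul_one]
  · intro i _ hi
    rw [Finset.mem_range] at hi
    rw [Nat.choose_eq_zero_of_lt (by omega)]
    simp

private def lg (D : Un) : Un := true :: (D ++ D)

private theorem lg_length (D : Un) : (lg D).length = 2 * D.length + 1 := by
  simp only [lg, List.length_cons, List.length_append]
  ring

private theorem fp_lg {D : α → Un} (hD : FP D) : FP fun a => lg (D a) :=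
  FP.cons (FP.const true) (FP.append hD hD)

private def tst (D : α → Un) (g : (α × ℕ) × ℕ → ℚ) (y : α × ℕ) : ℚ :=
  ((List.range (lg (D y.1)).length).map fun i => (-1) ^ (unr (lg (D y.1)) y.2).length *
      (-1) ^ (unr (lg (D y.1)) i).length * (((unr (lg (D y.1)) y.2).length.choose
        (unr (lg (D y.1)) i).length : ℕ) : ℚ) * g (y, i)).sum

private theorem fq_aux {u v : α → Un} {g : α → ℚ} (hu : FP u) (hv : FP v) (hg : FQ g) :
    FQ fun a => (-1) ^ (u a).length * (-1) ^ (v a).length *
      (((u a).length.choose (v a).length : ℕ) : ℚ) * g a := by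
  have h1 := FQ.powU (FQ.const (α := α) (-1)) hu
  have h2 := FQ.powU (FQ.const (α := α) (-1)) hv
  have h3 := FQ.chooseU hu hv
  exact ((h1.mul h2).mul h3).mul hg

private theorem fq_tst {D : α → Un} {g : (α × ℕ) × ℕ → ℚ} (hD : FP D) (hg : FQ g) :
    FQ (tst D g) := by
  have hx : FP fun x : (α × ℕ) × ℕ => x.1 := FP.fst
  have huj : FP fun x : (α × ℕ) × ℕ => unr (lg (D x.1.1)) x.1.2 :=
    fp_unr (fp_lg (hD.comp hx.fst')) hx.snd'
  have hui : FP fun x : (α × ℕ) × ℕ => unr (lg (D x.1.1)) x.2 :=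
    fp_unr (fp_lg (hD.comp hx.fst')) FP.snd
  have h1 := FQ.listSum (fq_aux huj hui hg)
  have h2 : FP fun y : α × ℕ => (y, List.range (lg (D y.1)).length) :=
    FP.pair FP.id (FP.range (fp_lg (hD.comp FP.fst)))
  have h3 := h1.comp h2
  refine h3.congr fun y => ?_
  rw [tst]

private theorem tst_eq (D : α → Un) (g : (α × ℕ) × ℕ → ℚ) (a : α) (j : ℕ)
    (hj : j < (lg (D a)).length) (P : ℕ → ℚ) (h : ∀ i, g ((a, j), i) = P i) :
    tst D g (a, j) = fdiff j P := by
  rw [← fdiff_eq _ j hj, tst]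
  congr 1
  refine List.map_congr_left fun i hi => ?_
  rw [List.mem_range] at hi
  rw [unr_length hj.le, unr_length hi.le, h]

theorem exists_pwrTest {D T : α → Un} {n : α → Un} {F : α → List (El × QM)}
    (hD : FP D) (hT : FP T) (hn : FP n) (hF : FP F) : ∃ g : α → Bool, FP g ∧ ∀ a,
      (∀ p ∈ F a, p.1.2 ≠ 0 ∧ p.2.2 ≠ 0 ∧ Sq (n a).length p.2.1) →
      (g a = true ↔ ∀ m, (T a).length ≤ m 0 →
        coeff m (((F a).map fun p => C (toQ p.1) * qm (n a).length p.2 ^ (D a).length).sum) = 0) := by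
  have hx : FP fun x : (α × ℕ) × ℕ => x.1 := FP.fst
  obtain ⟨g, hg, hgs⟩ := exists_nrmZ (α := (α × ℕ) × ℕ) (D := fun x => D x.1.1)
    (n := fun x => n x.1.1) (F := fun x => F x.1.1) (w := fun x => x.2) (hD.comp hx.fst')
    (hn.comp hx.fst') (hF.comp hx.fst') FP.snd
  have h1 : FP fun x : α × ℕ => decide ((T x.1).length ≤ x.2) :=
    Helper47.TR.FP.natLe (Helper47.TR.FP.length (hT.comp FP.fst)) FP.snd
  have h1' : FP fun x : α × ℕ => decide (tst D g x = 0) := (fq_tst hD hg).eqZero
  have h1'' : FP fun x : α × ℕ => decide ((T x.1).length ≤ x.2) && !(decide (tst D g x = 0)) :=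
    FP.and h1 (FP.not h1')
  have h2 : FP fun a => !((List.range (lg (D a)).length).any fun j =>
      decide ((T a).length ≤ j) && !(decide (tst D g (a, j) = 0))) :=
    FP.not (fp_any (FP.range (fp_lg hD)) h1'')
  refine ⟨_, h2, fun a ha => ?_⟩
  have hF' : ∀ p ∈ (F a).map (fun p => (toQ p.1, eq p.2)), ∀ i j, p.2 i j = p.2 j i := by
    intro p hp i j
    obtain ⟨q, hq, rfl⟩ := List.mem_map.mp hp
    simp only [eq]
    rw [(ha q hq).2.2.2.2 i j]
  have h3 := nrm_test (n a).length (D a).length (T a).length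
    ((F a).map fun p => (toQ p.1, eq p.2)) hF'
  have h4 : pwr (n a).length (D a).length ((F a).map fun p => (toQ p.1, eq p.2)) =
      ((F a).map fun p => C (toQ p.1) * qm (n a).length p.2 ^ (D a).length).sum := by
    rw [pwr, List.map_map]
    rfl
  rw [h4] at h3
  rw [← h3]
  have h5 : ∀ j, j < (lg (D a)).length → tst D g (a, j) =
      fdiff j (fun w => nrm (n a).length (D a).length ((F a).map fun p => (toQ p.1, eq p.2)) w) :=
    fun j hj => tst_eq D g a j hj _ fun i => hgs ((a, j), i) ha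
  have h6 := lg_length (D a)
  rw [Bool.not_eq_true', Bool.eq_false_iff, Ne, List.any_eq_true]
  constructor
  · intro h j hj hT'
    by_contra hne
    rw [Finset.mem_range] at hj
    refine h ⟨j, ?_, ?_⟩
    · rw [List.mem_range]
      omega
    · rw [h5 j (by omega)]
      simp [hT', hne]
  · rintro h ⟨j, hj, hb⟩
    rw [List.mem_range] at hj
    rw [h5 j hj] at hb
    rw [Bool.and_eq_true, decide_eq_true_eq, Bool.not_eq_true', decide_eq_false_iff_not] at hb
    refine hb.2 (h j ?_ hb.1)
    rw [Finset.mem_range]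
    omega

end Pool.Agent.PQ
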