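import Pool.Agent.PQ.Defs

set_option autoImplicit false

/-!
PQ-Pol. The polarisation identity.

Plan: for a list `l` of pairs `(y_t, e_t)` with `∑ e_t = D`:
`∑_{(c, s) ∈ pol l} c s^D = D! ∏ y_t^(e_t)`. One way: in `A⟦X⟧` (PowerSeries) show by induction on `l` that
`∑_{(c,s) ∈ pol l} c • exp(s X) = ∏ (exp(y_t X) - 1)^(e_t)` (binomial theorem for one element), and
compare the coefficients of `X^D`: `exp(y X) - 1 = y X * (unit with constant term 1)`. Another way: multinomial theorem and
`∑_f (-1)^(e-f) choose(e,f) f^g = 0` for `g < e`, `= e!` for `g = e`.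
-/

namespace Pool.Agent.PQ

private theorem pol_aux1 {i e : ℕ} (h : i ≤ e) :
    ∑ f ∈ Finset.range (e + 1), ((-1 : ℚ) ^ (e - f) * (e.choose f : ℚ)) * (f : ℚ) ^ i
      = if i = e then (e.factorial : ℚ) else 0 := by
  have h1 : ∑ f ∈ Finset.range (e + 1), ((-1 : ℚ) ^ (e - f) * (e.choose f : ℚ)) * (f : ℚ) ^ i
      = (fwdDiff (1 : ℚ))^[e] (fun r : ℚ => r ^ i) 0 := by
    rw [fwdDiff_iter_eq_sum_shift]
    refine Finset.sum_congr rfl fun f _ => ?_
    rw [zsmul_eq_mul]
    push_cast
    simp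
  rw [h1]
  by_cases hie : i = e
  · subst hie
    rw [fwdDiff_iter_eq_factorial, if_pos rfl]
    simp
  · rw [fwdDiff_iter_pow_eq_zero_of_lt (lt_of_le_of_ne h hie), if_neg hie]
    simp

section

variable {A : Type*} [CommRing A] [Algebra ℚ A]

private noncomputable def polD (l : List (A × ℕ)) (d : ℕ) : A :=
  ((pol l).map fun p => (p.1 / (d.factorial : ℚ)) • p.2 ^ d).sum

private theorem pol_aux2 (c w : ℚ) (s y : A) (f d : ℕ) :
    ((c * w / (d.factorial : ℚ)) • (f • y + s) ^ d)
      = ∑ i ∈ Finset.range (d + 1), ((w * (f : ℚ) ^ i) / (i.factorial : ℚ)) •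
        (y ^ i * ((c / ((d - i).factorial : ℚ)) • s ^ (d - i))) := by
  rw [add_pow, Finset.smul_sum]
  refine Finset.sum_congr rfl fun i hi => ?_
  have hi' : i ≤ d := Nat.lt_succ_iff.1 (Finset.mem_range.1 hi)
  have h2 : ((d.choose i : ℕ) : ℚ) = (d.factorial : ℚ) / (i.factorial * (d - i).factorial) :=
    Nat.cast_choose ℚ hi'
  have h3 : ((d.choose i : ℕ) : A) = algebraMap ℚ A ((d.choose i : ℕ) : ℚ) := by
    rw [map_natCast]
  have h4 : (f : A) = algebraMap ℚ A (f : ℚ) := by rw [map_natCast]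
  rw [h3, nsmul_eq_mul, h4, mul_pow, ← map_pow, mul_smul_comm, smul_smul]
  rw [show algebraMap ℚ A ((f : ℚ) ^ i) * y ^ i * s ^ (d - i) * algebraMap ℚ A
    ((d.choose i : ℕ) : ℚ) = algebraMap ℚ A ((f : ℚ) ^ i * ((d.choose i : ℕ) : ℚ))
      * (y ^ i * s ^ (d - i)) by rw [map_mul]; ring, ← Algebra.smul_def, smul_smul, h2]
  congr 1
  have h5 : (d.factorial : ℚ) ≠ 0 := Nat.cast_ne_zero.2 d.factorial_ne_zero
  have h6 : (i.factorial : ℚ) ≠ 0 := Nat.cast_ne_zero.2 i.factorial_ne_zero
  have h7 : ((d - i).factorial : ℚ) ≠ 0 := Nat.cast_ne_zero.2 (d - i).factorial_ne_zero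
  field_simp

omit [Algebra ℚ A] in
private theorem pol_aux3 {α : Type*} (l : List α) (g : ℕ → α → A) (n : ℕ) :
    (l.map fun a => ∑ i ∈ Finset.range n, g i a).sum
      = ∑ i ∈ Finset.range n, (l.map (g i)).sum := by
  induction l with
  | nil => simp
  | cons a l ih =>
    rw [List.map_cons, List.sum_cons, ih, ← Finset.sum_add_distrib]
    exact Finset.sum_congr rfl fun i _ => by rw [List.map_cons, List.sum_cons]

private theorem pol_aux4 {α : Type*} (l : List α) (c : ℚ) (y : A) (g : α → A) :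
    (l.map fun a => c • (y * g a)).sum = c • (y * (l.map g).sum) := by
  induction l with
  | nil => simp
  | cons a l ih =>
    rw [List.map_cons, List.sum_cons, ih, List.map_cons, List.sum_cons, mul_add, smul_add]

omit [Algebra ℚ A] in
private theorem pol_aux5 {α β : Type*} (l : List α) (g : α → List β) (h : β → A) :
    ((l.flatMap g).map h).sum = (l.map fun a => ((g a).map h).sum).sum := by
  induction l with
  | nil => simp
  | cons a l ih => rw [List.flatMap_cons, List.map_append, List.sum_append, ih, List.map_cons,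
      List.sum_cons]

omit [Algebra ℚ A] in
private theorem pol_aux6 (n : ℕ) (g : ℕ → A) :
    ((List.range n).map g).sum = ∑ i ∈ Finset.range n, g i := by
  induction n with
  | zero => simp
  | succ n ih => rw [List.range_succ, List.map_append, List.sum_append, ih,
      Finset.sum_range_succ]; simp

private theorem pol_aux7 (y : A) (e : ℕ) (l : List (A × ℕ)) (d : ℕ) :
    polD ((y, e) :: l) d = ∑ i ∈ Finset.range (d + 1),
      ((∑ f ∈ Finset.range (e + 1), ((-1 : ℚ) ^ (e - f) * (e.choose f : ℚ))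
        * (f : ℚ) ^ i) / (i.factorial : ℚ)) • (y ^ i * polD l (d - i)) := by
  rw [polD, pol, pol_aux5]
  have h1 : ∀ p : ℚ × A, ((((List.range (e + 1)).map fun f =>
      (p.1 * (-1) ^ (e - f) * (e.choose f : ℚ), f • y + p.2)).map fun p : ℚ × A =>
        (p.1 / (d.factorial : ℚ)) • p.2 ^ d)).sum
      = ∑ i ∈ Finset.range (d + 1),
      ((∑ f ∈ Finset.range (e + 1), ((-1 : ℚ) ^ (e - f) * (e.choose f : ℚ))
        * (f : ℚ) ^ i) / (i.factorial : ℚ)) •
          (y ^ i * ((p.1 / ((d - i).factorial : ℚ)) • p.2 ^ (d - i))) := by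
    intro p
    rw [List.map_map, pol_aux6]
    have h2 : ∀ f ∈ Finset.range (e + 1), ((fun p : ℚ × A => (p.1 / (d.factorial : ℚ)) • p.2 ^ d)
        ∘ fun f => (p.1 * (-1) ^ (e - f) * (e.choose f : ℚ), f • y + p.2)) f
        = ∑ i ∈ Finset.range (d + 1), ((((-1 : ℚ) ^ (e - f) * (e.choose f : ℚ)) * (f : ℚ) ^ i)
          / (i.factorial : ℚ)) • (y ^ i * ((p.1 / ((d - i).factorial : ℚ)) • p.2 ^ (d - i))) := by
      intro f _
      rw [← pol_aux2, ← mul_assoc]
      rfl
    rw [Finset.sum_congr rfl h2, Finset.sum_comm]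
    refine Finset.sum_congr rfl fun i _ => ?_
    rw [← Finset.sum_smul, Finset.sum_div]
  rw [show (fun p : ℚ × A => ((((List.range (e + 1)).map fun f =>
      (p.1 * (-1) ^ (e - f) * (e.choose f : ℚ), f • y + p.2)).map fun p : ℚ × A =>
        (p.1 / (d.factorial : ℚ)) • p.2 ^ d)).sum) = _ from funext h1, pol_aux3]
  refine Finset.sum_congr rfl fun i _ => ?_
  rw [pol_aux4, polD]

private theorem pol_aux8 (l : List (A × ℕ)) :
    (∀ d < (l.map Prod.snd).sum, polD l d = 0) ∧
      polD l (l.map Prod.snd).sum = (l.map fun q => q.1 ^ q.2).prod := by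
  induction l with
  | nil => simp [polD, pol]
  | cons q l ih =>
    obtain ⟨h1, h2⟩ := ih
    obtain ⟨y, e⟩ := q
    have h3 : (e.factorial : ℚ) ≠ 0 := Nat.cast_ne_zero.2 e.factorial_ne_zero
    rw [List.map_cons, List.sum_cons]
    constructor
    · intro d hd
      rw [pol_aux7]
      refine Finset.sum_eq_zero fun i hi => ?_
      have hi' : i ≤ d := Nat.lt_succ_iff.1 (Finset.mem_range.1 hi)
      by_cases h : i < e
      · rw [pol_aux1 h.le, if_neg h.ne, zero_div, zero_smul]
      · rw [h1 (d - i) (by simp only at hd; omega), mul_zero, smul_zero]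
    · rw [pol_aux7, Finset.sum_eq_single e]
      · rw [pol_aux1 le_rfl, if_pos rfl, Nat.add_sub_cancel_left, h2, List.map_cons,
          List.prod_cons, div_self h3, one_smul]
      · intro i hi hne
        have hi' : i ≤ e + (l.map Prod.snd).sum := Nat.lt_succ_iff.1 (Finset.mem_range.1 hi)
        by_cases h : i < e
        · rw [pol_aux1 h.le, if_neg h.ne, zero_div, zero_smul]
        · rw [h1 _ (by simp only; omega), mul_zero, smul_zero]
      · intro h
        exact absurd (Finset.mem_range.2 (by simp only; omega)) h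

end

theorem pol_sum {A : Type*} [CommRing A] [Algebra ℚ A] (l : List (A × ℕ)) :
    ((pol l).map fun p => p.1 • p.2 ^ (l.map Prod.snd).sum).sum =
      ((l.map Prod.snd).sum.factorial : ℚ) • (l.map fun q => q.1 ^ q.2).prod := by
  rw [← (pol_aux8 l).2, polD]
  generalize (l.map Prod.snd).sum = d
  have h5 : (d.factorial : ℚ) ≠ 0 := Nat.cast_ne_zero.2 d.factorial_ne_zero
  induction pol l with
  | nil => simp
  | cons a l ih =>
    rw [List.map_cons, List.sum_cons, ih, List.map_cons, List.sum_cons, smul_add, smul_smul,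
      mul_div_cancel₀ _ h5]

end Pool.Agent.PQ
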