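import Pool.Agent.PQ.QFp
import Pool.Agent.PQ.Pol
import Pool.Agent.PQ.FQx

set_option autoImplicit false

/-!
PQ-PolZ. Polarisation of a term in polynomial time: a product of powers of at most `R` quadratic forms
becomes a sum of `D`-th powers.

Plan: recursion over `R` (a number fixed in advance): for `R = 0` the list `[(t.1, qZero n)]`; for `R + 1` take the
list of the term with the tail of the factors and, with `(q, e)` the head of the factors (default
`(qZero n, [])`), the flatMap of `f ∈ range (e.length + 1)`: coefficient times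
`(-1)^(e - f) choose(e, f)` (an element computed in polynomial time: `FQ.chooseU`, `List.replicate`/`take` for the
unary form of `f`; or use `(range (e.length+1)).map` and the product formula of the binomial coefficient),
matrix `qAdd (qSmul f q) s`. By `pol_sum` (through `qm_add`, `qm_smul`, `qm_zero`, an additive map
from the matrices to polynomials) the sum of the `D`-th powers is `D!` times the value of the term.
-/

namespace Pool.Agent.PQ

open MvPolynomial N487b59b3 N68a2faeb Pool.Agent.Helper22 Pool.Agent.Helper6.WB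
  Pool.Agent.Helper6.SP

variable {α : Type} [N487b59b3 α]

/-- the unary form of a number which is at most the length of `x.1` -/
private def polZ_uf (x : Un × ℕ) : Un :=
  x.1.zipIdx.flatMap fun q => if decide (q.2 + 1 ≤ x.2) then [true] else []

private theorem polZ_uf_aux (l : List Bool) (k f : ℕ) :
    ((l.zipIdx k).flatMap fun q => if decide (q.2 + 1 ≤ f) then [true] else []).length =
      min l.length (f - k) := by
  induction l generalizing k with
  | nil => simp
  | cons b l ih =>
    rw [List.zipIdx_cons, List.flatMap_cons, List.length_append, ih]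
    by_cases h : k + 1 ≤ f
    · simp only [h, decide_true, if_true, List.length_cons, List.length_nil]
      omega
    · simp only [h, decide_false, Bool.false_eq_true, if_false, List.length_cons, List.length_nil]
      omega

private theorem polZ_uf_length (x : Un × ℕ) (h : x.2 ≤ x.1.length) :
    (polZ_uf x).length = x.2 := by
  unfold polZ_uf
  rw [polZ_uf_aux]
  omega

private theorem polZ_uf_fp : FP polZ_uf := by
  have h1 : FP fun x : Un × ℕ => x.1.zipIdx := fp_zipIdx FP.fst
  have h2 : FP fun y : (Un × ℕ) × (Bool × ℕ) =>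
      if decide (y.2.2 + 1 ≤ y.1.2) then [true] else ([] : List Bool) := by
    apply FP.ite _ (FP.const _) (FP.const _)
    apply Helper47.TR.FP.natLe _ FP.fst.snd'
    exact FP.natAdd FP.snd.snd' (FP.const 1)
  exact fp_flatMap h1 h2

/-- the coefficient of the polarisation -/
private noncomputable def polZ_cf (x : Un × ℕ) : ℚ :=
  (-1) ^ (x.1.drop (polZ_uf x).length).length * (x.1.length.choose (polZ_uf x).length : ℚ)

private theorem polZ_cf_fq : FQ polZ_cf :=
  (FQ.powU (FQ.const (-1)) (FP.drop FP.fst polZ_uf_fp)).mul (FQ.chooseU FP.fst polZ_uf_fp)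

private theorem polZ_cf_eq (e : Un) (f : ℕ) (h : f ≤ e.length) :
    polZ_cf (e, f) = (-1) ^ (e.length - f) * (e.length.choose f : ℚ) := by
  unfold polZ_cf
  rw [polZ_uf_length (e, f) h, List.length_drop]

private noncomputable def polZ_ce : Un × ℕ → El := polZ_cf_fq.choose

private theorem polZ_ce_fp : FP polZ_ce := polZ_cf_fq.choose_spec.1

private theorem polZ_ce_ne (x : Un × ℕ) : (polZ_ce x).2 ≠ 0 := polZ_cf_fq.choose_spec.2.1 x

private theorem polZ_ce_eq (x : Un × ℕ) : toQ (polZ_ce x) = polZ_cf x :=
  polZ_cf_fq.choose_spec.2.2 x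

private theorem polZ_rec (R : ℕ) {n : α → Un} {c : α → El} (hn : FP n) (hc : FP c) :
    ∀ {l : α → List (QM × Un)}, FP l → ∃ F : α → List (El × QM), FP F ∧ ∀ a, (c a).2 ≠ 0 →
      (l a).length ≤ R → (∀ p ∈ l a, p.1.2 ≠ 0 ∧ Sq (n a).length p.1.1) →
      (∀ p ∈ F a, p.1.2 ≠ 0 ∧ p.2.2 ≠ 0 ∧ Sq (n a).length p.2.1) ∧
      (F a).map (fun p => (toQ p.1, qm (n a).length p.2)) =
        (pol ((l a).map fun p => (qm (n a).length p.1, p.2.length))).map
          fun p => (toQ (c a) * p.1, p.2) := by
  induction R with
  | zero =>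
    intro l hl
    refine ⟨fun a => [(c a, qZero (n a))], (hc.pair (fp_qZero hn)).cons (FP.const []), ?_⟩
    intro a hca hla _
    have h1 : l a = [] := List.eq_nil_of_length_eq_zero (Nat.le_zero.1 hla)
    obtain ⟨h2, h3, _⟩ := qZero_spec (n a)
    refine ⟨?_, ?_⟩
    · intro p hp
      rw [List.mem_singleton] at hp
      subst hp
      exact ⟨hca, h2, h3⟩
    · rw [h1]
      simp only [List.map_cons, List.map_nil, pol, qm_zero, mul_one]
  | succ R ih =>
    intro l hl
    obtain ⟨F', hF', hs⟩ := ih hl.tail
    have hq : FP fun a => ((l a).headD ((([] : Mt), 1), ([] : Un))).1 :=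
      (FP.headD hl ((([] : Mt), 1), ([] : Un))).fst'
    have he : FP fun a => ((l a).headD ((([] : Mt), 1), ([] : Un))).2 :=
      (FP.headD hl ((([] : Mt), 1), ([] : Un))).snd'
    have hrange : FP fun x : α × (El × QM) =>
        List.range (true :: ((l x.1).headD ((([] : Mt), 1), ([] : Un))).2).length :=
      FP.range (FP.cons (FP.const true) (he.comp FP.fst))
    have hbody : FP fun y : (α × (El × QM)) × ℕ =>
        ((elMul y.1.2.1 (polZ_ce (((l y.1.1).headD ((([] : Mt), 1), ([] : Un))).2, y.2)),
          qAdd (qSmul y.2 ((l y.1.1).headD ((([] : Mt), 1), ([] : Un))).1) y.1.2.2) : El × QM) := by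
      apply FP.pair
      · apply fp_elMul FP.fst.snd'.fst'
        exact polZ_ce_fp.comp ((he.comp FP.fst.fst').pair FP.snd)
      · exact fp_qAdd (fp_qSmul FP.snd (hq.comp FP.fst.fst')) FP.fst.snd'.snd'
    have hinner := fp_map hrange hbody
    have houter := fp_flatMap (h := fun x : α × (El × QM) =>
      (List.range (true :: ((l x.1).headD ((([] : Mt), 1), ([] : Un))).2).length).map fun f =>
        ((elMul x.2.1 (polZ_ce (((l x.1).headD ((([] : Mt), 1), ([] : Un))).2, f)),
          qAdd (qSmul f ((l x.1).headD ((([] : Mt), 1), ([] : Un))).1) x.2.2) : El × QM))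
      hF' hinner
    refine ⟨_, FP.ite hl.isEmpty hF' houter, ?_⟩
    intro a hca hla hgood
    rcases hl' : l a with _ | ⟨⟨q, e⟩, l'⟩
    · have h1 := hs a hca (by rw [hl']; simp) (by rw [hl']; simp)
      rw [hl'] at h1
      simpa using h1
    · have h1 := hs a hca (by rw [hl'] at hla ⊢; simpa using hla)
        (by
          intro p hp
          rw [hl'] at hp
          exact hgood p (by rw [hl']; exact List.mem_cons_of_mem _ hp))
      obtain ⟨hq1, hq2⟩ := hgood (q, e) (by rw [hl']; exact List.mem_cons_self)
      rw [hl'] at h1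
      simp only [List.tail_cons] at h1
      obtain ⟨h2, h3⟩ := h1
      simp only [hl', List.isEmpty_cons, Bool.false_eq_true, if_false, List.headD_cons,
        List.length_cons]
      refine ⟨?_, ?_⟩
      · intro p hp
        rw [List.mem_flatMap] at hp
        obtain ⟨p', hp', hp⟩ := hp
        rw [List.mem_map] at hp
        obtain ⟨f, _, rfl⟩ := hp
        obtain ⟨g1, g2, g3⟩ := h2 p' hp'
        obtain ⟨k1, k2, _⟩ := qSmul_spec hq1 hq2 f
        obtain ⟨m1, m2, _⟩ := qAdd_spec k1 g2 k2 g3
        exact ⟨mul_ne_zero g1 (polZ_ce_ne _), m1, m2⟩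
      · simp only [List.map_cons, pol, List.map_flatMap]
        have h4 : ∀ p ∈ F' a, List.map (fun p => (toQ p.1, qm (n a).length p.2))
            (List.map (fun f => (elMul p.1 (polZ_ce (e, f)), qAdd (qSmul f q) p.2))
              (List.range (e.length + 1))) =
            (fun u : ℚ × MvPolynomial ℕ ℚ => (List.range (e.length + 1)).map fun f =>
              (u.1 * ((-1) ^ (e.length - f) * (e.length.choose f : ℚ)),
                f • qm (n a).length q + u.2)) (toQ p.1, qm (n a).length p.2) := by
          intro p hp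
          obtain ⟨g1, g2, g3⟩ := h2 p hp
          rw [List.map_map]
          apply List.map_congr_left
          intro f hf
          have hf' : f ≤ e.length := Nat.lt_succ_iff.1 (List.mem_range.1 hf)
          obtain ⟨k1, k2, _⟩ := qSmul_spec hq1 hq2 f
          simp only [Function.comp_apply]
          rw [toQ_mul, polZ_ce_eq, polZ_cf_eq e f hf', qm_add k1 g2 k2 g3, qm_smul hq1 hq2 f]
        rw [List.flatMap_congr h4]
        have h5 := congrArg (fun L : List (ℚ × MvPolynomial ℕ ℚ) => L.flatMap
          (fun u : ℚ × MvPolynomial ℕ ℚ => (List.range (e.length + 1)).map fun f =>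
              (u.1 * ((-1) ^ (e.length - f) * (e.length.choose f : ℚ)),
                f • qm (n a).length q + u.2))) h3
        simp only [List.flatMap_map] at h5
        rw [h5]
        apply List.flatMap_congr
        intro p _
        rw [List.map_map]
        apply List.map_congr_left
        intro f _
        simp only [Function.comp_apply]
        congr 1
        ring

theorem exists_polZ (R : ℕ) {n : α → Un} {t : α → Tm} (hn : FP n) (ht : FP t) :
    ∃ F : α → List (El × QM), FP F ∧ ∀ a, Ok R (n a).length (tdeg (t a)) [t a] →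
      (∀ p ∈ F a, p.1.2 ≠ 0 ∧ p.2.2 ≠ 0 ∧ Sq (n a).length p.2.1) ∧
      ((F a).map fun p => C (toQ p.1) * qm (n a).length p.2 ^ tdeg (t a)).sum =
        C ((tdeg (t a)).factorial : ℚ) * tv (n a).length (t a) := by
  obtain ⟨F, hF, hs⟩ := polZ_rec R hn ht.fst' ht.snd'
  refine ⟨F, hF, ?_⟩
  intro a hok
  obtain ⟨h1, h2, _, h3⟩ := hok (t a) (List.mem_singleton.2 rfl)
  obtain ⟨h4, h5⟩ := hs a h1 h2 h3
  refine ⟨h4, ?_⟩
  have h6 := congrArg (fun L : List (ℚ × MvPolynomial ℕ ℚ) =>
    (L.map fun p => C p.1 * p.2 ^ tdeg (t a)).sum) h5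
  simp only [List.map_map] at h6
  have h7 : ((fun p : ℚ × MvPolynomial ℕ ℚ => C p.1 * p.2 ^ tdeg (t a)) ∘
      fun p : El × QM => (toQ p.1, qm (n a).length p.2)) =
      fun p => C (toQ p.1) * qm (n a).length p.2 ^ tdeg (t a) := rfl
  rw [h7] at h6
  rw [h6]
  have h8 := pol_sum ((t a).2.map fun p => (qm (n a).length p.1, p.2.length))
  have h9 : (((t a).2.map fun p => (qm (n a).length p.1, p.2.length)).map Prod.snd).sum =
      tdeg (t a) := by
    rw [List.map_map]
    rfl
  rw [h9] at h8
  have h10 : ((fun p : ℚ × MvPolynomial ℕ ℚ => C p.1 * p.2 ^ tdeg (t a)) ∘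
      fun p : ℚ × MvPolynomial ℕ ℚ => (toQ (t a).1 * p.1, p.2)) =
      fun p => C (toQ (t a).1) * (p.1 • p.2 ^ tdeg (t a)) := by
    funext p
    simp only [Function.comp_apply, C_mul, MvPolynomial.smul_eq_C_mul]
    ring
  rw [h10, List.sum_map_mul_left, h8, tv, List.map_map]
  simp only [MvPolynomial.smul_eq_C_mul, Function.comp_def]
  ring

end Pool.Agent.PQ
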