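import Pool.Agent.PQ.NrmZ
import Pool.Agent.PQ.PolZ
import Pool.Agent.PQ.Hi

set_option autoImplicit false

/-!
PQ-Test. The engine: truncated zero test for the class `FT`.

Plan: pad every term `t` of `F a` by the factor `(qE n, D.drop (number of the other factors))`, which does not
change `dv` (`dh (X 0) = 1`) and makes the sum `W` of the values homogeneous of degree `2 D`; polarise
(`exists_polZ` with `R + 1`, on the type of pairs (a, term), then flatMap over the terms): a list of `D`-th powers with
sum `C (D!) * W`; `exists_pwrTest` with `T = 2 D - M` (`(D ++ D).drop M`), and `dh_test`.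
-/

namespace Pool.Agent.PQ

open MvPolynomial N487b59b3 N68a2faeb Pool.Agent.Helper22 Pool.Agent.Helper6.WB
  Pool.Agent.Helper6.SP

variable {α : Type} [N487b59b3 α]

/-- padding of a term -/
private def padT (p : (Un × Un) × Tm) : Tm :=
  (p.2.1, p.2.2 ++ [(qE p.1.1, p.1.2.drop (p.2.2.flatMap fun q => q.2).length)])

private theorem fp_padT : FP padT := by
  have h0 : FP fun r : ((Un × Un) × Tm) × (QM × Un) => r.2.2 := by fun_prop
  have h5 : FP fun p : (Un × Un) × Tm => p.2.2 := by fun_prop
  have h1 : FP fun p : (Un × Un) × Tm => p.2.2.flatMap fun q =>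
      (fun r : ((Un × Un) × Tm) × (QM × Un) => r.2.2) (p, q) :=
    fp_flatMap h5 h0
  have h2 : FP fun p : (Un × Un) × Tm => p.1.2.drop (p.2.2.flatMap fun q => q.2).length :=
    FP.drop (by fun_prop) h1
  have h3 : FP fun p : (Un × Un) × Tm => qE p.1.1 := fp_qE (by fun_prop)
  have h4 : FP fun p : (Un × Un) × Tm => p.2.1 := by fun_prop
  exact FP.pair h4 (FP.append h5 (FP.cons (FP.pair h3 h2) (FP.const [])))

private theorem flat_length (l : List (QM × Un)) :
    (l.flatMap fun q => q.2).length = (l.map fun p => p.2.length).sum := by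
  rw [List.length_flatMap]

private theorem tdeg_padT (n D : Un) (t : Tm) (h : tdeg t ≤ D.length) :
    tdeg (padT ((n, D), t)) = D.length := by
  unfold tdeg at h ⊢
  unfold padT
  simp only [List.map_append, List.map_cons, List.map_nil, List.sum_append, List.sum_cons,
    List.sum_nil, List.length_drop, add_zero]
  rw [flat_length]
  omega

private theorem dh_tv_padT (n D : Un) (hn : 1 ≤ n.length) (t : Tm) :
    dh (tv n.length (padT ((n, D), t))) = dh (tv n.length t) := by
  unfold tv padT
  simp only [List.map_append, List.map_cons, List.map_nil, List.prod_append, List.prod_cons,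
    List.prod_nil, mul_one]
  rw [qm_e n hn, map_mul, map_mul, map_mul, map_pow, map_pow]
  have h0 : dh (X 0) = 1 := by simp [dh]
  rw [h0, one_pow, one_pow, mul_one]

private theorem qm_homogeneous (n : ℕ) (q : QM) : (qm n q).IsHomogeneous 2 :=
  qf_homogeneous n _

private theorem prod_homogeneous (n : ℕ) (l : List (QM × Un)) :
    (l.map fun p => qm n p.1 ^ p.2.length).prod.IsHomogeneous
      (2 * (l.map fun p => p.2.length).sum) := by
  induction l with
  | nil => simpa using isHomogeneous_one ℕ ℚ
  | cons p l ih =>
    rw [List.map_cons, List.prod_cons, List.map_cons, List.sum_cons, mul_add]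
    refine IsHomogeneous.mul ?_ ih
    exact (qm_homogeneous n p.1).pow p.2.length

private theorem tv_homogeneous (n : ℕ) (t : Tm) : (tv n t).IsHomogeneous (2 * tdeg t) := by
  unfold tv tdeg
  have h := (isHomogeneous_C ℕ (toQ t.1)).mul (prod_homogeneous n t.2)
  rwa [zero_add] at h

private theorem sum_homogeneous (l : List (MvPolynomial ℕ ℚ)) (N : ℕ)
    (h : ∀ p ∈ l, p.IsHomogeneous N) : l.sum.IsHomogeneous N := by
  induction l with
  | nil => simpa using isHomogeneous_zero ℕ ℚ N
  | cons p l ih =>
    rw [List.sum_cons]
    exact (h p List.mem_cons_self).add (ih fun q hq => h q (List.mem_cons_of_mem _ hq))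

/-- **the engine** -/
theorem FT.test {R : ℕ} {n M : α → Un} {P : α → Prop} {f : α → MvPolynomial ℕ ℚ} (hn : FP n)
    (hM : FP M) (hf : FT R n P f) : ∃ g : α → Bool, FP g ∧ ∀ a, P a → 1 ≤ (n a).length →
      (g a = true ↔ Hi (M a).length (f a)) := by
  obtain ⟨F, D, hF, hD, hFD⟩ := hf
  -- the padded terms
  have hp1 : FP fun p : α × Tm => padT ((n p.1, D p.1), p.2) :=
    fp_padT.comp (FP.pair (FP.pair (hn.comp FP.fst) (hD.comp FP.fst)) FP.snd)
  obtain ⟨G, hG, hG'⟩ := exists_polZ (R + 1) (n := fun p : α × Tm => n p.1) (hn.comp FP.fst) hp1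
  have hH : FP fun a => (F a).flatMap fun t => G (a, t) := fp_flatMap hF hG
  obtain ⟨g, hg, hg'⟩ := exists_pwrTest (F := fun a => (F a).flatMap fun t => G (a, t)) hD
    (T := fun a => (D a ++ D a).drop (M a).length) (FP.drop (FP.append hD hD) hM) hn hH
  refine ⟨g, hg, fun a ha hna => ?_⟩
  obtain ⟨hok, hval⟩ := hFD a ha
  have hterm : ∀ t ∈ F a, Ok (R + 1) (n a).length (tdeg (padT ((n a, D a), t)))
      [padT ((n a, D a), t)] := by
    intro t ht s hs
    rw [List.mem_singleton] at hs
    subst hs
    obtain ⟨h1, h2, h3, h4⟩ := hok t ht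
    refine ⟨h1, ?_, le_rfl, ?_⟩
    · show (t.2 ++ [_]).length ≤ R + 1
      rw [List.length_append, List.length_singleton]
      omega
    · intro p hp
      change p ∈ t.2 ++ [_] at hp
      rcases List.mem_append.mp hp with hp | hp
      · exact h4 p hp
      · rw [List.mem_singleton] at hp
        subst hp
        exact ⟨(qE_spec (n a)).1, (qE_spec (n a)).2.1⟩
  have hdeg : ∀ t ∈ F a, tdeg (padT ((n a, D a), t)) = (D a).length := fun t ht =>
    tdeg_padT _ _ _ (hok t ht).2.2.1
  rw [hg' a ?_]
  · -- the sum of the powers
    have hsum : (((F a).flatMap fun t => G (a, t)).map fun p => C (toQ p.1) *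
        qm (n a).length p.2 ^ (D a).length).sum =
        C ((D a).length.factorial : ℚ) *
          ((F a).map fun t => tv (n a).length (padT ((n a, D a), t))).sum := by
      rw [List.map_flatMap, List.flatMap_def, List.sum_flatten, List.map_map,
        ← List.sum_map_mul_left]
      congr 1
      apply List.map_congr_left
      intro t ht
      have h1 := (hG' (a, t) (hterm t ht)).2
      simp only [hdeg t ht] at h1
      exact h1
    set W := ((F a).map fun t => tv (n a).length (padT ((n a, D a), t))).sum with hW
    have hWh : W.IsHomogeneous (2 * (D a).length) := by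
      rw [hW]
      apply sum_homogeneous
      intro p hp
      obtain ⟨t, ht, rfl⟩ := List.mem_map.mp hp
      have := tv_homogeneous (n a).length (padT ((n a, D a), t))
      rwa [hdeg t ht] at this
    have hdW : dh W = f a := by
      rw [← hval, dv, hW, map_list_sum, map_list_sum, List.map_map, List.map_map]
      congr 1
      apply List.map_congr_left
      intro t _
      exact dh_tv_padT _ _ hna t
    have h2 := dh_test hWh (M a).length
    rw [hdW] at h2
    unfold Hi
    rw [h2, hsum]
    have hT : ((D a ++ D a).drop (M a).length).length = 2 * (D a).length - (M a).length := by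
      rw [List.length_drop, List.length_append]
      omega
    rw [hT]
    have hne : ((D a).length.factorial : ℚ) ≠ 0 := by
      exact_mod_cast (Nat.factorial_ne_zero _)
    constructor
    · intro h m hm
      have := h m hm
      rw [coeff_C_mul] at this
      exact (mul_eq_zero.mp this).resolve_left hne
    · intro h m hm
      rw [coeff_C_mul, h m hm, mul_zero]
  · intro p hp
    obtain ⟨t, ht, hpt⟩ := List.mem_flatMap.mp hp
    exact (hG' (a, t) (hterm t ht)).1 p hpt

end Pool.Agent.PQ
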