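import Pool.Agent.PQ.Row
import Pool.Agent.PQ.Test
import Pool.Agent.PQ.Minor
import Pool.Agent.PQ.Deg

set_option autoImplicit false

/-!
PQ-Oracle. The oracle of the search: does the Jacobian minor vanish on an affine subspace?

Plan: `DD m M e U I V` is `FT (m * (r + 2))` by `FT.det` and `ft_EE` (the entries `I.getD i`, `V.getD j` by `fp_getD`), with
`M` = a unary number at least `2 * (I.map cnt).sum` (lists of `true`: flatten, append);
`FT.test` and `DD_test`, `totalDegree_JJ`. If `I.length < m` the default pair `([], [])` has `FF = 0`, `Good` holds for it; if `V.length < m` the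
default code `0` violates `3 ≤ v`: the promise asks `V.length = m` and `I.length = m`.
-/

namespace Pool.Agent.PQ

open MvPolynomial N487b59b3 N68a2faeb Pool.Agent.Helper22 Pool.Agent.Helper6.WB
  Pool.Agent.Helper6.SP

/-- a unary bound for the degrees -/
private def bdU (x : Fr × (List Pr × List ℕ)) : Un :=
  (x.2.1.flatMap fun p => p.1.map (fun _ => true) ++ p.2.flatMap fun l => l.map fun _ => true) ++
    (x.2.1.flatMap fun p => p.1.map (fun _ => true) ++ p.2.flatMap fun l => l.map fun _ => true)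

private theorem bdU_length (x : Fr × (List Pr × List ℕ)) :
    (bdU x).length = 2 * (x.2.1.map cnt).sum := by
  unfold bdU
  rw [List.length_append, List.length_flatMap]
  have h : (x.2.1.map fun p : Pr => (p.1.map (fun _ => true) ++
      p.2.flatMap fun l => l.map fun _ => true).length) = x.2.1.map cnt := by
    apply List.map_congr_left
    intro p _
    rw [List.length_append, List.length_map, List.length_flatMap, cnt]
    congr 2
    apply List.map_congr_left
    intro l _
    simp
  rw [h]
  omega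

private theorem fp_bdU : FP bdU := by
  have h0 : FP fun q : (Fr × (List Pr × List ℕ)) × Pr => q.2.1.map fun w =>
      (fun _ : ((Fr × (List Pr × List ℕ)) × Pr) × Wd => true) (q, w) :=
    fp_map (by fun_prop) (FP.const true)
  have h1 : FP fun q : ((Fr × (List Pr × List ℕ)) × Pr) × List Wd => q.2.map fun w =>
      (fun _ : (((Fr × (List Pr × List ℕ)) × Pr) × List Wd) × Wd => true) (q, w) :=
    fp_map (by fun_prop) (FP.const true)
  have h2 : FP fun q : (Fr × (List Pr × List ℕ)) × Pr => q.2.2.flatMap fun l =>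
      (fun q : ((Fr × (List Pr × List ℕ)) × Pr) × List Wd => q.2.map fun _ => true) (q, l) :=
    fp_flatMap (by fun_prop) h1
  have h3 : FP fun x : Fr × (List Pr × List ℕ) => x.2.1.flatMap fun p =>
      (fun q : (Fr × (List Pr × List ℕ)) × Pr => q.2.1.map (fun _ => true) ++
        q.2.2.flatMap fun l => l.map fun _ => true) (x, p) :=
    fp_flatMap (by fun_prop) (FP.append h0 h2)
  exact FP.append h3 h3

theorem exists_oracle (r m : ℕ) : ∃ g : Fr × (List Pr × List ℕ) → Bool, FP g ∧ ∀ x,
    (∀ p ∈ x.2.1, Good r p) → (∀ p ∈ x.2.1, ∀ w ∈ p.1, eval (ptE x.1.1) (pw w) ≠ 0) →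
    (∀ v ∈ x.2.2, 3 ≤ v) → x.2.1.length = m → x.2.2.length = m →
    (g x = true ↔ sub x.1.1 x.1.2 (JJ m x.2.1 x.2.2) = 0) := by
  set P : Fr × (List Pr × List ℕ) → Prop := fun x =>
    (∀ p ∈ x.2.1, Good r p) ∧ (∀ v ∈ x.2.2, 3 ≤ v) ∧ x.2.1.length = m ∧ x.2.2.length = m with hP
  have hn : FP fun x : Fr × (List Pr × List ℕ) => nF x.1 := fp_nF.comp FP.fst
  have hft : FT (m * (r + 2)) (fun x : Fr × (List Pr × List ℕ) => nF x.1) P
      (fun x => DD m (bdU x).length x.1.1 x.1.2 x.2.1 x.2.2) := by
    refine FT.det (h := fun i j x => EE (bdU x).length x.1.1 x.1.2 (x.2.1.getD i ([], []))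
      (x.2.2.getD j 0)) fun i j => ?_
    have h1 : FP fun x : Fr × (List Pr × List ℕ) =>
        (((x.1, bdU x), (x.2.1.getD i ([], []), x.2.2.getD j 0)) : (Fr × Un) × (Pr × ℕ)) :=
      FP.pair (FP.pair (by fun_prop) fp_bdU)
        (FP.pair (fp_getD (by fun_prop) i _) (fp_getD (by fun_prop) j _))
    refine FT.imp ((ft_EE r).comp h1) ?_
    rintro x ⟨h2, h3, h4, h5⟩
    refine ⟨?_, ?_⟩
    · apply h2
      simp only
      rw [List.getD_eq_getElem _ _ (by rw [h4]; exact i.2)]
      exact List.getElem_mem _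
    · apply h3
      simp only
      rw [List.getD_eq_getElem _ _ (by rw [h5]; exact j.2)]
      exact List.getElem_mem _
  obtain ⟨g, hg, hg'⟩ := FT.test hn fp_bdU hft
  refine ⟨g, hg, fun x h1 h2 h3 h4 h5 => ?_⟩
  rw [hg' x ⟨h1, h3, h4, h5⟩ (by rw [nF_length]; omega)]
  refine DD_test m _ _ _ _ _ h2 ?_
  rw [bdU_length]
  exact totalDegree_JJ m _ _ fun p hp => ⟨(h1 p hp).1, fun l hl => ((h1 p hp).2 l hl).1⟩

end Pool.Agent.PQ
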