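import Pool.Agent.PQ.Atom

set_option autoImplicit false

/-!
PQ-ProdL. The product of a list of words with at most `r` different members is in `FT r`.

Plan: induction on `r`. For `r = 0` the list is empty under the promise: the constant `1`. For `r + 1` with head `w`
(default `[]`): `(l.map pw).prod = pw w ^ (count of w) * ((l.filter (· ≠ w)).map pw).prod`; the unary count is
`(l.flatMap fun x => if x = w then [true] else [])`; the first factor is `FT 1` by `FM.powU` and `fm_word`
(for an empty list the exponent is zero, so the promise `Lo` for the head is not available: treat the empty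
list separately, e.g. use the list `l` itself to build the term list `F`: `if l.isEmpty then [one] else ..`), the second by
induction. Equality of words: `FP` decision of `decide (x = w)` for `Wd = List (ℕ × ℚ)`: compare the encodings
(`FP.bitsEq`, injectivity of `bitEncode` on words) or entry by entry.
-/

namespace Pool.Agent.PQ

open MvPolynomial N487b59b3 N68a2faeb Pool.Agent.Helper22 Pool.Agent.Helper6.WB
  Pool.Agent.Helper6.SP

variable {α : Type} [N487b59b3 α]

private theorem prodL_code {β : Type} [N487b59b3 β] {f : α → β} (hf : FP f) :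
    FP fun a => bitEncode (f a) := by
  have h : FP fun n : β => bitEncode n := PT.quote.mono (by
    rintro x z ⟨a, rfl, rfl⟩
    exact enc_bits _)
  exact h.comp hf

theorem fp_wordEq {f g : α → Wd} (hf : FP f) (hg : FP g) : FP fun a => decide (f a = g a) := by
  have h := FP.bitsEq (prodL_code hf) (prodL_code hg)
  refine (congrArg FP (funext fun a => ?_)).mp h
  exact decide_eq_decide.mpr ⟨fun h => bitEncode_injective h, fun h => by rw [h]⟩

/-- a word which is the code of the constant one -/
private def prodL_w0 : Wd := (Fm.const 1).code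

private theorem prodL_lo : Lo prodL_w0 := by
  refine ⟨⟨_, rfl⟩, ?_⟩
  rw [prodL_w0, pw_code, Fm.poly, totalDegree_C]
  exact Nat.zero_le 2

/-- the number of occurrences of a word, in unary -/
private def prodL_cnt (w : Wd) (l : List Wd) : Un :=
  l.flatMap fun x => if decide (x = w) then [true] else []

/-- the other words -/
private def prodL_rest (w : Wd) (l : List Wd) : List Wd :=
  l.flatMap fun x => if decide (x = w) then [] else [x]

private theorem prodL_split (w : Wd) (l : List Wd) :
    (l.map pw).prod = pw w ^ (prodL_cnt w l).length * ((prodL_rest w l).map pw).prod := by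
  induction l with
  | nil => simp [prodL_cnt, prodL_rest]
  | cons x l ih =>
    rw [List.map_cons, List.prod_cons, ih]
    unfold prodL_cnt prodL_rest
    rw [List.flatMap_cons, List.flatMap_cons, List.length_append, List.map_append,
      List.prod_append]
    by_cases h : x = w
    · subst h
      simp only [decide_true, if_true, List.length_singleton, List.map_nil, List.prod_nil]
      ring
    · simp only [h, decide_false, Bool.false_eq_true, if_false, List.length_nil, List.map_cons,
        List.map_nil, List.prod_cons, List.prod_nil]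
      ring

private theorem prodL_mem {w x : Wd} {l : List Wd} : x ∈ prodL_rest w l ↔ x ∈ l ∧ x ≠ w := by
  unfold prodL_rest
  rw [List.mem_flatMap]
  constructor
  · rintro ⟨y, hy, hx⟩
    by_cases h : y = w
    · simp [h] at hx
    · simp only [h, decide_false, Bool.false_eq_true, if_false, List.mem_singleton] at hx
      subst hx
      exact ⟨hy, h⟩
  · rintro ⟨h1, h2⟩
    exact ⟨x, h1, by simp [h2]⟩

private theorem prodL_card {r : ℕ} {l : List Wd} (h : l.toFinset.card ≤ r + 1) :
    (prodL_rest (l.headD prodL_w0) l).toFinset.card ≤ r := by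
  cases l with
  | nil => exact Nat.zero_le r
  | cons w l =>
    have h1 : (prodL_rest w (w :: l)).toFinset ⊆ (w :: l).toFinset.erase w := by
      intro x hx
      rw [List.mem_toFinset, prodL_mem] at hx
      exact Finset.mem_erase.mpr ⟨hx.2, List.mem_toFinset.mpr hx.1⟩
    have h2 := Finset.card_le_card h1
    have h3 : w ∈ (w :: l).toFinset := List.mem_toFinset.mpr List.mem_cons_self
    rw [Finset.card_erase_of_mem h3] at h2
    exact h2.trans (by omega)

private theorem prodL_headLo {l : List Wd} (h : ∀ w ∈ l, Lo w) : Lo (l.headD prodL_w0) := by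
  cases l with
  | nil => exact prodL_lo
  | cons w l => exact h w List.mem_cons_self

private theorem prodL_fp_cnt : FP fun p : Fr × List Wd => prodL_cnt (p.2.headD prodL_w0) p.2 := by
  have h1 : FP fun q : (Fr × List Wd) × Wd => q.1.2.headD prodL_w0 :=
    FP.headD (FP.snd.comp FP.fst) prodL_w0
  have h2 : FP fun q : (Fr × List Wd) × Wd =>
      if decide (q.2 = q.1.2.headD prodL_w0) then [true] else [] :=
    FP.ite (fp_wordEq FP.snd h1) (FP.const _) (FP.const _)
  exact fp_flatMap (f := fun p : Fr × List Wd => p.2) FP.snd h2

private theorem prodL_fp_rest : FP fun p : Fr × List Wd => prodL_rest (p.2.headD prodL_w0) p.2 := by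
  have h1 : FP fun q : (Fr × List Wd) × Wd => q.1.2.headD prodL_w0 :=
    FP.headD (FP.snd.comp FP.fst) prodL_w0
  have h2 : FP fun q : (Fr × List Wd) × Wd =>
      if decide (q.2 = q.1.2.headD prodL_w0) then [] else [q.2] :=
    FP.ite (fp_wordEq FP.snd h1) (FP.const _) (FP.cons FP.snd (FP.const _))
  exact fp_flatMap (f := fun p : Fr × List Wd => p.2) FP.snd h2

theorem ft_prod (r : ℕ) : FT r (fun p : Fr × List Wd => nF p.1)
    (fun p => (∀ w ∈ p.2, Lo w) ∧ p.2.toFinset.card ≤ r)
    (fun p => sub p.1.1 p.1.2 (p.2.map pw).prod) := by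
  induction r with
  | zero =>
    refine FT.one.congr ?_
    rintro ⟨⟨e, U⟩, l⟩ ⟨_, h⟩
    have h1 : l = [] := by
      rw [Nat.le_zero, Finset.card_eq_zero, List.toFinset_eq_empty_iff] at h
      exact h
    subst h1
    simp
  | succ r ih =>
    have hh : FP fun p : Fr × List Wd => ((p.1, p.2.headD prodL_w0) : Fr × Wd) :=
      FP.pair FP.fst (FP.headD FP.snd prodL_w0)
    have hr : FP fun p : Fr × List Wd =>
        ((p.1, prodL_rest (p.2.headD prodL_w0) p.2) : Fr × List Wd) :=
      FP.pair FP.fst prodL_fp_rest
    have h1 : FT 1 (fun p : Fr × List Wd => nF p.1)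
        (fun p => (∀ w ∈ p.2, Lo w) ∧ p.2.toFinset.card ≤ r + 1)
        (fun p => sub p.1.1 p.1.2 (pw (p.2.headD prodL_w0)) ^
          (prodL_cnt (p.2.headD prodL_w0) p.2).length) :=
      ((fm_word.comp hh).imp fun p hp => prodL_headLo hp.1).powU prodL_fp_cnt
    have h2 : FT r (fun p : Fr × List Wd => nF p.1)
        (fun p => (∀ w ∈ p.2, Lo w) ∧ p.2.toFinset.card ≤ r + 1)
        (fun p => sub p.1.1 p.1.2 ((prodL_rest (p.2.headD prodL_w0) p.2).map pw).prod) :=
      (ih.comp hr).imp fun p hp => ⟨fun w hw => hp.1 w (prodL_mem.mp hw).1, prodL_card hp.2⟩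
    refine ((h1.mul h2).mono (Nat.add_comm 1 r).le).congr fun p _ => ?_
    rw [prodL_split (p.2.headD prodL_w0) p.2, map_mul, map_pow]

end Pool.Agent.PQ
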