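import Pool.Agent.PQ.QOps

set_option autoImplicit false

/-!
PQ-QFp. Operations on rational matrices with a common denominator in polynomial time.

Plan: `fp_zip` (PQ/Zip), `fp_map` (SP/FQ), `fp_zipIdx` (SP/Test), `fp_zAdd`, `fp_zMul`; the inner maps use pairs
(context, row).
-/

namespace Pool.Agent.PQ

open MvPolynomial N487b59b3 N68a2faeb Pool.Agent.Helper22 Pool.Agent.Helper6.WB
  Pool.Agent.Helper6.SP

variable {α : Type} [N487b59b3 α]

theorem fp_qAdd {f g : α → QM} (hf : FP f) (hg : FP g) : FP fun a => qAdd (f a) (g a) := by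
  have hf1 : FP fun a => (f a).1 := hf.fst'
  have hg1 : FP fun a => (g a).1 := hg.fst'
  have hz : FP fun a => (f a).1.zip (g a).1 := fp_zip hf1 hg1
  have hin : FP fun x : α × (List ZZ × List ZZ) => (x.2.1.zip x.2.2).map fun s =>
      (fun y : (α × (List ZZ × List ZZ)) × (ZZ × ZZ) =>
        zAdd (zMul ((g y.1.1).2, 0) y.2.1) (zMul ((f y.1.1).2, 0) y.2.2)) (x, s) := by
    have a0 : FP fun x : α × (List ZZ × List ZZ) => x.2 := FP.snd
    have a1 : FP fun x : α × (List ZZ × List ZZ) => x.2.1 := a0.fst'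
    have a2 : FP fun x : α × (List ZZ × List ZZ) => x.2.2 := a0.snd'
    have a3 : FP fun x : α × (List ZZ × List ZZ) => x.2.1.zip x.2.2 := fp_zip a1 a2
    have c1 : FP fun y : (α × (List ZZ × List ZZ)) × (ZZ × ZZ) => y.1 := FP.fst
    have c2 : FP fun y : (α × (List ZZ × List ZZ)) × (ZZ × ZZ) => y.2 := FP.snd
    have b0 : FP fun y : (α × (List ZZ × List ZZ)) × (ZZ × ZZ) => y.1.1 := c1.fst'
    have b1 : FP fun y : (α × (List ZZ × List ZZ)) × (ZZ × ZZ) => y.2.1 := c2.fst'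
    have b2 : FP fun y : (α × (List ZZ × List ZZ)) × (ZZ × ZZ) => y.2.2 := c2.snd'
    have g2 : FP fun a => (g a).2 := hg.snd'
    have f2 : FP fun a => (f a).2 := hf.snd'
    have h1 : FP fun y : (α × (List ZZ × List ZZ)) × (ZZ × ZZ) => (g y.1.1).2 := g2.comp b0
    have h2 : FP fun y : (α × (List ZZ × List ZZ)) × (ZZ × ZZ) => (f y.1.1).2 := f2.comp b0
    have k0 : FP fun _ : (α × (List ZZ × List ZZ)) × (ZZ × ZZ) => (0 : ℕ) := FP.const 0
    have h3 : FP fun y : (α × (List ZZ × List ZZ)) × (ZZ × ZZ) =>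
        (((g y.1.1).2, 0) : ZZ) := h1.pair k0
    have h4 : FP fun y : (α × (List ZZ × List ZZ)) × (ZZ × ZZ) =>
        (((f y.1.1).2, 0) : ZZ) := h2.pair k0
    have h5 : FP fun y : (α × (List ZZ × List ZZ)) × (ZZ × ZZ) =>
        zAdd (zMul ((g y.1.1).2, 0) y.2.1) (zMul ((f y.1.1).2, 0) y.2.2) :=
      fp_zAdd (fp_zMul h3 b1) (fp_zMul h4 b2)
    exact fp_map a3 h5
  have hout := fp_map (h := fun x : α × (List ZZ × List ZZ) => (x.2.1.zip x.2.2).map fun s =>
      (fun y : (α × (List ZZ × List ZZ)) × (ZZ × ZZ) =>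
        zAdd (zMul ((g y.1.1).2, 0) y.2.1) (zMul ((f y.1.1).2, 0) y.2.2)) (x, s)) hz hin
  exact hout.pair (FP.natMul hf.snd' hg.snd')

theorem fp_qSmul {f : α → ℕ} {g : α → QM} (hf : FP f) (hg : FP g) :
    FP fun a => qSmul (f a) (g a) := by
  have hg1 : FP fun a => (g a).1 := hg.fst'
  have hin : FP fun x : α × List ZZ => x.2.map fun s =>
      (fun y : (α × List ZZ) × ZZ => zMul (f y.1.1, 0) y.2) (x, s) := by
    have a0 : FP fun x : α × List ZZ => x.2 := FP.snd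
    have c1 : FP fun y : (α × List ZZ) × ZZ => y.1 := FP.fst
    have c2 : FP fun y : (α × List ZZ) × ZZ => y.2 := FP.snd
    have b0 : FP fun y : (α × List ZZ) × ZZ => y.1.1 := c1.fst'
    have h1 : FP fun y : (α × List ZZ) × ZZ => f y.1.1 := hf.comp b0
    have k0 : FP fun _ : (α × List ZZ) × ZZ => (0 : ℕ) := FP.const 0
    have h3 : FP fun y : (α × List ZZ) × ZZ => ((f y.1.1, 0) : ZZ) := h1.pair k0
    have h5 : FP fun y : (α × List ZZ) × ZZ => zMul (f y.1.1, 0) y.2 := fp_zMul h3 c2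
    exact fp_map a0 h5
  have hout := fp_map (h := fun x : α × List ZZ => x.2.map fun s =>
      (fun y : (α × List ZZ) × ZZ => zMul (f y.1.1, 0) y.2) (x, s)) hg1 hin
  exact hout.pair hg.snd'

theorem fp_qScl {f : α → ℕ} {g : α → QM} (hf : FP f) (hg : FP g) :
    FP fun a => qScl (f a) (g a) := by
  have hg1 : FP fun a => (g a).1 := hg.fst'
  have hz : FP fun a => (g a).1.zipIdx := fp_zipIdx hg1
  have hin : FP fun x : α × (List ZZ × ℕ) => x.2.1.zipIdx.map fun z =>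
      (fun y : (α × (List ZZ × ℕ)) × (ZZ × ℕ) =>
        zMul ((if decide (y.1.2.2 = 0) then f y.1.1 else 1) *
          (if decide (y.2.2 = 0) then f y.1.1 else 1), 0) y.2.1) (x, z) := by
    have a0 : FP fun x : α × (List ZZ × ℕ) => x.2 := FP.snd
    have a1 : FP fun x : α × (List ZZ × ℕ) => x.2.1 := a0.fst'
    have a3 : FP fun x : α × (List ZZ × ℕ) => x.2.1.zipIdx := fp_zipIdx a1
    have c1 : FP fun y : (α × (List ZZ × ℕ)) × (ZZ × ℕ) => y.1 := FP.fst
    have c2 : FP fun y : (α × (List ZZ × ℕ)) × (ZZ × ℕ) => y.2 := FP.snd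
    have b0 : FP fun y : (α × (List ZZ × ℕ)) × (ZZ × ℕ) => y.1.1 := c1.fst'
    have b1 : FP fun y : (α × (List ZZ × ℕ)) × (ZZ × ℕ) => y.1.2 := c1.snd'
    have b2 : FP fun y : (α × (List ZZ × ℕ)) × (ZZ × ℕ) => y.1.2.2 := b1.snd'
    have b3 : FP fun y : (α × (List ZZ × ℕ)) × (ZZ × ℕ) => y.2.1 := c2.fst'
    have b4 : FP fun y : (α × (List ZZ × ℕ)) × (ZZ × ℕ) => y.2.2 := c2.snd'
    have h1 : FP fun y : (α × (List ZZ × ℕ)) × (ZZ × ℕ) => f y.1.1 := hf.comp b0
    have k0 : FP fun _ : (α × (List ZZ × ℕ)) × (ZZ × ℕ) => (0 : ℕ) := FP.const 0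
    have k1 : FP fun _ : (α × (List ZZ × ℕ)) × (ZZ × ℕ) => (1 : ℕ) := FP.const 1
    have h2 : FP fun y : (α × (List ZZ × ℕ)) × (ZZ × ℕ) =>
        if decide (y.1.2.2 = 0) then f y.1.1 else 1 :=
      FP.ite (FP.natEq b2 k0) h1 k1
    have h3 : FP fun y : (α × (List ZZ × ℕ)) × (ZZ × ℕ) =>
        if decide (y.2.2 = 0) then f y.1.1 else 1 :=
      FP.ite (FP.natEq b4 k0) h1 k1
    have h4 : FP fun y : (α × (List ZZ × ℕ)) × (ZZ × ℕ) =>
        (((if decide (y.1.2.2 = 0) then f y.1.1 else 1) *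
          (if decide (y.2.2 = 0) then f y.1.1 else 1), 0) : ZZ) := (FP.natMul h2 h3).pair k0
    have h5 : FP fun y : (α × (List ZZ × ℕ)) × (ZZ × ℕ) =>
        zMul ((if decide (y.1.2.2 = 0) then f y.1.1 else 1) *
          (if decide (y.2.2 = 0) then f y.1.1 else 1), 0) y.2.1 := fp_zMul h4 b3
    exact fp_map a3 h5
  have hout := fp_map (h := fun x : α × (List ZZ × ℕ) => x.2.1.zipIdx.map fun z =>
      (fun y : (α × (List ZZ × ℕ)) × (ZZ × ℕ) =>
        zMul ((if decide (y.1.2.2 = 0) then f y.1.1 else 1) *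
          (if decide (y.2.2 = 0) then f y.1.1 else 1), 0) y.2.1) (x, z))
      hz hin
  exact hout.pair hg.snd'

theorem fp_qZero {f : α → Un} (hf : FP f) : FP fun a => qZero (f a) := by
  have hin : FP fun x : α × Bool => (f x.1).map fun s =>
      (fun _ : (α × Bool) × Bool => ((0, 0) : ZZ)) (x, s) := by
    have c1 : FP fun x : α × Bool => x.1 := FP.fst
    have h1 : FP fun x : α × Bool => f x.1 := hf.comp c1
    have k0 : FP fun _ : (α × Bool) × Bool => ((0, 0) : ZZ) := FP.const (0, 0)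
    exact fp_map h1 k0
  have hout := fp_map (h := fun x : α × Bool => (f x.1).map fun s =>
      (fun _ : (α × Bool) × Bool => ((0, 0) : ZZ)) (x, s)) hf hin
  exact hout.pair (FP.const 1)

theorem fp_qE {f : α → Un} (hf : FP f) : FP fun a => qE (f a) := by
  have hz : FP fun a => (f a).zipIdx := fp_zipIdx hf
  have hin : FP fun x : α × (Bool × ℕ) => (f x.1).zipIdx.map fun z =>
      (fun y : (α × (Bool × ℕ)) × (Bool × ℕ) =>
        if decide (y.1.2.2 = 0) && decide (y.2.2 = 0) then ((1, 0) : ZZ) else (0, 0)) (x, z) := by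
    have a0 : FP fun x : α × (Bool × ℕ) => x.1 := FP.fst
    have a1 : FP fun x : α × (Bool × ℕ) => f x.1 := hf.comp a0
    have a3 : FP fun x : α × (Bool × ℕ) => (f x.1).zipIdx := fp_zipIdx a1
    have c1 : FP fun y : (α × (Bool × ℕ)) × (Bool × ℕ) => y.1 := FP.fst
    have c2 : FP fun y : (α × (Bool × ℕ)) × (Bool × ℕ) => y.2 := FP.snd
    have b1 : FP fun y : (α × (Bool × ℕ)) × (Bool × ℕ) => y.1.2 := c1.snd'
    have b2 : FP fun y : (α × (Bool × ℕ)) × (Bool × ℕ) => y.1.2.2 := b1.snd'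
    have b4 : FP fun y : (α × (Bool × ℕ)) × (Bool × ℕ) => y.2.2 := c2.snd'
    have k0 : FP fun _ : (α × (Bool × ℕ)) × (Bool × ℕ) => (0 : ℕ) := FP.const 0
    have k1 : FP fun _ : (α × (Bool × ℕ)) × (Bool × ℕ) => ((1, 0) : ZZ) := FP.const (1, 0)
    have k2 : FP fun _ : (α × (Bool × ℕ)) × (Bool × ℕ) => ((0, 0) : ZZ) := FP.const (0, 0)
    have h5 : FP fun y : (α × (Bool × ℕ)) × (Bool × ℕ) =>
        if decide (y.1.2.2 = 0) && decide (y.2.2 = 0) then ((1, 0) : ZZ) else (0, 0) :=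
      FP.ite (FP.and (FP.natEq b2 k0) (FP.natEq b4 k0)) k1 k2
    exact fp_map a3 h5
  have hout := fp_map (h := fun x : α × (Bool × ℕ) => (f x.1).zipIdx.map fun z =>
      (fun y : (α × (Bool × ℕ)) × (Bool × ℕ) =>
        if decide (y.1.2.2 = 0) && decide (y.2.2 = 0) then ((1, 0) : ZZ) else (0, 0)) (x, z))
      hz hin
  exact hout.pair (FP.const 1)

end Pool.Agent.PQ
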