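import Pool.Agent.PQ.Zip
import Pool.Agent.PQ.Dh

set_option autoImplicit false

/-!
PQ-QOps. Operations on rational matrices with a common denominator.

Plan: entries of a zip / map / zipIdx by `List.getElem` lemmas for indices `< n`; outside both sides are zero for
`Sq` matrices. FP: `fp_zip`, `fp_map`, `fp_zipIdx` (SP/Test), `fp_zAdd`, `fp_zMul`.
-/

namespace Pool.Agent.PQ

open MvPolynomial N487b59b3 N68a2faeb Pool.Agent.Helper22 Pool.Agent.Helper6.WB
  Pool.Agent.Helper6.SP

variable {α : Type} [N487b59b3 α]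

/-- entry of a rational matrix -/
def eq (q : QM) (i j : ℕ) : ℚ := ent q.1 i j / q.2

/-- sum -/
def qAdd (p q : QM) : QM :=
  ((p.1.zip q.1).map fun r => (r.1.zip r.2).map fun s =>
    zAdd (zMul (q.2, 0) s.1) (zMul (p.2, 0) s.2), p.2 * q.2)

/-- multiple -/
def qSmul (f : ℕ) (q : QM) : QM := (q.1.map fun r => r.map fun z => zMul (f, 0) z, q.2)

/-- scaling of `x_0` -/
def qScl (w : ℕ) (q : QM) : QM :=
  (q.1.zipIdx.map fun r => r.1.zipIdx.map fun z =>
    zMul ((if decide (r.2 = 0) then w else 1) * (if decide (z.2 = 0) then w else 1), 0) z.1, q.2)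

/-- zero matrix -/
def qZero (n : Un) : QM := (n.map fun _ => n.map fun _ => (0, 0), 1)

/-- the matrix of `x_0^2` -/
def qE (n : Un) : QM :=
  (n.zipIdx.map fun r => n.zipIdx.map fun z =>
    if decide (r.2 = 0) && decide (z.2 = 0) then (1, 0) else (0, 0), 1)

private theorem qo_getD_zip {A B C : Type} (f : A → B → C) (a0 : A) (b0 : B) (c0 : C)
    (u : List A) (v : List B) (n : ℕ) (hu : u.length = n) (hv : v.length = n) (j : ℕ) :
    ((u.zip v).map fun s => f s.1 s.2).getD j c0 =
      if j < n then f (u.getD j a0) (v.getD j b0) else c0 := by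
  have hl : ((u.zip v).map fun s => f s.1 s.2).length = n := by
    rw [List.length_map, List.length_zip, hu, hv, min_self]
  by_cases hj : j < n
  · rw [if_pos hj, List.getD_eq_getElem _ _ (by rw [hl]; exact hj), List.getElem_map,
      List.getElem_zip, List.getD_eq_getElem _ _ (by rw [hu]; exact hj),
      List.getD_eq_getElem _ _ (by rw [hv]; exact hj)]
  · rw [if_neg hj, List.getD_eq_default _ _ (by rw [hl]; exact Nat.le_of_not_lt hj)]

private theorem qo_getD_idx {A C : Type} (g : ℕ → A → C) (a0 : A) (c0 : C)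
    (u : List A) (j : ℕ) :
    (u.zipIdx.map fun z => g z.2 z.1).getD j c0 =
      if j < u.length then g j (u.getD j a0) else c0 := by
  have hl : (u.zipIdx.map fun z => g z.2 z.1).length = u.length := by
    rw [List.length_map, List.length_zipIdx]
  by_cases hj : j < u.length
  · rw [if_pos hj, List.getD_eq_getElem _ _ (by rw [hl]; exact hj), List.getElem_map,
      List.getElem_zipIdx, List.getD_eq_getElem _ _ hj]
    simp
  · rw [if_neg hj, List.getD_eq_default _ _ (by rw [hl]; exact Nat.le_of_not_lt hj)]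

private theorem qo_getD_map {A C : Type} (g : A → C) (a0 : A) (c0 : C)
    (u : List A) (j : ℕ) :
    (u.map g).getD j c0 = if j < u.length then g (u.getD j a0) else c0 := by
  by_cases hj : j < u.length
  · rw [if_pos hj, List.getD_eq_getElem _ _ (by rw [List.length_map]; exact hj),
      List.getElem_map, List.getD_eq_getElem _ _ hj]
  · rw [if_neg hj, List.getD_eq_default _ _ (by rw [List.length_map]; exact Nat.le_of_not_lt hj)]

private theorem qo_row {n : ℕ} {A : Mt} (h : Sq n A) {i : ℕ} (hi : i < n) :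
    (A.getD i []).length = n := by
  rw [List.getD_eq_getElem _ _ (by rw [h.1]; exact hi)]
  exact h.2.1 _ (List.getElem_mem _)

private theorem qo_out {n : ℕ} {A : Mt} (h : Sq n A) {i j : ℕ} (hij : ¬(i < n ∧ j < n)) :
    ent A i j = 0 := by
  unfold ent
  by_cases hi : i < n
  · have hj : ¬ j < n := fun hj => hij ⟨hi, hj⟩
    rw [List.getD_eq_default (A.getD i []) _ (by rw [qo_row h hi]; exact Nat.le_of_not_lt hj)]
    simp [zq]
  · rw [List.getD_eq_default A _ (by rw [h.1]; exact Nat.le_of_not_lt hi)]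
    simp [zq]

private theorem qo_sq {n : ℕ} {A : Mt} (h1 : A.length = n) (h2 : ∀ r ∈ A, r.length = n)
    (h3 : ∀ i < n, ∀ j < n, ent A i j = ent A j i) : Sq n A := by
  refine ⟨h1, h2, fun i j => ?_⟩
  have hout : ∀ i j, ¬(i < n ∧ j < n) → ent A i j = 0 := by
    intro i j hij
    unfold ent
    by_cases hi : i < n
    · have hj : ¬ j < n := fun hj => hij ⟨hi, hj⟩
      rw [List.getD_eq_getElem A _ (by rw [h1]; exact hi)]
      rw [List.getD_eq_default A[i] _
        (by rw [h2 _ (List.getElem_mem _)]; exact Nat.le_of_not_lt hj)]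
      simp [zq]
    · rw [List.getD_eq_default A _ (by rw [h1]; exact Nat.le_of_not_lt hi)]
      simp [zq]
  by_cases hij : i < n ∧ j < n
  · exact h3 i hij.1 j hij.2
  · rw [hout i j hij, hout j i (fun h => hij ⟨h.2, h.1⟩)]

private theorem qo_ent_add {n : ℕ} {p q : QM} (hp' : Sq n p.1) (hq' : Sq n q.1) (i j : ℕ) :
    ent (qAdd p q).1 i j = q.2 * ent p.1 i j + p.2 * ent q.1 i j := by
  by_cases hi : i < n
  · by_cases hj : j < n
    · unfold ent qAdd
      show zq ((((p.1.zip q.1).map fun r => (r.1.zip r.2).map fun s =>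
        zAdd (zMul (q.2, 0) s.1) (zMul (p.2, 0) s.2)).getD i []).getD j (0, 0)) = _
      rw [qo_getD_zip (fun (r t : List ZZ) => (r.zip t).map fun s =>
        zAdd (zMul (q.2, 0) s.1) (zMul (p.2, 0) s.2)) [] [] [] p.1 q.1 n hp'.1 hq'.1 i, if_pos hi]
      rw [qo_getD_zip (fun (a b : ZZ) => zAdd (zMul (q.2, 0) a) (zMul (p.2, 0) b)) (0, 0) (0, 0)
        (0, 0) _ _ n (qo_row hp' hi) (qo_row hq' hi) j, if_pos hj]
      rw [zq_add, zq_mul, zq_mul]
      simp [zq]
    · rw [qo_out hp' (fun h => hj h.2), qo_out hq' (fun h => hj h.2)]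
      unfold ent qAdd
      show zq ((((p.1.zip q.1).map fun r => (r.1.zip r.2).map fun s =>
        zAdd (zMul (q.2, 0) s.1) (zMul (p.2, 0) s.2)).getD i []).getD j (0, 0)) = _
      rw [qo_getD_zip (fun (r t : List ZZ) => (r.zip t).map fun s =>
        zAdd (zMul (q.2, 0) s.1) (zMul (p.2, 0) s.2)) [] [] [] p.1 q.1 n hp'.1 hq'.1 i, if_pos hi]
      rw [qo_getD_zip (fun (a b : ZZ) => zAdd (zMul (q.2, 0) a) (zMul (p.2, 0) b)) (0, 0) (0, 0)
        (0, 0) _ _ n (qo_row hp' hi) (qo_row hq' hi) j, if_neg hj]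
      simp [zq]
  · rw [qo_out hp' (fun h => hi h.1), qo_out hq' (fun h => hi h.1)]
    unfold ent qAdd
    show zq ((((p.1.zip q.1).map fun r => (r.1.zip r.2).map fun s =>
      zAdd (zMul (q.2, 0) s.1) (zMul (p.2, 0) s.2)).getD i []).getD j (0, 0)) = _
    rw [qo_getD_zip (fun (r t : List ZZ) => (r.zip t).map fun s =>
      zAdd (zMul (q.2, 0) s.1) (zMul (p.2, 0) s.2)) [] [] [] p.1 q.1 n hp'.1 hq'.1 i, if_neg hi]
    simp [zq]

theorem qAdd_spec {n : ℕ} {p q : QM} (hp : p.2 ≠ 0) (hq : q.2 ≠ 0) (hp' : Sq n p.1)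
    (hq' : Sq n q.1) : (qAdd p q).2 ≠ 0 ∧ Sq n (qAdd p q).1 ∧
      ∀ i j, eq (qAdd p q) i j = eq p i j + eq q i j := by
  refine ⟨Nat.mul_ne_zero hp hq, ?_, ?_⟩
  · apply qo_sq
    · unfold qAdd
      show ((p.1.zip q.1).map _).length = n
      rw [List.length_map, List.length_zip, hp'.1, hq'.1, min_self]
    · intro r hr
      unfold qAdd at hr
      obtain ⟨s, hs, rfl⟩ := List.mem_map.1 hr
      have h := List.of_mem_zip (a := s.1) (b := s.2) hs
      rw [List.length_map, List.length_zip, hp'.2.1 _ h.1, hq'.2.1 _ h.2, min_self]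
    · intro i _ j _
      rw [qo_ent_add hp' hq', qo_ent_add hp' hq', hp'.2.2 i j, hq'.2.2 i j]
  · intro i j
    unfold eq
    rw [qo_ent_add hp' hq']
    have h1 : ((qAdd p q).2 : ℚ) = p.2 * q.2 := by
      unfold qAdd
      push_cast
      ring
    rw [h1]
    have h2 : (p.2 : ℚ) ≠ 0 := Nat.cast_ne_zero.2 hp
    have h3 : (q.2 : ℚ) ≠ 0 := Nat.cast_ne_zero.2 hq
    field_simp
    try ring

private theorem qo_ent_smul {q : QM} (f : ℕ) (i j : ℕ) :
    ent (qSmul f q).1 i j = f * ent q.1 i j := by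
  unfold ent qSmul
  show zq (((q.1.map fun r => r.map fun z => zMul (f, 0) z).getD i []).getD j (0, 0)) = _
  rw [qo_getD_map (fun r : List ZZ => r.map fun z => zMul (f, 0) z) [] [] q.1 i]
  by_cases hi : i < q.1.length
  · rw [if_pos hi, qo_getD_map (fun z : ZZ => zMul (f, 0) z) (0, 0) (0, 0) _ j]
    by_cases hj : j < (q.1.getD i []).length
    · rw [if_pos hj, zq_mul]
      simp [zq]
    · rw [if_neg hj, List.getD_eq_default (q.1.getD i []) _ (Nat.le_of_not_lt hj)]
      simp [zq]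
  · rw [if_neg hi, List.getD_eq_default q.1 _ (Nat.le_of_not_lt hi)]
    simp [zq]

theorem qSmul_spec {n : ℕ} {q : QM} (hq : q.2 ≠ 0) (hq' : Sq n q.1) (f : ℕ) :
    (qSmul f q).2 ≠ 0 ∧ Sq n (qSmul f q).1 ∧ ∀ i j, eq (qSmul f q) i j = f * eq q i j := by
  refine ⟨hq, ?_, ?_⟩
  · apply qo_sq
    · unfold qSmul
      show (q.1.map _).length = n
      rw [List.length_map, hq'.1]
    · intro r hr
      unfold qSmul at hr
      obtain ⟨s, hs, rfl⟩ := List.mem_map.1 hr
      rw [List.length_map, hq'.2.1 _ hs]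
    · intro i _ j _
      rw [qo_ent_smul, qo_ent_smul, hq'.2.2 i j]
  · intro i j
    unfold eq
    rw [qo_ent_smul]
    show _ / ((q.2 : ℕ) : ℚ) = _
    ring

private theorem qo_ent_scl {q : QM} (w : ℕ) (i j : ℕ) :
    ent (qScl w q).1 i j = (if i = 0 then (w : ℚ) else 1) * (if j = 0 then (w : ℚ) else 1) *
      ent q.1 i j := by
  unfold ent qScl
  show zq (((q.1.zipIdx.map fun r => r.1.zipIdx.map fun z =>
    zMul ((if decide (r.2 = 0) then w else 1) * (if decide (z.2 = 0) then w else 1), 0)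
      z.1).getD i []).getD j (0, 0)) = _
  rw [qo_getD_idx (fun (k : ℕ) (r : List ZZ) => r.zipIdx.map fun z =>
    zMul ((if decide (k = 0) then w else 1) * (if decide (z.2 = 0) then w else 1), 0)
      z.1) [] [] q.1 i]
  by_cases hi : i < q.1.length
  · rw [if_pos hi, qo_getD_idx (fun (l : ℕ) (z : ZZ) =>
      zMul ((if decide (i = 0) then w else 1) * (if decide (l = 0) then w else 1), 0)
      z) (0, 0) (0, 0) _ j]
    by_cases hj : j < (q.1.getD i []).length
    · rw [if_pos hj, zq_mul]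
      congr 1
      unfold zq
      by_cases h0 : i = 0 <;> by_cases h1 : j = 0 <;> simp [h0, h1]
    · rw [if_neg hj, List.getD_eq_default (q.1.getD i []) _ (Nat.le_of_not_lt hj)]
      simp [zq]
  · rw [if_neg hi, List.getD_eq_default q.1 _ (Nat.le_of_not_lt hi)]
    simp [zq]

theorem qScl_spec {n : ℕ} {q : QM} (hq : q.2 ≠ 0) (hq' : Sq n q.1) (w : ℕ) :
    (qScl w q).2 ≠ 0 ∧ Sq n (qScl w q).1 ∧ ∀ i j, eq (qScl w q) i j = scl w (eq q) i j := by
  refine ⟨hq, ?_, ?_⟩
  · apply qo_sq
    · unfold qScl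
      show (q.1.zipIdx.map _).length = n
      rw [List.length_map, List.length_zipIdx, hq'.1]
    · intro r hr
      unfold qScl at hr
      obtain ⟨s, hs, rfl⟩ := List.mem_map.1 hr
      have h : s.1 ∈ q.1 := by
        obtain ⟨k, hk, hk'⟩ := List.mem_iff_getElem.1 hs
        rw [← hk', List.getElem_zipIdx]
        exact List.getElem_mem _
      rw [List.length_map, List.length_zipIdx, hq'.2.1 _ h]
    · intro i _ j _
      rw [qo_ent_scl, qo_ent_scl, hq'.2.2 i j]
      ring
  · intro i j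
    unfold eq scl
    rw [qo_ent_scl]
    show _ / ((q.2 : ℕ) : ℚ) = _
    ring

private theorem qo_ent_zero (n : Un) (i j : ℕ) : ent (qZero n).1 i j = 0 := by
  unfold ent qZero
  show zq (((n.map fun _ => n.map fun _ => ((0, 0) : ZZ)).getD i []).getD j (0, 0)) = _
  rw [qo_getD_map (fun _ : Bool => n.map fun _ => ((0, 0) : ZZ)) false [] n i]
  split_ifs
  · rw [qo_getD_map (fun _ : Bool => ((0, 0) : ZZ)) false (0, 0) n j]
    split_ifs <;> simp [zq]
  · simp [zq]

theorem qZero_spec (n : Un) : (qZero n).2 ≠ 0 ∧ Sq n.length (qZero n).1 ∧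
    ∀ i j, eq (qZero n) i j = 0 := by
  refine ⟨one_ne_zero, ?_, ?_⟩
  · apply qo_sq
    · unfold qZero
      show (n.map _).length = n.length
      rw [List.length_map]
    · intro r hr
      unfold qZero at hr
      obtain ⟨s, hs, rfl⟩ := List.mem_map.1 hr
      rw [List.length_map]
    · intro i _ j _
      rw [qo_ent_zero, qo_ent_zero]
  · intro i j
    unfold eq
    rw [qo_ent_zero, zero_div]

private theorem qo_ent_e (n : Un) (i j : ℕ) (hi : i < n.length) (hj : j < n.length) :
    ent (qE n).1 i j = if i = 0 ∧ j = 0 then 1 else 0 := by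
  unfold ent qE
  show zq (((n.zipIdx.map fun r => n.zipIdx.map fun z =>
    if decide (r.2 = 0) && decide (z.2 = 0) then ((1, 0) : ZZ) else (0, 0)).getD i
      []).getD j (0, 0)) = _
  rw [qo_getD_idx (fun (k : ℕ) (_ : Bool) => n.zipIdx.map fun z =>
    if decide (k = 0) && decide (z.2 = 0) then ((1, 0) : ZZ) else (0, 0)) false [] n i, if_pos hi]
  rw [qo_getD_idx (fun (l : ℕ) (_ : Bool) =>
    if decide (i = 0) && decide (l = 0) then ((1, 0) : ZZ) else (0, 0)) false (0, 0) n j, if_pos hj]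
  by_cases h0 : i = 0 <;> by_cases h1 : j = 0 <;> simp [h0, h1, zq]

theorem qE_spec (n : Un) : (qE n).2 ≠ 0 ∧ Sq n.length (qE n).1 ∧
    ∀ i < n.length, ∀ j < n.length, eq (qE n) i j = if i = 0 ∧ j = 0 then 1 else 0 := by
  refine ⟨one_ne_zero, ?_, ?_⟩
  · apply qo_sq
    · unfold qE
      show (n.zipIdx.map _).length = n.length
      rw [List.length_map, List.length_zipIdx]
    · intro r hr
      unfold qE at hr
      obtain ⟨s, hs, rfl⟩ := List.mem_map.1 hr
      rw [List.length_map, List.length_zipIdx]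
    · intro i hi j hj
      rw [qo_ent_e n i j hi hj, qo_ent_e n j i hj hi]
      by_cases h0 : i = 0 <;> by_cases h1 : j = 0 <;> simp [h0, h1]
  · intro i hi j hj
    unfold eq
    rw [qo_ent_e n i j hi hj]
    show _ / ((1 : ℕ) : ℚ) = _
    rw [Nat.cast_one, div_one]

theorem qm_add {n : ℕ} {p q : QM} (hp : p.2 ≠ 0) (hq : q.2 ≠ 0) (hp' : Sq n p.1)
    (hq' : Sq n q.1) : qm n (qAdd p q) = qm n p + qm n q := by
  have h := (qAdd_spec hp hq hp' hq').2.2
  unfold qm qf
  rw [← Finset.sum_add_distrib]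
  refine Finset.sum_congr rfl fun i _ => ?_
  rw [← Finset.sum_add_distrib]
  refine Finset.sum_congr rfl fun j _ => ?_
  have h1 := h i j
  unfold eq at h1
  beta_reduce
  rw [h1, C_add, add_mul]

theorem qm_smul {n : ℕ} {q : QM} (hq : q.2 ≠ 0) (hq' : Sq n q.1) (f : ℕ) :
    qm n (qSmul f q) = f • qm n q := by
  have h := (qSmul_spec hq hq' f).2.2
  unfold qm qf
  rw [Finset.smul_sum]
  refine Finset.sum_congr rfl fun i _ => ?_
  rw [Finset.smul_sum]
  refine Finset.sum_congr rfl fun j _ => ?_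
  have h1 := h i j
  unfold eq at h1
  beta_reduce
  rw [h1, C_mul, nsmul_eq_mul, mul_assoc]
  congr 1

theorem qm_zero (n : Un) : qm n.length (qZero n) = 0 := by
  unfold qm qf
  refine Finset.sum_eq_zero fun i _ => Finset.sum_eq_zero fun j _ => ?_
  have h := (qZero_spec n).2.2 i j
  unfold eq at h
  beta_reduce
  rw [h, C_0, zero_mul]

theorem qm_e (n : Un) (hn : 1 ≤ n.length) : qm n.length (qE n) = X 0 ^ 2 := by
  have h := (qE_spec n).2.2
  unfold qm qf
  have h0 : 0 ∈ Finset.range n.length := Finset.mem_range.2 hn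
  rw [Finset.sum_eq_single_of_mem 0 h0, Finset.sum_eq_single_of_mem 0 h0]
  · have h1 := h 0 hn 0 hn
    unfold eq at h1
    beta_reduce
    rw [h1, if_pos ⟨rfl, rfl⟩, C_1, one_mul, pow_two]
  · intro j hj hj0
    have h1 := h 0 hn j (Finset.mem_range.1 hj)
    unfold eq at h1
    beta_reduce
    rw [h1, if_neg (fun h => hj0 h.2), C_0, zero_mul]
  · intro i hi hi0
    refine Finset.sum_eq_zero fun j hj => ?_
    have h1 := h i (Finset.mem_range.1 hi) j (Finset.mem_range.1 hj)
    unfold eq at h1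
    beta_reduce
    rw [h1, if_neg (fun h => hi0 h.1), C_0, zero_mul]

end Pool.Agent.PQ
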