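import Pool.Agent.PQ.ProdL

set_option autoImplicit false

/-!
PQ-Row. The entries of the reduced Jacobian matrix are in `FT (r + 2)`.

`inv M e U w` is a sum over `range (M+1)` of (constant, `FQ` by `fq_topV`, `FQ.inv`, `FQ.powU`) times a power
of `fm_wordB` (`FM.powU`); `sub (SS B)` is a `listSum` of `ft_prod`;
`sub (∂ (SS B)) = ∑_{l ∈ B} ∑_{i < l.length} sub(∂ (pw l_i)) * sub(∏ (l.eraseIdx i))`, and `l.eraseIdx i` has at most as many
different members as `l`. `EE` by `FT.add`, `FT.mul`, `FT.listSum`. Under the promise `3 ≤ v`.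
-/

namespace Pool.Agent.PQ

open MvPolynomial N487b59b3 N68a2faeb Pool.Agent.Helper22 Pool.Agent.Helper6.WB
  Pool.Agent.Helper6.SP

/-- a unary number with value `i` if `i ≤ n` -/
private def unT (n i : ℕ) : Un :=
  (List.range n).flatMap fun j => if decide (i ≤ j) then [] else [true]

private theorem unT_length (n i : ℕ) (h : i ≤ n) : (unT n i).length = i := by
  have key : ∀ n, (unT n i).length = min i n := by
    intro n
    induction n with
    | zero => simp [unT]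
    | succ n ih =>
      have h1 : unT (n + 1) i = unT n i ++ (if decide (i ≤ n) then [] else [true]) := by
        unfold unT
        rw [List.range_succ, List.flatMap_append]
        simp
      rw [h1, List.length_append, ih]
      by_cases h2 : i ≤ n
      · simp only [h2, decide_true, if_true, List.length_nil, add_zero]
        omega
      · simp only [h2, decide_false, Bool.false_eq_true, if_false, List.length_singleton]
        omega
  rw [key, min_eq_left h]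

private theorem fp_unT {α : Type} [N487b59b3 α] {f : α → Un} {g : α → ℕ} (hf : FP f)
    (hg : FP g) : FP fun a => unT (f a).length (g a) := by
  have h1 : FP fun a => List.range (f a).length := FP.range hf
  have h2 : FP fun q : α × ℕ => if decide (g q.1 ≤ q.2) then ([] : List Bool) else [true] :=
    FP.ite (Pool.Agent.Helper47.TR.FP.natLe (hg.comp FP.fst) FP.snd) (FP.const []) (FP.const [true])
  exact fp_flatMap h1 h2

/-- the list without the entry with index `i` -/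
private def erZ (z : List (Wd × ℕ)) (i : ℕ) : List Wd :=
  z.flatMap fun q => if decide (q.2 = i) then [] else [q.1]

private theorem fp_erZ {α : Type} [N487b59b3 α] {f : α → List (Wd × ℕ)} {g : α → ℕ} (hf : FP f)
    (hg : FP g) : FP fun a => erZ (f a) (g a) := by
  have h2 : FP fun q : α × (Wd × ℕ) =>
      if decide (q.2.2 = g q.1) then ([] : List Wd) else [q.2.1] :=
    FP.ite (FP.natEq (FP.snd.comp FP.snd) (hg.comp FP.fst)) (FP.const [])
      (FP.cons (FP.fst.comp FP.snd) (FP.const []))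
  exact fp_flatMap hf h2

private theorem erZ_lt (l : List Wd) (k i : ℕ) (h : i < k) : erZ (l.zipIdx k) i = l := by
  induction l generalizing k with
  | nil => simp [erZ]
  | cons a l ih =>
    have h1 := ih (k + 1) (by omega)
    unfold erZ at h1 ⊢
    rw [List.zipIdx_cons, List.flatMap_cons, h1]
    have h2 : ¬ k = i := by omega
    simp [h2]

private theorem mem_erZ {l : List Wd} {k i : ℕ} {x : Wd} (h : x ∈ erZ (l.zipIdx k) i) :
    x ∈ l := by
  unfold erZ at h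
  rw [List.mem_flatMap] at h
  obtain ⟨q, h1, h2⟩ := h
  by_cases h3 : q.2 = i
  · simp [h3] at h2
  · simp only [h3, decide_false, Bool.false_eq_true, if_false, List.mem_singleton] at h2
    rw [h2]
    exact List.fst_mem_of_mem_zipIdx h1

private theorem pderiv_prod (v : ℕ) (l : List Wd) (k : ℕ) :
    pderiv v ((l.map pw).prod) = ((l.zipIdx k).map fun q =>
      pderiv v (pw q.1) * ((erZ (l.zipIdx k) q.2).map pw).prod).sum := by
  induction l generalizing k with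
  | nil => simp
  | cons a l ih =>
    rw [List.map_cons, List.prod_cons, Derivation.leibniz, ih (k + 1), List.zipIdx_cons,
      List.map_cons, List.sum_cons]
    have h1 : erZ ((a, k) :: l.zipIdx (k + 1)) k = l := by
      have h2 := erZ_lt l (k + 1) k (by omega)
      unfold erZ at h2 ⊢
      rw [List.flatMap_cons, h2]
      simp
    have h3 : ∀ q ∈ l.zipIdx (k + 1), pderiv v (pw q.1) *
        ((erZ ((a, k) :: l.zipIdx (k + 1)) q.2).map pw).prod =
        pw a * (pderiv v (pw q.1) * ((erZ (l.zipIdx (k + 1)) q.2).map pw).prod) := by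
      intro q hq
      have h4 : k + 1 ≤ q.2 := List.le_snd_of_mem_zipIdx hq
      have h5 : erZ ((a, k) :: l.zipIdx (k + 1)) q.2 = a :: erZ (l.zipIdx (k + 1)) q.2 := by
        unfold erZ
        rw [List.flatMap_cons]
        have h6 : ¬ k = q.2 := by omega
        simp [h6]
      rw [h5, List.map_cons, List.prod_cons]
      ring
    rw [h1, List.map_congr_left h3, List.sum_map_mul_left]
    simp only [smul_eq_mul]
    ring

theorem ft_inv : FT 1 (fun p : Fr × (Wd × Un) => nF p.1) (fun p => Lo p.2.1)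
    (fun p => inv p.2.2.length p.1.1 p.1.2 p.2.1) := by
  have h0 : FP fun q : (Fr × (Wd × Un)) × ℕ => unT (true :: q.1.2.2).length q.2 := by
    refine fp_unT (f := fun q : (Fr × (Wd × Un)) × ℕ => true :: q.1.2.2)
      (g := fun q : (Fr × (Wd × Un)) × ℕ => q.2) ?_ FP.snd
    exact FP.cons (FP.const true) (by fun_prop)
  have h1 : FQ fun q : (Fr × (Wd × Un)) × ℕ => topV q.1.2.1 q.1.1.1 :=
    fq_topV (f := fun q : (Fr × (Wd × Un)) × ℕ => q.1.2.1)
      (g := fun q : (Fr × (Wd × Un)) × ℕ => q.1.1.1) (by fun_prop) (by fun_prop)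
  have h2 : FQ fun q : (Fr × (Wd × Un)) × ℕ =>
      (-1 : ℚ) ^ (unT (true :: q.1.2.2).length q.2).length *
      (topV q.1.2.1 q.1.1.1)⁻¹ ^ (true :: unT (true :: q.1.2.2).length q.2).length :=
    (FQ.powU (FQ.const (-1)) h0).mul (FQ.powU (FQ.inv h1) (FP.cons (FP.const true) h0))
  have h3 : FM (fun q : (Fr × (Wd × Un)) × ℕ => nF q.1.1) (fun q => Lo q.1.2.1)
      (fun q => sub q.1.1.1 q.1.1.2 (pw q.1.2.1) - C (eval (ptE q.1.1.1) (pw q.1.2.1))) :=
    FM.comp (h := fun q : (Fr × (Wd × Un)) × ℕ => (q.1.1, q.1.2.1)) fm_wordB (by fun_prop)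
  have h4 := FT.smul h2 (FM.powU h3 h0)
  have h5 : FP fun p : Fr × (Wd × Un) => List.range (true :: p.2.2).length :=
    FP.range (FP.cons (FP.const true) (by fun_prop))
  have h6 := FT.listSum (P := fun p : Fr × (Wd × Un) => Lo p.2.1)
    (n := fun p : Fr × (Wd × Un) => nF p.1) (P' := fun q => Lo q.1.2.1) h5 h4
    (fun a ha b _ => ha)
  refine FT.congr h6 fun p hp => ?_
  have hp' : Lo p.2.1 := hp
  unfold inv
  rw [Finset.sum_range, ← List.sum_ofFn, List.length_cons]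
  have h7 : (List.ofFn fun i : Fin (p.2.2.length + 1) =>
      (C ((-1) ^ (i : ℕ) * (eval (ptE p.1.1) (pw p.2.1))⁻¹ ^ ((i : ℕ) + 1)) *
      (sub p.1.1 p.1.2 (pw p.2.1) - C (eval (ptE p.1.1) (pw p.2.1))) ^ (i : ℕ) :
        MvPolynomial ℕ ℚ)) =
      (List.range (p.2.2.length + 1)).map fun i =>
      C ((-1) ^ i * (eval (ptE p.1.1) (pw p.2.1))⁻¹ ^ (i + 1)) *
      (sub p.1.1 p.1.2 (pw p.2.1) - C (eval (ptE p.1.1) (pw p.2.1))) ^ i := by
    rw [← List.map_coe_finRange_eq_range, List.map_map, List.ofFn_eq_map]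
    rfl
  rw [h7]
  congr 1
  refine List.map_congr_left fun i hi => ?_
  have hi' : i ≤ p.2.2.length + 1 := by
    have := List.mem_range.mp hi
    omega
  simp only [List.length_cons, unT_length _ _ hi', topV_eq _ hp'.1]

theorem ft_SS (r : ℕ) : FT r (fun p : Fr × List (List Wd) => nF p.1)
    (fun p => ∀ l ∈ p.2, (∀ w ∈ l, Lo w) ∧ l.toFinset.card ≤ r)
    (fun p => sub p.1.1 p.1.2 (SS p.2)) := by
  have h1 : FT r (fun q : (Fr × List (List Wd)) × List Wd => nF q.1.1)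
      (fun q => (∀ w ∈ q.2, Lo w) ∧ q.2.toFinset.card ≤ r)
      (fun q => sub q.1.1.1 q.1.1.2 (q.2.map pw).prod) :=
    FT.comp (h := fun q : (Fr × List (List Wd)) × List Wd => (q.1.1, q.2)) (ft_prod r)
      (by fun_prop)
  have h2 : FP fun p : Fr × List (List Wd) => p.2 := FP.snd
  have h3 := FT.listSum (P := fun p : Fr × List (List Wd) =>
    ∀ l ∈ p.2, (∀ w ∈ l, Lo w) ∧ l.toFinset.card ≤ r)
    (n := fun p : Fr × List (List Wd) => nF p.1)
    (P' := fun q => (∀ w ∈ q.2, Lo w) ∧ q.2.toFinset.card ≤ r) h2 h1 (fun a ha b hb => ha b hb)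
  refine FT.congr h3 fun p _ => ?_
  show sub p.1.1 p.1.2 (SS p.2) = _
  unfold SS
  rw [map_list_sum, List.map_map]
  rfl

theorem ft_dSS (r : ℕ) : FT (r + 1) (fun p : Fr × (List (List Wd) × ℕ) => nF p.1)
    (fun p => (∀ l ∈ p.2.1, (∀ w ∈ l, Lo w) ∧ l.toFinset.card ≤ r) ∧ 3 ≤ p.2.2)
    (fun p => sub p.1.1 p.1.2 (pderiv (p.2.2 - 3) (SS p.2.1))) := by
  -- the inner summand
  have h1 : FT 1 (fun q : ((Fr × (List (List Wd) × ℕ)) × List Wd) × (Wd × ℕ) => nF q.1.1.1)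
      (fun q => Lo q.2.1 ∧ 3 ≤ q.1.1.2.2)
      (fun q => sub q.1.1.1.1 q.1.1.1.2 (pderiv (q.1.1.2.2 - 3) (pw q.2.1))) :=
    FT.comp (h := fun q : ((Fr × (List (List Wd) × ℕ)) × List Wd) × (Wd × ℕ) =>
      (q.1.1.1, (q.2.1, q.1.1.2.2))) (FM.toFT fm_deriv) (by fun_prop)
  have h2 : FP fun q : ((Fr × (List (List Wd) × ℕ)) × List Wd) × (Wd × ℕ) =>
      (q.1.1.1, erZ q.1.2.zipIdx q.2.2) := by
    refine FP.pair (by fun_prop) ?_
    exact fp_erZ (fp_zipIdx (FP.snd.comp FP.fst)) (FP.snd.comp FP.snd)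
  have h3 : FT r (fun q : ((Fr × (List (List Wd) × ℕ)) × List Wd) × (Wd × ℕ) => nF q.1.1.1)
      (fun q => (∀ w ∈ erZ q.1.2.zipIdx q.2.2, Lo w) ∧
        (erZ q.1.2.zipIdx q.2.2).toFinset.card ≤ r)
      (fun q => sub q.1.1.1.1 q.1.1.1.2 ((erZ q.1.2.zipIdx q.2.2).map pw).prod) :=
    FT.comp (h := fun q : ((Fr × (List (List Wd) × ℕ)) × List Wd) × (Wd × ℕ) =>
      (q.1.1.1, erZ q.1.2.zipIdx q.2.2)) (ft_prod r) h2
  have h4 := FT.mul (P := fun q : ((Fr × (List (List Wd) × ℕ)) × List Wd) × (Wd × ℕ) =>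
      (Lo q.2.1 ∧ 3 ≤ q.1.1.2.2) ∧ (∀ w ∈ erZ q.1.2.zipIdx q.2.2, Lo w) ∧
        (erZ q.1.2.zipIdx q.2.2).toFinset.card ≤ r)
    (FT.imp h1 fun a ha => ha.1) (FT.imp h3 fun a ha => ha.2)
  have h5 : FP fun p : (Fr × (List (List Wd) × ℕ)) × List Wd => p.2.zipIdx :=
    fp_zipIdx FP.snd
  have h6 := FT.listSum (P := fun p : (Fr × (List (List Wd) × ℕ)) × List Wd =>
      ((∀ w ∈ p.2, Lo w) ∧ p.2.toFinset.card ≤ r) ∧ 3 ≤ p.1.2.2)
    (n := fun p : (Fr × (List (List Wd) × ℕ)) × List Wd => nF p.1.1)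
    (P' := fun q : ((Fr × (List (List Wd) × ℕ)) × List Wd) × (Wd × ℕ) =>
      (Lo q.2.1 ∧ 3 ≤ q.1.1.2.2) ∧ (∀ w ∈ erZ q.1.2.zipIdx q.2.2, Lo w) ∧
        (erZ q.1.2.zipIdx q.2.2).toFinset.card ≤ r) h5 h4
    (fun a ha b hb => by
      refine ⟨⟨ha.1.1 _ (List.fst_mem_of_mem_zipIdx hb), ha.2⟩, fun w hw =>
        ha.1.1 _ (mem_erZ hw), le_trans (Finset.card_le_card ?_) ha.1.2⟩
      intro x hx
      rw [List.mem_toFinset] at hx ⊢
      exact mem_erZ hx)
  have h7 : FT (r + 1) (fun p : (Fr × (List (List Wd) × ℕ)) × List Wd => nF p.1.1)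
      (fun p => ((∀ w ∈ p.2, Lo w) ∧ p.2.toFinset.card ≤ r) ∧ 3 ≤ p.1.2.2)
      (fun p => sub p.1.1.1 p.1.1.2 (pderiv (p.1.2.2 - 3) (p.2.map pw).prod)) := by
    refine FT.congr (FT.mono h6 (by omega)) fun p _ => ?_
    show sub p.1.1.1 p.1.1.2 (pderiv (p.1.2.2 - 3) (p.2.map pw).prod) = _
    rw [pderiv_prod _ p.2 0, map_list_sum, List.map_map]
    congr 1
    refine List.map_congr_left fun x _ => ?_
    exact map_mul _ _ _
  have h8 : FP fun p : Fr × (List (List Wd) × ℕ) => p.2.1 := by fun_prop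
  have h9 := FT.listSum (P := fun p : Fr × (List (List Wd) × ℕ) =>
      (∀ l ∈ p.2.1, (∀ w ∈ l, Lo w) ∧ l.toFinset.card ≤ r) ∧ 3 ≤ p.2.2)
    (n := fun p : Fr × (List (List Wd) × ℕ) => nF p.1)
    (P' := fun p : (Fr × (List (List Wd) × ℕ)) × List Wd =>
      ((∀ w ∈ p.2, Lo w) ∧ p.2.toFinset.card ≤ r) ∧ 3 ≤ p.1.2.2) h8 h7
    (fun a ha b hb => ⟨ha.1 b hb, ha.2⟩)
  refine FT.congr h9 fun p _ => ?_
  show sub p.1.1 p.1.2 (pderiv (p.2.2 - 3) (SS p.2.1)) = _
  unfold SS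
  rw [map_list_sum, map_list_sum, List.map_map, List.map_map]
  rfl

theorem ft_EE (r : ℕ) : FT (r + 2) (fun p : (Fr × Un) × (Pr × ℕ) => nF p.1.1)
    (fun p => Good r p.2.1 ∧ 3 ≤ p.2.2)
    (fun p => EE p.1.2.length p.1.1.1 p.1.1.2 p.2.1 p.2.2) := by
  have h1 : FT 1 (fun q : ((Fr × Un) × (Pr × ℕ)) × Wd => nF q.1.1.1)
      (fun q => Lo q.2 ∧ 3 ≤ q.1.2.2)
      (fun q => sub q.1.1.1.1 q.1.1.1.2 (pderiv (q.1.2.2 - 3) (pw q.2))) :=
    FT.comp (h := fun q : ((Fr × Un) × (Pr × ℕ)) × Wd => (q.1.1.1, (q.2, q.1.2.2)))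
      (FM.toFT fm_deriv) (by fun_prop)
  have h2 : FT 1 (fun q : ((Fr × Un) × (Pr × ℕ)) × Wd => nF q.1.1.1)
      (fun q => Lo q.2)
      (fun q => inv q.1.1.2.length q.1.1.1.1 q.1.1.1.2 q.2) :=
    FT.comp (h := fun q : ((Fr × Un) × (Pr × ℕ)) × Wd => (q.1.1.1, (q.2, q.1.1.2)))
      ft_inv (by fun_prop)
  have h3 := FT.mul (P := fun q : ((Fr × Un) × (Pr × ℕ)) × Wd => Lo q.2 ∧ 3 ≤ q.1.2.2)
    h1 (FT.imp h2 fun a ha => ha.1)
  have h4 : FP fun p : (Fr × Un) × (Pr × ℕ) => p.2.1.1 := by fun_prop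
  have h5 := FT.listSum (P := fun p : (Fr × Un) × (Pr × ℕ) => Good r p.2.1 ∧ 3 ≤ p.2.2)
    (n := fun p : (Fr × Un) × (Pr × ℕ) => nF p.1.1)
    (P' := fun q : ((Fr × Un) × (Pr × ℕ)) × Wd => Lo q.2 ∧ 3 ≤ q.1.2.2) h4 h3
    (fun a ha b hb => ⟨ha.1.1 b hb, ha.2⟩)
  have h6 : FT r (fun p : (Fr × Un) × (Pr × ℕ) => nF p.1.1)
      (fun p => Good r p.2.1 ∧ 3 ≤ p.2.2)
      (fun p => sub p.1.1.1 p.1.1.2 (SS p.2.1.2)) :=
    FT.imp (FT.comp (h := fun p : (Fr × Un) × (Pr × ℕ) => (p.1.1, p.2.1.2)) (ft_SS r)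
      (by fun_prop)) fun a ha => ha.1.2
  have h7 : FT (r + 1) (fun p : (Fr × Un) × (Pr × ℕ) => nF p.1.1)
      (fun p => Good r p.2.1 ∧ 3 ≤ p.2.2)
      (fun p => sub p.1.1.1 p.1.1.2 (pderiv (p.2.2 - 3) (SS p.2.1.2))) :=
    FT.imp (FT.comp (h := fun p : (Fr × Un) × (Pr × ℕ) => (p.1.1, (p.2.1.2, p.2.2))) (ft_dSS r)
      (by fun_prop)) fun a ha => ⟨ha.1.2, ha.2⟩
  have h8 := FT.mono (FT.mul h5 h6) (show 1 + 1 + r ≤ r + 2 by omega)
  have h9 := FT.add h8 (FT.mono h7 (show r + 1 ≤ r + 2 by omega))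
  exact FT.congr h9 fun p _ => rfl

end Pool.Agent.PQ
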