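import Pool.Agent.PQ.Atom

set_option autoImplicit false

/-!
PQ-Search. DEFINITIONS for the search of a direction, coordinate by coordinate, with an oracle for the vanishing of the Jacobian
minor on affine subspaces.

Plan. FP: `FP.loopList` (the state contains the context and the values list `G`, unchanged, and the environment `u`,
which grows by one entry `(c, ((v, 0), 1))` with `v` in `G` or `0`).
Step (mathematics): `q = sub e (u :: unitE c :: ..) J`; a point `(y, x, ..)` with `q ≠ 0` and `y ≠ 0`
exists (`MvPolynomial.funext` for `q * X 1`); the univariate polynomial `t ↦ eval (y, t y, ..) q` has degree at most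
`totalDegree J` and is not zero (at `t = x / y`), so it is not zero at some natural `v ≤ totalDegree J`; its value
there is the value of `sub e (stepU c v u :: ..) J` at `(y, ..)`. All directions: `ptE (stepU c v u) = ptE u + v e_c` if `c`
is not a key of `u`. Start: `sub e ([] :: ns.map unitE) J ≠ 0` since the substitution is a translation on the
variables of `J`.
-/

namespace Pool.Agent.PQ

open MvPolynomial N487b59b3 N68a2faeb Pool.Agent.Helper22 Pool.Agent.Helper6.WB
  Pool.Agent.Helper6.SP

/-- the direction of a variable -/
def unitE (c : ℕ) : En := [(c, ((1, 0), 1))]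

/-- one more coordinate -/
def stepU (c v : ℕ) (u : En) : En := u ++ [(c, ((v, 0), 1))]

/-- context of the search: base point, rows, columns, values -/
abbrev Sc := (En × (List Pr × List ℕ)) × List ℕ

/-- the new coordinate; `ns` is the list of the remaining variables -/
def pick (g : Fr × (List Pr × List ℕ) → Bool) (x : Sc) (c : ℕ) (ns : List ℕ) (u : En) : ℕ :=
  (x.2.flatMap fun v => if g ((x.1.1, stepU c v u :: ns.map unitE), x.1.2) then [] else [v]).headD 0

/-- one step -/
def srF (g : Fr × (List Pr × List ℕ) → Bool) (p : List ℕ × (Sc × En)) : Sc × En :=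
  (p.2.1, stepU (p.1.headD 0) (pick g p.2.1 (p.1.headD 0) p.1.tail p.2.2) p.2.2)

/-- the search -/
def srch (g : Fr × (List Pr × List ℕ) → Bool) (x : Sc) (ns : List ℕ) : En :=
  (loopList (srF g) ns (x, [])).2

end Pool.Agent.PQ
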