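import Pool.Agent.PQ.Search

set_option autoImplicit false

/-!
PQ-SrchM. One step of the search (mathematics).

Plan. Step: `q = sub e (u :: unitE c :: ..) J`; a point `(y, x, ..)` with `q ≠ 0` and `y ≠ 0`
exists (`MvPolynomial.funext` for `q * X 1`); the univariate polynomial `t ↦ eval (y, t y, ..) q` has degree at most
`totalDegree J` and is not zero (at `t = x / y`), so it is not zero at some natural `v ≤ totalDegree J`; its value
there is the value of `sub e (stepU c v u :: ..) J` at `(y, ..)`. All directions: `ptE (stepU c v u) = ptE u + v e_c` if `c`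
is not a key of `u`. Start: `sub e ([] :: ns.map unitE) J ≠ 0` since the substitution is a translation on the
variables of `J`: evaluate at a point where `J` does not vanish.
-/

namespace Pool.Agent.PQ

open MvPolynomial N487b59b3 N68a2faeb Pool.Agent.Helper22 Pool.Agent.Helper6.WB
  Pool.Agent.Helper6.SP

private theorem toQ_one (v : ℕ) : toQ ((v, 0), 1) = (v : ℚ) := by
  simp [toQ]

private theorem toQ_e0 : toQ e0 = 0 := by
  simp [toQ, e0]

private theorem srchM_look_nil (c : ℕ) : lookE [] c = e0 := rfl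

private theorem srchM_look_snoc (u : En) (c c' : ℕ) (a : El) :
    lookE (u ++ [(c, a)]) c' = if c = c' then a else lookE u c' := by
  simp only [lookE, List.foldl_append, List.foldl_cons, List.foldl_nil]

private theorem srchM_look_ne (u : En) (c : ℕ) (h : ∀ p ∈ u, p.1 ≠ c) : lookE u c = e0 := by
  induction u using List.reverseRecOn with
  | nil => rfl
  | append_singleton u p ih =>
    obtain ⟨c', a⟩ := p
    rw [srchM_look_snoc, if_neg (h (c', a) (by simp)), ih (fun p hp => h p (by simp [hp]))]

theorem ptE_unitE (i : ℕ) : ptE (unitE (i + 3)) = Pi.single i 1 := by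
  funext j
  have h1 : unitE (i + 3) = ([] : En) ++ [(i + 3, ((1, 0), 1))] := rfl
  simp only [ptE]
  rw [h1, srchM_look_snoc, srchM_look_nil]
  by_cases hij : i = j
  · subst hij
    rw [if_pos rfl, Pi.single_eq_same, toQ_one, Nat.cast_one]
  · rw [if_neg (by omega), toQ_e0, Pi.single_eq_of_ne (Ne.symm hij)]

theorem ptE_stepU (i v : ℕ) (u : En) (h : ∀ p ∈ u, p.1 ≠ i + 3) :
    ptE (stepU (i + 3) v u) = ptE u + Pi.single i (v : ℚ) := by
  funext j
  simp only [ptE, stepU, Pi.add_apply]
  rw [srchM_look_snoc]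
  by_cases hij : i = j
  · subst hij
    rw [if_pos rfl, Pi.single_eq_same, toQ_one, srchM_look_ne u _ h, toQ_e0, zero_add]
  · rw [if_neg (by omega), Pi.single_eq_of_ne (Ne.symm hij), add_zero]

/-- the value of `sub e U J` at a point -/
private theorem srchM_eval (J : MvPolynomial ℕ ℚ) (e : En) (U : List En) (y : ℕ → ℚ) :
    eval y (sub e U J) =
      eval (fun i => ptE e i + ∑ b ∈ Finset.range U.length, ptE (U.getD b []) i * y (b + 1)) J := by
  have h1 : (eval y).comp (sub e U).toRingHom =
      eval (fun i => ptE e i + ∑ b ∈ Finset.range U.length, ptE (U.getD b []) i * y (b + 1)) := by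
    apply MvPolynomial.ringHom_ext
    · intro a
      simp [sub]
    · intro i
      simp [sub]
  exact congrArg (fun f : MvPolynomial ℕ ℚ →+* ℚ => f J) h1

private theorem srchM_evc (J : MvPolynomial ℕ ℚ) {f g : ℕ → ℚ} (h : ∀ i ∈ J.vars, f i = g i) :
    eval f J = eval g J :=
  eval₂Hom_congr' rfl (fun i hi _ => h i hi) rfl

theorem search_init (J : MvPolynomial ℕ ℚ) (hJ : J ≠ 0) (e : En) (ns : List ℕ)
    (hns : ns.Nodup) (h3 : ∀ c ∈ ns, 3 ≤ c) (hv : ∀ i ∈ J.vars, i + 3 ∈ ns) :
    sub e ([] :: ns.map unitE) J ≠ 0 := by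
  intro h0
  apply hJ
  apply MvPolynomial.funext
  intro z
  rw [map_zero]
  have h1 := srchM_eval J e ([] :: ns.map unitE)
    (fun m => z (ns.getD (m - 2) 0 - 3) - ptE e (ns.getD (m - 2) 0 - 3))
  rw [h0, map_zero] at h1
  rw [h1]
  apply srchM_evc
  intro i hi
  obtain ⟨b, hb, hbi⟩ := List.mem_iff_getElem.1 (hv i hi)
  rw [List.length_cons, List.length_map, Finset.sum_range_succ']
  have h2 : ∀ b' ∈ Finset.range ns.length,
      ptE (([] :: ns.map unitE).getD (b' + 1) []) i *
        (z (ns.getD (b' + 1 + 1 - 2) 0 - 3) - ptE e (ns.getD (b' + 1 + 1 - 2) 0 - 3)) =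
      if b' = b then z i - ptE e i else 0 := by
    intro b' hb'
    rw [Finset.mem_range] at hb'
    have e1 : ([] :: ns.map unitE).getD (b' + 1) [] = unitE (ns[b']) := by
      simp [List.getD_eq_getElem?_getD, hb']
    have e2 : ns.getD (b' + 1 + 1 - 2) 0 = ns[b'] := by
      simp [List.getD_eq_getElem?_getD, hb']
    rw [e1, e2]
    have h4 : 3 ≤ ns[b'] := h3 _ (List.getElem_mem hb')
    obtain ⟨j, hj⟩ : ∃ j, ns[b'] = j + 3 := ⟨ns[b'] - 3, by omega⟩
    rw [hj, ptE_unitE, Nat.add_sub_cancel]
    by_cases hbb : b' = b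
    · subst hbb
      have : i = j := by omega
      subst this
      rw [if_pos rfl, Pi.single_eq_same, one_mul]
    · have hne : i ≠ j := by
        intro hij
        apply hbb
        apply (List.Nodup.getElem_inj_iff hns).1
        rw [hj, hbi, hij]
      rw [if_neg hbb, Pi.single_eq_of_ne hne, zero_mul]
  have h5 : ptE (([] :: ns.map unitE).getD 0 []) i = 0 := by
    simp [ptE, srchM_look_nil, toQ_e0]
  rw [Finset.sum_congr rfl h2, Finset.sum_ite_eq' (Finset.range ns.length) b, h5, zero_mul,
    if_pos (Finset.mem_range.2 hb)]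
  ring

theorem search_step (J : MvPolynomial ℕ ℚ) (e u : En) (i : ℕ) (ns : List ℕ)
    (hu : ∀ p ∈ u, p.1 ≠ i + 3)
    (h : sub e (u :: unitE (i + 3) :: ns.map unitE) J ≠ 0) :
    ∃ v ≤ J.totalDegree, sub e (stepU (i + 3) v u :: ns.map unitE) J ≠ 0 := by
  -- a point
  have hne : sub e (u :: unitE (i + 3) :: ns.map unitE) J * X 1 ≠ 0 :=
    mul_ne_zero h (X_ne_zero 1)
  obtain ⟨w, hw⟩ : ∃ w : ℕ → ℚ,
      eval w (sub e (u :: unitE (i + 3) :: ns.map unitE) J * X 1) ≠ 0 := by
    by_contra hcon
    push Not at hcon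
    apply hne
    apply MvPolynomial.funext
    intro z
    rw [hcon z, map_zero]
  rw [map_mul, eval_X] at hw
  have hw1 : w 1 ≠ 0 := right_ne_zero_of_mul hw
  have hw2 := left_ne_zero_of_mul hw
  -- the univariate polynomial
  set g : ℕ → Polynomial ℚ := fun j =>
    Polynomial.C (ptE e j + ptE u j * w 1 +
      ∑ b ∈ Finset.range ns.length, ptE ((ns.map unitE).getD b []) j * w (b + 3)) +
    Polynomial.C (ptE (unitE (i + 3)) j * w 1) * Polynomial.X with hg
  have hgd : ∀ j, (g j).natDegree ≤ 1 := by
    intro j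
    rw [hg]
    refine (Polynomial.natDegree_add_le _ _).trans ?_
    rw [Polynomial.natDegree_C]
    exact max_le (Nat.zero_le _) ((Polynomial.natDegree_C_mul_le _ _).trans Polynomial.natDegree_X_le)
  set P : Polynomial ℚ := aeval g J with hP
  have hPd : P.natDegree ≤ J.totalDegree := by
    have := MvPolynomial.aeval_natDegree_le J (le_refl _) g hgd
    simpa using this
  have hPe : ∀ t : ℚ, P.eval t = eval (fun j => (g j).eval t) J := by
    intro t
    rw [hP]
    have h1 : (Polynomial.evalRingHom t).comp (aeval g).toRingHom =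
        eval (fun j => (g j).eval t) := by
      apply MvPolynomial.ringHom_ext
      · intro a
        simp
      · intro j
        simp
    exact congrArg (fun f : MvPolynomial ℕ ℚ →+* ℚ => f J) h1
  have hP0 : P ≠ 0 := by
    intro hz
    apply hw2
    have h1 := hPe (w 2 / w 1)
    rw [hz, Polynomial.eval_zero] at h1
    rw [srchM_eval, h1]
    congr 1
    congr 1
    funext j
    rw [hg]
    simp only [List.length_cons, List.length_map, Polynomial.eval_add, Polynomial.eval_C,
      Polynomial.eval_mul, Polynomial.eval_X]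
    rw [Finset.sum_range_succ', Finset.sum_range_succ']
    simp only [List.getD_cons_succ, List.getD_cons_zero, zero_add]
    have h2 : w (0 + 1 + 1) = w 2 := rfl
    have h3 : ptE (unitE (i + 3)) j * w 1 * (w 2 / w 1) = ptE (unitE (i + 3)) j * w 2 := by
      field_simp
    rw [h3]
    have h4 : ∀ b ∈ Finset.range ns.length,
        ptE ((ns.map unitE).getD b []) j * w (b + 1 + 1 + 1) =
        ptE ((ns.map unitE).getD b []) j * w (b + 3) := fun b _ => rfl
    rw [Finset.sum_congr rfl h4]
    norm_num
    ring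
  obtain ⟨v, hv, hve⟩ : ∃ v ≤ J.totalDegree, P.eval (v : ℚ) ≠ 0 := by
    by_contra hcon
    push Not at hcon
    apply hP0
    apply Polynomial.eq_zero_of_natDegree_lt_card_of_eval_eq_zero' P
      ((Finset.range (J.totalDegree + 1)).map Nat.castEmbedding)
    · intro a ha
      obtain ⟨v, hv, rfl⟩ := Finset.mem_map.1 ha
      exact hcon v (by have := Finset.mem_range.1 hv; omega)
    · rw [Finset.card_map, Finset.card_range]
      omega
  refine ⟨v, hv, ?_⟩
  intro hz
  apply hve
  rw [hPe]
  have h1 := srchM_eval J e (stepU (i + 3) v u :: ns.map unitE)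
    (fun m => if m = 1 then w 1 else w (m + 1))
  rw [hz, map_zero] at h1
  rw [h1]
  congr 1
  congr 1
  funext j
  rw [hg]
  simp only [List.length_cons, List.length_map, Polynomial.eval_add, Polynomial.eval_C,
    Polynomial.eval_mul, Polynomial.eval_X]
  rw [Finset.sum_range_succ']
  simp only [List.getD_cons_succ, List.getD_cons_zero, zero_add, if_true]
  have h4 : ∀ b ∈ Finset.range ns.length,
      ptE ((ns.map unitE).getD b []) j * (if b + 1 + 1 = 1 then w 1 else w (b + 1 + 1 + 1)) =
      ptE ((ns.map unitE).getD b []) j * w (b + 3) := by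
    intro b _
    rw [if_neg (by omega)]
  rw [Finset.sum_congr rfl h4, ptE_stepU i v u hu, ptE_unitE]
  simp only [Pi.add_apply]
  by_cases hij : j = i
  · subst hij
    rw [Pi.single_eq_same, Pi.single_eq_same]
    ring
  · rw [Pi.single_eq_of_ne hij, Pi.single_eq_of_ne hij]
    ring

end Pool.Agent.PQ
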