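import Pool.Agent.PQ.Final

set_option autoImplicit false

/-!
PQ-Union. The final theorem: two classes of factors.

Plan: `f1` = the algorithm `decF` of `Helper6/SP/Main.lean` on `(Q, L.map Prod.fst)`, used only if all second components are
`[[]]` (the empty product); it answers `false` only if `Q` of the products is not zero (the direction of
`decF_correct` without hypotheses). `f2 = exists_decG`. `f = (if all second components are [[]] then f1 else true) && f2`.
-/

namespace Pool.Agent.PQ

open MvPolynomial N487b59b3 N68a2faeb Pool.Agent.Helper22 Pool.Agent.Helper6.WB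
  Pool.Agent.Helper6.SP

/-- the polynomial of a pair of lists of formulas: the product of the first list times the sum of
the products of the members of the second -/
noncomputable def pairPoly (p : List Fm × List (List Fm)) : MvPolynomial ℕ ℚ :=
  (p.1.map Fm.poly).prod * (p.2.map fun l => (l.map Fm.poly).prod).sum

/-- the code of a pair -/
def pairCode (p : List Fm × List (List Fm)) : List (List (ℕ × ℚ)) × List (List (List (ℕ × ℚ))) :=
  (p.1.map Fm.code, p.2.map fun l => l.map Fm.code)

/-- degrees at most two, at most `r` different factors in every summand -/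
def IsLow (r : ℕ) (p : List Fm × List (List Fm)) : Prop :=
  (∀ g ∈ p.1, g.poly.totalDegree ≤ 2) ∧
    ∀ l ∈ p.2, (∀ g ∈ l, g.poly.totalDegree ≤ 2) ∧
      ∃ s : Finset Fm, s.card ≤ r ∧ ∀ g ∈ l, g ∈ s

/-- a product of read-`r` formulas -/
def IsRead (r : ℕ) (p : List Fm × List (List Fm)) : Prop :=
  (∀ g ∈ p.1, ∀ i, g.reads i ≤ r) ∧ p.2 = [[]]

private theorem FF_code (p : List Fm × List (List Fm)) : FF (pairCode p) = pairPoly p := by
  unfold FF pairCode pairPoly SS
  simp only [List.map_map]
  congr 1
  · congr 1
    apply List.map_congr_left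
    intro g _
    exact pw_code g
  · congr 1
    apply List.map_congr_left
    intro l _
    simp only [Function.comp, List.map_map]
    congr 1
    apply List.map_congr_left
    intro g _
    exact pw_code g

private theorem cmpF_code (Q : Fm) (L : List (List Fm × List (List Fm))) :
    cmpF Q (L.map pairCode) = aeval (fun j => pairPoly (L.getD j ([], []))) Q.poly := by
  unfold cmpF
  congr 2
  funext j
  have h : (L.map pairCode).getD j ([], []) = pairCode (L.getD j ([], [])) := by
    rw [List.getD_eq_getElem?_getD, List.getD_eq_getElem?_getD, List.getElem?_map]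
    cases L[j]? <;> rfl
  rw [h, FF_code]

private theorem pairPoly_read {r : ℕ} {p : List Fm × List (List Fm)} (h : IsRead r p) :
    pairPoly p = (p.1.map Fm.poly).prod := by
  unfold pairPoly
  rw [h.2]
  simp

private theorem cmp_read (r : ℕ) (Q : Fm) (L : List (List Fm × List (List Fm)))
    (h : ∀ p ∈ L, p.2 = [[]]) :
    cmp Q (L.map Prod.fst) = aeval (fun j => pairPoly (L.getD j ([], []))) Q.poly := by
  unfold Pool.Agent.Helper6.SP.cmp
  congr 2
  funext j
  by_cases hj : j < L.length
  · rw [pT_lt (by rw [List.length_map]; exact hj), List.getD_eq_getElem _ _ hj]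
    unfold pairPoly
    rw [h _ (List.getElem_mem hj)]
    simp
  · rw [pT_ge (by rw [List.length_map]; omega), List.getD_eq_default _ _ (by omega)]
    simp [pairPoly]

private theorem tr_map {A B : Type} (L : List A) (g : A → B) (F : B → MvPolynomial ℕ ℚ)
    (G : A → MvPolynomial ℕ ℚ) (hFG : ∀ a ∈ L, F (g a) = G a) (k : ℕ)
    (h : ∀ b : Finset (Fin L.length), AlgebraicIndepOn ℚ (fun j => G (L.get j))
      (b : Set (Fin L.length)) → b.card ≤ k) :
    ∀ b : Finset (Fin (L.map g).length), AlgebraicIndepOn ℚ (fun j => F ((L.map g).get j))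
      (b : Set (Fin (L.map g).length)) → b.card ≤ k := by
  intro b hb
  have hlen : (L.map g).length = L.length := List.length_map _
  have key : ∀ i : Fin (L.map g).length, F ((L.map g).get i) = G (L.get (finCongr hlen i)) := by
    intro i
    rw [List.get_eq_getElem, List.getElem_map]
    exact hFG _ (List.getElem_mem _)
  have h1 := h (b.map (finCongr hlen).toEmbedding) ?_
  · rwa [Finset.card_map] at h1
  · have hφ : ∀ x : ((b.map (finCongr hlen).toEmbedding : Finset (Fin L.length)) :
        Set (Fin L.length)), (finCongr hlen).symm x.1 ∈ (b : Set (Fin (L.map g).length)) := by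
      rintro ⟨x, hx⟩
      rw [Finset.mem_coe, Finset.mem_map] at hx
      obtain ⟨y, hy, rfl⟩ := hx
      simpa using hy
    have h2 := AlgebraicIndependent.comp hb (fun x => ⟨(finCongr hlen).symm x.1, hφ x⟩) (by
      intro x y hxy
      apply Subtype.ext
      have := congrArg Subtype.val hxy
      exact (finCongr hlen).symm.injective this)
    have h3 : (fun x : ((b.map (finCongr hlen).toEmbedding : Finset (Fin L.length)) :
        Set (Fin L.length)) => G (L.get x.1)) =
        (fun i : (b : Set (Fin (L.map g).length)) => F ((L.map g).get i.1)) ∘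
          fun x => ⟨(finCongr hlen).symm x.1, hφ x⟩ := by
      funext x
      simp only [Function.comp]
      rw [key]
      simp
    show AlgebraicIndependent ℚ (fun x : ((b.map (finCongr hlen).toEmbedding :
      Finset (Fin L.length)) : Set (Fin L.length)) => G (L.get x.1))
    rw [h3]
    exact h2

/-- the second component is the list with the empty list -/
private def triv (p : Pr) : Bool := !(p.2.isEmpty) && (p.2.tail.isEmpty && (p.2.headD []).isEmpty)

private theorem triv_iff (p : Pr) : triv p = true ↔ p.2 = [[]] := by
  unfold triv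
  rcases p with ⟨a, l⟩
  rcases l with _ | ⟨x, l⟩
  · simp
  · rcases l with _ | ⟨y, l⟩
    · simp
    · simp

private theorem fp_triv : FP triv := by
  unfold triv
  exact FP.and (FP.not (FP.isEmpty FP.snd)) (FP.and (FP.isEmpty (FP.tail FP.snd))
    (FP.isEmpty (FP.headD FP.snd [])))

/-- all second components are trivial -/
private def allT (L : List Pr) : Bool := !(L.any fun p => !(triv p))

private theorem allT_iff (L : List Pr) : allT L = true ↔ ∀ p ∈ L, p.2 = [[]] := by
  unfold allT
  rw [Bool.not_eq_true', List.any_eq_false]
  constructor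
  · intro h p hp
    have := h p hp
    rw [← triv_iff]
    simpa using this
  · intro h p hp
    rw [(triv_iff p).mpr (h p hp)]
    simp

private theorem fp_allT : FP allT := by
  unfold allT
  exact FP.not (fp_any (h := fun q : List Pr × Pr => !(triv q.2)) FP.id
    (FP.not (fp_triv.comp FP.snd)))

private theorem codes_map (L : List (List Fm × List (List Fm))) : Codes (L.map pairCode) := by
  intro l hl w hw
  unfold inp at hl
  obtain ⟨p, hp, hl⟩ := List.mem_flatMap.mp hl
  obtain ⟨q, hq, rfl⟩ := List.mem_map.mp hp
  rcases List.mem_cons.mp hl with rfl | hl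
  · obtain ⟨g, _, hg⟩ := List.mem_map.mp hw
    exact ⟨g, hg⟩
  · obtain ⟨m, _, rfl⟩ := List.mem_map.mp hl
    obtain ⟨g, _, hg⟩ := List.mem_map.mp hw
    exact ⟨g, hg⟩

private theorem good_of {r : ℕ} {p : List Fm × List (List Fm)} (h : IsLow r p) :
    Good r (pairCode p) := by
  classical
  refine ⟨?_, ?_⟩
  · intro w hw
    obtain ⟨g, hg, rfl⟩ := List.mem_map.mp hw
    exact ⟨⟨g, rfl⟩, by rw [pw_code]; exact h.1 g hg⟩
  · intro l hl
    obtain ⟨m, hm, rfl⟩ := List.mem_map.mp hl
    obtain ⟨h1, s, hs, h2⟩ := h.2 m hm
    refine ⟨?_, ?_⟩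
    · intro w hw
      obtain ⟨g, hg, rfl⟩ := List.mem_map.mp hw
      exact ⟨⟨g, rfl⟩, by rw [pw_code]; exact h1 g hg⟩
    · refine le_trans (Finset.card_le_card (t := s.image Fm.code) ?_)
        (Finset.card_image_le.trans hs)
      intro w hw
      rw [List.mem_toFinset] at hw
      obtain ⟨g, hg, rfl⟩ := List.mem_map.mp hw
      exact Finset.mem_image_of_mem _ (h2 g hg)

private theorem map_eq_triv {l : List (List Fm)} (h : (l.map fun m => m.map Fm.code) = [[]]) :
    l = [[]] := by
  rcases l with _ | ⟨m, l⟩
  · simp at h
  · rcases l with _ | ⟨m', l⟩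
    · simp only [List.map_cons, List.map_nil, List.cons.injEq, List.map_eq_nil_iff,
        and_true] at h
      rw [h]
    · simp at h

private theorem cd_fst (L : List (List Fm × List (List Fm))) :
    (L.map pairCode).map Prod.fst = cd (L.map Prod.fst) := by
  unfold Pool.Agent.Helper6.SP.cd
  rw [List.map_map, List.map_map]
  rfl

theorem mainU (r k : ℕ) :
    ∃ f : List (ℕ × ℚ) × List (List (List (ℕ × ℚ)) × List (List (List (ℕ × ℚ)))) → Bool,
      IsPolyTime f ∧ ∀ (Q : Fm) (L : List (List Fm × List (List Fm))),
        ((∀ p ∈ L, IsLow r p) ∨ ∀ p ∈ L, IsRead r p) →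
        (∀ b : Finset (Fin L.length), AlgebraicIndepOn ℚ (fun j => pairPoly (L.get j))
          (b : Set (Fin L.length)) → b.card ≤ k) →
        (f (Q.code, L.map pairCode) = true ↔
          aeval (fun j => pairPoly (L.getD j ([], []))) Q.poly = 0) := by
  classical
  obtain ⟨f2, hf2, hc, hr⟩ := exists_decG r k
  set N := nT (r + 1) k with hN
  set κ := max (kappa (r + 1 + 1)) (kN (r + 1) (nT (r + 1) k)) with hκ
  refine ⟨fun p : Wd × List Pr => (if allT p.2 then decF k N κ (N + k) (p.1, p.2.map Prod.fst)
    else true) && f2 p, ?_, ?_⟩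
  · refine (Pool.Agent.Helper22.isPolyTime_iff _).mpr ?_
    refine FP.and (FP.ite (fp_allT.comp FP.snd) ((fp_decF k N κ (N + k)).comp
      (FP.pair FP.fst ?_)) (FP.const true)) hf2
    exact fp_map (h := fun q : (Wd × List Pr) × Pr => q.2.1) FP.snd (FP.fst.comp FP.snd)
  · intro Q L hL htr
    simp only [Bool.and_eq_true]
    have hcmp := cmpF_code Q L
    constructor
    · rintro ⟨h1, h2⟩
      rcases hL with hL | hL
      · rw [← hcmp]
        refine hr Q (L.map pairCode) ?_ ?_ h2
        · intro p hp
          obtain ⟨q, hq, rfl⟩ := List.mem_map.mp hp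
          exact good_of (hL q hq)
        · exact tr_map L pairCode FF pairPoly (fun a _ => FF_code a) k htr
      · have hall : allT (L.map pairCode) = true := by
          rw [allT_iff]
          intro p hp
          obtain ⟨q, hq, rfl⟩ := List.mem_map.mp hp
          have := (hL q hq).2
          unfold pairCode
          simp only [this, List.map_cons, List.map_nil]
        rw [if_pos hall, cd_fst] at h1
        rw [← cmp_read r Q L fun p hp => (hL p hp).2]
        refine (decF_correct (r := r + 1) (by omega) (le_max_left _ _) (le_max_right _ _) Q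
          (L.map Prod.fst) ?_ ?_).mp h1
        · intro g hg i
          obtain ⟨p, hp, hgp⟩ := List.mem_flatten.mp hg
          obtain ⟨q, hq, rfl⟩ := List.mem_map.mp hp
          exact ((hL q hq).1 g hgp i).trans (Nat.le_succ r)
        · exact tr_map L Prod.fst (fun l => (l.map Fm.poly).prod) pairPoly
            (fun a ha => (pairPoly_read (hL a ha)).symm) k htr
    · intro h0
      refine ⟨?_, hc Q (L.map pairCode) (codes_map L) (hcmp.trans h0)⟩
      by_cases hall : allT (L.map pairCode) = true
      · rw [if_pos hall, cd_fst, decF_true]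
        intro zs _
        rw [outV_cd, cmp_read r Q L, h0, map_zero]
        intro p hp
        rw [allT_iff] at hall
        exact map_eq_triv (hall _ (List.mem_map_of_mem hp))
      · rw [if_neg hall]

end Pool.Agent.PQ
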