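import Pool.Agent.PQ.Defs

set_option autoImplicit false

/-!
PQ-Zip. Lists of integers: zip, dot products, products of matrices given by rows, in polynomial time.

Plan: `List.zip` by a fold over the first list with state (rest of the second list, accumulator), as in
`SP/Test.lean: fp_zipIdx`; sums of lists of integers by a fold (the size of a sum of `ZZ` is bounded by the sum of
the sizes: `size_add_le`). `dot u v = ∑ u_i v_i` over the zip. `mulT A B` is the matrix of the dot products of the
rows of `A` and the rows of `B` (so `A Bᵀ`).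
-/

namespace Pool.Agent.PQ

open N487b59b3 N68a2faeb Pool.Agent.Helper22 Pool.Agent.Helper6.WB Pool.Agent.Helper6.SP

variable {α β γ : Type} [N487b59b3 α] [N487b59b3 β] [N487b59b3 γ]

/-- sum -/
def zAdd (a b : ZZ) : ZZ := (a.1 + b.1, a.2 + b.2)

/-- product -/
def zMul (a b : ZZ) : ZZ := (a.1 * b.1 + a.2 * b.2, a.1 * b.2 + a.2 * b.1)

/-- sum of a list -/
def zSum (l : List ZZ) : ZZ := l.foldl zAdd (0, 0)

/-- dot product -/
def dot (u v : List ZZ) : ZZ := zSum ((u.zip v).map fun p => zMul p.1 p.2)

/-- dot products of the rows -/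
def mulT (A B : Mt) : Mt := A.map fun r => B.map fun s => dot r s

theorem zq_add (a b : ZZ) : zq (zAdd a b) = zq a + zq b := by
  unfold zq zAdd
  push_cast
  ring

theorem zq_mul (a b : ZZ) : zq (zMul a b) = zq a * zq b := by
  unfold zq zMul
  push_cast
  ring

private theorem zp_foldq (l : List ZZ) (z : ZZ) :
    zq (l.foldl zAdd z) = zq z + (l.map zq).sum := by
  induction l generalizing z with
  | nil => simp
  | cons a l ih =>
    rw [List.foldl_cons, ih, zq_add, List.map_cons, List.sum_cons]
    ring

theorem zq_sum (l : List ZZ) : zq (zSum l) = (l.map zq).sum := by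
  unfold zSum
  rw [zp_foldq]
  simp [zq]

private theorem zp_zipsum (f : ZZ → ZZ → ℚ) : ∀ (u v : List ZZ) (n : ℕ), u.length = n →
    v.length = n → ((u.zip v).map fun p => f p.1 p.2).sum =
      ∑ i ∈ Finset.range n, f (u.getD i (0, 0)) (v.getD i (0, 0))
  | [], v, n, hu, _ => by
    have h : n = 0 := hu.symm
    subst h
    simp
  | a :: u, [], n, hu, hv => by
    have h : n = 0 := hv.symm
    subst h
    simp at hu
  | a :: u, b :: v, 0, hu, _ => by simp at hu
  | a :: u, b :: v, n + 1, hu, hv => by
    have h1 : u.length = n := by simpa using hu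
    have h2 : v.length = n := by simpa using hv
    rw [List.zip_cons_cons, List.map_cons, List.sum_cons, Finset.sum_range_succ',
      zp_zipsum f u v n h1 h2]
    simp only [List.getD_cons_succ, List.getD_cons_zero]
    ring

theorem zq_dot (n : ℕ) (u v : List ZZ) (hu : u.length = n) (hv : v.length = n) :
    zq (dot u v) = ∑ i ∈ Finset.range n, zq (u.getD i (0, 0)) * zq (v.getD i (0, 0)) := by
  unfold dot
  rw [zq_sum, List.map_map, ← zp_zipsum (fun a b => zq a * zq b) u v n hu hv]
  apply congrArg List.sum
  apply List.map_congr_left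
  intro p _
  exact zq_mul p.1 p.2

theorem ent_mulT (n : ℕ) (A B : Mt) (hA : A.length = n ∧ ∀ r ∈ A, r.length = n)
    (hB : B.length = n ∧ ∀ r ∈ B, r.length = n) (i j : ℕ) (hi : i < n) (hj : j < n) :
    ent (mulT A B) i j = ∑ p ∈ Finset.range n, ent A i p * ent B j p := by
  have hiA : i < A.length := by rw [hA.1]; exact hi
  have hjB : j < B.length := by rw [hB.1]; exact hj
  have e1 : A.getD i [] = A[i] := List.getD_eq_getElem _ _ hiA
  have e2 : B.getD j [] = B[j] := List.getD_eq_getElem _ _ hjB
  have h1 : ent (mulT A B) i j = zq (dot A[i] B[j]) := by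
    unfold ent mulT
    have e3 : (A.map fun r => B.map fun s => dot r s).getD i [] = B.map fun s => dot A[i] s := by
      rw [List.getD_eq_getElem _ _ (by rw [List.length_map]; exact hiA), List.getElem_map]
    rw [e3, List.getD_eq_getElem _ _ (by rw [List.length_map]; exact hjB), List.getElem_map]
  rw [h1, zq_dot n _ _ (hA.2 _ (List.getElem_mem hiA)) (hB.2 _ (List.getElem_mem hjB))]
  refine Finset.sum_congr rfl fun p _ => ?_
  unfold ent
  rw [e1, e2]

/-- size of an integer -/
def zn (a : ZZ) : ℕ := a.1 + a.2

theorem zn_add (a b : ZZ) : zn (zAdd a b) = zn a + zn b := by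
  unfold zn zAdd
  ring

theorem zn_mul (a b : ZZ) : zn (zMul a b) = zn a * zn b := by
  unfold zn zMul
  ring

private theorem zp_foldn (l : List ZZ) (z : ZZ) :
    zn (l.foldl zAdd z) = zn z + (l.map zn).sum := by
  induction l generalizing z with
  | nil => simp
  | cons a l ih =>
    rw [List.foldl_cons, ih, zn_add, List.map_cons, List.sum_cons]
    ring

theorem zn_sum (l : List ZZ) : zn (zSum l) = (l.map zn).sum := by
  unfold zSum
  rw [zp_foldn]
  simp [zn]

theorem zn_dot (u v : List ZZ) : zn (dot u v) ≤ (u.map zn).sum * (v.map zn).sum := by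
  unfold dot
  rw [zn_sum, List.map_map]
  have h1 : (zn ∘ fun p : ZZ × ZZ => zMul p.1 p.2) = fun p : ZZ × ZZ => zn p.1 * zn p.2 := by
    funext p
    exact zn_mul p.1 p.2
  rw [h1]
  induction u generalizing v with
  | nil => simp
  | cons a u ih =>
    cases v with
    | nil => simp
    | cons b v =>
      rw [List.zip_cons_cons, List.map_cons, List.map_cons, List.map_cons, List.sum_cons,
        List.sum_cons, List.sum_cons]
      have h2 := ih v
      have h3 : (zn a + (u.map zn).sum) * (zn b + (v.map zn).sum) =
          zn a * zn b + zn a * (v.map zn).sum + (u.map zn).sum * zn b +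
            (u.map zn).sum * (v.map zn).sum := by ring
      rw [h3]
      show zn a * zn b + ((u.zip v).map fun p : ZZ × ZZ => zn p.1 * zn p.2).sum ≤ _
      omega

/-- sum of all sizes of the entries of a matrix -/
def mn (A : Mt) : ℕ := (A.map fun r => (r.map zn).sum).sum

private theorem zp_row (r : List ZZ) (B : Mt) :
    ((B.map fun s => dot r s).map zn).sum ≤ (r.map zn).sum * mn B := by
  unfold mn
  induction B with
  | nil => simp
  | cons s B ih =>
    rw [List.map_cons, List.map_cons, List.sum_cons, List.map_cons, List.sum_cons, Nat.mul_add]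
    exact Nat.add_le_add (zn_dot r s) ih

theorem mn_mulT (A B : Mt) : mn (mulT A B) ≤ mn A * mn B := by
  induction A with
  | nil =>
    unfold mn mulT
    simp
  | cons r A ih =>
    have h1 : mn (mulT (r :: A) B) = ((B.map fun s => dot r s).map zn).sum + mn (mulT A B) := by
      unfold mn mulT
      rw [List.map_cons, List.map_cons, List.sum_cons]
    have h2 : mn (r :: A) = (r.map zn).sum + mn A := by
      unfold mn
      rw [List.map_cons, List.sum_cons]
    rw [h1, h2, Nat.add_mul]
    exact Nat.add_le_add (zp_row r B) ih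

/-! ## Polynomial time -/

private def zpStep [Inhabited γ] (s : List γ × List (β × γ)) (b : β) : List γ × List (β × γ) :=
  if s.1.isEmpty then s else (s.1.tail, s.2 ++ [(b, s.1.headD default)])

omit [N487b59b3 β] [N487b59b3 γ] in
private theorem zpStep_foldl [Inhabited γ] (l : List β) (m : List γ) (acc : List (β × γ)) :
    l.foldl zpStep (m, acc) = (m.drop l.length, acc ++ l.zip m) := by
  induction l generalizing m acc with
  | nil => simp
  | cons b l ih =>
    cases m with
    | nil =>
      have h1 : zpStep (([] : List γ), acc) b = ([], acc) := by simp [zpStep]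
      rw [List.foldl_cons, h1, ih]
      simp
    | cons c m =>
      have h1 : zpStep (c :: m, acc) b = (m, acc ++ [(b, c)]) := by simp [zpStep]
      rw [List.foldl_cons, h1, ih]
      simp

private theorem zp_sz_zip (l : List β) (m : List γ) : sz (l.zip m) ≤ 2 * sz l + sz m := by
  induction l generalizing m with
  | nil => simp
  | cons b l ih =>
    cases m with
    | nil => simp
    | cons c m =>
      have h1 := ih m
      rw [List.zip_cons_cons]
      simp only [sz_cons, sz_pair]
      omega

theorem fp_zip [Inhabited β] [Inhabited γ] {f : α → List β} {g : α → List γ} (hf : FP f)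
    (hg : FP g) : FP fun a => (f a).zip (g a) := by
  have h1 : FP fun p : List β × (List γ × List (β × γ)) => p.1.foldl zpStep p.2 := by
    refine FP.foldl (g := zpStep) ?_ (B := fun n => 2 * n + 1 + (n + 3 * n)) (by fun_prop) ?_
    · unfold zpStep
      have h2 : FP fun p : (List γ × List (β × γ)) × β => p.1.1.headD default :=
        FP.headD (by fun_prop) _
      have h3 : FP fun p : (List γ × List (β × γ)) × β => [(p.2, p.1.1.headD default)] :=
        FP.cons (FP.pair FP.snd h2) (FP.const [])
      have h4 : FP fun p : (List γ × List (β × γ)) × β => p.1.1.isEmpty :=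
        FP.isEmpty (by fun_prop)
      have h5 : FP fun p : (List γ × List (β × γ)) × β =>
          (p.1.1.tail, p.1.2 ++ [(p.2, p.1.1.headD default)]) :=
        FP.pair (FP.tail (by fun_prop)) (FP.append (by fun_prop) h3)
      exact FP.ite h4 FP.fst h5
    · rintro l ⟨m, acc⟩
      rw [zpStep_foldl]
      have h2 := sz_drop m l.length
      have h3 := zp_sz_zip l m
      simp only [sz_pair, sz_append]
      omega
  have h2 := h1.comp (hf.pair (FP.pair hg (FP.const ([] : List (β × γ)))))
  refine (congrArg FP (funext fun a => ?_)).mp h2.snd'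
  simp only [zpStep_foldl, List.nil_append]

theorem fp_zAdd {f g : α → ZZ} (hf : FP f) (hg : FP g) : FP fun a => zAdd (f a) (g a) :=
  FP.pair (FP.natAdd hf.fst' hg.fst') (FP.natAdd hf.snd' hg.snd')

theorem fp_zMul {f g : α → ZZ} (hf : FP f) (hg : FP g) : FP fun a => zMul (f a) (g a) :=
  FP.pair (FP.natAdd (FP.natMul hf.fst' hg.fst') (FP.natMul hf.snd' hg.snd'))
    (FP.natAdd (FP.natMul hf.fst' hg.snd') (FP.natMul hf.snd' hg.fst'))

private theorem zp_size_add (a b : ℕ) : Nat.size (a + b) ≤ Nat.size a + Nat.size b := by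
  rw [Nat.size_le, pow_add]
  have h1 := Nat.lt_size_self a
  have h2 := Nat.lt_size_self b
  have h3 : (a + 1) * (b + 1) ≤ 2 ^ a.size * 2 ^ b.size := Nat.mul_le_mul h1 h2
  nlinarith

private theorem zp_sz_fold (l : List ZZ) (z : ZZ) :
    (l.foldl zAdd z).1.size ≤ z.1.size + sz l ∧ (l.foldl zAdd z).2.size ≤ z.2.size + sz l := by
  induction l generalizing z with
  | nil => simp
  | cons a l ih =>
    rw [List.foldl_cons]
    obtain ⟨h1, h2⟩ := ih (zAdd z a)
    have h3 : (zAdd z a).1.size ≤ z.1.size + a.1.size := zp_size_add _ _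
    have h4 : (zAdd z a).2.size ≤ z.2.size + a.2.size := zp_size_add _ _
    have h5 : sz a = 2 * a.1.size + 1 + a.2.size := by
      rw [← sz_nat, ← sz_nat]
      exact sz_pair a.1 a.2
    rw [sz_cons, h5]
    constructor <;> omega

theorem fp_zSum {f : α → List ZZ} (hf : FP f) : FP fun a => zSum (f a) := by
  have h1 : FP fun p : List ZZ × ZZ => p.1.foldl zAdd p.2 := by
    refine FP.foldl (g := zAdd) (fp_zAdd FP.fst FP.snd) (B := fun n => 3 * n + 1) (by fun_prop) ?_
    intro l z
    obtain ⟨h2, h3⟩ := zp_sz_fold l z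
    have h4 : ∀ a : ZZ, sz a = 2 * a.1.size + 1 + a.2.size := by
      intro a
      rw [← sz_nat, ← sz_nat]
      exact sz_pair a.1 a.2
    rw [h4, h4]
    omega
  exact h1.comp (hf.pair (FP.const ((0, 0) : ZZ)))

theorem fp_dot {f g : α → List ZZ} (hf : FP f) (hg : FP g) : FP fun a => dot (f a) (g a) := by
  have h1 : FP fun p : ZZ × ZZ => zMul p.1 p.2 := fp_zMul FP.fst FP.snd
  exact fp_zSum (FP.map h1 (fp_zip hf hg))

theorem fp_mulT {f g : α → Mt} (hf : FP f) (hg : FP g) : FP fun a => mulT (f a) (g a) := by
  have h1 : FP fun p : (α × List ZZ) × List ZZ => dot p.1.2 p.2 :=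
    fp_dot (FP.snd.comp FP.fst) FP.snd
  have h2 : FP fun q : α × List ZZ => (g q.1).map fun s => dot q.2 s :=
    fp_map (f := fun q : α × List ZZ => g q.1) (h := fun p : (α × List ZZ) × List ZZ =>
      dot p.1.2 p.2) (hg.comp FP.fst) h1
  exact fp_map (f := f) (h := fun q : α × List ZZ => (g q.1).map fun s => dot q.2 s) hf h2

end Pool.Agent.PQ
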